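import Mathlib
import Pool.Graph.R_pool_sql_team_seeded_1acbe0a2.Y156.P.IrrDefs

/-!
# The cores of an embedding of a number field
-/

set_option autoImplicit false

namespace Pool.Agent.H298.Core

open NumberField Module

/-- The automorphism `σ` of the complex numbers maps every embedding in `B` to itself or to its
complex conjugate. -/
def SignsOn {E : Type} [Field E] (B : Set (E →+* ℂ)) (σ : ℂ ≃+* ℂ) : Prop :=
  ∀ φ ∈ B, (σ : ℂ →+* ℂ).comp φ = φ ∨ (σ : ℂ →+* ℂ).comp φ = ComplexEmbedding.conjugate φ

/-- The cores of the embedding `φ`. The core of index `0` consists of all embeddings. The next one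
consists of the elements `ψ` of the last one such that every automorphism of the complex numbers
which maps the elements of the last core to themselves or to their conjugates moves `ψ` if and only
if it moves `φ`. -/
def coreOf {E : Type} [Field E] : ℕ → (E →+* ℂ) → Set (E →+* ℂ)
  | 0, _ => Set.univ
  | n + 1, φ => {ψ | ψ ∈ coreOf n φ ∧ ∀ σ : ℂ ≃+* ℂ, SignsOn (coreOf n φ) σ →
      ((σ : ℂ →+* ℂ).comp φ = φ ↔ (σ : ℂ →+* ℂ).comp ψ = ψ)}

/-- One of the cores has `c` pairs of complex conjugate embeddings. -/
def HasCore (E : Type) [Field E] (c : ℕ) : Prop :=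
  ∃ (n : ℕ) (φ : E →+* ℂ), (coreOf n φ).ncard = 2 * c

/-- The degree over `ℚ` of the Galois closure of the number field `E`. -/
noncomputable def closureDegree (E : Type) [Field E] [NumberField E] : ℕ :=
  finrank ℚ (IntermediateField.normalClosure ℚ E ℂ)

/-- The degree of the Galois closure of `E` over the Galois closure of the maximal real subfield of
`E` is larger than `2 ^ (g / m)`, where `[E : ℚ] = 2 g`. -/
def LargeClosure (E : Type) [Field E] [NumberField E] (m : ℕ) : Prop :=
  2 ^ (finrank ℚ E / 2) * closureDegree (maximalRealSubfield E) ^ m < closureDegree E ^ m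

/-- The divisors `d` of half the degree `g` of `E` are one or prime if they satisfy the following two
conditions. The `d`-th power of the degree of the Galois closure of `E` over the Galois closure of
the maximal real subfield is at most `2 ^ g`. And `q ^ d` divides the discriminant of `E` for all
prime numbers `q` which divide it and do not divide the discriminant of the maximal real subfield. -/
def FewDivisors (E : Type) [Field E] [NumberField E] : Prop :=
  ∀ d : ℕ, 2 * d ∣ finrank ℚ E →
    closureDegree E ^ d ≤ 2 ^ (finrank ℚ E / 2) * closureDegree (maximalRealSubfield E) ^ d →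
    (∀ q : ℕ, q.Prime → (q : ℤ) ∣ discr E → ¬ (q : ℤ) ∣ discr (maximalRealSubfield E) →
      (q : ℤ) ^ d ∣ discr E) → d = 1 ∨ d.Prime

/-- The automorphisms of the complex numbers act triply transitively on the embeddings of `F`, for
instance because the Galois group of `F` is the symmetric group, or the alternating group and the
degree of `F` is at least five. -/
def TriplyTransitive (F : Type) [Field F] : Prop :=
  ∀ φ ψ : Fin 3 → (F →+* ℂ), Function.Injective φ → Function.Injective ψ →
    ∃ σ : ℂ ≃+* ℂ, ∀ i, (σ : ℂ →+* ℂ).comp (φ i) = ψ i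

/-- The automorphisms of the complex numbers act doubly transitively on the extensions to `E` of an
embedding of the subfield `F`. -/
def DoublyTransitive {E : Type} [Field E] [NumberField E] (F : IntermediateField ℚ E) : Prop :=
  ∀ φ φ' ψ ψ' : E →+* ℂ, (∀ x ∈ F, φ' x = φ x) → (∀ x ∈ F, ψ x = φ x) → (∀ x ∈ F, ψ' x = φ x) →
    φ ≠ φ' → ψ ≠ ψ' → ∃ σ : ℂ ≃+* ℂ, (σ : ℂ →+* ℂ).comp φ = ψ ∧ (σ : ℂ →+* ℂ).comp φ' = ψ'

/-- A core of `E` has `c` pairs of complex conjugate embeddings, where `c` is a prime number, or the
degree of `E` over a subfield `F` which is not totally real and has doubly transitive extensions to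
`E`. -/
def PrimitiveCore (E : Type) [Field E] [NumberField E] (c : ℕ) : Prop :=
  HasCore E c ∧ (c.Prime ∨
    ∃ F : IntermediateField ℚ E, finrank F E = c ∧ ¬ IsTotallyReal F ∧ DoublyTransitive F)

/-- Let `K` be a CM field, `[K : ℚ] = 2 g`. The numbers of pairs in the cores divide `g`, and `g` is
one of them. There is a core with `c` pairs, `1 ≤ c`, such that the degree of the Galois closure of
`K` over the Galois closure of the maximal real subfield is at most `2 ^ (g / c)`, and `q ^ c`
divides the discriminant of `K` for all prime numbers `q` which divide it and do not divide the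
discriminant of the maximal real subfield. If `K` has few divisors (`FewDivisors`) then there is a
core with one or a prime number of pairs. If the degree of the Galois closure of `K` over the Galois
closure of the maximal real subfield is larger than `2 ^ (g / m)` then there is a core with less than
`m` pairs; `K` has few divisors if `m = 4`, and if `g` is the product of two prime numbers and that
degree is not `2` (or if some sign change moves some embeddings, but not all). If there is a core with
one pair then the odd part is irreducible. If the Galois group of the maximal real subfield is triply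
transitive (`3 ≤ g`) then the odd part is irreducible, or `K` contains an imaginary quadratic field,
over which it has doubly transitive extensions. -/
def CoreFacts : Prop :=
  ∀ (K : Type) [Field K] [NumberField K] [IsCMField K],
    (∀ c : ℕ, HasCore K c → 2 * c ∣ finrank ℚ K) ∧ (∀ c : ℕ, finrank ℚ K = 2 * c → HasCore K c) ∧
    (∃ c : ℕ, HasCore K c ∧ 0 < c ∧
      closureDegree K ^ c ≤ 2 ^ (finrank ℚ K / 2) * closureDegree (maximalRealSubfield K) ^ c ∧
      ∀ q : ℕ, q.Prime → (q : ℤ) ∣ discr K → ¬ (q : ℤ) ∣ discr (maximalRealSubfield K) →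
        (q : ℤ) ^ c ∣ discr K) ∧
    (FewDivisors K → ∃ c : ℕ, HasCore K c ∧ (c = 1 ∨ c.Prime)) ∧
    (∀ m : ℕ, LargeClosure K m → ∃ c : ℕ, HasCore K c ∧ 0 < c ∧ c < m) ∧
    (LargeClosure K 4 → FewDivisors K) ∧
    (∀ p₁ p₂ : ℕ, p₁.Prime → p₂.Prime → finrank ℚ K = 2 * (p₁ * p₂) →
      closureDegree K ≠ 2 * closureDegree (maximalRealSubfield K) → FewDivisors K) ∧
    (∀ p₁ p₂ : ℕ, p₁.Prime → p₂.Prime → finrank ℚ K = 2 * (p₁ * p₂) →
      ∀ (σ : ℂ ≃+* ℂ) (φ ψ : K →+* ℂ), SignsOn (Set.univ : Set (K →+* ℂ)) σ →
        (σ : ℂ →+* ℂ).comp φ = φ → (σ : ℂ →+* ℂ).comp ψ ≠ ψ →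
          ∃ c : ℕ, HasCore K c ∧ (c = 1 ∨ c.Prime)) ∧
    (HasCore K 1 → Pool.Agent.Y156.P.OddIrreducible K) ∧
    (6 ≤ finrank ℚ K → TriplyTransitive (maximalRealSubfield K) →
      Pool.Agent.Y156.P.OddIrreducible K ∨ ∃ F : IntermediateField ℚ K,
        2 * finrank F K = finrank ℚ K ∧ ¬ IsTotallyReal F ∧ DoublyTransitive F)

end Pool.Agent.H298.Core
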