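import Mathlib
import Pool.Agent.H298.Core.Defs

/-!
# Supersingular norms
-/

set_option autoImplicit false

namespace Pool.Agent.H298.Core

open NumberField Module

/-- The norm `N` of `π` in the subfield `F` is supersingular: for all `p`-adic absolute values,
`|N| ^ 2 = |p ^ a| ^ [K : F]`. -/
def SupersingularNorm (p a : ℕ) [Fact p.Prime] {K : Type} [Field K] [NumberField K] (π : K)
    (F : IntermediateField ℚ K) : Prop :=
  ∀ e : F →+* PadicAlgCl p,
    ‖e (Algebra.norm F π)‖ ^ 2 = ‖(p : PadicAlgCl p) ^ a‖ ^ finrank F K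

end Pool.Agent.H298.Core
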