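import Mathlib

/-!
# Integral functions on `ZMod p` with zero correlation
-/

set_option autoImplicit false

namespace Pool.Agent.H298.Core

open Polynomial Finset

variable {p : ℕ} [Fact p.Prime]

theorem const_of_sum_char (f : ZMod p → ℤ)
    (h : ∑ j, (f j : ℂ) * ZMod.stdAddChar (N := p) j = 0) (i j : ZMod p) : f i = f j := by
  have hp : p.Prime := Fact.out
  have _ : NeZero p := ⟨hp.ne_zero⟩
  set ζ : ℂ := ZMod.stdAddChar (N := p) 1 with hζ
  have hchar : ∀ j : ZMod p, ZMod.stdAddChar (N := p) j = ζ ^ j.val := by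
    intro j
    rw [hζ, ← AddChar.map_nsmul_eq_pow]
    congr 1
    rw [nsmul_one, ZMod.natCast_zmod_val]
  have hprim : IsPrimitiveRoot ζ p := by
    rw [IsPrimitiveRoot.iff_def]
    constructor
    · rw [hζ, ← AddChar.map_nsmul_eq_pow]
      simp
    · intro l hl
      rw [hζ, ← AddChar.map_nsmul_eq_pow, nsmul_one] at hl
      have h1 : ((l : ℕ) : ZMod p) = 0 := by
        apply ZMod.injective_stdAddChar (N := p)
        rw [hl, AddChar.map_zero_eq_one]
      exact (ZMod.natCast_eq_zero_iff l p).1 h1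
  let A : ℤ[X] := ∑ j : ZMod p, C (f j) * X ^ j.val
  have hA : aeval ζ A = 0 := by
    simp only [A, map_sum, map_mul, aeval_C, map_pow, aeval_X]
    rw [← h]
    refine Finset.sum_congr rfl fun j _ => ?_
    rw [hchar]
    simp
  have hdvd : cyclotomic p ℤ ∣ A := by
    rw [cyclotomic_eq_minpoly hprim hp.pos]
    exact minpoly.isIntegrallyClosed_dvd (hprim.isIntegral hp.pos) hA
  obtain ⟨Q, hQ⟩ := hdvd
  have hcoeff : ∀ j : ZMod p, A.coeff j.val = f j := by
    intro j
    simp only [A, finset_sum_coeff, coeff_C_mul, coeff_X_pow]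
    rw [Finset.sum_eq_single j]
    · simp
    · intro b _ hb
      have : j.val ≠ b.val := fun h => hb (ZMod.val_injective p h).symm
      simp [this]
    · simp
  have hdeg : A.natDegree ≤ p - 1 := by
    refine natDegree_sum_le_of_forall_le _ _ fun j _ => ?_
    refine (natDegree_C_mul_X_pow_le _ _).trans ?_
    have := ZMod.val_lt j
    omega
  have hmonic : (cyclotomic p ℤ).Monic := cyclotomic.monic p ℤ
  have hdegc : (cyclotomic p ℤ).natDegree = p - 1 := by
    rw [natDegree_cyclotomic, Nat.totient_prime hp]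
  have hQdeg : Q.natDegree = 0 := by
    by_cases hQ0 : Q = 0
    · rw [hQ0, natDegree_zero]
    · have h1 : A.natDegree = (p - 1) + Q.natDegree := by
        rw [hQ, hmonic.natDegree_mul' hQ0, hdegc]
      omega
  have hall : ∀ j : ZMod p, f j = Q.coeff 0 := by
    intro j
    rw [← hcoeff j, hQ, eq_C_of_natDegree_eq_zero hQdeg, coeff_mul_C, cyclotomic_prime,
      finset_sum_coeff]
    have h2 : ∑ b ∈ Finset.range p, ((X : ℤ[X]) ^ b).coeff j.val = 1 := by
      simp only [coeff_X_pow]
      rw [Finset.sum_ite_eq]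
      simp [ZMod.val_lt j]
    rw [h2, one_mul]
    simp
  rw [hall i, hall j]

/-- Two integral functions on `ZMod p` all of whose correlations are zero: one of them is
constant. -/
theorem const_of_correlation (a b : ZMod p → ℤ) (h : ∀ i, ∑ j, a j * b (j + i) = 0) :
    (∀ i j, a i = a j) ∨ ∀ i j, b i = b j := by
  have hp : p.Prime := Fact.out
  have _ : NeZero p := ⟨hp.ne_zero⟩
  set e := ZMod.stdAddChar (N := p) with he
  have h1 : (∑ j, (a j : ℂ) * e (-j)) * ∑ k, (b k : ℂ) * e k = 0 := by
    rw [Finset.sum_mul]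
    have h2 : ∀ j : ZMod p, (a j : ℂ) * e (-j) * ∑ k, (b k : ℂ) * e k =
        ∑ i, (a j : ℂ) * b (j + i) * e i := by
      intro j
      rw [Finset.mul_sum]
      refine Fintype.sum_equiv (Equiv.subRight j) _ _ fun k => ?_
      rw [Equiv.subRight_apply, add_sub_cancel, sub_eq_add_neg, AddChar.map_add_eq_mul]
      ring
    rw [Finset.sum_congr rfl fun j _ => h2 j, Finset.sum_comm]
    refine Finset.sum_eq_zero fun i _ => ?_
    rw [← Finset.sum_mul]
    have h3 := h i
    have h4 : ∑ j, (a j : ℂ) * b (j + i) = 0 := by exact_mod_cast h3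
    rw [h4, zero_mul]
  rcases mul_eq_zero.1 h1 with h2 | h2
  · left
    have h3 : ∑ j, ((fun j => a (-j)) j : ℂ) * e j = 0 := by
      rw [← h2]
      refine Fintype.sum_equiv (Equiv.neg _) _ _ fun j => ?_
      simp
    intro i j
    have h4 := const_of_sum_char (fun j => a (-j)) h3 (-i) (-j)
    simpa using h4
  · right
    exact fun i j => const_of_sum_char b h2 i j

end Pool.Agent.H298.Core
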