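import Mathlib
import Pool.Graph.R_pool_sql_team_seeded_3997aac3.Q29.DP.Lat

/-!
# Cores: localization of antisymmetric relations by sign changes
-/

set_option autoImplicit false
set_option linter.unusedSectionVars false

namespace Pool.Agent.H298.Core

open MulAction Finset

variable {G : Type*} [Group G] {Y : Type*} [MulAction G Y]

/-- The elements of `G` which map every element of `B` to itself or to its partner. -/
def Signs (G : Type*) [Group G] {Y : Type*} [MulAction G Y] (inv : Y → Y) (B : Set Y) : Set G :=
  {g | ∀ y ∈ B, g • y = y ∨ g • y = inv y}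

/-- The cores of `x`. -/
def core (G : Type*) [Group G] {Y : Type*} [MulAction G Y] (inv : Y → Y) : ℕ → Y → Set Y
  | 0, _ => Set.univ
  | n + 1, x => {y | y ∈ core G inv n x ∧
      ∀ g ∈ Signs G inv (core G inv n x), (g • x = x ↔ g • y = y)}

variable {inv : Y → Y}

theorem mem_core_succ {n : ℕ} {x y : Y} : y ∈ core G inv (n + 1) x ↔ y ∈ core G inv n x ∧
    ∀ g ∈ Signs G inv (core G inv n x), (g • x = x ↔ g • y = y) := Iff.rfl

theorem self_mem (n : ℕ) (x : Y) : x ∈ core G inv n x := by
  induction n with
  | zero => trivial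
  | succ n ih => exact ⟨ih, fun g _ => Iff.rfl⟩

theorem core_succ_subset (n : ℕ) (x : Y) : core G inv (n + 1) x ⊆ core G inv n x :=
  fun _ h => h.1

theorem eq_of_mem {n : ℕ} {x y : Y} (h : y ∈ core G inv n x) :
    core G inv n y = core G inv n x := by
  induction n generalizing x y with
  | zero => rfl
  | succ n ih =>
    obtain ⟨h1, h2⟩ := h
    have h3 := ih h1
    ext z
    rw [mem_core_succ, mem_core_succ, h3]
    refine and_congr_right fun _ => ?_
    constructor
    · intro h4 g hg
      exact (h2 g hg).trans (h4 g hg)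
    · intro h4 g hg
      exact (h2 g hg).symm.trans (h4 g hg)

section

variable (hinv : ∀ y, inv (inv y) = y) (hG : ∀ (g : G) (y : Y), g • inv y = inv (g • y))
include hinv hG

theorem inv_inj {a b : Y} (h : inv a = inv b) : a = b := by
  rw [← hinv a, h, hinv]

theorem smul_inv_iff (g : G) (y : Y) : g • inv y = inv y ↔ g • y = y := by
  rw [hG]
  exact ⟨fun h => inv_inj hinv hG h, fun h => by rw [h]⟩

theorem inv_mem {n : ℕ} {x y : Y} (h : y ∈ core G inv n x) : inv y ∈ core G inv n x := by
  induction n with
  | zero => trivial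
  | succ n ih =>
    obtain ⟨h1, h2⟩ := h
    exact ⟨ih h1, fun g hg => (h2 g hg).trans (smul_inv_iff hinv hG g y).symm⟩

theorem inv_mem_iff {n : ℕ} {x y : Y} : inv y ∈ core G inv n x ↔ y ∈ core G inv n x :=
  ⟨fun h => by
    have h1 := inv_mem hinv hG h
    rwa [hinv] at h1, inv_mem hinv hG⟩

theorem smul_core (g : G) (n : ℕ) (x y : Y) :
    y ∈ core G inv n (g • x) ↔ g⁻¹ • y ∈ core G inv n x := by
  induction n generalizing y with
  | zero => exact Iff.rfl
  | succ n ih =>
    rw [mem_core_succ, mem_core_succ]
    refine and_congr (ih y) ?_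
    have key : ∀ h : G, h ∈ Signs G inv (core G inv n (g • x)) ↔
        g⁻¹ * h * g ∈ Signs G inv (core G inv n x) := by
      intro h
      constructor
      · intro hh z hz
        have h1 : g • z ∈ core G inv n (g • x) := (ih (g • z)).2 (by rwa [inv_smul_smul])
        rcases hh _ h1 with h2 | h2
        · left
          rw [mul_smul, mul_smul, h2, inv_smul_smul]
        · right
          rw [mul_smul, mul_smul, h2, hG, inv_smul_smul]
      · intro hh z hz
        rcases hh _ ((ih z).1 hz) with h2 | h2
        · left
          rw [mul_smul, mul_smul, smul_inv_smul, smul_left_cancel_iff] at h2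
          exact h2
        · right
          rw [mul_smul, mul_smul, smul_inv_smul, ← hG, smul_left_cancel_iff] at h2
          exact h2
    have key2 : ∀ (h : G) (z : Y), h • z = z ↔ (g⁻¹ * h * g) • (g⁻¹ • z) = g⁻¹ • z := by
      intro h z
      rw [mul_smul, mul_smul, smul_inv_smul, smul_left_cancel_iff]
    constructor
    · intro h1 h hh
      have h2 : g * h * g⁻¹ ∈ Signs G inv (core G inv n (g • x)) := by
        rw [key]
        simpa [mul_assoc] using hh
      have h3 := h1 _ h2
      rw [key2 _ (g • x), key2 _ y, inv_smul_smul] at h3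
      simpa [mul_assoc] using h3
    · intro h1 h hh
      rw [key2 _ (g • x), key2 _ y, inv_smul_smul]
      exact h1 _ ((key h).1 hh)

/-- An element which maps one element of the core into the core maps the core to itself. -/
theorem smul_mem_core {n : ℕ} {x y : Y} {g : G} (hy : y ∈ core G inv n x)
    (hgy : g • y ∈ core G inv n x) (z : Y) : g • z ∈ core G inv n x ↔ z ∈ core G inv n x := by
  have h1 := eq_of_mem hy
  have h2 := eq_of_mem hgy
  have h3 := smul_core hinv hG g n y (g • z)
  rw [h2, inv_smul_smul, h1] at h3
  exact h3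

theorem core_ncard_smul (g : G) (n : ℕ) (x : Y) :
    (core G inv n (g • x)).ncard = (core G inv n x).ncard := by
  have h : core G inv n (g • x) = (fun y => g • y) '' core G inv n x := by
    ext y
    rw [smul_core hinv hG]
    constructor
    · intro h
      exact ⟨_, h, smul_inv_smul g y⟩
    · rintro ⟨z, hz, rfl⟩
      rwa [inv_smul_smul]
  rw [h, Set.ncard_image_of_injective _ (MulAction.injective g)]

end

section

variable [Fintype Y]

/-- The antisymmetric relations between the translates of `D`, supported in `B`. -/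
def Rel (G : Type*) [Group G] {Y : Type*} [MulAction G Y] [Fintype Y] (inv : Y → Y) (D : Y → ℤ)
    (B : Set Y) : AddSubgroup (Y → ℤ) where
  carrier := {c | (∀ y, c (inv y) = -c y) ∧ (∀ g : G, ∑ y, c y * D (g • y) = 0) ∧
    ∀ y, y ∉ B → c y = 0}
  zero_mem' := ⟨fun y => by simp, fun g => by simp, fun y _ => rfl⟩
  add_mem' := by
    rintro a b ⟨ha1, ha2, ha3⟩ ⟨hb1, hb2, hb3⟩
    refine ⟨fun y => ?_, fun g => ?_, fun y hy => ?_⟩
    · simp only [Pi.add_apply, ha1, hb1]
      ring
    · simp only [Pi.add_apply, add_mul, sum_add_distrib, ha2, hb2, add_zero]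
    · simp only [Pi.add_apply, ha3 y hy, hb3 y hy, add_zero]
  neg_mem' := by
    rintro a ⟨ha1, ha2, ha3⟩
    refine ⟨fun y => ?_, fun g => ?_, fun y hy => ?_⟩
    · simp only [Pi.neg_apply, ha1]
    · simp only [Pi.neg_apply, neg_mul, sum_neg_distrib, ha2, neg_zero]
    · simp only [Pi.neg_apply, ha3 y hy, neg_zero]

variable {D : Y → ℤ}

theorem mem_Rel {B : Set Y} {c : Y → ℤ} : c ∈ Rel G inv D B ↔ (∀ y, c (inv y) = -c y) ∧
    (∀ g : G, ∑ y, c y * D (g • y) = 0) ∧ ∀ y, y ∉ B → c y = 0 := Iff.rfl

theorem sum_comp_smul (f : Y → ℤ) (g : G) : ∑ y, f (g • y) = ∑ y, f y :=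
  Fintype.sum_equiv (MulAction.toPerm g) _ _ fun _ => rfl

/-- Translates of relations. -/
theorem comp_mem {B B' : Set Y} (hG : ∀ (g : G) (y : Y), g • inv y = inv (g • y)) {c : Y → ℤ}
    (hc : c ∈ Rel G inv D B) (g : G) (hB : ∀ y, y ∉ B' → g • y ∉ B) :
    (fun y => c (g • y)) ∈ Rel G inv D B' := by
  obtain ⟨h1, h2, h3⟩ := hc
  refine ⟨fun y => ?_, fun h => ?_, fun y hy => h3 _ (hB y hy)⟩
  · change c (g • inv y) = -c (g • y)
    rw [hG, h1]
  · rw [← h2 (h * g⁻¹), ← sum_comp_smul (fun y => c y * D ((h * g⁻¹) • y)) g]
    refine sum_congr rfl fun y _ => ?_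
    rw [mul_smul, inv_smul_smul]

variable (hinv : ∀ y, inv (inv y) = y) (hne : ∀ y, inv y ≠ y)
  (hG : ∀ (g : G) (y : Y), g • inv y = inv (g • y))
include hinv hne hG

/-- One step of the localization. -/
theorem localize_step {n : ℕ} {x : Y} {c : Y → ℤ} (hc : c ∈ Rel G inv D (core G inv n x))
    (hx : c x ≠ 0) : ∃ c' ∈ Rel G inv D (core G inv (n + 1) x), c' x ≠ 0 := by
  classical
  -- induction on the size of the support
  have key : ∀ (k : ℕ) (c : Y → ℤ), c ∈ Rel G inv D (core G inv n x) → c x ≠ 0 →
      (univ.filter (fun y => c y ≠ 0)).card ≤ k →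
      ∃ c' ∈ Rel G inv D (core G inv (n + 1) x), c' x ≠ 0 := by
    intro k
    induction k with
    | zero =>
      intro c hc hx hk
      have h1 : univ.filter (fun y => c y ≠ 0) = ∅ := Finset.card_eq_zero.1 (Nat.le_zero.1 hk)
      have h2 : x ∈ univ.filter (fun y => c y ≠ 0) := by simp [hx]
      rw [h1] at h2
      simp at h2
    | succ k ih =>
      intro c hc hx hk
      by_cases hsupp : ∀ y, y ∉ core G inv (n + 1) x → c y = 0
      · exact ⟨c, ⟨hc.1, hc.2.1, hsupp⟩, hx⟩
      · push Not at hsupp
        obtain ⟨z, hz, hcz⟩ := hsupp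
        have hzn : z ∈ core G inv n x := by
          by_contra h
          exact hcz (hc.2.2 z h)
        rw [mem_core_succ] at hz
        push Not at hz
        obtain ⟨g, hg, hgz⟩ := hz hzn
        -- values of `c` at `g • y`
        have hval : ∀ y ∈ core G inv n x, (g • y = y ∧ c (g • y) = c y) ∨
            (g • y = inv y ∧ c (g • y) = - c y) := by
          intro y hy
          rcases hg y hy with h | h
          · exact Or.inl ⟨h, by rw [h]⟩
          · exact Or.inr ⟨h, by rw [h, hc.1]⟩
        have hpres : ∀ y, y ∉ core G inv n x → g • y ∉ core G inv n x := by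
          intro y hy hgy
          have hgx : g • x ∈ core G inv n x := by
            rcases hg x (self_mem n x) with h | h
            · rw [h]
              exact self_mem n x
            · rw [h]
              exact inv_mem hinv hG (self_mem n x)
          exact hy ((smul_mem_core hinv hG (self_mem n x) hgx y).1 hgy)
        have hcg : (fun y => c (g • y)) ∈ Rel G inv D (core G inv n x) :=
          comp_mem hG hc g hpres
        -- choose the sign
        obtain ⟨c', hc', hx', hz', hzero⟩ : ∃ c' ∈ Rel G inv D (core G inv n x), c' x ≠ 0 ∧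
            c' z = 0 ∧ ∀ y, c y = 0 → c' y = 0 := by
          have hzero' : ∀ y, c y = 0 → c (g • y) = 0 := by
            intro y hy
            by_cases hyn : y ∈ core G inv n x
            · rcases hval y hyn with ⟨-, h⟩ | ⟨-, h⟩
              · rw [h, hy]
              · rw [h, hy, neg_zero]
            · exact hc.2.2 _ (hpres y hyn)
          rcases hgz with ⟨h1, h2⟩ | ⟨h1, h2⟩
          · refine ⟨c + fun y => c (g • y), AddSubgroup.add_mem _ hc hcg, ?_, ?_, ?_⟩
            · simp only [Pi.add_apply, h1]
              intro h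
              apply hx
              linarith
            · rcases hval z hzn with ⟨h3, -⟩ | ⟨-, h3⟩
              · exact absurd h3 h2
              · simp only [Pi.add_apply, h3]
                ring
            · intro y hy
              simp only [Pi.add_apply, hy, hzero' y hy, add_zero]
          · refine ⟨c - fun y => c (g • y), AddSubgroup.sub_mem _ hc hcg, ?_, ?_, ?_⟩
            · rcases hval x (self_mem n x) with ⟨h3, -⟩ | ⟨-, h3⟩
              · exact absurd h3 h1
              · simp only [Pi.sub_apply, h3]
                intro h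
                apply hx
                linarith
            · simp only [Pi.sub_apply, h2, sub_self]
            · intro y hy
              simp only [Pi.sub_apply, hy, hzero' y hy, sub_zero]
        refine ih c' hc' hx' ?_
        have hlt : (univ.filter (fun y => c' y ≠ 0)) ⊂ univ.filter (fun y => c y ≠ 0) := by
          rw [Finset.ssubset_iff_of_subset]
          · exact ⟨z, by simp [hcz], by simp [hz']⟩
          · intro y
            simp only [mem_filter, mem_univ, true_and]
            exact fun h1 h2 => h1 (hzero y h2)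
        have := Finset.card_lt_card hlt
        omega
  exact key _ c hc hx le_rfl

/-- The localization of relations at the cores. -/
theorem localize (n : ℕ) {x : Y} {c : Y → ℤ} (hc : c ∈ Rel G inv D Set.univ) (hx : c x ≠ 0) :
    ∃ c' ∈ Rel G inv D (core G inv n x), c' x ≠ 0 := by
  induction n with
  | zero => exact ⟨c, hc, hx⟩
  | succ n ih =>
    obtain ⟨c', hc', hx'⟩ := ih
    exact localize_step hinv hne hG hc' hx'

/-- If there is a relation, there is one in the core of a given element. -/
theorem exists_rel_core [IsPretransitive G Y] (n : ℕ) (x : Y) {c : Y → ℤ}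
    (hc : c ∈ Rel G inv D Set.univ) (hc0 : c ≠ 0) :
    ∃ c' ∈ Rel G inv D (core G inv n x), c' x ≠ 0 := by
  obtain ⟨y, hy⟩ : ∃ y, c y ≠ 0 := by
    by_contra h
    push Not at h
    exact hc0 (funext h)
  obtain ⟨g, rfl⟩ := exists_smul_eq G x y
  exact localize hinv hne hG n (comp_mem (B' := Set.univ) hG hc g fun y hy => absurd trivial hy) hy

end

end Pool.Agent.H298.Core
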