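import Mathlib

/-!
# Orbits of Sylow subgroups
-/

set_option autoImplicit false

namespace Pool.Agent.H298.Core

open MulAction

theorem sylow_orbit_dvd {H : Type*} [Group H] [Finite H] {Y : Type*} [MulAction H Y] (p : ℕ)
    [Fact p.Prime] (S : Sylow p H) (x : Y) (k : ℕ) (h : p ^ k ∣ Nat.card (orbit H x)) :
    p ^ k ∣ Nat.card (orbit S x) := by
  have h1 : Nat.card (orbit H x) = (stabilizer H x).index := by
    rw [Subgroup.index, Nat.card_congr (orbitEquivQuotientStabilizer H x)]
  have h2 : Nat.card (orbit S x) = (stabilizer H x).relIndex (S : Subgroup H) := by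
    rw [Nat.card_congr (orbitEquivQuotientStabilizer S x), Subgroup.relIndex, Subgroup.index]
    have h3 : stabilizer S x = (stabilizer H x).subgroupOf (S : Subgroup H) := by
      ext s
      rw [Subgroup.mem_subgroupOf, mem_stabilizer_iff, mem_stabilizer_iff]
      exact Iff.rfl
    rw [h3]
  rw [h1] at h
  rw [h2]
  have h4 : ((stabilizer H x) ⊓ (S : Subgroup H)).index =
      (stabilizer H x).relIndex (S : Subgroup H) * (S : Subgroup H).index := by
    rw [← Subgroup.inf_relIndex_right, Subgroup.relIndex_mul_index inf_le_right]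
  have h5 : (stabilizer H x).index ∣ ((stabilizer H x) ⊓ (S : Subgroup H)).index :=
    Subgroup.index_dvd_of_le inf_le_left
  have h6 := h.trans h5
  rw [h4] at h6
  refine Nat.Coprime.dvd_of_dvd_mul_right ?_ h6
  refine Nat.Coprime.pow_left k ?_
  exact (Nat.Prime.coprime_iff_not_dvd Fact.out).2 S.not_dvd_index

theorem sylow_transitive {H : Type*} [Group H] [Finite H] {Y : Type*} [MulAction H Y] (p : ℕ)
    [Fact p.Prime] (S : Sylow p H) (x : Y) (k : ℕ) (h : Nat.card (orbit H x) = p ^ k) {y : Y}
    (hy : y ∈ orbit H x) : y ∈ orbit S x := by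
  have hsub : orbit S x ⊆ orbit H x := by
    rintro _ ⟨s, rfl⟩
    exact ⟨s, rfl⟩
  have hfin : (orbit H x).Finite := Set.finite_range _
  have h1 := sylow_orbit_dvd p S x k (by rw [h])
  have h2 : (orbit H x).ncard ≤ (orbit S x).ncard := by
    rw [← Nat.card_coe_set_eq, ← Nat.card_coe_set_eq, h]
    refine Nat.le_of_dvd ?_ h1
    have : Finite (orbit S x) := (hfin.subset hsub).to_subtype
    have : Nonempty (orbit S x) := ⟨⟨x, mem_orbit_self x⟩⟩
    exact Nat.card_pos
  rw [Set.eq_of_subset_of_ncard_le hsub h2 hfin]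
  exact hy

/-- An element of odd order whose square fixes a point fixes the point. -/
theorem fix_of_sq {H : Type*} [Group H] {Y : Type*} [MulAction H Y] {p : ℕ} (hp2 : p ≠ 2)
    [Fact p.Prime] (hS : IsPGroup p H) (g : H) {y : Y} (h : g • g • y = y) : g • y = y := by
  obtain ⟨k, hk⟩ := hS g
  have hodd : Odd (p ^ k) := ((Fact.out : p.Prime).odd_of_ne_two hp2).pow
  obtain ⟨m, hm⟩ := hodd
  have h1 : ∀ n : ℕ, (g * g) ^ n • y = y := by
    intro n
    induction n with
    | zero => rw [pow_zero, one_smul]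
    | succ n ih => rw [pow_succ, mul_smul, mul_smul, h, ih]
  have h2 : g * ((g * g) ^ m) = 1 := by
    rw [← hk, hm, ← pow_two, ← pow_mul, pow_succ']
  have h3 : (g * (g * g) ^ m) • y = y := by rw [h2, one_smul]
  rw [mul_smul, h1] at h3
  exact h3

end Pool.Agent.H298.Core
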