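import Mathlib
import Pool.Agent.H298.Core.Basic
import Pool.Agent.H298.Core.Sylow

/-!
# Relations in a core of `2 p ^ k` elements, `p` an odd prime number
-/

set_option autoImplicit false
set_option linter.unusedSectionVars false

namespace Pool.Agent.H298.Core

open MulAction Finset

variable {G : Type*} [Group G] {Y : Type*} [MulAction G Y] {inv : Y → Y} [Fintype Y]
  {D : Y → ℤ} {B : Set Y}

/-- The image of a subgroup in the symmetric group. -/
abbrev bar (H : Subgroup G) (Y : Type*) [MulAction G Y] : Subgroup (Equiv.Perm Y) :=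
  H.map (MulAction.toPermHom G Y)

instance (H : Subgroup G) : Finite (bar H Y) := Subtype.finite

theorem bar_smul (H : Subgroup G) (s : bar H Y) : ∃ h ∈ H, ∀ y : Y, s • y = h • y := by
  obtain ⟨h, hh, hs⟩ := Subgroup.mem_map.1 s.2
  refine ⟨h, hh, fun y => ?_⟩
  change (s : Equiv.Perm Y) y = h • y
  rw [← hs]
  rfl

theorem smul_bar (H : Subgroup G) {h : G} (hh : h ∈ H) : ∃ s : bar H Y, ∀ y : Y, s • y = h • y :=
  ⟨⟨_, Subgroup.mem_map.2 ⟨h, hh, rfl⟩⟩, fun _ => rfl⟩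

theorem mem_orbit_bar (H : Subgroup G) (x y : Y) : y ∈ orbit (bar H Y) x ↔ ∃ h ∈ H, h • x = y := by
  constructor
  · rintro ⟨s, rfl⟩
    obtain ⟨h, hh, hs⟩ := bar_smul H s
    exact ⟨h, hh, (hs x).symm⟩
  · rintro ⟨h, hh, rfl⟩
    obtain ⟨s, hs⟩ := smul_bar (Y := Y) H hh
    exact ⟨s, hs x⟩

theorem exists_congr (hG : ∀ (g : G) (y : Y), g • inv y = inv (g • y)) (p : ℕ) [Fact p.Prime]
    (H : Subgroup G) (hHB : ∀ h ∈ H, ∀ y, h • y ∈ B ↔ y ∈ B) (S : Sylow p (bar H Y))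
    (h0 : ∃ c ∈ Rel G inv D B, c ≠ 0) :
    ∃ n ∈ Rel G inv D B, (¬ ∃ m ∈ Rel G inv D B, n = fun y => (p : ℤ) * m y) ∧
      ∀ (s : S) (y : Y), (p : ℤ) ∣ n (s • y) - n y := by
  have hS : IsPGroup p S := S.isPGroup'
  have key : ∀ s : S, ∃ h ∈ H, ∀ y : Y, s • y = h • y := fun s => bar_smul H (s : bar H Y)
  obtain ⟨n, hn, h1, h2⟩ := Pool.Agent.Q29.DP.exists_fixed_mod (S := S) (Y := Y) p hS
    (Rel G inv D B) (fun s n hn => by
      obtain ⟨h, hh, hs⟩ := key s⁻¹
      have h3 : (fun y => n (s⁻¹ • y)) = fun y => n (h • y) := by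
        funext y
        rw [hs]
      rw [h3]
      exact comp_mem hG hn h fun y hy => by rwa [hHB h hh]) h0
  refine ⟨n, hn, h1, fun s y => ?_⟩
  obtain ⟨m, -, hm⟩ := h2 s⁻¹
  have h3 := hm y
  rw [inv_inv] at h3
  exact ⟨m y, h3⟩

theorem div_mem (p : ℕ) [Fact p.Prime] {n : Y → ℤ} (hn : n ∈ Rel G inv D B)
    (h : ∀ y, (p : ℤ) ∣ n y) : ∃ m ∈ Rel G inv D B, n = fun y => (p : ℤ) * m y := by
  choose m hm using h
  have hp0 : (p : ℤ) ≠ 0 := by exact_mod_cast (Fact.out : p.Prime).ne_zero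
  refine ⟨m, ⟨fun y => ?_, fun g => ?_, fun y hy => ?_⟩, funext hm⟩
  · have h1 := hn.1 y
    rw [hm, hm, ← mul_neg] at h1
    exact mul_left_cancel₀ hp0 h1
  · have h1 := hn.2.1 g
    have h2 : ∑ y, n y * D (g • y) = p * ∑ y, m y * D (g • y) := by
      rw [mul_sum]
      exact sum_congr rfl fun y _ => by rw [hm]; ring
    rw [h2] at h1
    exact (mul_eq_zero.1 h1).resolve_left hp0
  · have h1 := hn.2.2 y hy
    rw [hm] at h1
    exact (mul_eq_zero.1 h1).resolve_left hp0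

/-- A sum over `B` of a function with equal values at partners is twice the sum over a half. -/
theorem sum_eq_two_mul (hinv : ∀ y, inv (inv y) = y) (O : Finset Y)
    (hO : ∀ y ∈ O, inv y ∉ O) (hOB : ∀ y, y ∈ B ↔ y ∈ O ∨ inv y ∈ O) (f : Y → ℤ)
    (hf : ∀ y, f (inv y) = f y) (hf0 : ∀ y, y ∉ B → f y = 0) : ∑ y, f y = 2 * ∑ y ∈ O, f y := by
  classical
  have h1 : ∑ y, f y = ∑ y ∈ O ∪ O.image inv, f y := by
    symm
    refine Finset.sum_subset (Finset.subset_univ _) fun y _ hy => hf0 y ?_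
    rw [hOB]
    rw [Finset.mem_union, Finset.mem_image] at hy
    rintro (h | h)
    · exact hy (Or.inl h)
    · exact hy (Or.inr ⟨_, h, hinv y⟩)
  have hdisj : Disjoint O (O.image inv) := by
    rw [Finset.disjoint_left]
    intro y hy hy'
    obtain ⟨z, hz, rfl⟩ := Finset.mem_image.1 hy'
    exact hO z hz hy
  rw [h1, Finset.sum_union hdisj, Finset.sum_image]
  · simp only [hf]
    ring
  · intro a _ b _ h
    rw [← hinv a, h, hinv]

/-- A half of a core which is an orbit of a `p`-group modulo `p`: all the sums over its translates of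
`D` are divisible by `p`. -/
theorem dvd_sum_of_rel (hinv : ∀ y, inv (inv y) = y)
    (hG : ∀ (g : G) (y : Y), g • inv y = inv (g • y)) (hD : ∀ y, D (inv y) = -D y) (p : ℕ)
    [Fact p.Prime] (hp2 : p ≠ 2) (H : Subgroup G) (hHB : ∀ h ∈ H, ∀ y, h • y ∈ B ↔ y ∈ B)
    (S : Sylow p (bar H Y)) (x : Y) (O : Finset Y) (hmem : ∀ y, y ∈ O ↔ y ∈ orbit S x)
    (hO : ∀ y ∈ O, inv y ∉ O) (hOB : ∀ y, y ∈ B ↔ y ∈ O ∨ inv y ∈ O)
    (h0 : ∃ c ∈ Rel G inv D B, c ≠ 0) (g : G) : (p : ℤ) ∣ ∑ y ∈ O, D (g • y) := by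
  obtain ⟨n, hn, hnd, hcong⟩ := exists_congr hG p H hHB S h0
  have hc : ∀ y ∈ O, (p : ℤ) ∣ n y - n x := by
    intro y hy
    obtain ⟨s, rfl⟩ := (hmem y).1 hy
    exact hcong s x
  have hx : ¬ (p : ℤ) ∣ n x := by
    intro hx
    refine hnd (div_mem p hn fun y => ?_)
    by_cases hy : y ∈ B
    · rcases (hOB y).1 hy with h | h
      · exact (dvd_sub_left hx).1 (hc y h)
      · have h1 := (dvd_sub_left hx).1 (hc _ h)
        rw [hn.1] at h1
        exact (dvd_neg).1 h1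
    · rw [hn.2.2 y hy]
      exact dvd_zero _
  have h1 := hn.2.1 g
  rw [sum_eq_two_mul hinv O hO hOB (fun y => n y * D (g • y)) (fun y => by
    rw [hn.1, hG, hD]
    ring) (fun y hy => by rw [hn.2.2 y hy, zero_mul])] at h1
  have h2 := (mul_eq_zero.1 h1).resolve_left two_ne_zero
  have h3 : (p : ℤ) ∣ n x * ∑ y ∈ O, D (g • y) := by
    have h4 : n x * ∑ y ∈ O, D (g • y) = -∑ y ∈ O, (n y - n x) * D (g • y) := by
      simp only [sub_mul, sum_sub_distrib]
      rw [h2, ← mul_sum]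
      ring
    rw [h4, dvd_neg]
    exact dvd_sum fun y hy => Dvd.dvd.mul_right (hc y hy) _
  have h5 : Prime (p : ℤ) := Nat.prime_iff_prime_int.1 Fact.out
  exact (h5.dvd_or_dvd h3).resolve_left hx

/-- An orbit of `p ^ k` elements of a `p`-group (`p` odd) contains no partners. -/
theorem orbit_half (hinv : ∀ y, inv (inv y) = y) (hne : ∀ y, inv y ≠ y)
    (hG : ∀ (g : G) (y : Y), g • inv y = inv (g • y)) (p : ℕ)
    [Fact p.Prime] (hp2 : p ≠ 2) (H : Subgroup G) (S : Sylow p (bar H Y)) (x : Y) {y : Y}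
    (hy : y ∈ orbit S x) : inv y ∉ orbit S x := by
  intro hy'
  have h1 : inv y ∈ orbit S y := by
    rw [← orbit_eq_iff.2 hy] at hy'
    exact hy'
  obtain ⟨s, hs⟩ := h1
  have hs' : s • y = inv y := hs
  have hsinv : ∀ z, s • inv z = inv (s • z) := by
    intro z
    obtain ⟨h, -, hh⟩ := bar_smul H (s : bar H Y)
    have h1 : ∀ z : Y, s • z = h • z := hh
    rw [h1, h1, hG]
  have h2 : s • s • y = y := by
    rw [hs', hsinv, hs', hinv]
  have h3 := fix_of_sq hp2 S.isPGroup' s h2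
  exact hne y (hs'.symm.trans h3)

theorem half_cover {x : Y} {n : ℕ} (hinv : ∀ y, inv (inv y) = y)
    (hG : ∀ (g : G) (y : Y), g • inv y = inv (g • y)) (O : Finset Y)
    (hsub : ∀ y ∈ O, y ∈ core G inv n x) (hO : ∀ y ∈ O, inv y ∉ O)
    (hcard : (core G inv n x).ncard = 2 * O.card) (y : Y) :
    y ∈ core G inv n x ↔ y ∈ O ∨ inv y ∈ O := by
  classical
  have hdisj : Disjoint O (O.image inv) := by
    rw [Finset.disjoint_left]
    intro y hy hy'
    obtain ⟨z, hz, rfl⟩ := Finset.mem_image.1 hy'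
    exact hO z hz hy
  have hinj : Function.Injective inv := fun a b h => by rw [← hinv a, h, hinv]
  have h1 : ((O ∪ O.image inv : Finset Y) : Set Y) ⊆ core G inv n x := by
    intro z hz
    rw [Finset.mem_coe, Finset.mem_union, Finset.mem_image] at hz
    rcases hz with h | ⟨w, hw, rfl⟩
    · exact hsub z h
    · exact inv_mem hinv hG (hsub w hw)
  have h2 : ((O ∪ O.image inv : Finset Y) : Set Y) = core G inv n x := by
    refine Set.eq_of_subset_of_ncard_le h1 ?_ (Set.toFinite _)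
    rw [hcard, Set.ncard_coe_finset, Finset.card_union_of_disjoint hdisj,
      Finset.card_image_of_injective _ hinj]
    omega
  rw [← h2, Finset.mem_coe, Finset.mem_union, Finset.mem_image]
  refine or_congr_right ⟨?_, fun h => ⟨_, h, hinv y⟩⟩
  rintro ⟨w, hw, rfl⟩
  rwa [hinv]

/-- **Cores of `2 p ^ k` elements.** A function whose sum over an orbit of `p ^ k` elements of a
subgroup, contained in the core, is not divisible by `p`, satisfies no relation. -/
theorem no_rel_odd [IsPretransitive G Y] (hinv : ∀ y, inv (inv y) = y) (hne : ∀ y, inv y ≠ y)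
    (hG : ∀ (g : G) (y : Y), g • inv y = inv (g • y)) (hD : ∀ y, D (inv y) = -D y) (p k n : ℕ)
    [Fact p.Prime] (hp2 : p ≠ 2) (x : Y) (H : Subgroup G) (O : Finset Y)
    (hmem : ∀ y, y ∈ O ↔ ∃ h ∈ H, h • x = y) (hsub : ∀ y ∈ O, y ∈ core G inv n x)
    (hOcard : O.card = p ^ k) (hcard : (core G inv n x).ncard = 2 * p ^ k)
    (hnd : ¬ (p : ℤ) ∣ ∑ y ∈ O, D y) {c : Y → ℤ} (hc : c ∈ Rel G inv D Set.univ) : c = 0 := by
  by_contra hc0
  obtain ⟨c', hc', hx'⟩ := exists_rel_core hinv hne hG n x hc hc0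
  have hHB : ∀ h ∈ H, ∀ y, h • y ∈ core G inv n x ↔ y ∈ core G inv n x := by
    intro h hh y
    exact smul_mem_core hinv hG (self_mem n x) (hsub _ ((hmem _).2 ⟨h, hh, rfl⟩)) y
  obtain ⟨S⟩ := (inferInstance : Nonempty (Sylow p (bar H Y)))
  have hOorb : ∀ y, y ∈ O ↔ y ∈ orbit (bar H Y) x := fun y => by rw [hmem, mem_orbit_bar]
  have hcardorb : Nat.card (orbit (bar H Y) x) = p ^ k := by
    have h1 : orbit (bar H Y) x = (O : Set Y) := by
      ext y
      rw [Finset.mem_coe, hOorb]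
    rw [h1, Nat.card_coe_set_eq, Set.ncard_coe_finset, hOcard]
  have hOS : ∀ y, y ∈ O ↔ y ∈ orbit S x := by
    intro y
    rw [hOorb]
    constructor
    · exact sylow_transitive p S x k hcardorb
    · rintro ⟨s, rfl⟩
      exact ⟨s, rfl⟩
  have hO : ∀ y ∈ O, inv y ∉ O := by
    intro y hy
    rw [hOS] at hy ⊢
    exact orbit_half hinv hne hG p hp2 H S x hy
  have h1 := dvd_sum_of_rel hinv hG hD p hp2 H hHB S x O hOS hO
    (half_cover hinv hG O hsub hO (by rw [hcard, hOcard])) ⟨c', hc', fun h => hx' (by rw [h]; rfl)⟩ 1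
  simp only [one_smul] at h1
  exact hnd h1

end Pool.Agent.H298.Core
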