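import Mathlib
import Pool.Agent.H298.Core.Odd
import Pool.Agent.H298.Core.Cyclic

/-!
# Relations in a core of `2 p` elements, `p` a prime number
-/

set_option autoImplicit false
set_option linter.unusedSectionVars false
set_option linter.unusedVariables false

namespace Pool.Agent.H298.Core

open MulAction Finset

/-- A `p`-group acts on an orbit of `p` elements through a cycle. -/
theorem exists_cycle {S : Type*} [Group S] {Y : Type*} [MulAction S Y] {p : ℕ} [Fact p.Prime]
    (hS : IsPGroup p S) (x : Y) (hcard : Nat.card (orbit S x) = p) :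
    ∃ (s : S) (f : ZMod p → Y), (∀ i, s • f i = f (i + 1)) ∧ Function.Injective f ∧
      Set.range f = orbit S x := by
  have hp : p.Prime := Fact.out
  have _ : NeZero p := ⟨hp.ne_zero⟩
  have hfin : Finite (orbit S x) := by
    apply Nat.finite_of_card_ne_zero
    rw [hcard]
    exact hp.ne_zero
  obtain ⟨s, hs⟩ : ∃ s : S, s • x ≠ x := by
    by_contra h
    push Not at h
    have h1 : orbit S x = {x} := by
      ext y
      constructor
      · rintro ⟨s, rfl⟩
        exact h s
      · rintro rfl
        exact mem_orbit_self _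
    rw [h1] at hcard
    have h2 : Nat.card ({x} : Set Y) = 1 := by simp
    rw [h2] at hcard
    exact hp.one_lt.ne hcard
  have hzsub : orbit (Subgroup.zpowers s) x ⊆ orbit S x := by
    rintro _ ⟨t, rfl⟩
    exact ⟨(t : S), rfl⟩
  have hfin2 : Finite (orbit (Subgroup.zpowers s) x) :=
    (Set.Finite.subset (Set.toFinite _) hzsub).to_subtype
  have hperc : period s x = Nat.card (orbit (Subgroup.zpowers s) x) := by
    rw [period_eq_minimalPeriod, Nat.card_congr (orbitZPowersEquiv s x), Nat.card_zmod]
  have hle : period s x ≤ p := by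
    rw [hperc]
    calc Nat.card (orbit (Subgroup.zpowers s) x) ≤ Nat.card (orbit S x) := by
          rw [Nat.card_coe_set_eq, Nat.card_coe_set_eq]
          exact Set.ncard_le_ncard hzsub (Set.toFinite _)
      _ = p := hcard
  have hper : period s x = p := by
    obtain ⟨m, hm⟩ := hS s
    have h1 : period s x ∣ p ^ m := by
      rw [← pow_smul_eq_iff_period_dvd, hm, one_smul]
    obtain ⟨a, -, ha⟩ := (Nat.dvd_prime_pow hp).1 h1
    have ha0 : a ≠ 0 := by
      rintro rfl
      rw [pow_zero] at ha
      apply hs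
      have h2 := pow_period_smul s x
      rwa [ha, pow_one] at h2
    refine le_antisymm hle ?_
    rw [ha]
    exact Nat.le_self_pow ha0 p
  have heq : orbit (Subgroup.zpowers s) x = orbit S x := by
    refine Set.eq_of_subset_of_ncard_le hzsub ?_ (Set.toFinite _)
    rw [← Nat.card_coe_set_eq, ← Nat.card_coe_set_eq, hcard, ← hperc, hper]
  let f : ZMod p → Y := fun i => s ^ i.val • x
  have hrange : Set.range f = orbit S x := by
    rw [← heq]
    ext y
    constructor
    · rintro ⟨i, rfl⟩
      exact ⟨⟨s ^ i.val, Subgroup.npow_mem_zpowers s _⟩, rfl⟩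
    · rintro ⟨⟨t, ht⟩, rfl⟩
      obtain ⟨k, rfl⟩ := Subgroup.mem_zpowers_iff.1 ht
      refine ⟨(k : ZMod p), ?_⟩
      change s ^ (k : ZMod p).val • x = s ^ k • x
      rw [← zpow_mod_period_smul k, hper, ← zpow_natCast, ZMod.val_intCast]
  have hinj : Function.Injective f := by
    have hmap : ∀ i, f i ∈ orbit S x := fun i => by
      rw [← hrange]
      exact ⟨i, rfl⟩
    let f' : ZMod p → orbit S x := fun i => ⟨f i, hmap i⟩
    have hsurj : Function.Surjective f' := by
      rintro ⟨y, hy⟩
      rw [← hrange] at hy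
      obtain ⟨i, rfl⟩ := hy
      exact ⟨i, rfl⟩
    have _ : Fintype (orbit S x) := Fintype.ofFinite _
    have hbij : Function.Bijective f' := by
      rw [Fintype.bijective_iff_surjective_and_card]
      refine ⟨hsurj, ?_⟩
      rw [ZMod.card, ← Nat.card_eq_fintype_card, hcard]
    intro i j hij
    exact hbij.1 (Subtype.ext hij)
  refine ⟨s, f, fun i => ?_, hinj, hrange⟩
  change s • s ^ i.val • x = s ^ (i + 1).val • x
  have h1 := pow_mod_period_smul (i.val + 1) (m := s) (a := x)
  rw [hper] at h1
  rw [← mul_smul, ← pow_succ', ZMod.val_add, ZMod.val_one_eq_one_mod, Nat.add_mod_mod, h1]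

variable {G : Type*} [Group G] {Y : Type*} [MulAction G Y] {inv : Y → Y} [Fintype Y]
  {D : Y → ℤ}

/-- The stabilizer of the core. -/
def coreStab (hinv : ∀ y, inv (inv y) = y) (hG : ∀ (g : G) (y : Y), g • inv y = inv (g • y))
    (n : ℕ) (x : Y) : Subgroup G where
  carrier := {g | g • x ∈ core G inv n x}
  one_mem' := by
    change (1 : G) • x ∈ core G inv n x
    rw [one_smul]
    exact self_mem n x
  mul_mem' := by
    intro g h hg hh
    change (g * h) • x ∈ core G inv n x
    rw [mul_smul]
    exact (smul_mem_core hinv hG (self_mem n x) hg _).2 hh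
  inv_mem' := by
    intro g hg
    change g⁻¹ • x ∈ core G inv n x
    rw [← smul_mem_core hinv hG (self_mem n x) hg, smul_inv_smul]
    exact self_mem n x

/-- **Cores of `2 p` elements**, `p` an odd prime number. -/
theorem prime_core_odd [IsPretransitive G Y] (hinv : ∀ y, inv (inv y) = y)
    (hne : ∀ y, inv y ≠ y) (hG : ∀ (g : G) (y : Y), g • inv y = inv (g • y))
    (hD : ∀ y, D (inv y) = -D y) (p n : ℕ) [Fact p.Prime] (hp2 : p ≠ 2) (x : Y)
    (hcard : (core G inv n x).ncard = 2 * p) {c : Y → ℤ} (hc : c ∈ Rel G inv D Set.univ)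
    (hc0 : c ≠ 0) :
    (∃ y₁ y₂, y₁ ≠ y₂ ∧ ∀ g : G, D (g • y₁) = D (g • y₂)) ∨
    ∃ O : Finset Y, x ∈ O ∧ O.card = p ∧ (∀ y ∈ O, inv y ∉ O) ∧
      (∀ (g : G), ∀ y ∈ O, g • y ∈ O → ∀ z ∈ O, g • z ∈ O) ∧
      (∀ g : G, ∑ y ∈ O, D (g • y) = 0) := by
  classical
  have hp : p.Prime := Fact.out
  have _ : NeZero p := ⟨hp.ne_zero⟩
  set H := coreStab hinv hG n x with hH
  have hmemH : ∀ g, g ∈ H ↔ g • x ∈ core G inv n x := fun g => Iff.rfl
  have hHB : ∀ h ∈ H, ∀ y, h • y ∈ core G inv n x ↔ y ∈ core G inv n x := fun h hh y =>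
    smul_mem_core hinv hG (self_mem n x) hh y
  obtain ⟨S⟩ := (inferInstance : Nonempty (Sylow p (bar H Y)))
  have hSlift : ∀ s : S, ∃ h ∈ H, ∀ y : Y, s • y = h • y := fun s => bar_smul H (s : bar H Y)
  have horbH : orbit (bar H Y) x = core G inv n x := by
    ext y
    rw [mem_orbit_bar]
    constructor
    · rintro ⟨h, hh, rfl⟩
      exact hh
    · intro hy
      obtain ⟨g, rfl⟩ := exists_smul_eq G x y
      exact ⟨g, hy, rfl⟩
  have hcardS : Nat.card (orbit S x) = p := by
    have h1 : p ^ 1 ∣ Nat.card (orbit S x) := by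
      apply sylow_orbit_dvd p S x 1
      rw [horbH, Nat.card_coe_set_eq, hcard, pow_one]
      exact Dvd.intro_left 2 rfl
    obtain ⟨m, hm⟩ := S.isPGroup'.card_orbit x
    have hsub : orbit S x ⊆ core G inv n x := by
      rw [← horbH]
      rintro _ ⟨s, rfl⟩
      exact ⟨s, rfl⟩
    have h2 : Nat.card (orbit S x) ≤ 2 * p := by
      rw [← hcard, Nat.card_coe_set_eq]
      exact Set.ncard_le_ncard hsub (Set.toFinite _)
    rw [hm] at h1 h2 ⊢
    have h3 : 1 ≤ m := by
      by_contra h
      have : m = 0 := by omega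
      rw [this, pow_zero, pow_one] at h1
      exact hp.one_lt.ne' (Nat.dvd_one.1 h1)
    have h4 : m < 2 := by
      by_contra h
      have h5 : p ^ 2 ≤ p ^ m := Nat.pow_le_pow_right hp.pos (by omega)
      have h6 : 3 ≤ p := by
        have := hp.two_le
        omega
      nlinarith
    have : m = 1 := by omega
    rw [this, pow_one]
  obtain ⟨s, f, hf, hfinj, hfrange⟩ := exists_cycle S.isPGroup' x hcardS
  let O : Finset Y := univ.image f
  have hOmem : ∀ y, y ∈ O ↔ y ∈ orbit S x := by
    intro y
    rw [← hfrange]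
    simp [O]
  have hOcard : O.card = p := by
    rw [Finset.card_image_of_injective _ hfinj, Finset.card_univ, ZMod.card]
  have hOinv : ∀ y ∈ O, inv y ∉ O := by
    intro y hy
    rw [hOmem] at hy ⊢
    exact orbit_half hinv hne hG p hp2 H S x hy
  have hOsub : ∀ y ∈ O, y ∈ core G inv n x := by
    intro y hy
    rw [hOmem] at hy
    rw [← horbH]
    obtain ⟨s, rfl⟩ := hy
    exact ⟨s, rfl⟩
  have hcover := half_cover hinv hG O hOsub hOinv (by rw [hcard, hOcard])
  have hxO : x ∈ O := (hOmem x).2 (mem_orbit_self x)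
  -- relations in the core are relations of the sums over `O`
  have hrelO : ∀ c ∈ Rel G inv D (core G inv n x), ∀ g : G, ∑ y ∈ O, c y * D (g • y) = 0 := by
    intro c hc g
    have h1 := hc.2.1 g
    rw [sum_eq_two_mul hinv O hOinv hcover (fun y => c y * D (g • y)) (fun y => by
      rw [hc.1, hG, hD]
      ring) (fun y hy => by rw [hc.2.2 y hy, zero_mul])] at h1
    exact (mul_eq_zero.1 h1).resolve_left two_ne_zero
  have hpow : ∀ (k : ℕ) (i : ZMod p), s ^ k • f i = f (i + k) := by
    intro k
    induction k with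
    | zero =>
      intro i
      rw [pow_zero, one_smul, Nat.cast_zero, add_zero]
    | succ k ih =>
      intro i
      rw [pow_succ', mul_smul, ih, hf]
      congr 1
      push_cast
      ring
  have hcorr : ∀ c ∈ Rel G inv D (core G inv n x), ∀ (g : G) (i : ZMod p),
      ∑ j, c (f j) * D (g • f (j + i)) = 0 := by
    intro c hc g i
    obtain ⟨h, hh, hs⟩ := hSlift (s ^ i.val)
    have h1 := hrelO c hc (g * h)
    rw [Finset.sum_image (fun a _ b _ hab => hfinj hab)] at h1
    rw [← h1]
    refine Finset.sum_congr rfl fun j _ => ?_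
    rw [mul_smul, ← hs, hpow, ZMod.natCast_zmod_val]
  obtain ⟨c₁, hc₁, hc₁x⟩ := exists_rel_core hinv hne hG n x hc hc0
  by_cases hall : ∀ c ∈ Rel G inv D (core G inv n x), ∀ i j, c (f i) = c (f j)
  · right
    have hconst : ∀ c ∈ Rel G inv D (core G inv n x), ∀ y ∈ O, c y = c x := by
      intro c hc y hy
      obtain ⟨i, -, rfl⟩ := Finset.mem_image.1 hy
      obtain ⟨j, -, hj⟩ := Finset.mem_image.1 hxO
      rw [← hj]
      exact hall c hc i j
    refine ⟨O, hxO, hOcard, hOinv, ?_, ?_⟩
    · intro g y hy hgy z hz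
      have hgH : ∀ w, g • w ∈ core G inv n x ↔ w ∈ core G inv n x := fun w =>
        smul_mem_core hinv hG (hOsub y hy) (hOsub _ hgy) w
      have h1 : (fun y => c₁ (g • y)) ∈ Rel G inv D (core G inv n x) :=
        comp_mem hG hc₁ g fun y hy => by rwa [hgH]
      have h2 : c₁ (g • z) = c₁ (g • y) :=
        (hconst _ h1 z hz).trans (hconst _ h1 y hy).symm
      rw [hconst c₁ hc₁ _ hgy] at h2
      rcases (hcover (g • z)).1 ((hgH z).2 (hOsub z hz)) with h3 | h3
      · exact h3
      · exfalso
        have h4 := hconst c₁ hc₁ _ h3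
        rw [hc₁.1, h2] at h4
        apply hc₁x
        linarith
    · intro g
      have h1 := hrelO c₁ hc₁ g
      have h2 : ∑ y ∈ O, c₁ y * D (g • y) = c₁ x * ∑ y ∈ O, D (g • y) := by
        rw [Finset.mul_sum]
        exact Finset.sum_congr rfl fun y hy => by rw [hconst c₁ hc₁ y hy]
      rw [h2] at h1
      exact (mul_eq_zero.1 h1).resolve_left hc₁x
  · left
    push Not at hall
    obtain ⟨c₂, hc₂, i₀, j₀, hij⟩ := hall
    refine ⟨f 0, f 1, fun h => ?_, fun g => ?_⟩
    · have h1 := hfinj h
      exact zero_ne_one h1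
    · rcases const_of_correlation (fun j => c₂ (f j)) (fun j => D (g • f j))
        (fun i => hcorr c₂ hc₂ g i) with h1 | h1
      · exact absurd (h1 i₀ j₀) hij
      · exact h1 0 1

/-- **Cores of `4` elements.** -/
theorem prime_core_two [IsPretransitive G Y] (hinv : ∀ y, inv (inv y) = y)
    (hne : ∀ y, inv y ≠ y) (hG : ∀ (g : G) (y : Y), g • inv y = inv (g • y))
    (hD : ∀ y, D (inv y) = -D y) (hD0 : ∀ y, D y ≠ 0) (n : ℕ) (x : Y)
    (hcard : (core G inv n x).ncard = 4) {c : Y → ℤ} (hc : c ∈ Rel G inv D Set.univ)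
    (hc0 : c ≠ 0) : ∃ y₁ y₂, y₁ ≠ y₂ ∧ ∀ g : G, D (g • y₁) = D (g • y₂) := by
  classical
  obtain ⟨c, hc, hcx⟩ := exists_rel_core hinv hne hG n x hc hc0
  -- a second element
  obtain ⟨z, hz, hzx, hzix⟩ : ∃ z ∈ core G inv n x, z ≠ x ∧ z ≠ inv x := by
    by_contra h
    push Not at h
    have h1 : core G inv n x ⊆ {x, inv x} := by
      intro y hy
      by_cases hyx : y = x
      · exact Or.inl hyx
      · exact Or.inr (h y hy hyx)
    have h2 := Set.ncard_le_ncard h1 (Set.toFinite _)
    have h3 := Set.ncard_insert_le x {inv x}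
    rw [Set.ncard_singleton] at h3
    omega
  let O : Finset Y := {x, z}
  have hO : ∀ y ∈ O, inv y ∉ O := by
    intro y hy
    simp only [O, Finset.mem_insert, Finset.mem_singleton] at hy ⊢
    rcases hy with rfl | rfl
    · rintro (h | h)
      · exact hne _ h
      · exact hzix h.symm
    · rintro (h | h)
      · apply hzix
        rw [← h, hinv]
      · exact hne _ h
  have hsub : ∀ y ∈ O, y ∈ core G inv n x := by
    intro y hy
    simp only [O, Finset.mem_insert, Finset.mem_singleton] at hy
    rcases hy with rfl | rfl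
    · exact self_mem n _
    · exact hz
  have hOcard : O.card = 2 := Finset.card_pair hzx.symm
  have hcover := half_cover hinv hG O hsub hO (by rw [hcard, hOcard])
  have hrel : ∀ g : G, c x * D (g • x) + c z * D (g • z) = 0 := by
    intro g
    have h1 := hc.2.1 g
    rw [sum_eq_two_mul hinv O hO hcover (fun y => c y * D (g • y)) (fun y => by
      rw [hc.1, hG, hD]
      ring) (fun y hy => by rw [hc.2.2 y hy, zero_mul])] at h1
    have h2 := (mul_eq_zero.1 h1).resolve_left two_ne_zero
    rwa [Finset.sum_pair hzx.symm] at h2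
  obtain ⟨t, rfl⟩ := exists_smul_eq G x z
  have htB : ∀ w, t • w ∈ core G inv n x ↔ w ∈ core G inv n x := fun w =>
    smul_mem_core hinv hG (self_mem n x) hz w
  -- the square of `t`
  have htt : t • t • x = x ∨ t • t • x = inv x := by
    have h1 := (hcover (t • t • x)).1 ((htB _).2 hz)
    simp only [O, Finset.mem_insert, Finset.mem_singleton] at h1
    rcases h1 with (h | h) | (h | h)
    · exact Or.inl h
    · exact absurd (smul_left_cancel t h) hzx
    · right
      rw [← hinv (t • t • x), h]
    · exfalso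
      have h2 : t • inv (t • x) = t • x := by rw [hG, h]
      have h3 := smul_left_cancel t h2
      apply hzix
      rw [← hinv (t • x), h3]
  have hmain : c (t • x) = c x ∨ c (t • x) = -c x := by
    have h1 := hrel 1
    have h2 := hrel t
    rw [one_smul, one_smul] at h1
    rcases htt with h | h
    · rw [h] at h2
      have h3 : (c (t • x) - c x) * (c (t • x) + c x) * D (t • x) = 0 := by
        linear_combination c (t • x) * h1 - c x * h2
      have h4 := (mul_eq_zero.1 h3).resolve_right (hD0 _)
      rcases mul_eq_zero.1 h4 with h5 | h5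
      · left; linarith
      · right; linarith
    · rw [h, hD] at h2
      exfalso
      have h3 : (c x * c x + c (t • x) * c (t • x)) * D (t • x) = 0 := by
        linear_combination c (t • x) * h1 + c x * h2
      have h4 := (mul_eq_zero.1 h3).resolve_right (hD0 _)
      have h5 : 0 < c x * c x := mul_self_pos.2 hcx
      nlinarith [mul_self_nonneg (c (t • x))]
  rcases hmain with h | h
  · refine ⟨x, inv (t • x), fun hh => hzix ?_, fun g => ?_⟩
    · rw [← hinv (t • x), ← hh]
    · have h1 := hrel g
      rw [h, ← mul_add] at h1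
      have h2 := (mul_eq_zero.1 h1).resolve_left hcx
      rw [hG, hD]
      linarith
  · refine ⟨x, t • x, hzx.symm, fun g => ?_⟩
    have h1 := hrel g
    rw [h] at h1
    have h2 : c x * (D (g • x) - D (g • t • x)) = 0 := by linear_combination h1
    have h3 := (mul_eq_zero.1 h2).resolve_left hcx
    linarith

/-- **Cores of two elements.** -/
theorem core_two_elements [IsPretransitive G Y] (hinv : ∀ y, inv (inv y) = y)
    (hne : ∀ y, inv y ≠ y) (hG : ∀ (g : G) (y : Y), g • inv y = inv (g • y))
    (hD : ∀ y, D (inv y) = -D y) (hD0 : ∀ y, D y ≠ 0) (n : ℕ) (x : Y)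
    (hcard : (core G inv n x).ncard = 2) {c : Y → ℤ} (hc : c ∈ Rel G inv D Set.univ) :
    c = 0 := by
  classical
  by_contra hc0
  obtain ⟨c, hc, hcx⟩ := exists_rel_core hinv hne hG n x hc hc0
  have hcover := half_cover hinv hG {x} (fun y hy => by
    rw [Finset.mem_singleton] at hy
    rw [hy]
    exact self_mem n x) (fun y hy => by
      rw [Finset.mem_singleton] at hy ⊢
      rw [hy]
      exact hne x) (by rw [hcard, Finset.card_singleton])
  have h1 := hc.2.1 1
  rw [sum_eq_two_mul hinv {x} (fun y hy => by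
      rw [Finset.mem_singleton] at hy ⊢
      rw [hy]
      exact hne x) hcover (fun y => c y * D ((1 : G) • y)) (fun y => by
    rw [hc.1, hG, hD]
    ring) (fun y hy => by rw [hc.2.2 y hy, zero_mul])] at h1
  have h2 := (mul_eq_zero.1 h1).resolve_left two_ne_zero
  rw [Finset.sum_singleton, one_smul] at h2
  exact (mul_ne_zero hcx (hD0 x)) h2

end Pool.Agent.H298.Core
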