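import Mathlib
import Pool.Agent.H298.Core.Prime

/-!
# Relations in a core of `2 ^ (k + 1)` elements
-/

set_option autoImplicit false
set_option linter.unusedSectionVars false
set_option linter.unusedVariables false

namespace Pool.Agent.H298.Core

open MulAction Finset

theorem sum_signs {Y : Type*} (s : Finset Y) (ε : Y → ℤ) (hε : ∀ y ∈ s, ε y = 1 ∨ ε y = -1) :
    ∑ y ∈ s, ε y = s.card - 2 * ((s.filter fun y => ε y = -1).card : ℤ) ∧
      ∏ y ∈ s, ε y = (-1) ^ (s.filter fun y => ε y = -1).card := by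
  classical
  constructor
  · have h1 : ∑ y ∈ s, ε y = ∑ y ∈ s, (1 - 2 * if ε y = -1 then (1 : ℤ) else 0) := by
      refine sum_congr rfl fun y hy => ?_
      rcases hε y hy with h | h
      · rw [h]
        norm_num
      · rw [h]
        norm_num
    rw [h1, sum_sub_distrib, ← mul_sum, sum_const, nsmul_eq_mul, mul_one, Finset.sum_boole]
  · have h1 : ∏ y ∈ s, ε y = ∏ y ∈ s, (-1 : ℤ) ^ (if ε y = -1 then 1 else 0) := by
      refine prod_congr rfl fun y hy => ?_
      rcases hε y hy with h | h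
      · rw [h]
        norm_num
      · rw [h]
        norm_num
    rw [h1, Finset.prod_pow_eq_pow_sum]
    congr 1
    rw [Finset.sum_boole]
    simp

theorem prod_eq_of_sum {Y : Type*} (s : Finset Y) (ε ε' : Y → ℤ)
    (hε : ∀ y ∈ s, ε y = 1 ∨ ε y = -1) (hε' : ∀ y ∈ s, ε' y = 1 ∨ ε' y = -1)
    (h : (4 : ℤ) ∣ ∑ y ∈ s, ε y) (h' : (4 : ℤ) ∣ ∑ y ∈ s, ε' y) :
    ∏ y ∈ s, ε y = ∏ y ∈ s, ε' y := by
  obtain ⟨h1, h2⟩ := sum_signs s ε hε
  obtain ⟨h1', h2'⟩ := sum_signs s ε' hε'
  rw [h1] at h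
  rw [h1'] at h'
  rw [h2, h2']
  have h3 : (s.filter fun y => ε y = -1).card % 2 = (s.filter fun y => ε' y = -1).card % 2 := by
    omega
  rw [neg_one_pow_eq_pow_mod_two, h3, ← neg_one_pow_eq_pow_mod_two]

/-- The sign of an odd number modulo `4`. -/
def sg (u : ℤ) : ℤ := if u % 4 = 1 then 1 else -1

theorem sg_cases (u : ℤ) : sg u = 1 ∨ sg u = -1 := by
  unfold sg
  split_ifs
  · exact Or.inl rfl
  · exact Or.inr rfl

theorem sg_congr {u : ℤ} (h : Odd u) : (4 : ℤ) ∣ u - sg u := by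
  obtain ⟨m, rfl⟩ := h
  unfold sg
  split_ifs with h <;> omega

theorem sg_neg {u : ℤ} (h : Odd u) : sg (-u) = -sg u := by
  obtain ⟨m, rfl⟩ := h
  unfold sg
  split_ifs <;> omega

theorem sg_mul {u v : ℤ} (hu : Odd u) (hv : Odd v) : sg (u * v) = sg u * sg v := by
  have h1 := sg_congr hu
  have h2 := sg_congr hv
  have h3 := sg_congr (hu.mul hv)
  have h4 : (4 : ℤ) ∣ sg (u * v) - sg u * sg v := by
    have : sg (u * v) - sg u * sg v = (u - sg u) * v + sg u * (v - sg v) - (u * v - sg (u * v)) := by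
      ring
    rw [this]
    exact dvd_sub (dvd_add (Dvd.dvd.mul_right h1 _) (Dvd.dvd.mul_left h2 _)) h3
  rcases sg_cases (u * v) with h | h <;> rcases sg_cases u with h' | h' <;>
    rcases sg_cases v with h'' | h'' <;> rw [h, h', h''] at h4 <;> rw [h, h', h''] <;> omega

variable {G : Type*} [Group G] {Y : Type*} [MulAction G Y] {inv : Y → Y} [Fintype Y]
  [DecidableEq Y] {D : Y → ℤ}

/-- The signs of the values on the translate of a half. -/
theorem prod_translate (hinv : ∀ y, inv (inv y) = y)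
    (hG : ∀ (g : G) (y : Y), g • inv y = inv (g • y)) {B : Set Y} (O : Finset Y)
    (hO : ∀ y ∈ O, inv y ∉ O) (hOB : ∀ y, y ∈ B ↔ y ∈ O ∨ inv y ∈ O) (g : G)
    (hg : ∀ y, g • y ∈ B ↔ y ∈ B) (e : Y → ℤ) (he : ∀ y ∈ B, e (inv y) = -e y) :
    ∏ y ∈ O, e (g • y) = (-1) ^ (O.filter fun y => g • y ∉ O).card * ∏ y ∈ O, e y := by
  have hOsub : ∀ y ∈ O, y ∈ B := fun y hy => (hOB y).2 (Or.inl hy)
  let τ : Y → Y := fun y => if g • y ∈ O then g • y else inv (g • y)
  have hτ : ∀ y ∈ O, τ y ∈ O := by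
    intro y hy
    by_cases h : g • y ∈ O
    · simp only [τ, if_pos h, h]
    · simp only [τ, if_neg h]
      exact ((hOB _).1 ((hg y).2 (hOsub y hy))).resolve_left h
  have hτinj : ∀ y ∈ O, ∀ z ∈ O, τ y = τ z → y = z := by
    intro y hy z hz hyz
    by_cases h : g • y ∈ O <;> by_cases h' : g • z ∈ O
    · simp only [τ, if_pos h, if_pos h'] at hyz
      exact smul_left_cancel g hyz
    · simp only [τ, if_pos h, if_neg h'] at hyz
      rw [← hG] at hyz
      have h1 := smul_left_cancel g hyz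
      rw [h1] at hy
      exact absurd hy (hO z hz)
    · simp only [τ, if_neg h, if_pos h'] at hyz
      rw [← hG] at hyz
      have h1 := smul_left_cancel g hyz
      rw [← h1] at hz
      exact absurd hz (hO y hy)
    · simp only [τ, if_neg h, if_neg h'] at hyz
      rw [← hG, ← hG] at hyz
      have h1 := smul_left_cancel g hyz
      rw [← hinv y, h1, hinv]
  have h1 : ∏ y ∈ O, e (τ y) = ∏ y ∈ O, e y := by
    refine Finset.prod_bij (fun y _ => τ y) hτ (fun a ha b hb h => hτinj a ha b hb h) ?_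
      (fun _ _ => rfl)
    intro b hb
    have hsurj := Finset.surj_on_of_inj_on_of_card_le (fun y (_ : y ∈ O) => τ y)
      hτ (fun a b ha hb h => hτinj a ha b hb h) le_rfl b hb
    obtain ⟨a, ha, hab⟩ := hsurj
    exact ⟨a, ha, hab.symm⟩
  rw [← h1, ← Finset.prod_const, Finset.prod_filter, ← Finset.prod_mul_distrib]
  refine prod_congr rfl fun y hy => ?_
  by_cases h : g • y ∈ O
  · have h2 : ¬ (g • y ∉ O) := fun h' => h' h
    simp only [τ, if_pos h]
    rw [if_neg h2, one_mul]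
  · have h2 : g • y ∉ O := h
    simp only [τ, if_neg h]
    rw [if_pos h2, he _ ((hg y).2 (hOsub y hy))]
    ring

/-- **Cores of `2 ^ (k + 1)` elements.** An odd function satisfies no relation if some element which
preserves the core moves an odd number of elements of a half of the core out of the half. -/
theorem no_rel_two [IsPretransitive G Y] (hinv : ∀ y, inv (inv y) = y) (hne : ∀ y, inv y ≠ y)
    (hG : ∀ (g : G) (y : Y), g • inv y = inv (g • y)) (hD : ∀ y, D (inv y) = -D y)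
    (hodd : ∀ y, Odd (D y)) (k n : ℕ) (x : Y) (hcard : (core G inv n x).ncard = 2 * 2 ^ k)
    (O : Finset Y) (hO : ∀ y ∈ O, inv y ∉ O)
    (hOB : ∀ y, y ∈ core G inv n x ↔ y ∈ O ∨ inv y ∈ O) (g₀ : G)
    (hg₀ : g₀ • x ∈ core G inv n x) (hcount : Odd (O.filter fun y => g₀ • y ∉ O).card)
    {c : Y → ℤ} (hc : c ∈ Rel G inv D Set.univ) : c = 0 := by
  classical
  have _ : Fact (Nat.Prime 2) := ⟨Nat.prime_two⟩
  by_contra hc0
  obtain ⟨c', hc', hx'⟩ := exists_rel_core hinv hne hG n x hc hc0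
  set H := coreStab hinv hG n x with hH
  have hHB : ∀ h ∈ H, ∀ y, h • y ∈ core G inv n x ↔ y ∈ core G inv n x := fun h hh y =>
    smul_mem_core hinv hG (self_mem n x) hh y
  obtain ⟨S⟩ := (inferInstance : Nonempty (Sylow 2 (bar H Y)))
  have horbH : orbit (bar H Y) x = core G inv n x := by
    ext y
    rw [mem_orbit_bar]
    constructor
    · rintro ⟨h, hh, rfl⟩
      exact hh
    · intro hy
      obtain ⟨g, rfl⟩ := exists_smul_eq G x y
      exact ⟨g, hy, rfl⟩
  have htrans : ∀ y ∈ core G inv n x, y ∈ orbit S x := by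
    intro y hy
    refine sylow_transitive 2 S x (k + 1) ?_ (by rwa [horbH])
    rw [horbH, Nat.card_coe_set_eq, hcard, pow_succ, mul_comm]
  obtain ⟨m, hm, hmd, hmc⟩ := exists_congr hG 2 H hHB S ⟨c', hc', fun h => hx' (by rw [h]; rfl)⟩
  have hmodd : ∀ y ∈ core G inv n x, Odd (m y) := by
    intro y hy
    by_contra hcon
    rw [Int.not_odd_iff_even, even_iff_two_dvd] at hcon
    obtain ⟨s, hs⟩ := htrans y hy
    have h1 : (2 : ℤ) ∣ m y - m x := by
      rw [← hs]
      exact hmc s x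
    have h2 : (2 : ℤ) ∣ m x := by omega
    refine hmd (div_mem 2 hm fun z => ?_)
    by_cases hz : z ∈ core G inv n x
    · obtain ⟨t, ht⟩ := htrans z hz
      have h3 : (2 : ℤ) ∣ m z - m x := by
        rw [← ht]
        exact hmc t x
      push_cast
      omega
    · rw [hm.2.2 z hz]
      exact dvd_zero _
  have hrel : ∀ g : G, ∑ y ∈ O, m y * D (g • y) = 0 := by
    intro g
    have h1 := hm.2.1 g
    rw [sum_eq_two_mul hinv O hO hOB (fun y => m y * D (g • y)) (fun y => by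
      rw [hm.1, hG, hD]
      ring) (fun y hy => by rw [hm.2.2 y hy, zero_mul])] at h1
    exact (mul_eq_zero.1 h1).resolve_left two_ne_zero
  have hOsub : ∀ y ∈ O, y ∈ core G inv n x := fun y hy => (hOB y).2 (Or.inl hy)
  have h4 : ∀ g : G, (4 : ℤ) ∣ ∑ y ∈ O, sg (m y * D (g • y)) := by
    intro g
    have h1 : (4 : ℤ) ∣ ∑ y ∈ O, (m y * D (g • y) - sg (m y * D (g • y))) :=
      dvd_sum fun y hy => sg_congr ((hmodd y (hOsub y hy)).mul (hodd _))
    rw [sum_sub_distrib, hrel, zero_sub, dvd_neg] at h1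
    exact h1
  have h5 : ∏ y ∈ O, sg (m y * D (g₀ • y)) = ∏ y ∈ O, sg (m y * D ((1 : G) • y)) :=
    prod_eq_of_sum O _ _ (fun y _ => sg_cases _) (fun y _ => sg_cases _) (h4 g₀) (h4 1)
  have h6 : ∀ g : G, ∏ y ∈ O, sg (m y * D (g • y)) =
      (∏ y ∈ O, sg (m y)) * ∏ y ∈ O, sg (D (g • y)) := by
    intro g
    rw [← prod_mul_distrib]
    exact prod_congr rfl fun y hy => sg_mul (hmodd y (hOsub y hy)) (hodd _)
  rw [h6, h6] at h5
  have hne0 : ∀ (f : Y → ℤ), ∏ y ∈ O, sg (f y) ≠ 0 := by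
    intro f
    rw [Finset.prod_ne_zero_iff]
    intro y _
    rcases sg_cases (f y) with h | h <;> rw [h] <;> norm_num
  have h7 := mul_left_cancel₀ (hne0 m) h5
  rw [prod_translate hinv hG O hO hOB g₀
    (fun y => smul_mem_core hinv hG (self_mem n x) hg₀ y) (fun y => sg (D y))
    (fun y _ => by rw [hD, sg_neg (hodd y)]), hcount.neg_one_pow] at h7
  simp only [one_smul] at h7
  have h8 := hne0 D
  apply h8
  linarith

end Pool.Agent.H298.Core
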