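import Mathlib
import Pool.Agent.H298.Core.Two
import Pool.Graph.R_seed8.H204R3.CM.Nondeg
import Pool.Graph.R_seed8.H204R3.CM.Disc
import Pool.Graph.R_seed8.H977R3.CM.Aut

/-!
# Embeddings of number fields: the action of the automorphisms of `ℂ`, and subfields
-/

set_option autoImplicit false
set_option linter.unusedSectionVars false

namespace Pool.Agent.H298.Core

open NumberField Module Pool.Agent.H204R3.CM Pool.Agent.H977R3.CM

/-- The automorphisms of `ℂ` act on the embeddings of the field `E`. -/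
@[reducible] def actC (E : Type) [Field E] : MulAction (ℂ ≃+* ℂ) (E →+* ℂ) where
  smul σ φ := (σ : ℂ →+* ℂ).comp φ
  one_smul φ := RingHom.ext fun _ => rfl
  mul_smul σ τ φ := RingHom.ext fun _ => rfl

attribute [local instance] actC

theorem actC_smul {E : Type} [Field E] (σ : ℂ ≃+* ℂ) (φ : E →+* ℂ) :
    σ • φ = (σ : ℂ →+* ℂ).comp φ := rfl

theorem actC_apply {E : Type} [Field E] (σ : ℂ ≃+* ℂ) (φ : E →+* ℂ) (x : E) :
    (σ • φ) x = σ (φ x) := rfl

section

/-- A Galois closure with its embeddings. -/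
theorem exists_closure (E : Type) [Field E] [NumberField E] (φ₀ : E →+* ℂ) :
    ∃ (L : IntermediateField ℚ (AlgebraicClosure ℚ)) (_ : NumberField L) (_ : IsGalois ℚ L)
      (j : L →+* ℂ) (e : E →+* L), j.comp e = φ₀ ∧
      (∀ φ : E →+* ℂ, ∃ g : L ≃ₐ[ℚ] L, ∀ x, φ x = j (g (e x))) ∧
      (∀ (g : L ≃ₐ[ℚ] L), ∃ σ : ℂ ≃+* ℂ, ∀ x, σ (j x) = j (g x)) := by
  obtain ⟨L, hL1, hL2, j, hj⟩ := exists_galois (fun _ : Unit => E)
  obtain ⟨e, he⟩ := hj () φ₀
  refine ⟨L, hL1, hL2, j, e, he, fun φ => ?_, fun g => ?_⟩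
  · obtain ⟨e', he'⟩ := hj () φ
    obtain ⟨g, hg⟩ := MulAction.exists_smul_eq (L ≃ₐ[ℚ] L) e e'
    refine ⟨g, fun x => ?_⟩
    rw [← he', ← hg]
    rfl
  · exact Pool.Agent.H977R3.CM.exists_aut j (g : L ≃+* L)

variable {E : Type} [Field E] [NumberField E]

instance : MulAction.IsPretransitive (ℂ ≃+* ℂ) (E →+* ℂ) := by
  refine ⟨fun φ ψ => ?_⟩
  obtain ⟨L, _, _, j, e, he, h1, h2⟩ := exists_closure E φ
  obtain ⟨g, hg⟩ := h1 ψ
  obtain ⟨σ, hσ⟩ := h2 g
  refine ⟨σ, ?_⟩
  ext x
  rw [actC_apply, ← he, hg x]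
  exact hσ (e x)

/-- An equivalence relation on the embeddings that is preserved by the automorphisms of `ℂ` is
given by a subfield. -/
theorem exists_subfield (R : Setoid (E →+* ℂ))
    (hR : ∀ (σ : ℂ ≃+* ℂ) (φ ψ : E →+* ℂ), R φ ψ → R (σ • φ) (σ • ψ)) :
    ∃ K : IntermediateField ℚ E, ∀ φ ψ : E →+* ℂ, (∀ x ∈ K, φ x = ψ x) ↔ R φ ψ := by
  obtain ⟨φ₀⟩ : Nonempty (E →+* ℂ) := inferInstance
  obtain ⟨L, _, _, j, e, he, h1, h2⟩ := exists_closure E φ₀
  -- translates
  let T : (L ≃ₐ[ℚ] L) → (E →+* ℂ) := fun g => j.comp ((g : L →+* L).comp e)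
  have hTsurj : ∀ φ : E →+* ℂ, ∃ g, φ = T g := fun φ => by
    obtain ⟨g, hg⟩ := h1 φ
    exact ⟨g, RingHom.ext hg⟩
  have hTmul : ∀ g h k : L ≃ₐ[ℚ] L, R (T h) (T k) → R (T (g * h)) (T (g * k)) := by
    intro g h k hhk
    obtain ⟨σ, hσ⟩ := h2 g
    have h3 := hR σ _ _ hhk
    have h4 : ∀ h : L ≃ₐ[ℚ] L, σ • T h = T (g * h) := by
      intro h
      ext x
      exact hσ (h (e x))
    rwa [h4, h4] at h3
  let H : Subgroup (L ≃ₐ[ℚ] L) :=
    { carrier := {g | R (T g) (T 1)}
      mul_mem' := fun {g h} hg hh => by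
        have h3 := hTmul g h 1 hh
        rw [mul_one] at h3
        exact R.trans h3 hg
      one_mem' := R.refl _
      inv_mem' := fun {g} hg => by
        have h3 := hTmul g⁻¹ g 1 hg
        rw [inv_mul_cancel, mul_one] at h3
        exact R.symm h3 }
  have hH : ∀ g h : L ≃ₐ[ℚ] L, R (T g) (T h) ↔ h⁻¹ * g ∈ H := by
    intro g h
    constructor
    · intro h3
      have h4 := hTmul h⁻¹ g h h3
      rwa [inv_mul_cancel] at h4
    · intro h3
      have h4 := hTmul h (h⁻¹ * g) 1 h3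
      rwa [mul_inv_cancel_left, mul_one] at h4
  let e' : E →ₐ[ℚ] L := RingHom.equivRatAlgHom E L e
  have he' : ∀ x, e' x = e x := fun x => rfl
  refine ⟨(IntermediateField.fixedField H).comap e', fun φ ψ => ?_⟩
  obtain ⟨g, rfl⟩ := hTsurj φ
  obtain ⟨h, rfl⟩ := hTsurj ψ
  have hmem : ∀ x : E, x ∈ (IntermediateField.fixedField H).comap e' ↔ ∀ f ∈ H, f (e x) = e x := by
    intro x
    exact IntermediateField.mem_fixedField_iff H (e x)
  rw [hH]
  constructor
  · intro h3
    have h4 : h⁻¹ * g ∈ (IntermediateField.fixedField H).fixingSubgroup := by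
      rw [IntermediateField.mem_fixingSubgroup_iff]
      intro z hz
      -- `z` lies in the image of `e`
      have h5 : z ∈ e'.fieldRange := by
        rw [← IsGalois.fixedField_fixingSubgroup e'.fieldRange, IntermediateField.mem_fixedField_iff]
        intro f hf
        rw [IntermediateField.mem_fixedField_iff] at hz
        refine hz f ?_
        have h6 : T f = T 1 := by
          ext x
          have h7 : f (e x) = e x :=
            (IntermediateField.mem_fixingSubgroup_iff _ _).1 hf (e x) ⟨x, rfl⟩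
          exact congrArg j h7
        change R (T f) (T 1)
        rw [h6]
      obtain ⟨x, rfl⟩ := h5
      have hx : x ∈ (IntermediateField.fixedField H).comap e' := hz
      have h6 : j (g (e x)) = j (h (e x)) := h3 x hx
      have h7 := j.injective h6
      change h⁻¹ (g (e x)) = e x
      rw [h7]
      exact h.symm_apply_apply _
    rwa [IntermediateField.fixingSubgroup_fixedField] at h4
  · intro h3 x hx
    have h4 := (hmem x).1 hx _ h3
    change j (g (e x)) = j (h (e x))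
    congr 1
    have h5 : h ((h⁻¹ * g) (e x)) = g (e x) := h.apply_symm_apply _
    rw [← h5, h4]

end

end Pool.Agent.H298.Core
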