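import Mathlib
import Pool.Agent.H298.Core.Defs
import Pool.Graph.R_seed8.TH170.CM.Defs

/-!
# Types with weights for fields with small cores
-/

set_option autoImplicit false

namespace Pool.Agent.H298.Core

open NumberField Module Pool.Agent.TH170.CM

/-- The function `D` on the embeddings of `E` comes from a proper subfield `K`: its value depends
only on the restriction of the embedding to `K`. -/
def Induced {E : Type} [Field E] [NumberField E] (D : (E →+* ℂ) → ℤ) : Prop :=
  ∃ K : IntermediateField ℚ E, K ≠ ⊤ ∧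
    ∀ φ ψ : E →+* ℂ, (∀ x ∈ K, φ x = ψ x) → D φ = D ψ

open Classical in
/-- The function `D` on the embeddings of `E` is balanced over a subfield `K` which is not totally
real, `[E : K] = p`: the sum of its values at the extensions of any embedding of `K` is zero. -/
def Balanced {E : Type} [Field E] [NumberField E] (p : ℕ) (D : (E →+* ℂ) → ℤ) : Prop :=
  ∃ K : IntermediateField ℚ E, finrank K E = p ∧ ¬ IsTotallyReal K ∧
    ∀ φ : E →+* ℂ, ∑ ψ : E →+* ℂ with (∀ x ∈ K, ψ x = φ x), D ψ = 0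

/-- The signed weights of a type: `M φ` at the elements `φ` of `Φ`, and `-M φ` at the others. -/
noncomputable def weights {E : Type} [Field E] (M : (E →+* ℂ) → ℤ) (Φ : Set (E →+* ℂ))
    (φ : E →+* ℂ) : ℤ :=
  sgn Φ φ * M φ

/-- The odd part of `E` is irreducible, for instance because there is a core with one pair; or `E` has
a primitive core, for instance because of the discriminants, and the type `Φ` with the weights `M`
does not come from a proper subfield, and (this is automatic for cores with two pairs, and for cores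
with an odd number of pairs if the weights are odd) it is not balanced. -/
def SmallCore {E : Type} [Field E] [NumberField E] (M : (E →+* ℂ) → ℤ) (Φ : Set (E →+* ℂ)) :
    Prop :=
  HasCore E 1 ∨ Pool.Agent.Y156.P.OddIrreducible E ∨ (¬ Induced (weights M Φ) ∧
    ((∃ c : ℕ, PrimitiveCore E c ∧
      (c = 2 ∨ (Odd c ∧ ∀ φ, Odd (M φ)) ∨ ¬ Balanced c (weights M Φ))) ∨
    (FewDivisors E ∧ ((∀ φ, Odd (M φ)) ∨ ∀ p : ℕ, p.Prime → p ≠ 2 → ¬ Balanced p (weights M Φ)))))

/-- A core of `E` has `p ^ k` pairs of embeddings, where `p` is an odd prime number; it contains an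
orbit `O` of `p ^ k` embeddings of a group of automorphisms of the complex numbers, and `p` does not
divide the sum of the signed weights over `O`. -/
def OddPrimePowerCore {E : Type} [Field E] [NumberField E] (M : (E →+* ℂ) → ℤ)
    (Φ : Set (E →+* ℂ)) : Prop :=
  ∃ (p k n : ℕ) (φ : E →+* ℂ) (H : Subgroup (ℂ ≃+* ℂ)) (O : Finset (E →+* ℂ)), p.Prime ∧ p ≠ 2 ∧
    (coreOf n φ).ncard = 2 * p ^ k ∧ O.card = p ^ k ∧ (∀ ψ ∈ O, ψ ∈ coreOf n φ) ∧
    (∀ ψ, ψ ∈ O ↔ ∃ σ ∈ H, (σ : ℂ →+* ℂ).comp φ = ψ) ∧ ¬ (p : ℤ) ∣ ∑ ψ ∈ O, weights M Φ ψ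

/-- A core of `E` has `2 ^ k` pairs of embeddings, the weights are odd, and some automorphism of the
complex numbers which maps the core to itself moves an odd number of the elements of `Φ` in the core
out of `Φ`. -/
def TwoPowerCore {E : Type} [Field E] (M : (E →+* ℂ) → ℤ) (Φ : Set (E →+* ℂ)) : Prop :=
  ∃ (k n : ℕ) (φ : E →+* ℂ) (σ : ℂ ≃+* ℂ), (coreOf n φ).ncard = 2 * 2 ^ k ∧ (∀ φ, Odd (M φ)) ∧
    (σ : ℂ →+* ℂ).comp φ ∈ coreOf n φ ∧
    Odd {ψ : E →+* ℂ | ψ ∈ coreOf n φ ∧ ψ ∈ Φ ∧ (σ : ℂ →+* ℂ).comp ψ ∉ Φ}.ncard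

end Pool.Agent.H298.Core
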