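import Mathlib
import Pool.Agent.H298.Core.TypeDefs
import Pool.Agent.H298.Core.Field
import Pool.Graph.R_pool_sql_team_seeded_3997aac3.Q29.OS.Rel
import Pool.Graph.R_pool_sql_team_seeded_3997aac3.Q29.EP.Law

/-!
# Signatures of CM fields whose core has few elements
-/

set_option autoImplicit false
set_option linter.unusedSectionVars false
set_option linter.unusedVariables false

namespace Pool.Agent.H298.Core

open NumberField Module MulAction Finset Pool.Agent.H204R3.CM Pool.Agent.H977R3.CM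
  Pool.Agent.TH170.CM Pool.Agent.Q29.OS Pool.Agent.Q29.DP

attribute [local instance] actC

theorem coreOf_eq {E : Type} [Field E] (n : ℕ) (φ : E →+* ℂ) :
    coreOf n φ = core (ℂ ≃+* ℂ) ComplexEmbedding.conjugate n φ := by
  induction n with
  | zero => rfl
  | succ n ih =>
    ext ψ
    rw [mem_core_succ, ← ih]
    exact Iff.rfl

theorem odd_sum {Y : Type*} (O : Finset Y) (f : Y → ℤ) (hf : ∀ y ∈ O, Odd (f y)) :
    Odd (∑ y ∈ O, f y) ↔ Odd O.card := by
  classical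
  induction O using Finset.induction_on with
  | empty => simp
  | insert a s ha ih =>
    have h1 := hf a (Finset.mem_insert_self _ _)
    have h2 := ih fun y hy => hf y (Finset.mem_insert_of_mem hy)
    rw [Finset.sum_insert ha, Finset.card_insert_of_notMem ha, Int.odd_add, Nat.odd_add_one,
      ← h2]
    simp [h1]

section

variable {E : Type} [Field E] [NumberField E]

/-- The number of the extensions of an embedding of a subfield. -/
theorem card_extensions (K : IntermediateField ℚ E) (φ : E →+* ℂ) :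
    Nat.card {ψ : E →+* ℂ // ∀ x ∈ K, ψ x = φ x} = finrank K E := by
  let _ : Algebra K ℂ := (φ.comp (algebraMap K E)).toAlgebra
  have h1 : Fintype.card (E →ₐ[K] ℂ) = finrank K E := AlgHom.card K E ℂ
  rw [← h1, ← Nat.card_eq_fintype_card]
  refine Nat.card_congr
    { toFun := fun ψ => { (ψ.1 : E →+* ℂ) with commutes' := fun x => ψ.2 (x : E) x.2 }
      invFun := fun ψ => ⟨(ψ : E →+* ℂ), fun x hx => ψ.commutes ⟨x, hx⟩⟩
      left_inv := fun ψ => rfl
      right_inv := fun ψ => rfl }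

theorem conj_conj (φ : E →+* ℂ) :
    ComplexEmbedding.conjugate (ComplexEmbedding.conjugate φ) = φ := by
  ext x
  simp

variable [IsCMField E]

theorem cbar_eq (φ : E →+* ℂ) : cbar φ = ComplexEmbedding.conjugate φ := by
  have h := comp_cbar (RingHom.id ℂ) φ
  rwa [RingHom.id_comp, RingHom.id_comp] at h

theorem conj_ne (φ : E →+* ℂ) : ComplexEmbedding.conjugate φ ≠ φ := by
  rw [← cbar_eq]
  exact cbar_ne φ

theorem smul_conj (σ : ℂ ≃+* ℂ) (φ : E →+* ℂ) :
    σ • ComplexEmbedding.conjugate φ = ComplexEmbedding.conjugate (σ • φ) := by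
  rw [← cbar_eq, actC_smul, comp_cbar]
  rfl

variable {M : (E →+* ℂ) → ℤ} {Φ : Set (E →+* ℂ)}

theorem weights_conj (hM : ∀ φ, M (ComplexEmbedding.conjugate φ) = M φ) (hΦ : IsCMType Φ)
    (φ : E →+* ℂ) : weights M Φ (ComplexEmbedding.conjugate φ) = -weights M Φ φ := by
  unfold weights
  rw [sgn_conj' hΦ, hM]
  ring

theorem weights_ne (hM0 : ∀ φ, M φ ≠ 0) (φ : E →+* ℂ) : weights M Φ φ ≠ 0 := by
  unfold weights
  refine mul_ne_zero ?_ (hM0 φ)
  unfold sgn
  split_ifs <;> norm_num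

theorem weights_odd (hM : ∀ φ, Odd (M φ)) (φ : E →+* ℂ) : Odd (weights M Φ φ) := by
  unfold weights
  refine Odd.mul ?_ (hM φ)
  unfold sgn
  split_ifs
  · exact odd_one
  · exact odd_neg_one

/-- Absence of relations, in terms of the abstract relations. -/
theorem noRelations_of (h : ∀ c ∈ Rel (ℂ ≃+* ℂ) ComplexEmbedding.conjugate (weights M Φ) Set.univ,
    c = 0) : NoRelations M Φ := by
  intro c hc hrel
  exact h c ⟨hc, fun σ => hrel σ, fun y hy => absurd (Set.mem_univ y) hy⟩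

/-- A constant pair of embeddings gives a subfield. -/
theorem induced_of_pair {D : (E →+* ℂ) → ℤ} {y₁ y₂ : E →+* ℂ} (hne : y₁ ≠ y₂)
    (h : ∀ σ : ℂ ≃+* ℂ, D (σ • y₁) = D (σ • y₂)) : Induced D := by
  obtain ⟨K, hK⟩ := exists_subfield
    { r := fun φ ψ => ∀ σ : ℂ ≃+* ℂ, D (σ • φ) = D (σ • ψ)
      iseqv := ⟨fun φ σ => rfl, fun h σ => (h σ).symm, fun h h' σ => (h σ).trans (h' σ)⟩ }
    (fun σ φ ψ h τ => by
      have h1 := h (τ * σ)
      rwa [mul_smul, mul_smul] at h1)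
  refine ⟨K, ?_, fun φ ψ hφψ => ?_⟩
  · rintro rfl
    apply hne
    ext x
    exact (hK y₁ y₂).2 h x trivial
  · have h1 := (hK φ ψ).1 hφψ 1
    rwa [one_smul, one_smul] at h1

/-- A balanced block gives a subfield. -/
theorem balanced_of_block {D : (E →+* ℂ) → ℤ} {p : ℕ} {x : E →+* ℂ} (O : Finset (E →+* ℂ))
    (hx : x ∈ O) (hcard : O.card = p)
    (hO : ∀ y ∈ O, ComplexEmbedding.conjugate y ∉ O)
    (hblock : ∀ (σ : ℂ ≃+* ℂ), ∀ y ∈ O, σ • y ∈ O → ∀ z ∈ O, σ • z ∈ O)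
    (hsum : ∀ σ : ℂ ≃+* ℂ, ∑ y ∈ O, D (σ • y) = 0) : Balanced p D := by
  classical
  obtain ⟨K, hK⟩ := exists_subfield
    { r := fun φ ψ => ∃ σ : ℂ ≃+* ℂ, σ • φ ∈ O ∧ σ • ψ ∈ O
      iseqv := ⟨fun φ => by
        obtain ⟨σ, hσ⟩ := exists_smul_eq (ℂ ≃+* ℂ) φ x
        exact ⟨σ, by rwa [hσ], by rwa [hσ]⟩, fun ⟨σ, h1, h2⟩ => ⟨σ, h2, h1⟩, by
        rintro a b c ⟨σ, h1, h2⟩ ⟨τ, h3, h4⟩
        refine ⟨τ, ?_, h4⟩
        have h5 := hblock (τ * σ⁻¹) (σ • b) h2 (by rwa [mul_smul, inv_smul_smul]) (σ • a) h1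
        rwa [mul_smul, inv_smul_smul] at h5⟩ }
    (fun σ φ ψ ⟨τ, h1, h2⟩ => ⟨τ * σ⁻¹, by rwa [mul_smul, inv_smul_smul],
      by rwa [mul_smul, inv_smul_smul]⟩)
  have hfib : ∀ (φ : E →+* ℂ) (σ : ℂ ≃+* ℂ), σ • φ ∈ O → ∀ ψ : E →+* ℂ,
      (∀ x ∈ K, ψ x = φ x) ↔ σ • ψ ∈ O := by
    intro φ σ hσ ψ
    rw [hK]
    constructor
    · rintro ⟨τ, h1, h2⟩
      have h5 := hblock (σ * τ⁻¹) (τ • φ) h2 (by rwa [mul_smul, inv_smul_smul]) (τ • ψ) h1
      rwa [mul_smul, inv_smul_smul] at h5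
    · intro h
      exact ⟨σ, h, hσ⟩
  refine ⟨K, ?_, ?_, ?_⟩
  · rw [← card_extensions K x, ← hcard]
    have h1 : Nat.card {ψ : E →+* ℂ // ∀ y ∈ K, ψ y = x y} = Nat.card O := by
      refine Nat.card_congr (Equiv.subtypeEquivRight fun ψ => ?_)
      rw [hfib x 1 (by rwa [one_smul]), one_smul]
    rw [h1, Nat.card_eq_fintype_card, Fintype.card_coe]
  · intro hreal
    have h1 : (∀ y ∈ K, ComplexEmbedding.conjugate x y = x y) := by
      intro y hy
      have h2 : ComplexEmbedding.IsReal (x.comp (algebraMap K E)) :=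
        IsTotallyReal.complexEmbedding_isReal _
      exact RingHom.congr_fun h2 ⟨y, hy⟩
    rw [hfib x 1 (by rwa [one_smul]), one_smul] at h1
    exact hO x hx h1
  · intro φ
    obtain ⟨σ, hσ⟩ := exists_smul_eq (ℂ ≃+* ℂ) φ x
    have h1 : (univ.filter fun ψ : E →+* ℂ => ∀ x ∈ K, ψ x = φ x) =
        O.image (fun y => σ⁻¹ • y) := by
      ext ψ
      rw [mem_filter, mem_image, hfib φ σ (by rwa [hσ])]
      constructor
      · rintro ⟨-, h⟩
        exact ⟨_, h, inv_smul_smul _ _⟩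
      · rintro ⟨y, hy, rfl⟩
        exact ⟨mem_univ _, by rwa [smul_inv_smul]⟩
    have h3 : ∑ ψ ∈ O.image (fun y => σ⁻¹ • y), D ψ = 0 := by
      rw [sum_image fun a _ b _ hab => smul_left_cancel _ hab]
      exact hsum σ⁻¹
    convert h3 using 2

variable (hM : ∀ φ, M (ComplexEmbedding.conjugate φ) = M φ) (hM0 : ∀ φ, M φ ≠ 0)
  (hΦ : IsCMType Φ)
include hM hM0 hΦ

/-- One pair in the core. -/
theorem noRelations_core_one {n : ℕ} {φ : E →+* ℂ} (hcard : (coreOf n φ).ncard = 2) :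
    NoRelations M Φ := by
  classical
  rw [coreOf_eq] at hcard
  exact noRelations_of fun c hc => core_two_elements conj_conj conj_ne smul_conj
    (weights_conj hM hΦ) (weights_ne hM0) n φ hcard hc

/-- A prime number of pairs in the core. -/
theorem noRelations_core_prime {n : ℕ} {φ : E →+* ℂ} {p : ℕ} (hp : p.Prime)
    (hcard : (coreOf n φ).ncard = 2 * p) (hind : ¬ Induced (weights M Φ))
    (hbal : p = 2 ∨ (∀ φ, Odd (M φ)) ∨ ¬ Balanced p (weights M Φ)) : NoRelations M Φ := by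
  classical
  rw [coreOf_eq] at hcard
  have _ : Fact p.Prime := ⟨hp⟩
  refine noRelations_of fun c hc => ?_
  by_contra hc0
  by_cases hp2 : p = 2
  · subst hp2
    obtain ⟨y₁, y₂, hne, h⟩ := prime_core_two conj_conj conj_ne smul_conj
      (weights_conj hM hΦ) (weights_ne hM0) n φ hcard hc hc0
    exact hind (induced_of_pair hne h)
  · rcases prime_core_odd conj_conj conj_ne smul_conj (weights_conj hM hΦ) p n hp2 φ hcard hc
      hc0 with ⟨y₁, y₂, hne, h⟩ | ⟨O, hx, hOcard, hO, hblock, hsum⟩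
    · exact hind (induced_of_pair hne h)
    · rcases hbal with h | h | h
      · exact hp2 h
      · have h1 := hsum 1
        have h2 : Odd (∑ y ∈ O, weights M Φ ((1 : ℂ ≃+* ℂ) • y)) := by
          refine (odd_sum O _ fun y _ => weights_odd h _).2 ?_
          rw [hOcard]
          exact hp.odd_of_ne_two hp2
        rw [h1] at h2
        exact absurd h2 (by decide)
      · exact h (balanced_of_block O hx hOcard hO hblock hsum)

/-- A power of an odd prime number of pairs in the core. -/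
theorem noRelations_core_odd {n : ℕ} {φ : E →+* ℂ} {p k : ℕ} (hp : p.Prime) (hp2 : p ≠ 2)
    (hcard : (coreOf n φ).ncard = 2 * p ^ k) (H : Subgroup (ℂ ≃+* ℂ)) (O : Finset (E →+* ℂ))
    (hmem : ∀ ψ, ψ ∈ O ↔ ∃ σ ∈ H, (σ : ℂ →+* ℂ).comp φ = ψ) (hsub : ∀ ψ ∈ O, ψ ∈ coreOf n φ)
    (hOcard : O.card = p ^ k) (hnd : ¬ (p : ℤ) ∣ ∑ ψ ∈ O, weights M Φ ψ) : NoRelations M Φ := by
  classical
  rw [coreOf_eq] at hcard hsub
  have _ : Fact p.Prime := ⟨hp⟩
  exact noRelations_of fun c hc => no_rel_odd conj_conj conj_ne smul_conj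
    (weights_conj hM hΦ) p k n hp2 φ H O hmem hsub hOcard hcard hnd hc

/-- A power of two of pairs in the core. -/
theorem noRelations_core_two {n : ℕ} {φ : E →+* ℂ} {k : ℕ}
    (hcard : (coreOf n φ).ncard = 2 * 2 ^ k) (hodd : ∀ φ, Odd (M φ)) (σ : ℂ ≃+* ℂ)
    (hσ : (σ : ℂ →+* ℂ).comp φ ∈ coreOf n φ)
    (hcount : Odd {ψ : E →+* ℂ | ψ ∈ coreOf n φ ∧ ψ ∈ Φ ∧ (σ : ℂ →+* ℂ).comp ψ ∉ Φ}.ncard) :
    NoRelations M Φ := by
  classical
  rw [coreOf_eq] at hcard hσ hcount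
  have hcore : ∀ ψ, σ • ψ ∈ core (ℂ ≃+* ℂ) ComplexEmbedding.conjugate n φ ↔
      ψ ∈ core (ℂ ≃+* ℂ) ComplexEmbedding.conjugate n φ := fun ψ =>
    smul_mem_core conj_conj smul_conj (self_mem n φ) hσ ψ
  let O : Finset (E →+* ℂ) := univ.filter fun ψ =>
    ψ ∈ core (ℂ ≃+* ℂ) ComplexEmbedding.conjugate n φ ∧ ψ ∈ Φ
  have hO : ∀ ψ, ψ ∈ O ↔ ψ ∈ core (ℂ ≃+* ℂ) ComplexEmbedding.conjugate n φ ∧ ψ ∈ Φ := by
    intro ψ
    simp [O]
  refine noRelations_of fun c hc => no_rel_two conj_conj conj_ne smul_conj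
    (weights_conj hM hΦ) (weights_odd hodd) k n φ hcard O ?_ ?_ σ hσ ?_ hc
  · intro ψ hψ hψ'
    exact (hΦ ψ).1 ((hO _).1 hψ).2 ((hO _).1 hψ').2
  · intro ψ
    rw [hO, hO, inv_mem_iff conj_conj smul_conj]
    constructor
    · intro h
      by_cases h1 : ψ ∈ Φ
      · exact Or.inl ⟨h, h1⟩
      · right
        refine ⟨h, ?_⟩
        rw [hΦ, conj_conj]
        exact h1
    · rintro (h | h)
      · exact h.1
      · exact h.1
  · have h1 : {ψ : E →+* ℂ | ψ ∈ core (ℂ ≃+* ℂ) ComplexEmbedding.conjugate n φ ∧ ψ ∈ Φ ∧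
        (σ : ℂ →+* ℂ).comp ψ ∉ Φ} = ((O.filter fun y => σ • y ∉ O : Finset (E →+* ℂ)) :
          Set (E →+* ℂ)) := by
      ext ψ
      rw [Set.mem_ofPred_eq, Finset.mem_coe, mem_filter, hO, hO, hcore, ← and_assoc]
      refine and_congr_right fun h => ?_
      constructor
      · intro h1 h2
        exact h1 h2.2
      · intro h1 h2
        exact h1 ⟨h.1, h2⟩
    rwa [h1, Set.ncard_coe_finset] at hcount

end

end Pool.Agent.H298.Core
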