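import Mathlib
import Pool.Agent.H298.Core.Prime

/-!
# Small cores, for functions which may have zeros
-/

set_option autoImplicit false
set_option linter.unusedSectionVars false
set_option linter.unusedVariables false

namespace Pool.Agent.H298.Core

open MulAction Finset

variable {G : Type*} [Group G] {Y : Type*} [MulAction G Y] {inv : Y → Y} [Fintype Y]
  [DecidableEq Y] {D : Y → ℤ}

theorem zero_core_two [IsPretransitive G Y] (hinv : ∀ y, inv (inv y) = y)
    (hne : ∀ y, inv y ≠ y) (hG : ∀ (g : G) (y : Y), g • inv y = inv (g • y))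
    (hD : ∀ y, D (inv y) = -D y) (n : ℕ) (x : Y)
    (hcard : (core G inv n x).ncard = 4) {c : Y → ℤ} (hc : c ∈ Rel G inv D Set.univ)
    (hc0 : c ≠ 0) : ∃ y₁ y₂, y₁ ≠ y₂ ∧ ∀ g : G, D (g • y₁) = D (g • y₂) := by
  classical
  obtain ⟨c, hc, hcx⟩ := exists_rel_core hinv hne hG n x hc hc0
  -- a second element
  obtain ⟨z, hz, hzx, hzix⟩ : ∃ z ∈ core G inv n x, z ≠ x ∧ z ≠ inv x := by
    by_contra h
    push Not at h
    have h1 : core G inv n x ⊆ {x, inv x} := by
      intro y hy
      by_cases hyx : y = x
      · exact Or.inl hyx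
      · exact Or.inr (h y hy hyx)
    have h2 := Set.ncard_le_ncard h1 (Set.toFinite _)
    have h3 := Set.ncard_insert_le x {inv x}
    rw [Set.ncard_singleton] at h3
    omega
  let O : Finset Y := {x, z}
  have hO : ∀ y ∈ O, inv y ∉ O := by
    intro y hy
    simp only [O, Finset.mem_insert, Finset.mem_singleton] at hy ⊢
    rcases hy with rfl | rfl
    · rintro (h | h)
      · exact hne _ h
      · exact hzix h.symm
    · rintro (h | h)
      · apply hzix
        rw [← h, hinv]
      · exact hne _ h
  have hsub : ∀ y ∈ O, y ∈ core G inv n x := by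
    intro y hy
    simp only [O, Finset.mem_insert, Finset.mem_singleton] at hy
    rcases hy with rfl | rfl
    · exact self_mem n _
    · exact hz
  have hOcard : O.card = 2 := Finset.card_pair hzx.symm
  have hcover := half_cover hinv hG O hsub hO (by rw [hcard, hOcard])
  have hrel : ∀ g : G, c x * D (g • x) + c z * D (g • z) = 0 := by
    intro g
    have h1 := hc.2.1 g
    rw [sum_eq_two_mul hinv O hO hcover (fun y => c y * D (g • y)) (fun y => by
      rw [hc.1, hG, hD]
      ring) (fun y hy => by rw [hc.2.2 y hy, zero_mul])] at h1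
    have h2 := (mul_eq_zero.1 h1).resolve_left two_ne_zero
    rwa [Finset.sum_pair hzx.symm] at h2
  obtain ⟨t, rfl⟩ := exists_smul_eq G x z
  have htB : ∀ w, t • w ∈ core G inv n x ↔ w ∈ core G inv n x := fun w =>
    smul_mem_core hinv hG (self_mem n x) hz w
  by_cases hall : ∀ g : G, D (g • t • x) = 0
  · have hzero : ∀ y, D y = 0 := by
      intro y
      obtain ⟨g, rfl⟩ := exists_smul_eq G (t • x) y
      exact hall g
    exact ⟨x, inv x, (hne x).symm, fun g => by rw [hzero, hzero]⟩
  push Not at hall
  obtain ⟨g₁, hg₁⟩ := hall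
  -- the square of `t`
  have htt : t • t • x = x ∨ t • t • x = inv x := by
    have h1 := (hcover (t • t • x)).1 ((htB _).2 hz)
    simp only [O, Finset.mem_insert, Finset.mem_singleton] at h1
    rcases h1 with (h | h) | (h | h)
    · exact Or.inl h
    · exact absurd (smul_left_cancel t h) hzx
    · right
      rw [← hinv (t • t • x), h]
    · exfalso
      have h2 : t • inv (t • x) = t • x := by rw [hG, h]
      have h3 := smul_left_cancel t h2
      apply hzix
      rw [← hinv (t • x), h3]
  have hmain : c (t • x) = c x ∨ c (t • x) = -c x := by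
    have h1 := hrel g₁
    have h2 := hrel (g₁ * t)
    rw [mul_smul, mul_smul] at h2
    rcases htt with h | h
    · rw [h] at h2
      have h3 : (c (t • x) - c x) * (c (t • x) + c x) * D (g₁ • t • x) = 0 := by
        linear_combination c (t • x) * h1 - c x * h2
      have h4 := (mul_eq_zero.1 h3).resolve_right hg₁
      rcases mul_eq_zero.1 h4 with h5 | h5
      · left; linarith
      · right; linarith
    · rw [h, hG, hD] at h2
      exfalso
      have h3 : (c x * c x + c (t • x) * c (t • x)) * D (g₁ • t • x) = 0 := by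
        linear_combination c (t • x) * h1 + c x * h2
      have h4 := (mul_eq_zero.1 h3).resolve_right hg₁
      have h5 : 0 < c x * c x := mul_self_pos.2 hcx
      nlinarith [mul_self_nonneg (c (t • x))]
  rcases hmain with h | h
  · refine ⟨x, inv (t • x), fun hh => hzix ?_, fun g => ?_⟩
    · rw [← hinv (t • x), ← hh]
    · have h1 := hrel g
      rw [h, ← mul_add] at h1
      have h2 := (mul_eq_zero.1 h1).resolve_left hcx
      rw [hG, hD]
      linarith
  · refine ⟨x, t • x, hzx.symm, fun g => ?_⟩
    have h1 := hrel g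
    rw [h] at h1
    have h2 : c x * (D (g • x) - D (g • t • x)) = 0 := by linear_combination h1
    have h3 := (mul_eq_zero.1 h2).resolve_left hcx
    linarith

theorem zero_core_one [IsPretransitive G Y] (hinv : ∀ y, inv (inv y) = y)
    (hne : ∀ y, inv y ≠ y) (hG : ∀ (g : G) (y : Y), g • inv y = inv (g • y))
    (hD : ∀ y, D (inv y) = -D y) (n : ℕ) (x : Y)
    (hcard : (core G inv n x).ncard = 2) {c : Y → ℤ} (hc : c ∈ Rel G inv D Set.univ)
    (hc0 : c ≠ 0) : ∃ y₁ y₂, y₁ ≠ y₂ ∧ ∀ g : G, D (g • y₁) = D (g • y₂) := by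
  classical
  obtain ⟨c, hc, hcx⟩ := exists_rel_core hinv hne hG n x hc hc0
  have hcover := half_cover hinv hG {x} (fun y hy => by
    rw [Finset.mem_singleton] at hy
    rw [hy]
    exact self_mem n x) (fun y hy => by
      rw [Finset.mem_singleton] at hy ⊢
      rw [hy]
      exact hne x) (by rw [hcard, Finset.card_singleton])
  have hz : ∀ g : G, D (g • x) = 0 := by
    intro g
    have h1 := hc.2.1 g
    rw [sum_eq_two_mul hinv {x} (fun y hy => by
        rw [Finset.mem_singleton] at hy ⊢
        rw [hy]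
        exact hne x) hcover (fun y => c y * D (g • y)) (fun y => by
      rw [hc.1, hG, hD]
      ring) (fun y hy => by rw [hc.2.2 y hy, zero_mul])] at h1
    have h2 := (mul_eq_zero.1 h1).resolve_left two_ne_zero
    rw [Finset.sum_singleton] at h2
    exact (mul_eq_zero.1 h2).resolve_left hcx
  exact ⟨x, inv x, (hne x).symm, fun g => by rw [hG, hD, hz, neg_zero]⟩

/-- **Small cores.** A function with a relation whose core has one or a prime number of pairs is
constant on a pair of points, or balanced on a block. -/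
theorem small_core [IsPretransitive G Y] (hinv : ∀ y, inv (inv y) = y)
    (hne : ∀ y, inv y ≠ y) (hG : ∀ (g : G) (y : Y), g • inv y = inv (g • y))
    (hD : ∀ y, D (inv y) = -D y) (p n : ℕ) (hp : p = 1 ∨ p.Prime) (x : Y)
    (hcard : (core G inv n x).ncard = 2 * p) {c : Y → ℤ} (hc : c ∈ Rel G inv D Set.univ)
    (hc0 : c ≠ 0) :
    (∃ y₁ y₂, y₁ ≠ y₂ ∧ ∀ g : G, D (g • y₁) = D (g • y₂)) ∨
    (p.Prime ∧ p ≠ 2 ∧ ∃ O : Finset Y, x ∈ O ∧ O.card = p ∧ (∀ y ∈ O, inv y ∉ O) ∧
      (∀ (g : G), ∀ y ∈ O, g • y ∈ O → ∀ z ∈ O, g • z ∈ O) ∧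
      (∀ g : G, ∑ y ∈ O, D (g • y) = 0)) := by
  rcases hp with rfl | hp
  · exact Or.inl (zero_core_one hinv hne hG hD n x (by rw [hcard]) hc hc0)
  · by_cases hp2 : p = 2
    · subst hp2
      exact Or.inl (zero_core_two hinv hne hG hD n x (by rw [hcard]) hc hc0)
    · have _ : Fact p.Prime := ⟨hp⟩
      rcases prime_core_odd hinv hne hG hD p n hp2 x hcard hc hc0 with h | h
      · exact Or.inl h
      · exact Or.inr ⟨hp, hp2, h⟩

end Pool.Agent.H298.Core
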