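import Mathlib
import Pool.Agent.H298.Core.Zero

/-!
# Relations in a core which is covered by a block with a doubly transitive stabilizer
-/

set_option autoImplicit false
set_option linter.unusedSectionVars false
set_option linter.unusedVariables false

namespace Pool.Agent.H298.Core

open MulAction Finset

variable {G : Type*} [Group G] {Y : Type*} [MulAction G Y] {inv : Y → Y} [Fintype Y]
  [DecidableEq Y] {D : Y → ℤ}

theorem sum_block {M : Type*} [AddCommMonoid M] (O : Finset Y)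
    (hblock : ∀ (g : G), ∀ y ∈ O, g • y ∈ O → ∀ z ∈ O, g • z ∈ O) {h : G} {y₀ : Y} (hy₀ : y₀ ∈ O)
    (hh : h • y₀ ∈ O) (f : Y → M) : ∑ y ∈ O, f (h • y) = ∑ y ∈ O, f y := by
  have h1 : ∀ z ∈ O, h • z ∈ O := hblock h y₀ hy₀ hh
  have h2 : ∀ z ∈ O, h⁻¹ • z ∈ O := hblock h⁻¹ (h • y₀) hh (by rwa [inv_smul_smul])
  refine Finset.sum_bij' (fun y _ => h • y) (fun y _ => h⁻¹ • y) h1 h2 ?_ ?_ ?_
  · intro y _
    exact inv_smul_smul h y
  · intro y _
    exact smul_inv_smul h y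
  · intro y _
    rfl

/-- **Relations in a core which is covered by a block with a doubly transitive stabilizer.** -/
theorem two_trans_core [IsPretransitive G Y] (hinv : ∀ y, inv (inv y) = y)
    (hne : ∀ y, inv y ≠ y) (hG : ∀ (g : G) (y : Y), g • inv y = inv (g • y))
    (hD : ∀ y, D (inv y) = -D y) (n : ℕ) (x : Y) (O : Finset Y) (hx : x ∈ O)
    (hO : ∀ y ∈ O, inv y ∉ O) (hsub : ∀ y ∈ O, y ∈ core G inv n x)
    (hcard : (core G inv n x).ncard = 2 * O.card)
    (hblock : ∀ (g : G), ∀ y ∈ O, g • y ∈ O → ∀ z ∈ O, g • z ∈ O)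
    (h2 : ∀ y₁ ∈ O, ∀ y₂ ∈ O, ∀ z₁ ∈ O, ∀ z₂ ∈ O, y₁ ≠ y₂ → z₁ ≠ z₂ →
      ∃ g : G, g • y₁ = z₁ ∧ g • y₂ = z₂) {c : Y → ℤ} (hc : c ∈ Rel G inv D Set.univ)
    (hc0 : c ≠ 0) : (∃ y₁ y₂, y₁ ≠ y₂ ∧ ∀ g : G, D (g • y₁) = D (g • y₂)) ∨
      ∀ g : G, ∑ y ∈ O, D (g • y) = 0 := by
  classical
  obtain ⟨c, hc, hcx⟩ := exists_rel_core hinv hne hG n x hc hc0
  have hcover := half_cover hinv hG O hsub hO hcard
  have hrel : ∀ g : G, ∑ y ∈ O, c y * D (g • y) = 0 := by
    intro g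
    have h1 := hc.2.1 g
    rw [sum_eq_two_mul hinv O hO hcover (fun y => c y * D (g • y)) (fun y => by
      rw [hc.1, hG, hD]
      ring) (fun y hy => by rw [hc.2.2 y hy, zero_mul])] at h1
    exact (mul_eq_zero.1 h1).resolve_left two_ne_zero
  by_cases hconst : ∀ y ∈ O, c y = c x
  · right
    intro g
    have h1 := hrel g
    rw [Finset.sum_congr rfl (g := fun y => c x * D (g • y)) fun y hy => by rw [hconst y hy],
      ← Finset.mul_sum] at h1
    exact (mul_eq_zero.1 h1).resolve_left hcx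
  left
  push Not at hconst
  obtain ⟨y', hy', hcy'⟩ := hconst
  set S : ℤ := ∑ y ∈ O, c y with hS
  have hcardpos : 0 < O.card := Finset.card_pos.2 ⟨x, hx⟩
  -- a point where the value is not the mean
  obtain ⟨z, hz, hzS⟩ : ∃ z ∈ O, (O.card : ℤ) * c z ≠ S := by
    by_contra h
    push Not at h
    apply hcy'
    have h1 := h x hx
    have h2 := h y' hy'
    have h3 : (O.card : ℤ) ≠ 0 := by exact_mod_cast hcardpos.ne'
    exact mul_left_cancel₀ h3 (h2.trans h1.symm)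
  obtain ⟨y₀, hy₀, hy₀z⟩ : ∃ y₀ ∈ O, y₀ ≠ z := by
    by_cases h : x = z
    · refine ⟨y', hy', fun h1 => hcy' ?_⟩
      rw [h1, h]
    · exact ⟨x, hx, h⟩
  let P : Finset (Equiv.Perm Y) := univ.filter fun s => ∃ g : G, (∀ y, s y = g • y) ∧ g • z = z
  have hP : ∀ s, s ∈ P ↔ ∃ g : G, (∀ y, s y = g • y) ∧ g • z = z := fun s => by simp [P]
  have h1P : (1 : Equiv.Perm Y) ∈ P := (hP 1).2 ⟨1, fun y => by simp, one_smul G z⟩
  have hPpos : (P.card : ℤ) ≠ 0 := by
    exact_mod_cast (Finset.card_pos.2 ⟨1, h1P⟩).ne'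
  let b : Y → ℤ := fun y => ∑ s ∈ P, c (s y)
  have hbrel : ∀ g : G, ∑ y ∈ O, b y * D (g • y) = 0 := by
    intro g
    simp only [b, Finset.sum_mul]
    rw [Finset.sum_comm]
    refine Finset.sum_eq_zero fun s hs => ?_
    obtain ⟨h, hh, hhz⟩ := (hP s).1 hs
    have h3 := sum_block O hblock (h := h) hz (by rwa [hhz]) fun y => c y * D ((g * h⁻¹) • y)
    rw [hrel (g * h⁻¹)] at h3
    rw [← h3]
    refine Finset.sum_congr rfl fun y _ => ?_
    rw [hh, mul_smul, inv_smul_smul]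
  have hbz : b z = P.card * c z := by
    simp only [b]
    rw [Finset.sum_congr rfl (g := fun _ => c z) fun s hs => ?_, Finset.sum_const, nsmul_eq_mul]
    obtain ⟨h, hh, hhz⟩ := (hP s).1 hs
    rw [hh, hhz]
  have hbc : ∀ y ∈ O, y ≠ z → b y = b y₀ := by
    intro y hy hyz
    obtain ⟨h, h3, h4⟩ := h2 z hz y hy z hz y₀ hy₀ hyz.symm hy₀z.symm
    have h5 : ∑ s ∈ P, c (s y₀) =
        ∑ s ∈ P, c ((s * (MulAction.toPerm h : Equiv.Perm Y)) y) := by
      refine Finset.sum_congr rfl fun s _ => ?_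
      rw [Equiv.Perm.mul_apply, MulAction.toPerm_apply, h4]
    change ∑ s ∈ P, c (s y) = ∑ s ∈ P, c (s y₀)
    rw [h5]
    symm
    refine Finset.sum_equiv (Equiv.mulRight (MulAction.toPerm h : Equiv.Perm Y)) ?_
      fun s _ => rfl
    intro s
    rw [hP, hP]
    constructor
    · rintro ⟨g, hg, hgz⟩
      refine ⟨g * h, fun w => ?_, by rw [mul_smul, h3, hgz]⟩
      change s (h • w) = _
      rw [hg, mul_smul]
    · rintro ⟨g, hg, hgz⟩
      refine ⟨g * h⁻¹, fun w => ?_, ?_⟩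
      · have h6 := hg (h⁻¹ • w)
        change s (h • h⁻¹ • w) = _ at h6
        rw [smul_inv_smul] at h6
        rw [h6, mul_smul]
      · have h6 : h⁻¹ • z = z := by rw [inv_smul_eq_iff, h3]
        rw [mul_smul, h6, hgz]
  have hbsum : ∑ y ∈ O, b y = P.card * S := by
    simp only [b]
    rw [Finset.sum_comm, Finset.sum_congr rfl (g := fun _ => S) fun s hs => ?_, Finset.sum_const,
      nsmul_eq_mul]
    obtain ⟨h, hh, hhz⟩ := (hP s).1 hs
    rw [hS, ← sum_block O hblock (h := h) hz (by rwa [hhz]) c]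
    exact Finset.sum_congr rfl fun y _ => by rw [hh]
  have hsplit : ∀ f : Y → ℤ, ∑ y ∈ O, f y = f z + ∑ y ∈ O.erase z, f y := fun f =>
    (Finset.add_sum_erase O f hz).symm
  have hbne : b z ≠ b y₀ := by
    intro h
    apply hzS
    have h3 : ∑ y ∈ O, b y = O.card * b z := by
      rw [Finset.sum_congr rfl (g := fun _ => b z) fun y hy => ?_, Finset.sum_const, nsmul_eq_mul]
      by_cases hyz : y = z
      · rw [hyz]
      · rw [hbc y hy hyz, h]
    rw [hbsum, hbz] at h3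
    refine mul_left_cancel₀ hPpos ?_
    rw [h3]
    ring
  have hmain : ∀ g : G, (b z - b y₀) * D (g • z) + b y₀ * ∑ y ∈ O, D (g • y) = 0 := by
    intro g
    have h3 := hbrel g
    rw [hsplit fun y => b y * D (g • y), Finset.sum_congr rfl (g := fun y => b y₀ * D (g • y))
      fun y hy => by rw [hbc y (Finset.mem_of_mem_erase hy) (Finset.ne_of_mem_erase hy)],
      ← Finset.mul_sum] at h3
    rw [hsplit fun y => D (g • y)]
    linear_combination h3
  obtain ⟨h, h3, -⟩ := h2 z hz y₀ hy₀ y₀ hy₀ z hz hy₀z.symm hy₀z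
  refine ⟨z, y₀, hy₀z.symm, fun g => ?_⟩
  have h4 := hmain g
  have h5 := hmain (g * h)
  have h6 : ∑ y ∈ O, D ((g * h) • y) = ∑ y ∈ O, D (g • y) := by
    rw [← sum_block O hblock (h := h) hz (by rwa [h3]) fun y => D (g • y)]
    exact Finset.sum_congr rfl fun y _ => by rw [mul_smul]
  rw [h6, mul_smul, h3] at h5
  have h7 : (b z - b y₀) * (D (g • z) - D (g • y₀)) = 0 := by linear_combination h4 - h5
  have h8 := (mul_eq_zero.1 h7).resolve_left (sub_ne_zero.2 hbne)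
  linarith

end Pool.Agent.H298.Core
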