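import Mathlib
import Pool.Agent.H298.Core.TwoTrans
import Pool.Agent.H298.Core.CM
import Pool.Agent.H298.Core.Zero
import Pool.Agent.H298.Core.BlockDefs
import Pool.Graph.R_pool_sql_team_seeded_1acbe0a2.Y156.P.Irr
import Pool.Graph.R_seed8.TH170.GS.Rel

/-!
# Relations in transitive cores, and in cores over doubly transitive subfields
-/

set_option autoImplicit false
set_option linter.unusedSectionVars false
set_option linter.unusedVariables false

namespace Pool.Agent.H298.Core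

open NumberField Module MulAction Finset Pool.Agent.H204R3.CM Pool.Agent.H977R3.CM
  Pool.Agent.TH170.CM

section abstract

variable {G : Type*} [Group G] {Y : Type*} [MulAction G Y] {inv : Y → Y} [Fintype Y]
  [DecidableEq Y] {D : Y → ℤ}

/-- A relation in a transitive core forces the function to be zero. -/
theorem transitive_core [IsPretransitive G Y] (hinv : ∀ y, inv (inv y) = y)
    (hne : ∀ y, inv y ≠ y) (hG : ∀ (g : G) (y : Y), g • inv y = inv (g • y))
    (hD : ∀ y, D (inv y) = -D y) (n : ℕ) (x : Y)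
    (h2 : ∀ y₁ ∈ core G inv n x, ∀ y₂ ∈ core G inv n x, y₁ ≠ x → y₁ ≠ inv x → y₂ ≠ x →
      y₂ ≠ inv x → ∃ g : G, g • x = x ∧ g • y₁ = y₂) {c : Y → ℤ}
    (hc : c ∈ Rel G inv D Set.univ) (hc0 : c ≠ 0) : ∀ g : G, D (g • x) = 0 := by
  classical
  obtain ⟨c, hc, hcx⟩ := exists_rel_core hinv hne hG n x hc hc0
  let P : Finset (Equiv.Perm Y) := univ.filter fun s => ∃ g : G, (∀ y, s y = g • y) ∧ g • x = x
  have hP : ∀ s, s ∈ P ↔ ∃ g : G, (∀ y, s y = g • y) ∧ g • x = x := fun s => by simp [P]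
  have h1P : (1 : Equiv.Perm Y) ∈ P := (hP 1).2 ⟨1, fun y => by simp, one_smul G x⟩
  have hPpos : (P.card : ℤ) ≠ 0 := by
    exact_mod_cast (Finset.card_pos.2 ⟨1, h1P⟩).ne'
  let b : Y → ℤ := fun y => ∑ s ∈ P, c (s y)
  have hcore : ∀ g : G, g • x = x → ∀ y, g • y ∈ core G inv n x ↔ y ∈ core G inv n x := by
    intro g hg y
    exact smul_mem_core hinv hG (self_mem n x) (by rw [hg]; exact self_mem n x) y
  have hbinv : ∀ y, b (inv y) = - b y := by
    intro y
    simp only [b]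
    rw [← Finset.sum_neg_distrib]
    refine Finset.sum_congr rfl fun s hs => ?_
    obtain ⟨g, hg, -⟩ := (hP s).1 hs
    rw [hg, hg, hG, hc.1]
  have hbrel : ∀ g : G, ∑ y, b y * D (g • y) = 0 := by
    intro g
    simp only [b, Finset.sum_mul]
    rw [Finset.sum_comm]
    refine Finset.sum_eq_zero fun s hs => ?_
    obtain ⟨h, hh, hhx⟩ := (hP s).1 hs
    rw [← hc.2.1 (g * h⁻¹), ← sum_comp_smul (fun y => c y * D ((g * h⁻¹) • y)) h]
    refine Finset.sum_congr rfl fun y _ => ?_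
    rw [hh, mul_smul, inv_smul_smul]
  have hbx : b x = P.card * c x := by
    simp only [b]
    rw [Finset.sum_congr rfl (g := fun _ => c x) fun s hs => ?_, Finset.sum_const, nsmul_eq_mul]
    obtain ⟨h, hh, hhx⟩ := (hP s).1 hs
    rw [hh, hhx]
  have hb0 : ∀ y, y ≠ x → y ≠ inv x → b y = 0 := by
    intro y hy hy'
    by_cases hmem : y ∈ core G inv n x
    · obtain ⟨h, h3, h4⟩ := h2 y hmem (inv y) (inv_mem hinv hG hmem) hy hy'
        (fun h => hy' (by rw [← h, hinv])) (fun h => hy (inv_inj hinv hG h))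
      have h5 : b (inv y) = b y := by
        change ∑ s ∈ P, c (s (inv y)) = ∑ s ∈ P, c (s y)
        refine Finset.sum_equiv (Equiv.mulRight (MulAction.toPerm h : Equiv.Perm Y)) ?_ ?_
        · intro s
          rw [hP, hP]
          constructor
          · rintro ⟨g, hg, hgz⟩
            refine ⟨g * h, fun w => ?_, by rw [mul_smul, h3, hgz]⟩
            change s (h • w) = _
            rw [hg, mul_smul]
          · rintro ⟨g, hg, hgz⟩
            refine ⟨g * h⁻¹, fun w => ?_, ?_⟩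
            · have h6 := hg (h⁻¹ • w)
              change s (h • h⁻¹ • w) = _ at h6
              rw [smul_inv_smul] at h6
              rw [h6, mul_smul]
            · have h6 : h⁻¹ • x = x := by rw [inv_smul_eq_iff, h3]
              rw [mul_smul, h6, hgz]
        · intro s _
          change c (s (inv y)) = c (s (h • y))
          rw [h4]
      have h6 := hbinv y
      rw [h5] at h6
      linarith
    · simp only [b]
      refine Finset.sum_eq_zero fun s hs => ?_
      obtain ⟨g, hg, hgx⟩ := (hP s).1 hs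
      rw [hg]
      exact hc.2.2 _ fun h => hmem ((hcore g hgx y).1 h)
  intro g
  have h3 := hbrel g
  have h4 : ∑ y, b y * D (g • y) = ∑ y ∈ {x, inv x}, b y * D (g • y) := by
    symm
    refine Finset.sum_subset (Finset.subset_univ _) fun y _ hy => ?_
    rw [Finset.mem_insert, Finset.mem_singleton, not_or] at hy
    rw [hb0 y hy.1 hy.2, zero_mul]
  rw [h4, Finset.sum_pair (hne x).symm, hbinv, hG, hD, hbx] at h3
  have h5 : (2 * ((P.card : ℤ) * c x)) * D (g • x) = 0 := by linear_combination h3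
  exact (mul_eq_zero.1 h5).resolve_left
    (mul_ne_zero two_ne_zero (mul_ne_zero hPpos hcx))

end abstract

attribute [local instance] actC

section

variable {E : Type} [Field E] [NumberField E] [IsCMField E]

/-- A subfield which is not totally real is not fixed by the complex conjugation. -/
theorem conj_ne_on {F : IntermediateField ℚ E} (hF : ¬ IsTotallyReal F) (φ : E →+* ℂ) :
    ∃ x ∈ F, ComplexEmbedding.conjugate φ x ≠ φ x := by
  by_contra h
  push Not at h
  apply hF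
  have h1 : ∀ x ∈ F, IsCMField.complexConj E x = x := by
    intro x hx
    apply φ.injective
    rw [IsCMField.complexEmbedding_complexConj]
    exact h x hx
  refine ⟨fun v => ?_⟩
  rw [InfinitePlace.isReal_iff, ComplexEmbedding.isReal_iff]
  ext x
  have h2 := RingHom.congr_fun (ComplexEmbedding.lift_comp_algebraMap E v.embedding) x
  rw [ComplexEmbedding.conjugate_coe_eq, ← h2]
  change (starRingEnd ℂ) (ComplexEmbedding.lift E v.embedding (x : E)) = _
  rw [← IsCMField.complexEmbedding_complexConj, h1 x x.2]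
  rfl

/-- The extensions of an embedding of a subfield which is not totally real lie in the same core. -/
theorem ext_mem_coreOf {F : IntermediateField ℚ E} (hF : ¬ IsTotallyReal F) (n : ℕ)
    {φ ψ : E →+* ℂ} (h : ∀ x ∈ F, ψ x = φ x) : ψ ∈ coreOf n φ := by
  induction n with
  | zero => exact Set.mem_univ _
  | succ n ih =>
    refine ⟨ih, fun σ hσ => ?_⟩
    have hφ : φ ∈ coreOf n φ := by
      rw [coreOf_eq]
      exact self_mem n φ
    have key : ∀ ψ₁ ψ₂ : E →+* ℂ, (∀ x ∈ F, ψ₁ x = ψ₂ x) → ψ₁ ∈ coreOf n φ → ψ₂ ∈ coreOf n φ →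
        (σ : ℂ →+* ℂ).comp ψ₁ = ψ₁ → (σ : ℂ →+* ℂ).comp ψ₂ = ψ₂ := by
      intro ψ₁ ψ₂ h12 h1 h2 h3
      rcases hσ ψ₂ h2 with h4 | h4
      · exact h4
      · exfalso
        obtain ⟨x, hx, hne⟩ := conj_ne_on hF ψ₂
        apply hne
        have h5 := RingHom.congr_fun h3 x
        have h6 := RingHom.congr_fun h4 x
        rw [← h6]
        change σ (ψ₂ x) = ψ₂ x
        rw [← h12 x hx]
        exact h5
    exact ⟨key φ ψ (fun x hx => (h x hx).symm) hφ ih, key ψ φ h ih hφ⟩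

variable {z : (E →+* ℂ) → ℤ} (hz : ∀ φ, z (ComplexEmbedding.conjugate φ) = -z φ)
include hz

/-- Relations in a core over a doubly transitive subfield. -/
theorem doublyTransitive_core {F : IntermediateField ℚ E} (hF : ¬ IsTotallyReal F)
    (h2 : DoublyTransitive F) (hcore : HasCore E (finrank F E)) {c : (E →+* ℂ) → ℤ}
    (hc : c ∈ Rel (ℂ ≃+* ℂ) ComplexEmbedding.conjugate z Set.univ) (hc0 : c ≠ 0) :
    (∃ y₁ y₂ : E →+* ℂ, y₁ ≠ y₂ ∧ ∀ σ : ℂ ≃+* ℂ, z (σ • y₁) = z (σ • y₂)) ∨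
      Balanced (finrank F E) z := by
  classical
  obtain ⟨n, φ, hcard⟩ := hcore
  rw [coreOf_eq] at hcard
  let O : Finset (E →+* ℂ) := univ.filter fun ψ => ∀ x ∈ F, ψ x = φ x
  have hO : ∀ ψ, ψ ∈ O ↔ ∀ x ∈ F, ψ x = φ x := by
    intro ψ
    simp [O]
  have hφO : φ ∈ O := (hO φ).2 fun x _ => rfl
  have hOcard : O.card = finrank F E := by
    rw [← card_extensions F φ, ← Fintype.card_coe, ← Nat.card_eq_fintype_card]
    exact Nat.card_congr (Equiv.subtypeEquivRight hO)
  have hOconj : ∀ y ∈ O, ComplexEmbedding.conjugate y ∉ O := by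
    intro y hy hy'
    obtain ⟨x, hx, hne⟩ := conj_ne_on hF y
    exact hne (((hO _).1 hy' x hx).trans ((hO _).1 hy x hx).symm)
  have hsub : ∀ y ∈ O, y ∈ core (ℂ ≃+* ℂ) ComplexEmbedding.conjugate n φ := by
    intro y hy
    rw [← coreOf_eq]
    exact ext_mem_coreOf hF n ((hO y).1 hy)
  have hblock : ∀ (σ : ℂ ≃+* ℂ), ∀ y ∈ O, σ • y ∈ O → ∀ w ∈ O, σ • w ∈ O := by
    intro σ y hy hσy w hw
    rw [hO] at hy hσy hw ⊢
    intro x hx
    have h3 := hσy x hx
    rw [actC_apply] at h3 ⊢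
    rw [hw x hx, ← hy x hx]
    rw [hy x hx] at h3 ⊢
    exact h3
  have h2' : ∀ y₁ ∈ O, ∀ y₂ ∈ O, ∀ z₁ ∈ O, ∀ z₂ ∈ O, y₁ ≠ y₂ → z₁ ≠ z₂ →
      ∃ σ : ℂ ≃+* ℂ, σ • y₁ = z₁ ∧ σ • y₂ = z₂ := by
    intro y₁ hy₁ y₂ hy₂ z₁ hz₁ z₂ hz₂ hy hz'
    rw [hO] at hy₁ hy₂ hz₁ hz₂
    exact h2 y₁ y₂ z₁ z₂ (fun x hx => (hy₂ x hx).trans (hy₁ x hx).symm)
      (fun x hx => (hz₁ x hx).trans (hy₁ x hx).symm)
      (fun x hx => (hz₂ x hx).trans (hy₁ x hx).symm) hy hz'
  rcases two_trans_core Pool.Agent.H298.Core.conj_conj Pool.Agent.H298.Core.conj_ne smul_conj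
    hz n φ O hφO hOconj hsub (by rw [hcard, hOcard]) hblock h2' hc hc0 with h | h
  · exact Or.inl h
  · exact Or.inr (balanced_of_block O hφO hOcard hOconj hblock h)

/-- Relations in fields with irreducible odd part. -/
theorem irreducible_zero (hirr : Pool.Agent.Y156.P.OddIrreducible E) {c : (E →+* ℂ) → ℤ}
    (hc : c ∈ Rel (ℂ ≃+* ℂ) ComplexEmbedding.conjugate z Set.univ) (hc0 : c ≠ 0)
    (φ : E →+* ℂ) : z φ = 0 := by
  classical
  let S : Submodule ℚ ((E →+* ℂ) → ℚ) :=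
    { carrier := {s | (∀ ψ, s (ComplexEmbedding.conjugate ψ) = - s ψ) ∧
        ∀ σ : ℂ ≃+* ℂ, ∑ ψ, s ψ * (z (σ • ψ) : ℚ) = 0}
      zero_mem' := ⟨fun ψ => by simp, fun σ => by simp⟩
      add_mem' := by
        rintro s t ⟨hs1, hs2⟩ ⟨ht1, ht2⟩
        refine ⟨fun ψ => ?_, fun σ => ?_⟩
        · simp only [Pi.add_apply, hs1, ht1]
          ring
        · simp only [Pi.add_apply, add_mul, sum_add_distrib, hs2, ht2, add_zero]
      smul_mem' := by
        rintro r s ⟨hs1, hs2⟩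
        refine ⟨fun ψ => ?_, fun σ => ?_⟩
        · simp only [Pi.smul_apply, smul_eq_mul, hs1]
          ring
        · simp only [Pi.smul_apply, smul_eq_mul, mul_assoc, ← mul_sum, hs2, mul_zero] }
  have hst : ∀ σ : ℂ ≃+* ℂ, ∀ s ∈ S, (fun φ => s ((σ : ℂ →+* ℂ).comp φ)) ∈ S := by
    rintro σ s ⟨hs1, hs2⟩
    refine ⟨fun ψ => ?_, fun τ => ?_⟩
    · have h1 : ((σ : ℂ →+* ℂ).comp (ComplexEmbedding.conjugate ψ)) =
        ComplexEmbedding.conjugate ((σ : ℂ →+* ℂ).comp ψ) := smul_conj σ ψ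
      simp only [h1, hs1]
    · rw [← hs2 (τ * σ⁻¹)]
      refine Fintype.sum_equiv (MulAction.toPerm σ) _ _ fun ψ => ?_
      have h1 : (τ * σ⁻¹) • (MulAction.toPerm σ ψ) = τ • ψ := by
        change (τ * σ⁻¹) • (σ • ψ) = τ • ψ
        rw [mul_smul, inv_smul_smul]
      rw [h1]
      rfl
  rcases hirr S hst (fun s hs => hs.1) with h | h
  · exfalso
    apply hc0
    have h1 : (fun ψ => (c ψ : ℚ)) ∈ S := by
      refine ⟨fun ψ => ?_, fun σ => ?_⟩
      · have := hc.1 ψ
        simp only [this, Int.cast_neg]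
      · have := hc.2.1 σ
        change ∑ ψ, ((c ψ : ℤ) : ℚ) * ((z (σ • ψ) : ℤ) : ℚ) = 0
        exact_mod_cast this
    rw [h, Submodule.mem_bot] at h1
    funext ψ
    have h2 := congrFun h1 ψ
    simpa using h2
  · have h1 := h (Pi.single φ 1 - Pi.single (ComplexEmbedding.conjugate φ) 1) (fun ψ => by
      simp only [Pi.sub_apply, Pi.single_apply]
      have h3 : (ComplexEmbedding.conjugate ψ = φ) ↔ (ψ = ComplexEmbedding.conjugate φ) :=
        ⟨fun h => by rw [← h, Pool.Agent.H298.Core.conj_conj],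
          fun h => by rw [h, Pool.Agent.H298.Core.conj_conj]⟩
      have h4 : (ComplexEmbedding.conjugate ψ = ComplexEmbedding.conjugate φ) ↔ (ψ = φ) :=
        ⟨fun h => by
          rw [← Pool.Agent.H298.Core.conj_conj ψ, h, Pool.Agent.H298.Core.conj_conj],
          fun h => by rw [h]⟩
      simp only [h3, h4]
      ring)
    have h2 := h1.2 1
    simp only [one_smul, Pi.sub_apply, sub_mul, sum_sub_distrib, Pi.single_apply, ite_mul,
      one_mul, zero_mul, sum_ite_eq', mem_univ, if_true, hz] at h2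
    push_cast at h2
    have h3 : (z φ : ℚ) = 0 := by linarith
    exact_mod_cast h3

/-- **Relations in fields with irreducible odd part or primitive core.** -/
theorem dichotomy {c : ℕ} (hcore : Pool.Agent.Y156.P.OddIrreducible E ∨ PrimitiveCore E c)
    {r : (E →+* ℂ) → ℤ}
    (hr : r ∈ Rel (ℂ ≃+* ℂ) ComplexEmbedding.conjugate z Set.univ) (hr0 : r ≠ 0) :
    (∃ y₁ y₂ : E →+* ℂ, y₁ ≠ y₂ ∧ ∀ σ : ℂ ≃+* ℂ, z (σ • y₁) = z (σ • y₂)) ∨
      (PrimitiveCore E c ∧ c ≠ 2 ∧ Balanced c z) := by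
  classical
  rcases hcore with h | hcore
  · left
    obtain ⟨φ⟩ : Nonempty (E →+* ℂ) := inferInstance
    have h1 := irreducible_zero hz h hr hr0
    exact ⟨φ, ComplexEmbedding.conjugate φ, (Pool.Agent.H298.Core.conj_ne φ).symm,
      fun σ => by rw [h1, h1]⟩
  by_cases hp : c.Prime
  · obtain ⟨n, φ, hcard⟩ := hcore.1
    rw [coreOf_eq] at hcard
    rcases small_core Pool.Agent.H298.Core.conj_conj Pool.Agent.H298.Core.conj_ne smul_conj hz c n
      (Or.inr hp) φ hcard hr hr0 with h | ⟨-, hp2, O, hx, hOcard, hO, hblock, hsum⟩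
    · exact Or.inl h
    · exact Or.inr ⟨hcore, hp2, balanced_of_block O hx hOcard hO hblock hsum⟩
  · rcases hcore with ⟨h1, h | ⟨F, rfl, hF, h2⟩⟩
    · exact absurd h hp
    · rcases doublyTransitive_core hz hF h2 h1 hr hr0 with h | h
      · exact Or.inl h
      · refine Or.inr ⟨⟨h1, Or.inr ⟨F, rfl, hF, h2⟩⟩, fun h3 => hp ?_, h⟩
        rw [h3]
        exact Nat.prime_two

end

/-- The odd part of a field with a core with one pair of embeddings is irreducible. -/
theorem oddIrreducible_of_one {E : Type} [Field E] [NumberField E] [IsCMField E]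
    (h : HasCore E 1) : Pool.Agent.Y156.P.OddIrreducible E := by
  classical
  intro S hst hodd
  by_contra hcon
  push Not at hcon
  obtain ⟨hS0, u, hu, huS⟩ := hcon
  obtain ⟨w, hw0, hw, horth⟩ := Pool.Agent.Y156.P.exists_orth S hodd hu huS
  obtain ⟨s, hs, hs0⟩ := Submodule.exists_mem_ne_zero_of_ne_bot hS0
  obtain ⟨D₁, r, hD₁, hr⟩ := Pool.Agent.TH170.GS.exists_den s
  obtain ⟨D₂, z, hD₂, hz⟩ := Pool.Agent.TH170.GS.exists_den w
  have hD₁q : (D₁ : ℚ) ≠ 0 := Nat.cast_ne_zero.2 hD₁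
  have hD₂q : (D₂ : ℚ) ≠ 0 := Nat.cast_ne_zero.2 hD₂
  have hzc : ∀ φ, z (ComplexEmbedding.conjugate φ) = -z φ := by
    intro φ
    have h1 : ((z (ComplexEmbedding.conjugate φ) : ℤ) : ℚ) = ((-z φ : ℤ) : ℚ) := by
      rw [hz, Int.cast_neg, hz, hw]
      ring
    exact_mod_cast h1
  have hrel : r ∈ Rel (ℂ ≃+* ℂ) ComplexEmbedding.conjugate z Set.univ := by
    refine ⟨fun φ => ?_, fun σ => ?_, fun y hy => absurd (Set.mem_univ y) hy⟩
    · have h1 : ((r (ComplexEmbedding.conjugate φ) : ℤ) : ℚ) = ((-r φ : ℤ) : ℚ) := by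
        rw [hr, Int.cast_neg, hr, hodd s hs]
        ring
      exact_mod_cast h1
    · have h1 : (fun φ => s (((σ⁻¹ : ℂ ≃+* ℂ) : ℂ →+* ℂ).comp φ)) ∈ S := hst _ s hs
      have h2 := horth _ h1
      have h3 : ∑ φ : E →+* ℂ, s φ * w (σ • φ) = 0 := by
        rw [← h2]
        refine Fintype.sum_equiv (MulAction.toPerm σ) _ _ fun φ => ?_
        have h4 : ((σ⁻¹ : ℂ ≃+* ℂ) : ℂ →+* ℂ).comp (MulAction.toPerm σ φ) = φ :=
          inv_smul_smul σ φ
        rw [h4, mul_comm]
        rfl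
      have h5 : ((∑ φ : E →+* ℂ, r φ * z (σ • φ) : ℤ) : ℚ) = 0 := by
        push_cast
        calc ∑ φ : E →+* ℂ, (r φ : ℚ) * (z (σ • φ) : ℚ)
            = ∑ φ : E →+* ℂ, (D₁ * D₂ : ℚ) * (s φ * w (σ • φ)) := by
              refine Finset.sum_congr rfl fun φ _ => ?_
              rw [hr, hz]
              ring
          _ = 0 := by rw [← Finset.mul_sum, h3, mul_zero]
      exact_mod_cast h5
  have hr0 : r ≠ 0 := by
    intro h0
    apply hs0
    funext φ
    have h1 := hr φ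
    rw [h0, Pi.zero_apply, Int.cast_zero] at h1
    exact (mul_eq_zero.1 h1.symm).resolve_left hD₁q
  obtain ⟨n, φ, hcard⟩ := h
  rw [coreOf_eq] at hcard
  have h1 := transitive_core Pool.Agent.H298.Core.conj_conj Pool.Agent.H298.Core.conj_ne
    smul_conj hzc n φ (fun y₁ hy₁ y₂ _ h1 h2 _ _ => by
      exfalso
      have h3 : ({φ, ComplexEmbedding.conjugate φ, y₁} : Set (E →+* ℂ)) ⊆
          core (ℂ ≃+* ℂ) ComplexEmbedding.conjugate n φ := by
        intro x hx
        rcases hx with rfl | rfl | rfl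
        · exact self_mem n _
        · exact inv_mem conj_conj smul_conj (self_mem n _)
        · exact hy₁
      have h4 := Set.ncard_le_ncard h3 (Set.toFinite _)
      rw [hcard, Set.ncard_insert_of_notMem, Set.ncard_pair h2.symm] at h4
      · omega
      · rintro (h5 | h5)
        · exact conj_ne φ h5.symm
        · exact h1 h5.symm) hrel hr0
  apply hw0
  funext ψ
  obtain ⟨σ, rfl⟩ := exists_smul_eq (ℂ ≃+* ℂ) φ ψ
  have h2 := hz (σ • φ)
  rw [h1, Int.cast_zero] at h2
  exact (mul_eq_zero.1 h2.symm).resolve_left hD₂q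

end Pool.Agent.H298.Core
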