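import Mathlib
import Pool.Agent.H298.Core.CM
import Pool.Graph.R_seed8.W527.Ram

/-!
# The number of elements of the core, and discriminants
-/

set_option autoImplicit false
set_option linter.unusedSectionVars false
set_option linter.unusedVariables false

namespace Pool.Agent.H298.Core

open NumberField Module MulAction Finset Pool.Agent.H204R3.CM Pool.Agent.H977R3.CM
  Pool.Agent.TH170.CM Pool.Agent.Q29.OS Pool.Agent.Q29.DP

attribute [local instance] actC

section

variable {E : Type} [Field E] [NumberField E]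

theorem card_extensions' (K : Subfield E) (φ : E →+* ℂ) :
    Nat.card {ψ : E →+* ℂ // ∀ x ∈ K, ψ x = φ x} = finrank K E := by
  let _ : Algebra K ℂ := (φ.comp (algebraMap K E)).toAlgebra
  have h1 : Fintype.card (E →ₐ[K] ℂ) = finrank K E := AlgHom.card K E ℂ
  rw [← h1, ← Nat.card_eq_fintype_card]
  refine Nat.card_congr
    { toFun := fun ψ => { (ψ.1 : E →+* ℂ) with commutes' := fun x => ψ.2 (x : E) x.2 }
      invFun := fun ψ => ⟨(ψ : E →+* ℂ), fun x hx => ψ.commutes ⟨x, hx⟩⟩
      left_inv := fun ψ => rfl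
      right_inv := fun ψ => rfl }

variable [IsCMField E]

/-- Embeddings that agree on the maximal real subfield. -/
theorem eq_or_conj {φ ψ : E →+* ℂ} (h : ∀ x ∈ maximalRealSubfield E, ψ x = φ x) :
    ψ = φ ∨ ψ = ComplexEmbedding.conjugate φ := by
  classical
  have h1 := card_extensions' (maximalRealSubfield E) φ
  have h2 : finrank (maximalRealSubfield E) E = 2 := Algebra.IsQuadraticExtension.finrank_eq_two _ _
  rw [h2] at h1
  by_contra hcon
  push Not at hcon
  let S : Finset (E →+* ℂ) := {φ, ComplexEmbedding.conjugate φ, ψ}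
  have hS : S.card = 3 := by
    rw [Finset.card_eq_three]
    exact ⟨_, _, _, (conj_ne φ).symm, hcon.1.symm, hcon.2.symm, rfl⟩
  have h3 : S.card ≤ Nat.card {ψ : E →+* ℂ // ∀ x ∈ maximalRealSubfield E, ψ x = φ x} := by
    rw [← Fintype.card_coe S, ← Nat.card_eq_fintype_card]
    refine Nat.card_le_card_of_injective
      (fun χ => (⟨χ.1, ?_⟩ : {ψ : E →+* ℂ // ∀ x ∈ maximalRealSubfield E, ψ x = φ x})) ?_
    · have h4 := χ.2
      simp only [S, mem_insert, mem_singleton] at h4
      rcases h4 with h4 | h4 | h4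
      · intro x _
        rw [h4]
      · intro x hx
        rw [h4, ← cbar_eq, cbar_apply]
        congr 1
        exact (IsCMField.complexConj_eq_self_iff E x).2 hx
      · intro x hx
        rw [h4]
        exact h x hx
    · intro a b hab
      exact Subtype.ext (congrArg
        (fun z : {ψ : E →+* ℂ // ∀ x ∈ maximalRealSubfield E, ψ x = φ x} => z.1) hab)
  omega

/-- The number of elements of a core divides the degree of the field. -/
theorem card_core_dvd (n : ℕ) (φ : E →+* ℂ) : (coreOf n φ).ncard ∣ finrank ℚ E := by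
  obtain ⟨K, hK⟩ := exists_subfield
    { r := fun φ ψ : E →+* ℂ => coreOf n φ = coreOf n ψ
      iseqv := ⟨fun φ => rfl, fun h => h.symm, fun h h' => h.trans h'⟩ }
    (fun σ φ ψ h => by
      change coreOf n (σ • φ) = coreOf n (σ • ψ)
      change coreOf n φ = coreOf n ψ at h
      rw [coreOf_eq, coreOf_eq] at h ⊢
      ext y
      rw [smul_core conj_conj smul_conj, smul_core conj_conj smul_conj, h])
  have h1 : Nat.card {ψ : E →+* ℂ // ∀ x ∈ K, ψ x = φ x} = (coreOf n φ).ncard := by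
    rw [← Nat.card_coe_set_eq]
    refine Nat.card_congr (Equiv.subtypeEquivRight fun ψ => ?_)
    rw [hK]
    change coreOf n ψ = coreOf n φ ↔ ψ ∈ coreOf n φ
    rw [coreOf_eq, coreOf_eq]
    constructor
    · intro h
      rw [← h]
      exact self_mem n ψ
    · intro h
      exact eq_of_mem h
  rw [← h1, card_extensions K φ]
  exact ⟨finrank ℚ K, by rw [mul_comm]; exact (finrank_mul_finrank ℚ K E).symm⟩

/-- The number of elements of a core is even. -/
theorem even_card_core (n : ℕ) (φ : E →+* ℂ) : Even (coreOf n φ).ncard := by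
  classical
  rw [coreOf_eq]
  set B := core (ℂ ≃+* ℂ) (ComplexEmbedding.conjugate (K := E)) n φ with hB
  let S : Finset (E →+* ℂ) := univ.filter (· ∈ B)
  have hS : (S : Set (E →+* ℂ)) = B := by
    ext y
    simp [S]
  rw [← hS, Set.ncard_coe_finset]
  have h1 : ∑ _y ∈ S, (1 : ZMod 2) = 0 := by
    refine Finset.sum_involution (fun a _ => ComplexEmbedding.conjugate a) ?_ ?_ ?_ ?_
    · intro a _
      decide
    · intro a _ _
      exact conj_ne a
    · intro a ha
      simp only [S, mem_filter, mem_univ, true_and] at ha ⊢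
      exact inv_mem conj_conj smul_conj ha
    · intro a _
      exact conj_conj a
  rw [Finset.sum_const, nsmul_eq_mul, mul_one, ZMod.natCast_eq_zero_iff_even] at h1
  exact h1

/-- A prime number that divides the discriminant of `E`, but not the discriminant of the maximal
real subfield. -/
theorem core_of_discr {q : ℕ} (hq : q.Prime) (h1 : (q : ℤ) ∣ discr E)
    (h2 : ¬ (q : ℤ) ∣ discr (maximalRealSubfield E)) :
    ∃ (φ : E →+* ℂ) (c : ℕ), (coreOf 1 φ).ncard = 2 * c ∧ (q : ℤ) ^ c ∣ discr E := by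
  classical
  have _ : Fact q.Prime := ⟨hq⟩
  obtain ⟨L, _, _, j, hj⟩ := exists_galois (fun _ : Unit => E)
  have hj' : ∀ φ : E →+* ℂ, ∃ φ' : E →+* L, j.comp φ' = φ := fun φ => hj () φ
  have _ : (Ideal.span {(q : ℤ)}).IsMaximal := Int.ideal_span_isMaximal_of_prime q
  obtain ⟨Q⟩ := (inferInstance : Nonempty ((Ideal.span {(q : ℤ)}).primesOver (𝓞 L)))
  have _ : Q.1.IsPrime := Q.2.1
  have hQ : Q.1.under ℤ = Ideal.span {(q : ℤ)} := Q.2.2.over.symm
  obtain ⟨φ₀⟩ : Nonempty (E →+* ℂ) := inferInstance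
  obtain ⟨ψ₀, hψ₀⟩ := hj' φ₀
  obtain ⟨φ', σ, hσ, hφ'⟩ := Pool.Agent.W527.exists_ramified (K := E) (ℓ := q) Q.1 hQ ⟨ψ₀⟩ h1
  -- the inertia group acts trivially on the embeddings of the maximal real subfield
  have hreal : ∀ χ : maximalRealSubfield E →+* L, σ • χ = χ := by
    obtain ⟨δ, hδ1, hδ2⟩ := Pool.Agent.W527.moved_le (K := maximalRealSubfield E) (ℓ := q) Q.1 hQ
    have hδ0 : δ = 0 := by
      by_contra h
      exact h2 ((dvd_pow_self _ h).trans hδ1)
    have h3 := hδ2 σ hσ
    rw [hδ0, mul_zero, Nat.le_zero] at h3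
    intro χ
    by_contra h
    have _ : Nonempty {φ : maximalRealSubfield E →+* L // σ • φ ≠ φ} := ⟨⟨χ, h⟩⟩
    exact Nat.card_pos.ne' h3
  obtain ⟨τ, hτ⟩ := Pool.Agent.H977R3.CM.exists_aut j (σ : L ≃+* L)
  have hτσ : ∀ χ : E →+* L, (τ : ℂ →+* ℂ).comp (j.comp χ) = j.comp (σ • χ) := by
    intro χ
    ext x
    exact hτ (χ x)
  have hsign : SignsOn (Set.univ : Set (E →+* ℂ)) τ := by
    intro φ _
    obtain ⟨χ, rfl⟩ := hj' φ
    refine eq_or_conj fun x hx => ?_
    rw [hτσ]
    have h3 := RingHom.congr_fun (hreal (χ.comp (algebraMap (maximalRealSubfield E) E))) ⟨x, hx⟩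
    change σ (χ x) = χ x at h3
    change j (σ (χ x)) = j (χ x)
    rw [h3]
  obtain ⟨c, hc⟩ := even_card_core 1 (j.comp φ')
  refine ⟨j.comp φ', c, by rw [hc]; ring, ?_⟩
  obtain ⟨δ, hδ1, hδ2⟩ := Pool.Agent.W527.moved_le (K := E) (ℓ := q) Q.1 hQ
  have h3 := hδ2 σ hσ
  have h4 : (coreOf 1 (j.comp φ')).ncard ≤ Nat.card {φ : E →+* L // σ • φ ≠ φ} := by
    rw [← Nat.card_coe_set_eq]
    have h5 : ∀ ψ : coreOf 1 (j.comp φ'), ∃ χ : E →+* L, j.comp χ = ψ.1 ∧ σ • χ ≠ χ := by
      rintro ⟨ψ, hψ⟩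
      obtain ⟨χ, hχ⟩ := hj' ψ
      refine ⟨χ, hχ, fun h => ?_⟩
      have h6 : (τ : ℂ →+* ℂ).comp ψ = ψ := by
        rw [← hχ, hτσ, h]
      have h7 := (hψ.2 τ hsign).2 h6
      rw [hτσ] at h7
      apply hφ'
      ext x
      have h8 := RingHom.congr_fun h7 x
      exact congrArg Subtype.val (j.injective h8)
    choose f hf1 hf2 using h5
    refine Nat.card_le_card_of_injective (fun ψ => (⟨f ψ, hf2 ψ⟩ : {φ : E →+* L // σ • φ ≠ φ})) ?_
    intro a b hab
    have h6 : f a = f b := congrArg (fun z : {φ : E →+* L // σ • φ ≠ φ} => z.1) hab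
    apply Subtype.ext
    rw [← hf1 a, ← hf1 b, h6]
  have h5 : c ≤ δ := by omega
  exact (pow_dvd_pow _ h5).trans hδ1

end

end Pool.Agent.H298.Core
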