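import Mathlib
import Pool.Agent.H298.Core.Disc

/-!
# The degree of the Galois closure
-/

set_option autoImplicit false
set_option linter.unusedSectionVars false
set_option linter.unusedVariables false

namespace Pool.Agent.H298.Core

open NumberField Module MulAction Finset IntermediateField

attribute [local instance] actC

section

variable (E : Type) [Field E] [NumberField E]

theorem isNormalClosure_complex :
    IsNormalClosure ℚ E (normalClosure ℚ E ℂ) :=
  Algebra.IsAlgebraic.isNormalClosure_normalClosure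
    fun x => IsAlgClosed.splits _

theorem normal_closure : Normal ℚ (normalClosure ℚ E ℂ) := by
  have := isNormalClosure_complex E
  exact IsNormalClosure.normal (K := E)

/-- Permutations of the embeddings, from the automorphisms of the Galois closure. -/
theorem card_range_eq :
    Nat.card (MulAction.toPermHom (ℂ ≃+* ℂ) (E →+* ℂ)).range =
      finrank ℚ (normalClosure ℚ E ℂ) := by
  have hn := normal_closure E
  have hg : IsGalois ℚ (normalClosure ℚ E ℂ) := { }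
  have hfd : FiniteDimensional ℚ (normalClosure ℚ E ℂ) := inferInstance
  rw [← IsGalois.card_aut_eq_finrank ℚ (normalClosure ℚ E ℂ)]
  symm
  -- every embedding factors
  have hfac : ∀ φ : E →+* ℂ, ∃ φ' : E →+* normalClosure ℚ E ℂ,
      ∀ x, ((φ' x : normalClosure ℚ E ℂ) : ℂ) = φ x := by
    intro φ
    let φa : E →ₐ[ℚ] ℂ := RingHom.equivRatAlgHom E ℂ φ
    exact ⟨(φa.codRestrict _ fun x => φa.fieldRange_le_normalClosure ⟨x, rfl⟩ :
      E →ₐ[ℚ] normalClosure ℚ E ℂ), fun x => rfl⟩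
  have hact : ∀ g : (normalClosure ℚ E ℂ) ≃ₐ[ℚ] (normalClosure ℚ E ℂ),
      ∃ σ : ℂ ≃+* ℂ, ∀ x : normalClosure ℚ E ℂ, σ (x : ℂ) = ((g x : normalClosure ℚ E ℂ) : ℂ) := by
    intro g
    exact Pool.Agent.H977R3.CM.exists_aut ((normalClosure ℚ E ℂ).val : normalClosure ℚ E ℂ →+* ℂ)
      (g : normalClosure ℚ E ℂ ≃+* normalClosure ℚ E ℂ)
  choose s hs using hact
  refine Nat.card_congr (Equiv.ofBijective
    (fun g => (⟨MulAction.toPermHom (ℂ ≃+* ℂ) (E →+* ℂ) (s g), s g, rfl⟩ :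
      (MulAction.toPermHom (ℂ ≃+* ℂ) (E →+* ℂ)).range)) ⟨?_, ?_⟩)
  · intro g h hgh
    have h1 : ∀ φ : E →+* ℂ, s g • φ = s h • φ := fun φ =>
      congrArg (fun z : (MulAction.toPermHom (ℂ ≃+* ℂ) (E →+* ℂ)).range => z.1 φ) hgh
    have h2 : ∀ φ : E →+* ℂ, ∀ x, s g (φ x) = s h (φ x) := fun φ x => RingHom.congr_fun (h1 φ) x
    -- the field where `s g` and `s h` agree
    let sg : ℂ →ₐ[ℚ] ℂ := RingHom.equivRatAlgHom ℂ ℂ (s g : ℂ →+* ℂ)
    let sh : ℂ →ₐ[ℚ] ℂ := RingHom.equivRatAlgHom ℂ ℂ (s h : ℂ →+* ℂ)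
    let K : IntermediateField ℚ ℂ :=
      { AlgHom.equalizer sg sh with
        inv_mem' := fun x hx => by
          change sg x⁻¹ = sh x⁻¹
          have : sg x = sh x := hx
          rw [map_inv₀, map_inv₀, this] }
    have hK : normalClosure ℚ E ℂ ≤ K := by
      rw [normalClosure_le_iff]
      rintro φ _ ⟨x, rfl⟩
      exact h2 (φ : E →+* ℂ) x
    ext x
    have h3 : s g (x : ℂ) = s h (x : ℂ) := hK x.2
    rw [hs, hs] at h3
    exact h3
  · rintro ⟨_, σ, rfl⟩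
    -- restrict `σ`
    let σa : ℂ ≃ₐ[ℚ] ℂ := AlgEquiv.ofRingEquiv (f := σ) fun r => by
      simp
    let g : (normalClosure ℚ E ℂ) ≃ₐ[ℚ] (normalClosure ℚ E ℂ) :=
      AlgEquiv.restrictNormal σa (normalClosure ℚ E ℂ)
    have hg : ∀ x : normalClosure ℚ E ℂ, ((g x : normalClosure ℚ E ℂ) : ℂ) = σ x := fun x =>
      AlgEquiv.restrictNormal_commutes σa (normalClosure ℚ E ℂ) x
    refine ⟨g, Subtype.ext (Equiv.ext fun φ => ?_)⟩
    obtain ⟨φ', hφ'⟩ := hfac φ
    change s g • φ = σ • φ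
    ext x
    rw [actC_apply, actC_apply, ← hφ' x, hs, hg]

theorem index_ker_eq :
    (MulAction.toPermHom (ℂ ≃+* ℂ) (E →+* ℂ)).ker.index = finrank ℚ (normalClosure ℚ E ℂ) := by
  rw [Subgroup.index_ker, card_range_eq]

end

section

variable {E : Type} [Field E] [NumberField E] [IsCMField E]

theorem mem_ker_toPermHom {F : Type} [Field F] (σ : ℂ ≃+* ℂ) :
    σ ∈ (MulAction.toPermHom (ℂ ≃+* ℂ) (F →+* ℂ)).ker ↔ ∀ φ : F →+* ℂ, σ • φ = φ := by
  rw [MonoidHom.mem_ker]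
  exact ⟨fun h φ => congrArg (fun z : Equiv.Perm (F →+* ℂ) => z φ) h, fun h => Equiv.ext h⟩

theorem signsOn_iff (σ : ℂ ≃+* ℂ) : SignsOn (Set.univ : Set (E →+* ℂ)) σ ↔
    σ ∈ (MulAction.toPermHom (ℂ ≃+* ℂ) (maximalRealSubfield E →+* ℂ)).ker := by
  rw [mem_ker_toPermHom]
  constructor
  · intro h χ
    let φ : E →+* ℂ := ComplexEmbedding.lift E χ
    have hφ : ∀ x : maximalRealSubfield E, φ x = χ x := fun x =>
      RingHom.congr_fun (ComplexEmbedding.lift_comp_algebraMap E χ) x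
    ext x
    rw [actC_apply, ← hφ]
    rcases h φ trivial with h1 | h1
    · exact RingHom.congr_fun h1 x
    · have h2 := RingHom.congr_fun h1 (x : E)
      change σ (φ x) = ComplexEmbedding.conjugate φ x at h2
      rw [h2, ComplexEmbedding.conjugate_coe_eq]
      exact x.2 φ
  · intro h φ _
    refine eq_or_conj fun x hx => ?_
    exact RingHom.congr_fun (h (φ.comp (algebraMap (maximalRealSubfield E) E))) ⟨x, hx⟩

theorem ker_le : (MulAction.toPermHom (ℂ ≃+* ℂ) (E →+* ℂ)).ker ≤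
    (MulAction.toPermHom (ℂ ≃+* ℂ) (maximalRealSubfield E →+* ℂ)).ker := by
  intro σ hσ
  rw [← signsOn_iff]
  rw [mem_ker_toPermHom] at hσ
  exact fun φ _ => Or.inl (hσ φ)

/-- All first cores have the same number of elements. -/
theorem ncard_core_eq (n : ℕ) (φ ψ : E →+* ℂ) : (coreOf n φ).ncard = (coreOf n ψ).ncard := by
  obtain ⟨σ, rfl⟩ := MulAction.exists_smul_eq (ℂ ≃+* ℂ) ψ φ
  rw [coreOf_eq, coreOf_eq]
  exact core_ncard_smul conj_conj smul_conj σ n ψ

/-- Two embeddings are in the same first core. -/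
def coreSetoid (E : Type) [Field E] : Setoid (E →+* ℂ) where
  r φ ψ := coreOf 1 φ = coreOf 1 ψ
  iseqv := ⟨fun _ => rfl, fun h => h.symm, fun h h' => h.trans h'⟩

theorem card_quotient {c : ℕ} {φ : E →+* ℂ} (h : (coreOf 1 φ).ncard = 2 * c) :
    Nat.card (Quotient (coreSetoid E)) * (2 * c) = finrank ℚ E := by
  classical
  let _ : Fintype (Quotient (coreSetoid E)) := Fintype.ofFinite _
  rw [← Embeddings.card E ℂ, Nat.card_eq_fintype_card, ← Finset.card_univ (α := E →+* ℂ),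
    Finset.card_eq_sum_card_fiberwise (f := fun x => (Quotient.mk (coreSetoid E) x))
      (t := Finset.univ) (fun x _ => Finset.mem_coe.2 (Finset.mem_univ _))]
  rw [Finset.sum_congr rfl (g := fun _ => 2 * c)]
  · rw [Finset.sum_const, Finset.card_univ, smul_eq_mul]
  · intro q _
    obtain ⟨ψ, rfl⟩ := Quotient.exists_rep q
    rw [← h, ncard_core_eq 1 φ ψ, ← Set.ncard_coe_finset]
    congr 1
    ext χ
    simp only [Finset.coe_filter, Finset.mem_univ, true_and, Set.mem_setOf_eq]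
    rw [Quotient.eq]
    change coreOf 1 χ = coreOf 1 ψ ↔ χ ∈ coreOf 1 ψ
    rw [coreOf_eq, coreOf_eq]
    constructor
    · intro h
      rw [← h]
      exact self_mem 1 χ
    · exact fun h => eq_of_mem h

theorem relIndex_le : (MulAction.toPermHom (ℂ ≃+* ℂ) (E →+* ℂ)).ker.relIndex
    (MulAction.toPermHom (ℂ ≃+* ℂ) (maximalRealSubfield E →+* ℂ)).ker ≤
      2 ^ Nat.card (Quotient (coreSetoid E)) := by
  classical
  set A := (MulAction.toPermHom (ℂ ≃+* ℂ) (E →+* ℂ)).ker with hA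
  set B := (MulAction.toPermHom (ℂ ≃+* ℂ) (maximalRealSubfield E →+* ℂ)).ker with hB
  have hfin : Finite (Quotient (coreSetoid E)) := inferInstance
  have hcard : Nat.card (Quotient (coreSetoid E) → Prop) =
      2 ^ Nat.card (Quotient (coreSetoid E)) := by
    rw [Nat.card_fun]
    simp
  rw [← hcard]
  change Nat.card (B ⧸ A.subgroupOf B) ≤ _
  let f : B → (Quotient (coreSetoid E) → Prop) := fun σ q => (σ : ℂ ≃+* ℂ) • q.out = q.out
  have hf : ∀ σ τ : B, (f σ = f τ ↔ σ⁻¹ * τ ∈ A.subgroupOf B) := by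
    intro σ τ
    rw [Subgroup.mem_subgroupOf]
    have hmem : ((σ⁻¹ * τ : B) : ℂ ≃+* ℂ) ∈ A ↔
        ∀ φ : E →+* ℂ, (σ : ℂ ≃+* ℂ) • φ = (τ : ℂ ≃+* ℂ) • φ := by
      rw [hA, mem_ker_toPermHom]
      refine forall_congr' fun φ => ?_
      change ((σ : ℂ ≃+* ℂ)⁻¹ * (τ : ℂ ≃+* ℂ)) • φ = φ ↔ _
      rw [mul_smul, inv_smul_eq_iff]
      exact eq_comm
    rw [hmem]
    have hσ : SignsOn (Set.univ : Set (E →+* ℂ)) (σ : ℂ ≃+* ℂ) := (signsOn_iff _).2 σ.2
    have hτ : SignsOn (Set.univ : Set (E →+* ℂ)) (τ : ℂ ≃+* ℂ) := (signsOn_iff _).2 τ.2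
    constructor
    · intro h φ
      have h1 := congrFun h (Quotient.mk (coreSetoid E) φ)
      simp only [f] at h1
      set ψ := (Quotient.mk (coreSetoid E) φ).out with hψ
      have h2 : coreOf 1 ψ = coreOf 1 φ := Quotient.exact (Quotient.out_eq (Quotient.mk (coreSetoid E) φ))
      have h3 : ψ ∈ coreOf 1 φ := by
        rw [← h2, coreOf_eq]
        exact self_mem 1 ψ
      have h4 : ((σ : ℂ ≃+* ℂ) • φ = φ ↔ (σ : ℂ ≃+* ℂ) • ψ = ψ) := h3.2 σ hσ
      have h5 : ((τ : ℂ ≃+* ℂ) • φ = φ ↔ (τ : ℂ ≃+* ℂ) • ψ = ψ) := h3.2 τ hτ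
      have h6 : ((σ : ℂ ≃+* ℂ) • φ = φ ↔ (τ : ℂ ≃+* ℂ) • φ = φ) := by
        rw [h4, h5]
        exact iff_of_eq h1
      have h7 : (σ : ℂ ≃+* ℂ) • φ = φ ∨ (σ : ℂ ≃+* ℂ) • φ = ComplexEmbedding.conjugate φ :=
        hσ φ trivial
      have h8 : (τ : ℂ ≃+* ℂ) • φ = φ ∨ (τ : ℂ ≃+* ℂ) • φ = ComplexEmbedding.conjugate φ :=
        hτ φ trivial
      rcases h7 with h7 | h7
      · rw [h7, h6.1 h7]
      · rcases h8 with h8 | h8
        · rw [h6.2 h8, h8]
        · rw [h7, h8]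
    · intro h
      funext q
      simp only [f]
      rw [h]
  refine Nat.card_le_card_of_injective (Quotient.lift f ?_) ?_
  · intro σ τ hστ
    rw [hf]
    exact QuotientGroup.leftRel_apply.1 hστ
  · intro x y
    obtain ⟨σ, rfl⟩ := Quotient.exists_rep x
    obtain ⟨τ, rfl⟩ := Quotient.exists_rep y
    intro h
    exact Quotient.sound (QuotientGroup.leftRel_apply.2 ((hf σ τ).1 h))

variable (E) in
theorem relIndex_mul : (MulAction.toPermHom (ℂ ≃+* ℂ) (E →+* ℂ)).ker.relIndex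
    (MulAction.toPermHom (ℂ ≃+* ℂ) (maximalRealSubfield E →+* ℂ)).ker *
      finrank ℚ (normalClosure ℚ (maximalRealSubfield E) ℂ) =
        finrank ℚ (normalClosure ℚ E ℂ) := by
  rw [← index_ker_eq, ← index_ker_eq]
  exact Subgroup.relIndex_mul_index ker_le

variable (E) in
/-- **The first core.** -/
theorem exists_first_core : ∃ c : ℕ, HasCore E c ∧ 0 < c ∧ 2 * c ∣ finrank ℚ E ∧
    finrank ℚ (normalClosure ℚ E ℂ) ^ c ≤ 2 ^ (finrank ℚ E / 2) *
      finrank ℚ (normalClosure ℚ (maximalRealSubfield E) ℂ) ^ c ∧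
    (∀ q : ℕ, q.Prime → (q : ℤ) ∣ discr E → ¬ (q : ℤ) ∣ discr (maximalRealSubfield E) →
      (q : ℤ) ^ c ∣ discr E) ∧
    (finrank ℚ E = 2 * c → finrank ℚ (normalClosure ℚ E ℂ) ≤
      2 * finrank ℚ (normalClosure ℚ (maximalRealSubfield E) ℂ)) := by
  obtain ⟨φ⟩ : Nonempty (E →+* ℂ) := inferInstance
  obtain ⟨c, hc'⟩ := even_card_core 1 φ
  have hc : (coreOf 1 φ).ncard = 2 * c := by rw [hc']; ring
  have hq := card_quotient hc
  have hpos : 0 < c := by
    rcases Nat.eq_zero_or_pos c with h | h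
    · rw [h, mul_zero, mul_zero] at hq
      exact absurd hq.symm (finrank_pos (R := ℚ) (M := E)).ne'
    · exact h
  have hg : finrank ℚ E / 2 = Nat.card (Quotient (coreSetoid E)) * c := by
    rw [← hq]
    rw [show Nat.card (Quotient (coreSetoid E)) * (2 * c) =
      2 * (Nat.card (Quotient (coreSetoid E)) * c) by ring]
    simp
  have hle := relIndex_le (E := E)
  have hmul := relIndex_mul E
  refine ⟨c, ⟨1, φ, hc⟩, hpos, ⟨Nat.card (Quotient (coreSetoid E)), by rw [← hq]; ring⟩, ?_, ?_, ?_⟩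
  · rw [hg, pow_mul, ← mul_pow, ← hmul]
    exact Nat.pow_le_pow_left (Nat.mul_le_mul_right _ hle) c
  · intro q hq' h1 h2
    obtain ⟨ψ, c', hc1, hc2⟩ := core_of_discr hq' h1 h2
    have h3 := ncard_core_eq 1 φ ψ
    rw [hc, hc1] at h3
    have h4 : c = c' := by omega
    rwa [h4]
  · intro h
    rw [h] at hq
    have h1 : Nat.card (Quotient (coreSetoid E)) = 1 :=
      Nat.eq_of_mul_eq_mul_right (Nat.mul_pos two_pos hpos) (hq.trans (one_mul _).symm)
    rw [h1, pow_one] at hle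
    rw [← hmul]
    exact Nat.mul_le_mul_right _ hle

end

end Pool.Agent.H298.Core
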