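import Mathlib
import Pool.Agent.H298.Core.Basic

/-!
# Triply transitive actions on the pairs: irreducibility or an invariant half
-/

set_option autoImplicit false
set_option linter.unusedSectionVars false
set_option linter.unusedVariables false

namespace Pool.Agent.H298.Core

open MulAction Finset

namespace TT

variable {G : Type*} [Group G] {Y : Type*} [MulAction G Y] (inv : Y → Y)

/-- The elements `a` and `b` belong to different pairs. -/
def NP (a b : Y) : Prop := a ≠ b ∧ a ≠ inv b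

/-- The action is triply transitive on the pairs. -/
def Triply (G : Type*) [Group G] {Y : Type*} [MulAction G Y] (inv : Y → Y) : Prop :=
  ∀ a b c a' b' c' : Y, NP inv a b → NP inv b c → NP inv a c → NP inv a' b' → NP inv b' c' →
    NP inv a' c' → ∃ g : G, (g • a = a' ∨ g • a = inv a') ∧ (g • b = b' ∨ g • b = inv b') ∧
      (g • c = c' ∨ g • c = inv c')

variable {inv}
variable (hinv : ∀ y, inv (inv y) = y) (hne : ∀ y, inv y ≠ y)
  (hG : ∀ (g : G) (y : Y), g • inv y = inv (g • y)) {ρ : G} (hρ : ∀ y : Y, ρ • y = inv y)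
  (hex : ∀ a b : Y, NP inv a b → ∃ c, NP inv b c ∧ NP inv a c) (h3 : Triply G inv)

include hinv in
theorem NP.symm {a b : Y} (h : NP inv a b) : NP inv b a :=
  ⟨h.1.symm, fun h1 => h.2 (by rw [h1, hinv])⟩

include hinv in
theorem NP.inv_right {a b : Y} (h : NP inv a b) : NP inv a (inv b) :=
  ⟨h.2, by rw [hinv]; exact h.1⟩

include hinv in
theorem NP.inv_left {a b : Y} (h : NP inv a b) : NP inv (inv a) b :=
  NP.symm hinv (NP.inv_right hinv (NP.symm hinv h))

include hG in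
theorem NP.smul {a b : Y} (h : NP inv a b) (g : G) : NP inv (g • a) (g • b) :=
  ⟨fun h1 => h.1 (MulAction.injective g h1), fun h1 => h.2 (by
    rw [← hG] at h1
    exact MulAction.injective g h1)⟩

include hinv hG hρ hex h3 in
theorem two {a b a' b' : Y} (h : NP inv a b) (h' : NP inv a' b') :
    ∃ g : G, g • a = a' ∧ (g • b = b' ∨ g • b = inv b') := by
  obtain ⟨c, hc1, hc2⟩ := hex a b h
  obtain ⟨c', hc1', hc2'⟩ := hex a' b' h'
  obtain ⟨g, h1, h2, -⟩ := h3 a b c a' b' c' h hc1 hc2 h' hc1' hc2'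
  rcases h1 with h1 | h1
  · exact ⟨g, h1, h2⟩
  · refine ⟨ρ * g, by rw [mul_smul, h1, hρ, hinv], ?_⟩
    rw [mul_smul, hρ]
    rcases h2 with h2 | h2
    · exact Or.inr (by rw [h2])
    · exact Or.inl (by rw [h2, hinv])

/-- The translates of the pair `a₀, b₀`. -/
def T (G : Type*) [Group G] {Y : Type*} [MulAction G Y] (a₀ b₀ a b : Y) : Prop :=
  ∃ g : G, g • a₀ = a ∧ g • b₀ = b

theorem T_smul (a₀ b₀ : Y) (g : G) (a b : Y) : T G a₀ b₀ (g • a) (g • b) ↔ T G a₀ b₀ a b := by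
  constructor
  · rintro ⟨h, h1, h2⟩
    exact ⟨g⁻¹ * h, by rw [mul_smul, h1, inv_smul_smul], by rw [mul_smul, h2, inv_smul_smul]⟩
  · rintro ⟨h, h1, h2⟩
    exact ⟨g * h, by rw [mul_smul, h1], by rw [mul_smul, h2]⟩

include hinv hρ in
theorem T_inv_left (a₀ b₀ a b : Y) : T G a₀ b₀ (inv a) b ↔ T G a₀ b₀ a (inv b) := by
  rw [← T_smul a₀ b₀ ρ a (inv b), hρ, hρ, hinv]

variable {a₀ b₀ : Y} (h₀ : NP inv a₀ b₀)
  (hflip : ∀ g : G, g • a₀ = a₀ → g • b₀ ≠ inv b₀)

include hinv hG hρ hex h3 h₀ hflip in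
theorem T_xor {a b : Y} (h : NP inv a b) : T G a₀ b₀ a (inv b) ↔ ¬ T G a₀ b₀ a b := by
  constructor
  · rintro ⟨g, h1, h2⟩ ⟨g', h1', h2'⟩
    refine hflip (g'⁻¹ * g) ?_ ?_
    · rw [mul_smul, h1, ← h1', inv_smul_smul]
    · rw [mul_smul, h2, inv_smul_eq_iff, hG, h2']
  · intro hn
    obtain ⟨g, h1, h2 | h2⟩ := two hinv hG hρ hex h3 h₀ h
    · exact absurd ⟨g, h1, h2⟩ hn
    · exact ⟨g, h1, h2⟩

open Classical in
/-- As a truth value. -/
noncomputable def tb (G : Type*) [Group G] {Y : Type*} [MulAction G Y] (a₀ b₀ a b : Y) : Bool :=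
  decide (T G a₀ b₀ a b)

/-- The value at a triple. -/
noncomputable def tau (G : Type*) [Group G] {Y : Type*} [MulAction G Y] (a₀ b₀ a b c : Y) : Bool :=
  xor (xor (tb G a₀ b₀ a b) (tb G a₀ b₀ b c)) (tb G a₀ b₀ c a)

include hinv hG hρ hex h3 h₀ hflip in
theorem tb_inv_right {a b : Y} (h : NP inv a b) :
    tb G a₀ b₀ a (inv b) = !tb G a₀ b₀ a b := by
  classical
  have h1 := T_xor hinv hG hρ hex h3 h₀ hflip h
  unfold tb
  rw [← decide_not]
  exact decide_eq_decide.2 h1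

include hinv hG hρ hex h3 h₀ hflip in
theorem tb_inv_left {a b : Y} (h : NP inv a b) :
    tb G a₀ b₀ (inv a) b = !tb G a₀ b₀ a b := by
  classical
  rw [← tb_inv_right hinv hG hρ hex h3 h₀ hflip h]
  unfold tb
  exact decide_eq_decide.2 (T_inv_left hinv hρ a₀ b₀ a b)

theorem tb_smul (g : G) (a b : Y) : tb G a₀ b₀ (g • a) (g • b) = tb G a₀ b₀ a b := by
  classical
  unfold tb
  exact decide_eq_decide.2 (T_smul a₀ b₀ g a b)

include hinv hG hρ hex h3 h₀ hflip in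
/-- The value at triples is constant. -/
theorem tau_const {a b c a' b' c' : Y} (h1 : NP inv a b) (h2 : NP inv b c) (h4 : NP inv a c)
    (h1' : NP inv a' b') (h2' : NP inv b' c') (h4' : NP inv a' c') :
    tau G a₀ b₀ a b c = tau G a₀ b₀ a' b' c' := by
  obtain ⟨g, ha, hb, hc⟩ := h3 a b c a' b' c' h1 h2 h4 h1' h2' h4'
  have hR := fun {a b : Y} (h : NP inv a b) => tb_inv_right hinv hG hρ hex h3 h₀ hflip h
  have hL := fun {a b : Y} (h : NP inv a b) => tb_inv_left hinv hG hρ hex h3 h₀ hflip h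
  have e1 := tb_smul (a₀ := a₀) (b₀ := b₀) g a b
  have e2 := tb_smul (a₀ := a₀) (b₀ := b₀) g b c
  have e3 := tb_smul (a₀ := a₀) (b₀ := b₀) g c a
  unfold tau
  rw [← e1, ← e2, ← e3]
  rcases ha with ha | ha <;> rcases hb with hb | hb <;> rcases hc with hc | hc <;>
    rw [ha, hb, hc]
  · rw [hR h2', hL (NP.symm hinv h4')]
    cases tb G a₀ b₀ a' b' <;> cases tb G a₀ b₀ b' c' <;> cases tb G a₀ b₀ c' a' <;> rfl
  · rw [hR h1', hL h2']
    cases tb G a₀ b₀ a' b' <;> cases tb G a₀ b₀ b' c' <;> cases tb G a₀ b₀ c' a' <;> rfl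
  · rw [hR h1', hL (NP.inv_right hinv h2'), hR h2', hL (NP.symm hinv h4')]
    cases tb G a₀ b₀ a' b' <;> cases tb G a₀ b₀ b' c' <;> cases tb G a₀ b₀ c' a' <;> rfl
  · rw [hL h1', hR (NP.symm hinv h4')]
    cases tb G a₀ b₀ a' b' <;> cases tb G a₀ b₀ b' c' <;> cases tb G a₀ b₀ c' a' <;> rfl
  · rw [hL h1', hR h2', hL (NP.inv_right hinv (NP.symm hinv h4')), hR (NP.symm hinv h4')]
    cases tb G a₀ b₀ a' b' <;> cases tb G a₀ b₀ b' c' <;> cases tb G a₀ b₀ c' a' <;> rfl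
  · rw [hL (NP.inv_right hinv h1'), hR h1', hL h2', hR (NP.symm hinv h4')]
    cases tb G a₀ b₀ a' b' <;> cases tb G a₀ b₀ b' c' <;> cases tb G a₀ b₀ c' a' <;> rfl
  · rw [hL (NP.inv_right hinv h1'), hR h1', hL (NP.inv_right hinv h2'), hR h2',
      hL (NP.inv_right hinv (NP.symm hinv h4')), hR (NP.symm hinv h4')]
    cases tb G a₀ b₀ a' b' <;> cases tb G a₀ b₀ b' c' <;> cases tb G a₀ b₀ c' a' <;> rfl

include hinv hG hρ hex h3 h₀ hflip in
theorem tb_symm {a b : Y} (h : NP inv a b) : tb G a₀ b₀ a b = tb G a₀ b₀ b a := by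
  have hR := fun {a b : Y} (h : NP inv a b) => tb_inv_right hinv hG hρ hex h3 h₀ hflip h
  have hL := fun {a b : Y} (h : NP inv a b) => tb_inv_left hinv hG hρ hex h3 h₀ hflip h
  have hconst : ∀ a b a' b' : Y, NP inv a b → NP inv a' b' →
      xor (tb G a₀ b₀ a b) (tb G a₀ b₀ b a) = xor (tb G a₀ b₀ a' b') (tb G a₀ b₀ b' a') := by
    intro a b a' b' h h'
    obtain ⟨g, h1, h2 | h2⟩ := two hinv hG hρ hex h3 h h'
    · rw [← tb_smul (a₀ := a₀) (b₀ := b₀) g a b, ← tb_smul (a₀ := a₀) (b₀ := b₀) g b a, h1, h2]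
    · rw [← tb_smul (a₀ := a₀) (b₀ := b₀) g a b, ← tb_smul (a₀ := a₀) (b₀ := b₀) g b a, h1, h2,
        hR h', hL (NP.symm hinv h')]
      cases tb G a₀ b₀ a' b' <;> cases tb G a₀ b₀ b' a' <;> rfl
  obtain ⟨c, hc1, hc2⟩ := hex a b h
  have h4 := tau_const hinv hG hρ hex h3 h₀ hflip h hc1 hc2 (NP.symm hinv h) hc2 hc1
  have h5 := hconst a b b c h hc1
  have h6 := hconst a b c a h (NP.symm hinv hc2)
  unfold tau at h4
  revert h4 h5 h6
  cases tb G a₀ b₀ a b <;> cases tb G a₀ b₀ b a <;> cases tb G a₀ b₀ b c <;>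
    cases tb G a₀ b₀ c b <;> cases tb G a₀ b₀ c a <;> cases tb G a₀ b₀ a c <;> decide

end TT

/-- **Triply transitive actions on the pairs.** The stabilizer of a point is transitive on the other
pairs (and their elements), or there is an invariant equivalence relation with two classes which are
exchanged by the involution, with double transitivity. -/
theorem dichotomy3 {G : Type*} [Group G] {Y : Type*} [MulAction G Y] {inv : Y → Y}
    (hinv : ∀ y, inv (inv y) = y) (hne : ∀ y, inv y ≠ y)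
    (hG : ∀ (g : G) (y : Y), g • inv y = inv (g • y)) {ρ : G} (hρ : ∀ y : Y, ρ • y = inv y)
    (hex : ∀ a b : Y, TT.NP inv a b → ∃ c, TT.NP inv b c ∧ TT.NP inv a c)
    (h3 : TT.Triply G inv) :
    (∀ x y₁ y₂ : Y, TT.NP inv x y₁ → TT.NP inv x y₂ → ∃ g : G, g • x = x ∧ g • y₁ = y₂) ∨
      ∃ R : Setoid Y, (∀ (g : G) (x y : Y), R x y → R (g • x) (g • y)) ∧ (∀ x, ¬ R x (inv x)) ∧
        (∀ x y, R x y ∨ R x (inv y)) ∧
        ∀ x x' y y' : Y, R x x' → R y y' → x ≠ x' → y ≠ y' → ∃ g : G, g • x = y ∧ g • x' = y' := by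
  classical
  by_cases hf : ∃ (a₀ b₀ : Y) (g : G), TT.NP inv a₀ b₀ ∧ g • a₀ = a₀ ∧ g • b₀ = inv b₀
  · obtain ⟨a₀, b₀, f, h₀, hf1, hf2⟩ := hf
    left
    intro x y₁ y₂ h1 h2
    obtain ⟨g, hg1, hg2 | hg2⟩ := TT.two hinv hG hρ hex h3 h1 h2
    · exact ⟨g, hg1, hg2⟩
    · -- a flip at `x, y₁`
      obtain ⟨k, hk1, hk2 | hk2⟩ := TT.two hinv hG hρ hex h3 h₀ h1
      · refine ⟨g * (k * f * k⁻¹), ?_, ?_⟩
        · have h4 : k⁻¹ • x = a₀ := by rw [← hk1, inv_smul_smul]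
          rw [mul_smul, mul_smul, mul_smul, h4, hf1, hk1, hg1]
        · have h4 : k⁻¹ • y₁ = b₀ := by rw [← hk2, inv_smul_smul]
          rw [mul_smul, mul_smul, mul_smul, h4, hf2, hG, hk2, hG, hg2, hinv]
      · refine ⟨g * (k * f * k⁻¹), ?_, ?_⟩
        · have h4 : k⁻¹ • x = a₀ := by rw [← hk1, inv_smul_smul]
          rw [mul_smul, mul_smul, mul_smul, h4, hf1, hk1, hg1]
        · have h4 : k⁻¹ • y₁ = inv b₀ := by
            rw [inv_smul_eq_iff, hG, hk2, hinv]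
          rw [mul_smul, mul_smul, mul_smul, h4, hG, hf2, hinv, hk2, hG, hg2, hinv]
  · push Not at hf
    by_cases hNP : ∃ a₀ b₀ : Y, TT.NP inv a₀ b₀
    swap
    · push Not at hNP
      left
      intro x y₁ y₂ h1 _
      exact absurd h1 (hNP x y₁)
    obtain ⟨a₀, b₀, h₀⟩ := hNP
    have hflip : ∀ g : G, g • a₀ = a₀ → g • b₀ ≠ inv b₀ := fun g => hf a₀ b₀ g h₀
    obtain ⟨c₀, hc1, hc2⟩ := hex a₀ b₀ h₀
    right
    set t : Bool := TT.tau G a₀ b₀ a₀ b₀ c₀ with ht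
    have hR := fun {a b : Y} (h : TT.NP inv a b) =>
      TT.tb_inv_right hinv hG hρ hex h3 h₀ hflip h
    have hL := fun {a b : Y} (h : TT.NP inv a b) =>
      TT.tb_inv_left hinv hG hρ hex h3 h₀ hflip h
    have hS := fun {a b : Y} (h : TT.NP inv a b) => TT.tb_symm hinv hG hρ hex h3 h₀ hflip h
    have htau : ∀ a b c : Y, TT.NP inv a b → TT.NP inv b c → TT.NP inv a c →
        TT.tb G a₀ b₀ a c = xor t (xor (TT.tb G a₀ b₀ a b) (TT.tb G a₀ b₀ b c)) := by
      intro a b c h1 h2 h4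
      have h5 := TT.tau_const hinv hG hρ hex h3 h₀ hflip h₀ hc1 hc2 h1 h2 h4
      rw [← ht] at h5
      rw [h5, hS h4]
      unfold TT.tau
      cases TT.tb G a₀ b₀ a b <;> cases TT.tb G a₀ b₀ b c <;> cases TT.tb G a₀ b₀ c a <;> rfl
    have hnself : ∀ x : Y, ¬ TT.NP inv x (inv x) := fun x h => h.2 (hinv x).symm
    refine ⟨{ r := fun x y => x = y ∨ (TT.NP inv x y ∧ TT.tb G a₀ b₀ x y = t)
              iseqv := ⟨fun x => Or.inl rfl, ?_, ?_⟩ }, ?_, ?_, ?_, ?_⟩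
    · rintro x y (rfl | ⟨h1, h2⟩)
      · exact Or.inl rfl
      · exact Or.inr ⟨TT.NP.symm hinv h1, by rw [← hS h1, h2]⟩
    · rintro x y z (rfl | ⟨h1, h2⟩) h4
      · exact h4
      · rcases h4 with rfl | ⟨h4, h5⟩
        · exact Or.inr ⟨h1, h2⟩
        · by_cases hxz : x = z
          · exact Or.inl hxz
          · by_cases hxz' : x = inv z
            · exfalso
              subst hxz'
              rw [hL (TT.NP.symm hinv h4), ← hS h4, h5] at h2
              cases t <;> simp at h2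
            · refine Or.inr ⟨⟨hxz, hxz'⟩, ?_⟩
              rw [htau x y z h1 h4 ⟨hxz, hxz'⟩, h2, h5]
              cases t <;> rfl
    · rintro g x y (rfl | ⟨h1, h2⟩)
      · exact Or.inl rfl
      · exact Or.inr ⟨TT.NP.smul hG h1 g, by rw [TT.tb_smul, h2]⟩
    · rintro x (h | ⟨h, -⟩)
      · exact hne x h.symm
      · exact hnself x h
    · intro x y
      by_cases hxy : x = y
      · exact Or.inl (Or.inl hxy)
      by_cases hxy' : x = inv y
      · exact Or.inr (Or.inl hxy')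
      have h1 : TT.NP inv x y := ⟨hxy, hxy'⟩
      by_cases h2 : TT.tb G a₀ b₀ x y = t
      · exact Or.inl (Or.inr ⟨h1, h2⟩)
      · refine Or.inr (Or.inr ⟨TT.NP.inv_right hinv h1, ?_⟩)
        rw [hR h1]
        revert h2
        cases TT.tb G a₀ b₀ x y <;> cases t <;> simp
    · rintro x x' y y' (h1 | ⟨h1, h2⟩) h4 hx hy
      · exact absurd h1 hx
      rcases h4 with h4 | ⟨h4, h5⟩
      · exact absurd h4 hy
      obtain ⟨g, hg1, hg2 | hg2⟩ := TT.two hinv hG hρ hex h3 h1 h4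
      · exact ⟨g, hg1, hg2⟩
      · exfalso
        have h6 := TT.tb_smul (a₀ := a₀) (b₀ := b₀) g x x'
        rw [hg1, hg2, hR h4, h5, h2] at h6
        cases t <;> simp at h6

end Pool.Agent.H298.Core
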