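import Mathlib
import Pool.Agent.H298.Core.Closure
import Pool.Agent.H298.Core.Block
import Pool.Agent.H298.Core.ThreeTrans

/-!
# Fields whose maximal real subfield has a triply transitive Galois group
-/

set_option autoImplicit false
set_option linter.unusedSectionVars false
set_option linter.unusedVariables false

namespace Pool.Agent.H298.Core

open NumberField Module MulAction Finset Pool.Agent.H204R3.CM Pool.Agent.H977R3.CM
  Pool.Agent.TH170.CM

attribute [local instance] actC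

/-- The odd part is irreducible if the stabilizer of an embedding is transitive on the embeddings in
the other pairs. -/
theorem oddIrreducible_of_transitive {E : Type} [Field E] [NumberField E] [IsCMField E]
    (φ : E →+* ℂ) (h : ∀ y₁ y₂ : E →+* ℂ, y₁ ≠ φ → y₁ ≠ ComplexEmbedding.conjugate φ → y₂ ≠ φ →
      y₂ ≠ ComplexEmbedding.conjugate φ → ∃ σ : ℂ ≃+* ℂ, σ • φ = φ ∧ σ • y₁ = y₂) :
    Pool.Agent.Y156.P.OddIrreducible E := by
  classical
  intro S hst hodd
  by_contra hcon
  push Not at hcon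
  obtain ⟨hS0, u, hu, huS⟩ := hcon
  obtain ⟨w, hw0, hw, horth⟩ := Pool.Agent.Y156.P.exists_orth S hodd hu huS
  obtain ⟨s, hs, hs0⟩ := Submodule.exists_mem_ne_zero_of_ne_bot hS0
  obtain ⟨D₁, r, hD₁, hr⟩ := Pool.Agent.TH170.GS.exists_den s
  obtain ⟨D₂, z, hD₂, hz⟩ := Pool.Agent.TH170.GS.exists_den w
  have hD₁q : (D₁ : ℚ) ≠ 0 := Nat.cast_ne_zero.2 hD₁
  have hD₂q : (D₂ : ℚ) ≠ 0 := Nat.cast_ne_zero.2 hD₂
  have hzc : ∀ φ, z (ComplexEmbedding.conjugate φ) = -z φ := by
    intro φ
    have h1 : ((z (ComplexEmbedding.conjugate φ) : ℤ) : ℚ) = ((-z φ : ℤ) : ℚ) := by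
      rw [hz, Int.cast_neg, hz, hw]
      ring
    exact_mod_cast h1
  have hrel : r ∈ Rel (ℂ ≃+* ℂ) ComplexEmbedding.conjugate z Set.univ := by
    refine ⟨fun φ => ?_, fun σ => ?_, fun y hy => absurd (Set.mem_univ y) hy⟩
    · have h1 : ((r (ComplexEmbedding.conjugate φ) : ℤ) : ℚ) = ((-r φ : ℤ) : ℚ) := by
        rw [hr, Int.cast_neg, hr, hodd s hs]
        ring
      exact_mod_cast h1
    · have h1 : (fun φ => s (((σ⁻¹ : ℂ ≃+* ℂ) : ℂ →+* ℂ).comp φ)) ∈ S := hst _ s hs
      have h2 := horth _ h1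
      have h3 : ∑ φ : E →+* ℂ, s φ * w (σ • φ) = 0 := by
        rw [← h2]
        refine Fintype.sum_equiv (MulAction.toPerm σ) _ _ fun φ => ?_
        have h4 : ((σ⁻¹ : ℂ ≃+* ℂ) : ℂ →+* ℂ).comp (MulAction.toPerm σ φ) = φ :=
          inv_smul_smul σ φ
        rw [h4, mul_comm]
        rfl
      have h5 : ((∑ φ : E →+* ℂ, r φ * z (σ • φ) : ℤ) : ℚ) = 0 := by
        push_cast
        calc ∑ φ : E →+* ℂ, (r φ : ℚ) * (z (σ • φ) : ℚ)
            = ∑ φ : E →+* ℂ, (D₁ * D₂ : ℚ) * (s φ * w (σ • φ)) := by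
              refine Finset.sum_congr rfl fun φ _ => ?_
              rw [hr, hz]
              ring
          _ = 0 := by rw [← Finset.mul_sum, h3, mul_zero]
      exact_mod_cast h5
  have hr0 : r ≠ 0 := by
    intro h0
    apply hs0
    funext φ
    have h1 := hr φ
    rw [h0, Pi.zero_apply, Int.cast_zero] at h1
    exact (mul_eq_zero.1 h1.symm).resolve_left hD₁q
  have h1 := transitive_core Pool.Agent.H298.Core.conj_conj Pool.Agent.H298.Core.conj_ne
    smul_conj hzc 0 φ (fun y₁ _ y₂ _ h1 h2 h3 h4 => h y₁ y₂ h1 h2 h3 h4) hrel hr0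
  apply hw0
  funext ψ
  obtain ⟨σ, rfl⟩ := exists_smul_eq (ℂ ≃+* ℂ) φ ψ
  have h2 := hz (σ • φ)
  rw [h1, Int.cast_zero] at h2
  exact (mul_eq_zero.1 h2.symm).resolve_left hD₂q


section

variable {E : Type} [Field E] [NumberField E] [IsCMField E]

theorem np_iff_restrict {φ ψ : E →+* ℂ} : TT.NP ComplexEmbedding.conjugate φ ψ ↔
    φ.comp (algebraMap (maximalRealSubfield E) E) ≠
      ψ.comp (algebraMap (maximalRealSubfield E) E) := by
  constructor
  · rintro ⟨h1, h2⟩ h
    rcases eq_or_conj (φ := ψ) (ψ := φ) fun x hx => RingHom.congr_fun h ⟨x, hx⟩ with h3 | h3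
    · exact h1 h3
    · exact h2 h3
  · intro h
    refine ⟨fun h1 => h (by rw [h1]), fun h1 => h ?_⟩
    rw [h1]
    ext x
    change (ComplexEmbedding.conjugate ψ) (x : E) = ψ (x : E)
    rw [ComplexEmbedding.conjugate_coe_eq]
    exact x.2 ψ

theorem eq_or_conj_of_restrict {φ ψ : E →+* ℂ}
    (h : ψ.comp (algebraMap (maximalRealSubfield E) E) =
      φ.comp (algebraMap (maximalRealSubfield E) E)) :
    ψ = φ ∨ ψ = ComplexEmbedding.conjugate φ :=
  eq_or_conj fun x hx => RingHom.congr_fun h ⟨x, hx⟩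

/-- **Fields whose maximal real subfield has a triply transitive Galois group.** -/
theorem triply_field (h6 : 6 ≤ finrank ℚ E)
    (h : ∀ φ ψ : Fin 3 → (maximalRealSubfield E →+* ℂ), Function.Injective φ →
      Function.Injective ψ → ∃ σ : ℂ ≃+* ℂ, ∀ i, (σ : ℂ →+* ℂ).comp (φ i) = ψ i) :
    Pool.Agent.Y156.P.OddIrreducible E ∨ ∃ F : IntermediateField ℚ E,
      2 * finrank F E = finrank ℚ E ∧ ¬ IsTotallyReal F ∧ DoublyTransitive F := by
  classical
  have hT : TT.Triply (ℂ ≃+* ℂ) (ComplexEmbedding.conjugate (K := E)) := by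
    intro a b c a' b' c' h1 h2 h3 h1' h2' h3'
    rw [np_iff_restrict] at h1 h2 h3 h1' h2' h3'
    have hinj : ∀ x y z : maximalRealSubfield E →+* ℂ, x ≠ y → y ≠ z → x ≠ z →
        Function.Injective ![x, y, z] := by
      intro x y z hxy hyz hxz i j hij
      fin_cases i <;> fin_cases j <;> simp_all
    obtain ⟨σ, hσ⟩ := h _ _ (hinj _ _ _ h1 h2 h3) (hinj _ _ _ h1' h2' h3')
    exact ⟨σ, eq_or_conj_of_restrict (hσ 0), eq_or_conj_of_restrict (hσ 1),
      eq_or_conj_of_restrict (hσ 2)⟩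
  have hex : ∀ a b : E →+* ℂ, TT.NP ComplexEmbedding.conjugate a b →
      ∃ c, TT.NP ComplexEmbedding.conjugate b c ∧ TT.NP ComplexEmbedding.conjugate a c := by
    intro a b _
    by_contra hcon
    push Not at hcon
    have h1 : (Finset.univ : Finset (E →+* ℂ)) ⊆
        {a, ComplexEmbedding.conjugate a, b, ComplexEmbedding.conjugate b} := by
      intro c _
      simp only [Finset.mem_insert, Finset.mem_singleton]
      by_contra h2
      push Not at h2
      obtain ⟨h3, h4, h5, h6⟩ := h2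
      refine hcon c ⟨h5.symm, fun h7 => h6 ?_⟩ ⟨h3.symm, fun h7 => h4 ?_⟩
      · rw [h7, Pool.Agent.H298.Core.conj_conj]
      · rw [h7, Pool.Agent.H298.Core.conj_conj]
    have h2 := (Finset.card_le_card h1).trans Finset.card_le_four
    rw [Finset.card_univ, Embeddings.card] at h2
    omega
  rcases dichotomy3 Pool.Agent.H298.Core.conj_conj Pool.Agent.H298.Core.conj_ne smul_conj
    (ρ := (starRingAut : ℂ ≃+* ℂ)) (fun φ => RingHom.ext fun x => rfl) hex hT with h1 | h1
  · left
    obtain ⟨φ⟩ : Nonempty (E →+* ℂ) := inferInstance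
    refine oddIrreducible_of_transitive φ fun y₁ y₂ h2 h3 h4 h5 => h1 φ y₁ y₂ ⟨h2.symm, fun h6 => h3 ?_⟩
      ⟨h4.symm, fun h6 => h5 ?_⟩
    · rw [h6, Pool.Agent.H298.Core.conj_conj]
    · rw [h6, Pool.Agent.H298.Core.conj_conj]
  · right
    obtain ⟨R, hR1, hR2, hR3, hR4⟩ := h1
    obtain ⟨F, hF⟩ := exists_subfield R hR1
    refine ⟨F, ?_, fun hreal => ?_, ?_⟩
    · obtain ⟨φ⟩ : Nonempty (E →+* ℂ) := inferInstance
      rw [← card_extensions F φ, ← Embeddings.card E ℂ, Nat.card_eq_fintype_card,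
        Fintype.card_subtype, two_mul]
      have h2 : (Finset.univ : Finset (E →+* ℂ)).card =
          (Finset.univ.filter fun ψ : E →+* ℂ => ∀ x ∈ F, ψ x = φ x).card +
          (Finset.univ.filter fun ψ : E →+* ℂ => ¬ ∀ x ∈ F, ψ x = φ x).card :=
        (Finset.card_filter_add_card_filter_not _).symm
      rw [← Finset.card_univ, h2]
      congr 1
      refine Finset.card_bij (fun ψ _ => ComplexEmbedding.conjugate ψ) ?_ ?_ ?_
      · intro ψ hψ
        simp only [Finset.mem_filter, Finset.mem_univ, true_and] at hψ ⊢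
        rw [hF] at hψ ⊢
        intro h3
        exact hR2 ψ (R.trans hψ (R.symm h3))
      · intro ψ _ χ _ h3
        have h4 := congrArg ComplexEmbedding.conjugate h3
        rwa [Pool.Agent.H298.Core.conj_conj, Pool.Agent.H298.Core.conj_conj] at h4
      · intro χ hχ
        simp only [Finset.mem_filter, Finset.mem_univ, true_and] at hχ
        refine ⟨ComplexEmbedding.conjugate χ, ?_, Pool.Agent.H298.Core.conj_conj χ⟩
        simp only [Finset.mem_filter, Finset.mem_univ, true_and]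
        rw [hF] at hχ ⊢
        rcases hR3 φ χ with h3 | h3
        · exact absurd (R.symm h3) hχ
        · exact R.symm h3
    · obtain ⟨φ⟩ : Nonempty (E →+* ℂ) := inferInstance
      apply hR2 φ
      rw [← hF]
      intro x hx
      rw [ComplexEmbedding.conjugate_coe_eq]
      have h2 : ComplexEmbedding.IsReal (φ.comp (algebraMap F E)) := hreal.complexEmbedding_isReal _
      have h3 := RingHom.congr_fun (ComplexEmbedding.isReal_iff.1 h2) ⟨x, hx⟩
      exact h3.symm
    · intro φ φ' ψ ψ' h1 h2 h3 h4 h5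
      have e1 : R φ φ' := R.symm ((hF _ _).1 h1)
      have e2 : R ψ ψ' := (hF _ _).1 fun x hx => (h2 x hx).trans (h3 x hx).symm
      exact hR4 φ φ' ψ ψ' e1 e2 h4 h5

end

end Pool.Agent.H298.Core
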