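import Mathlib
import Pool.Agent.H298.Core.Disc
import Pool.Agent.H298.Core.Block
import Pool.Agent.H298.Core.ThreeField

/-!
# Types without relations, by the number of elements of a core
-/

set_option autoImplicit false
set_option linter.unusedSectionVars false
set_option linter.unusedVariables false

namespace Pool.Agent.H298.Core

open NumberField Module MulAction Finset Pool.Agent.H204R3.CM Pool.Agent.H977R3.CM
  Pool.Agent.TH170.CM Pool.Agent.Q29.OS Pool.Agent.Q29.DP

attribute [local instance] actC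

section

variable {E : Type} [Field E] [NumberField E] [IsCMField E]

theorem hasCore_of_fewDivisors (h : FewDivisors E) : ∃ c : ℕ, (c = 1 ∨ c.Prime) ∧ HasCore E c := by
  obtain ⟨c, h1, h2, h3, h4, h5, h6⟩ := exists_first_core E
  exact ⟨c, h c h3 h4 h5, h1⟩

/-- The Galois closure is larger than that of the maximal real subfield. -/
theorem two_mul_closure_le : 2 * closureDegree (maximalRealSubfield E) ≤ closureDegree E := by
  have h1 := relIndex_mul E
  have h2 : 2 ≤ (MulAction.toPermHom (ℂ ≃+* ℂ) (E →+* ℂ)).ker.relIndex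
      (MulAction.toPermHom (ℂ ≃+* ℂ) (maximalRealSubfield E →+* ℂ)).ker := by
    by_contra h
    have h3 : (MulAction.toPermHom (ℂ ≃+* ℂ) (E →+* ℂ)).ker.relIndex
        (MulAction.toPermHom (ℂ ≃+* ℂ) (maximalRealSubfield E →+* ℂ)).ker = 0 ∨
        (MulAction.toPermHom (ℂ ≃+* ℂ) (E →+* ℂ)).ker.relIndex
        (MulAction.toPermHom (ℂ ≃+* ℂ) (maximalRealSubfield E →+* ℂ)).ker = 1 := by omega
    rcases h3 with h3 | h3
    · rw [h3, zero_mul] at h1
      exact (finrank_pos (R := ℚ)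
        (M := IntermediateField.normalClosure ℚ E ℂ)).ne h1
    · rw [Subgroup.relIndex_eq_one] at h3
      obtain ⟨φ⟩ : Nonempty (E →+* ℂ) := inferInstance
      have h4 : (starRingAut : ℂ ≃+* ℂ) ∈
          (MulAction.toPermHom (ℂ ≃+* ℂ) (maximalRealSubfield E →+* ℂ)).ker := by
        rw [← signsOn_iff]
        exact fun ψ _ => Or.inr (RingHom.ext fun x => rfl)
      have h5 := (mem_ker_toPermHom _).1 (h3 h4) φ
      exact conj_ne φ h5
  unfold closureDegree
  rw [← h1]
  exact Nat.mul_le_mul_right _ h2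

theorem lt_of_largeClosure {m c : ℕ} (h : LargeClosure E m)
    (hc : closureDegree E ^ c ≤ 2 ^ (finrank ℚ E / 2) * closureDegree (maximalRealSubfield E) ^ c) :
    c < m := by
  by_contra hm
  push Not at hm
  obtain ⟨k, rfl⟩ := Nat.exists_eq_add_of_le hm
  have h1 : closureDegree (maximalRealSubfield E) ≤ closureDegree E := by
    have := two_mul_closure_le (E := E)
    omega
  have h2 : 0 < closureDegree (maximalRealSubfield E) := finrank_pos
  have h3 : 0 < closureDegree (maximalRealSubfield E) ^ k := Nat.pow_pos h2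
  have h4 : 2 ^ (finrank ℚ E / 2) * closureDegree (maximalRealSubfield E) ^ (m + k) <
      closureDegree E ^ (m + k) := by
    rw [pow_add, pow_add, ← mul_assoc]
    calc 2 ^ (finrank ℚ E / 2) * closureDegree (maximalRealSubfield E) ^ m *
          closureDegree (maximalRealSubfield E) ^ k
        < closureDegree E ^ m * closureDegree (maximalRealSubfield E) ^ k :=
          Nat.mul_lt_mul_of_pos_right h h3
      _ ≤ _ := Nat.mul_le_mul_left _ (Nat.pow_le_pow_left h1 k)
  exact absurd hc (not_le.2 h4)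

theorem core_of_largeClosure {m : ℕ} (h : LargeClosure E m) :
    ∃ c : ℕ, HasCore E c ∧ 0 < c ∧ c < m := by
  obtain ⟨c, h1, h2, h3, h4, h5, h6⟩ := exists_first_core E
  exact ⟨c, h1, h2, lt_of_largeClosure h h4⟩

theorem fewDivisors_of_four (h : LargeClosure E 4) : FewDivisors E := by
  intro d hd h1 _
  have h2 := lt_of_largeClosure h h1
  have h3 : d ≠ 0 := by
    rintro rfl
    rw [mul_zero, zero_dvd_iff] at hd
    exact (finrank_pos (R := ℚ) (M := E)).ne' hd
  interval_cases d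
  · exact absurd rfl h3
  · exact Or.inl rfl
  · exact Or.inr Nat.prime_two
  · exact Or.inr Nat.prime_three

theorem fewDivisors_of_two_primes {p₁ p₂ : ℕ} (h₁ : p₁.Prime) (h₂ : p₂.Prime)
    (h : finrank ℚ E = 2 * (p₁ * p₂))
    (hne : closureDegree E ≠ 2 * closureDegree (maximalRealSubfield E)) : FewDivisors E := by
  intro d hd h3 _
  rw [h] at hd
  have hdvd' : d ∣ p₁ * p₂ := Nat.dvd_of_mul_dvd_mul_left two_pos hd
  obtain ⟨k₁, k₂, hk₁, hk₂, rfl⟩ := (Nat.dvd_mul).1 hdvd'
  rcases (Nat.dvd_prime h₁).1 hk₁ with rfl | rfl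
  · rcases (Nat.dvd_prime h₂).1 hk₂ with rfl | rfl
    · exact Or.inl rfl
    · exact Or.inr (by rwa [one_mul])
  · rcases (Nat.dvd_prime h₂).1 hk₂ with rfl | rfl
    · exact Or.inr (by rwa [mul_one])
    · exfalso
      have h4 : finrank ℚ E / 2 = k₁ * k₂ := by
        rw [h]
        simp
      rw [h4, ← mul_pow] at h3
      have h5 : k₁ * k₂ ≠ 0 := Nat.mul_ne_zero h₁.ne_zero h₂.ne_zero
      have h6 := (Nat.pow_le_pow_iff_left h5).1 h3
      have h7 := two_mul_closure_le (E := E)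
      exact hne (le_antisymm h6 h7)

variable {M : (E →+* ℂ) → ℤ} {Φ : Set (E →+* ℂ)}

/-- The weights are not balanced over a subfield of odd index if they are odd. -/
theorem not_balanced_of_odd (hM : ∀ φ, Odd (M φ)) {c : ℕ} (hc : Odd c) :
    ¬ Balanced c (weights M Φ) := by
  classical
  rintro ⟨F, hF, -, h⟩
  obtain ⟨φ⟩ : Nonempty (E →+* ℂ) := inferInstance
  have h1 := h φ
  have h2 : Odd (∑ ψ : E →+* ℂ with (∀ x ∈ F, ψ x = φ x), weights M Φ ψ) := by
    refine (odd_sum _ _ fun y _ => weights_odd hM _).2 ?_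
    have h5 : (Finset.univ.filter fun ψ : E →+* ℂ => ∀ x ∈ F, ψ x = φ x).card =
        finrank F E := by
      rw [← card_extensions F φ, ← Fintype.card_coe, ← Nat.card_eq_fintype_card]
      exact Nat.card_congr (Equiv.subtypeEquivRight fun ψ => by simp)
    rw [h5, hF]
    exact hc
  have h3 : ∑ ψ : E →+* ℂ with (∀ x ∈ F, ψ x = φ x), weights M Φ ψ = 0 := by
    convert h1 using 2
  rw [h3] at h2
  exact absurd h2 (by decide)

theorem noRelations_of_primitive (hM : ∀ φ, M (ComplexEmbedding.conjugate φ) = M φ)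
    (hΦ : IsCMType Φ) {c : ℕ} (hc : PrimitiveCore E c) (h1 : ¬ Induced (weights M Φ))
    (h2 : c = 2 ∨ ¬ Balanced c (weights M Φ)) : NoRelations M Φ := by
  refine noRelations_of fun r hr => ?_
  by_contra hr0
  rcases dichotomy (weights_conj hM hΦ) (Or.inr hc) hr hr0 with ⟨y₁, y₂, hne, h⟩ | ⟨-, h3, h4⟩
  · exact h1 (induced_of_pair hne h)
  · rcases h2 with h | h
    · exact h3 h
    · exact h h4

theorem noRelations_of_smallCore (hM : ∀ φ, M (ComplexEmbedding.conjugate φ) = M φ)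
    (hM0 : ∀ φ, M φ ≠ 0) (hΦ : IsCMType Φ)
    (h : SmallCore M Φ ∨ OddPrimePowerCore M Φ ∨ TwoPowerCore M Φ) : NoRelations M Φ := by
  rcases h with (h | h | ⟨h2, h⟩) | h | h
  · obtain ⟨n, φ, h⟩ := h
    exact noRelations_core_one hM hM0 hΦ (by rw [h, mul_one])
  · refine noRelations_of fun r hr => ?_
    by_contra hr0
    obtain ⟨φ⟩ : Nonempty (E →+* ℂ) := inferInstance
    exact weights_ne hM0 φ (irreducible_zero (weights_conj hM hΦ) h hr hr0 φ)
  · rcases h with ⟨c, hc, h⟩ | ⟨h1, h3⟩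
    · refine noRelations_of_primitive hM hΦ hc h2 ?_
      rcases h with h | ⟨h, h'⟩ | h
      · exact Or.inl h
      · exact Or.inr (not_balanced_of_odd h' h)
      · exact Or.inr h
    · obtain ⟨c, hc, n, φ, h⟩ := hasCore_of_fewDivisors h1
      rcases hc with rfl | hc
      · exact noRelations_core_one hM hM0 hΦ (by rw [h, mul_one])
      · refine noRelations_core_prime hM hM0 hΦ hc h h2 ?_
        rcases h3 with h3 | h3
        · exact Or.inr (Or.inl h3)
        · by_cases hc2 : c = 2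
          · exact Or.inl hc2
          · exact Or.inr (Or.inr (h3 c hc hc2))
  · obtain ⟨p, k, n, φ, H, O, hp, hp2, hcard, hOcard, hsub, hmem, hnd⟩ := h
    exact noRelations_core_odd hM hM0 hΦ hp hp2 hcard H O hmem hsub hOcard hnd
  · obtain ⟨k, n, φ, σ, hcard, hodd, hσ, hcount⟩ := h
    exact noRelations_core_two hM hM0 hΦ hcard hodd σ hσ hcount

/-- Types without relations do not come from proper subfields. -/
theorem not_induced_of_noRelations (h : NoRelations M Φ) : ¬ Induced (weights M Φ) := by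
  classical
  rintro ⟨K, hK, hind⟩
  obtain ⟨φ⟩ : Nonempty (E →+* ℂ) := inferInstance
  obtain ⟨φ', hφ', hne⟩ : ∃ φ' : E →+* ℂ, (∀ x ∈ K, φ' x = φ x) ∧ φ' ≠ φ := by
    by_contra hcon
    push Not at hcon
    apply hK
    have h1 : Nat.card {ψ : E →+* ℂ // ∀ x ∈ K, ψ x = φ x} = 1 := by
      rw [Nat.card_eq_one_iff_unique]
      exact ⟨⟨fun a b => Subtype.ext ((hcon a a.2).trans (hcon b b.2).symm)⟩,
        ⟨⟨φ, fun x _ => rfl⟩⟩⟩
    rw [card_extensions] at h1
    exact IntermediateField.finrank_eq_one_iff_eq_top.1 h1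
  let c : (E →+* ℂ) → ℤ := Pi.single φ 1 - Pi.single φ' 1 -
    (Pi.single (ComplexEmbedding.conjugate φ) 1 - Pi.single (ComplexEmbedding.conjugate φ') 1)
  have hcc : ∀ ψ χ : E →+* ℂ, (ComplexEmbedding.conjugate ψ = χ) ↔
      (ψ = ComplexEmbedding.conjugate χ) := fun ψ χ =>
    ⟨fun h => by rw [← h, Pool.Agent.H298.Core.conj_conj],
      fun h => by rw [h, Pool.Agent.H298.Core.conj_conj]⟩
  have hcc' : ∀ ψ χ : E →+* ℂ,
      (ComplexEmbedding.conjugate ψ = ComplexEmbedding.conjugate χ) ↔ (ψ = χ) := fun ψ χ => by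
    rw [hcc, Pool.Agent.H298.Core.conj_conj]
  have h0 := h c (fun ψ => by
    simp only [c, Pi.sub_apply, Pi.single_apply, hcc', hcc]
    ring) (fun σ => by
    have h1 : ∀ ψ χ : E →+* ℂ, (∀ x ∈ K, ψ x = χ x) → weights M Φ ((σ : ℂ →+* ℂ).comp ψ) =
        weights M Φ ((σ : ℂ →+* ℂ).comp χ) := fun ψ χ hψ => hind _ _ fun x hx => by
      change σ (ψ x) = σ (χ x)
      rw [hψ x hx]
    change ∑ ψ, c ψ * weights M Φ ((σ : ℂ →+* ℂ).comp ψ) = 0
    simp only [c, Pi.sub_apply, Pi.single_apply, sub_mul, sum_sub_distrib, ite_mul, one_mul,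
      zero_mul, sum_ite_eq', mem_univ, if_true]
    rw [h1 φ' φ hφ', h1 (ComplexEmbedding.conjugate φ') (ComplexEmbedding.conjugate φ) fun x hx => by
      rw [ComplexEmbedding.conjugate_coe_eq, ComplexEmbedding.conjugate_coe_eq, hφ' x hx]]
    ring)
  have h1 := congrFun h0 φ
  simp only [c, Pi.sub_apply, Pi.single_apply, Pi.zero_apply, if_true, if_neg hne.symm,
    if_neg (conj_ne φ).symm] at h1
  split_ifs at h1 <;> omega

/-- Types without relations are not balanced. -/
theorem not_balanced_of_noRelations (h : NoRelations M Φ) (p : ℕ) :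
    ¬ Balanced p (weights M Φ) := by
  classical
  rintro ⟨F, -, hF, hbal⟩
  obtain ⟨φ⟩ : Nonempty (E →+* ℂ) := inferInstance
  have hbal' : ∀ χ : E →+* ℂ, ∑ ψ : E →+* ℂ with (∀ x ∈ F, ψ x = χ x), weights M Φ ψ = 0 := by
    intro χ
    have h1 := hbal χ
    convert h1 using 2
  let c : (E →+* ℂ) → ℤ := fun ψ => (if ∀ x ∈ F, ψ x = φ x then 1 else 0) -
    (if ∀ x ∈ F, ψ x = ComplexEmbedding.conjugate φ x then 1 else 0)
  have h0 := h c (fun ψ => by
    have h1 : (∀ x ∈ F, ComplexEmbedding.conjugate ψ x = φ x) ↔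
        (∀ x ∈ F, ψ x = ComplexEmbedding.conjugate φ x) := by
      refine forall₂_congr fun x _ => ?_
      rw [ComplexEmbedding.conjugate_coe_eq, ComplexEmbedding.conjugate_coe_eq]
      exact ⟨fun h => by rw [← h, Complex.conj_conj], fun h => by rw [h, Complex.conj_conj]⟩
    have h2 : (∀ x ∈ F, ComplexEmbedding.conjugate ψ x = ComplexEmbedding.conjugate φ x) ↔
        (∀ x ∈ F, ψ x = φ x) := by
      refine forall₂_congr fun x _ => ?_
      rw [ComplexEmbedding.conjugate_coe_eq, ComplexEmbedding.conjugate_coe_eq]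
      exact ⟨fun h => star_injective h, fun h => by rw [h]⟩
    simp only [c, h1, h2]
    ring) (fun σ => by
    change ∑ ψ, c ψ * weights M Φ ((σ : ℂ →+* ℂ).comp ψ) = 0
    have h1 : ∀ χ : E →+* ℂ, ∑ ψ : E →+* ℂ, (if ∀ x ∈ F, ψ x = χ x then (1 : ℤ) else 0) *
        weights M Φ ((σ : ℂ →+* ℂ).comp ψ) = 0 := by
      intro χ
      refine Eq.trans ?_ (hbal' ((σ : ℂ →+* ℂ).comp χ))
      rw [Finset.sum_filter]
      refine Fintype.sum_equiv (MulAction.toPerm σ) _ _ fun ψ => ?_
      have h2 : (∀ x ∈ F, (MulAction.toPerm σ ψ : E →+* ℂ) x = ((σ : ℂ →+* ℂ).comp χ) x) ↔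
          (∀ x ∈ F, ψ x = χ x) := by
        refine forall₂_congr fun x _ => ?_
        change σ (ψ x) = σ (χ x) ↔ _
        exact σ.injective.eq_iff
      simp only [h2, ite_mul, one_mul, zero_mul]
      rfl
    simp only [c, sub_mul, sum_sub_distrib, h1, sub_self])
  have h1 := congrFun h0 φ
  obtain ⟨x, hx, hne⟩ := conj_ne_on hF φ
  change (if ∀ x ∈ F, φ x = φ x then (1 : ℤ) else 0) -
    (if ∀ x ∈ F, φ x = ComplexEmbedding.conjugate φ x then 1 else 0) = 0 at h1
  rw [if_pos fun x _ => rfl, if_neg fun h2 => hne (h2 x hx).symm] at h1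
  omega

/-- **The types without relations for a field with a primitive core.** -/
theorem noRelations_iff (hM : ∀ φ, M (ComplexEmbedding.conjugate φ) = M φ)
    (hΦ : IsCMType Φ) {c : ℕ} (hc : PrimitiveCore E c) : NoRelations M Φ ↔
      ¬ Induced (weights M Φ) ∧ ¬ Balanced c (weights M Φ) :=
  ⟨fun h => ⟨not_induced_of_noRelations h, not_balanced_of_noRelations h c⟩, fun h =>
    noRelations_of_primitive hM hΦ hc h.1 (Or.inr h.2)⟩

end

/-- The core of index `0` consists of all embeddings. -/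
theorem hasCore_top {K : Type} [Field K] [NumberField K] {c : ℕ} (h : finrank ℚ K = 2 * c) :
    HasCore K c := by
  obtain ⟨φ⟩ : Nonempty (K →+* ℂ) := inferInstance
  refine ⟨0, φ, ?_⟩
  change (Set.univ : Set (K →+* ℂ)).ncard = 2 * c
  rw [Set.ncard_univ, Nat.card_eq_fintype_card, ← h, Embeddings.card]

/-- Half the degree is the product of two prime numbers. -/
theorem hasCore_of_two_primes {K : Type} [Field K] [NumberField K] [IsCMField K] {p₁ p₂ : ℕ}
    (h₁ : p₁.Prime) (h₂ : p₂.Prime) (h : finrank ℚ K = 2 * (p₁ * p₂)) {σ : ℂ ≃+* ℂ}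
    {φ ψ : K →+* ℂ} (hσ : SignsOn (Set.univ : Set (K →+* ℂ)) σ)
    (hφ : (σ : ℂ →+* ℂ).comp φ = φ) (hψ : (σ : ℂ →+* ℂ).comp ψ ≠ ψ) :
    ∃ c : ℕ, HasCore K c ∧ (c = 1 ∨ c.Prime) := by
  obtain ⟨c, hc⟩ := even_card_core 1 φ
  have hdvd := card_core_dvd 1 φ
  have hc' : (coreOf 1 φ).ncard = 2 * c := by rw [hc]; ring
  rw [hc', h] at hdvd
  have hdvd' : c ∣ p₁ * p₂ := Nat.dvd_of_mul_dvd_mul_left two_pos hdvd
  have hlt : (coreOf 1 φ).ncard < finrank ℚ K := by
    have h1 : coreOf 1 φ ⊂ (Set.univ : Set (K →+* ℂ)) := by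
      rw [Set.ssubset_univ_iff]
      intro huniv
      have h2 : ψ ∈ coreOf 1 φ := by rw [huniv]; trivial
      exact hψ ((h2.2 σ hσ).1 hφ)
    have h2 := Set.ncard_lt_ncard h1 (Set.toFinite _)
    rwa [Set.ncard_univ, Nat.card_eq_fintype_card, Embeddings.card] at h2
  refine ⟨c, ⟨1, φ, hc'⟩, ?_⟩
  rw [hc', h] at hlt
  obtain ⟨k₁, k₂, hk₁, hk₂, rfl⟩ := (Nat.dvd_mul).1 hdvd'
  rcases (Nat.dvd_prime h₁).1 hk₁ with rfl | rfl
  · rcases (Nat.dvd_prime h₂).1 hk₂ with rfl | rfl
    · exact Or.inl rfl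
    · exact Or.inr (by rwa [one_mul])
  · rcases (Nat.dvd_prime h₂).1 hk₂ with rfl | rfl
    · exact Or.inr (by rwa [mul_one])
    · omega

theorem coreFacts_hold : CoreFacts := by
  refine fun K _ _ _ => ⟨?_, fun c h => hasCore_top h, ?_, fun h => ?_,
    fun m h => core_of_largeClosure h,
    fewDivisors_of_four, fun p₁ p₂ h₁ h₂ h hne => fewDivisors_of_two_primes h₁ h₂ h hne,
    fun p₁ p₂ h₁ h₂ h σ φ ψ hσ hφ hψ => hasCore_of_two_primes h₁ h₂ h hσ hφ hψ,
    oddIrreducible_of_one, fun h6 h => triply_field h6 h⟩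
  · rintro c ⟨n, φ, h⟩
    rw [← h]
    exact card_core_dvd n φ
  · obtain ⟨c, h1, h2, h3, h4, h5, h6⟩ := exists_first_core K
    exact ⟨c, h1, h2, h4, h5⟩
  · obtain ⟨c, h1, h2⟩ := hasCore_of_fewDivisors h
    exact ⟨c, h2, h1⟩

end Pool.Agent.H298.Core
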