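import Mathlib

/-!
# A prime number which separates a CM field from a number field
-/

set_option autoImplicit false

namespace Pool.Agent.H298.Core

open NumberField

/-- The prime number `q` divides the discriminant of the CM field `E`, but not the discriminant of
its maximal real subfield, and not the discriminant of `F`. -/
def Separates (q : ℕ) (E F : Type) [Field E] [NumberField E] [Field F] [NumberField F] : Prop :=
  q.Prime ∧ (q : ℤ) ∣ discr E ∧ ¬ (q : ℤ) ∣ discr (maximalRealSubfield E) ∧ ¬ (q : ℤ) ∣ discr F

end Pool.Agent.H298.Core
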