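import Mathlib
import Pool.Agent.H298.Core.Disc
import Pool.Agent.H298.Core.CritDefs
import Pool.Graph.R_seed8.Y1.CT.IndepDefs

/-!
# Independence from a CM field, by discriminants
-/

set_option autoImplicit false
set_option linter.unusedSectionVars false
set_option linter.unusedVariables false

namespace Pool.Agent.H298.Core

open NumberField Module MulAction Finset Pool.Agent.H204R3.CM Pool.Agent.H977R3.CM
  Pool.Agent.TH170.CM Pool.Agent.Q29.OS Pool.Agent.Q29.DP

/-- Two number fields, one family. -/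
def Two (E F : Type) : Bool → Type
  | true => E
  | false => F

instance (E F : Type) [Field E] [Field F] (b : Bool) : Field (Two E F b) := by
  cases b
  · exact (inferInstance : Field F)
  · exact (inferInstance : Field E)

instance (E F : Type) [Field E] [Field F] [NumberField E] [NumberField F] (b : Bool) :
    NumberField (Two E F b) := by
  cases b
  · exact (inferInstance : NumberField F)
  · exact (inferInstance : NumberField E)

/-- If `q` separates the CM field `E` from the number field `F` then some automorphism of the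
complex numbers is the complex conjugation on a given embedding of `E` and fixes the images of all
embeddings of `F`. -/
theorem exists_of_separates {q : ℕ} {E F : Type} [Field E] [NumberField E] [IsCMField E] [Field F]
    [NumberField F] (h : Separates q E F) (ψ : E →+* ℂ) :
    ∃ τ : ℂ ≃+* ℂ, (τ : ℂ →+* ℂ).comp ψ = ComplexEmbedding.conjugate ψ ∧
      ∀ χ : F →+* ℂ, (τ : ℂ →+* ℂ).comp χ = χ := by
  classical
  obtain ⟨hq, h1, h2, h3⟩ := h
  have _ : Fact q.Prime := ⟨hq⟩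
  obtain ⟨L, _, _, j, hj⟩ := exists_galois (Two E F)
  have hjE : ∀ φ : E →+* ℂ, ∃ φ' : E →+* L, j.comp φ' = φ := fun φ => hj true φ
  have hjF : ∀ φ : F →+* ℂ, ∃ φ' : F →+* L, j.comp φ' = φ := fun φ => hj false φ
  have _ : (Ideal.span {(q : ℤ)}).IsMaximal := Int.ideal_span_isMaximal_of_prime q
  obtain ⟨Q⟩ := (inferInstance : Nonempty ((Ideal.span {(q : ℤ)}).primesOver (𝓞 L)))
  have _ : Q.1.IsPrime := Q.2.1
  have hQ : Q.1.under ℤ = Ideal.span {(q : ℤ)} := Q.2.2.over.symm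
  obtain ⟨ψ₀, hψ₀⟩ := hjE ψ
  obtain ⟨φ', σ, hσ, hφ'⟩ := Pool.Agent.W527.exists_ramified (K := E) (ℓ := q) Q.1 hQ ⟨ψ₀⟩ h1
  have hreal : ∀ χ : maximalRealSubfield E →+* L, σ • χ = χ := by
    obtain ⟨δ, hδ1, hδ2⟩ := Pool.Agent.W527.moved_le (K := maximalRealSubfield E) (ℓ := q) Q.1 hQ
    have hδ0 : δ = 0 := by
      by_contra h
      exact h2 ((dvd_pow_self _ h).trans hδ1)
    have h3 := hδ2 σ hσ
    rw [hδ0, mul_zero, Nat.le_zero] at h3
    intro χ
    by_contra h
    have _ : Nonempty {φ : maximalRealSubfield E →+* L // σ • φ ≠ φ} := ⟨⟨χ, h⟩⟩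
    exact Nat.card_pos.ne' h3
  have hF : ∀ χ : F →+* L, σ • χ = χ := by
    obtain ⟨δ, hδ1, hδ2⟩ := Pool.Agent.W527.moved_le (K := F) (ℓ := q) Q.1 hQ
    have hδ0 : δ = 0 := by
      by_contra h
      exact h3 ((dvd_pow_self _ h).trans hδ1)
    have h3 := hδ2 σ hσ
    rw [hδ0, mul_zero, Nat.le_zero] at h3
    intro χ
    by_contra h
    have _ : Nonempty {φ : F →+* L // σ • φ ≠ φ} := ⟨⟨χ, h⟩⟩
    exact Nat.card_pos.ne' h3
  obtain ⟨ρ, hρ⟩ := MulAction.exists_smul_eq (L ≃ₐ[ℚ] L) φ' ψ₀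
  obtain ⟨τ, hτ⟩ := Pool.Agent.H977R3.CM.exists_aut j ((ρ * σ * ρ⁻¹ : L ≃ₐ[ℚ] L) : L ≃+* L)
  refine ⟨τ, ?_, fun χ => ?_⟩
  · have h4 : (τ : ℂ →+* ℂ).comp ψ = j.comp ((ρ * σ * ρ⁻¹) • ψ₀) := by
      rw [← hψ₀]
      ext x
      exact hτ (ψ₀ x)
    have h5 : (ρ * σ * ρ⁻¹) • ψ₀ = ρ • σ • φ' := by
      rw [← hρ, smul_smul, smul_smul]
      congr 1
      group
    have h6 : (ρ * σ * ρ⁻¹) • ψ₀ ≠ ψ₀ := by
      rw [h5, ← hρ]
      intro h
      exact hφ' (MulAction.injective ρ h)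
    have h7 : (τ : ℂ →+* ℂ).comp ψ ≠ ψ := by
      rw [h4]
      intro h
      apply h6
      ext x
      have h8 := RingHom.congr_fun h x
      rw [← hψ₀] at h8
      exact congrArg Subtype.val (j.injective h8)
    refine (eq_or_conj fun x hx => ?_).resolve_left h7
    rw [h4, h5, ← hψ₀, ← hρ]
    have h8 := RingHom.congr_fun (hreal (φ'.comp (algebraMap (maximalRealSubfield E) E))) ⟨x, hx⟩
    change σ (φ' x) = φ' x at h8
    change j (ρ (σ (φ' x))) = j (ρ (φ' x))
    rw [h8]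
  · obtain ⟨χ', hχ'⟩ := hjF χ
    rw [← hχ']
    ext x
    have h4 : ((τ : ℂ →+* ℂ).comp (j.comp χ')) x = j ((ρ * σ * ρ⁻¹) (χ' x)) := hτ (χ' x)
    rw [h4]
    have h5 : (ρ * σ * ρ⁻¹) • χ' = χ' := by
      rw [mul_smul, mul_smul, hF, smul_inv_smul]
    have h6 := RingHom.congr_fun h5 x
    change j ((ρ * σ * ρ⁻¹) (χ' x)) = j (χ' x)
    exact congrArg j h6

theorem pairwiseIndep_of_separates {I : Type} {K : I → Type} [∀ i, Field (K i)]
    [∀ i, NumberField (K i)] [∀ i, IsCMField (K i)]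
    (h : ∀ i k, i ≠ k → ∃ q : ℕ, Separates q (K i) (K k) ∨ Separates q (K k) (K i)) :
    PairwiseIndep K := by
  intro i k hik φ ψ
  obtain ⟨q, h | h⟩ := h i k hik
  · obtain ⟨τ, h1, h2⟩ := exists_of_separates h φ
    refine ⟨τ.trans (starRingAut : ℂ ≃+* ℂ), fun x => ?_, fun y => ?_⟩
    · have h3 := RingHom.congr_fun h1 x
      change τ (φ x) = (starRingEnd ℂ) (φ x) at h3
      change (starRingEnd ℂ) (τ (φ x)) = φ x
      rw [h3]
      exact Complex.conj_conj _
    · have h3 := RingHom.congr_fun (h2 ψ) y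
      change τ (ψ y) = ψ y at h3
      change (starRingEnd ℂ) (τ (ψ y)) = _
      rw [h3]
  · obtain ⟨τ, h1, h2⟩ := exists_of_separates h ψ
    exact ⟨τ, fun x => RingHom.congr_fun (h2 φ) x, fun y => RingHom.congr_fun h1 y⟩

theorem independent_of_separates {I : Type} {K : I → Type} [∀ i, Field (K i)]
    [∀ i, NumberField (K i)] [∀ i, IsCMField (K i)] {F : Type} [Field F] [NumberField F]
    (h : ∀ i, ∃ q : ℕ, Separates q (K i) F) (χ : F →+* ℂ) {x : F} (hx : x ≠ 0) :
    Pool.Agent.Y1.CT.Independent K (χ x) := by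
  refine ⟨(_root_.map_ne_zero χ).2 hx, fun i ψ => ?_⟩
  obtain ⟨q, hq⟩ := h i
  obtain ⟨τ, h1, h2⟩ := exists_of_separates hq ψ
  refine ⟨τ, 1, one_pos, ?_, fun y => RingHom.congr_fun h1 y⟩
  rw [pow_one]
  exact RingHom.congr_fun (h2 χ) x

end Pool.Agent.H298.Core
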