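import Mathlib
import Pool.Agent.H298.Core.Block
import Pool.Graph.R_pool_sql_team_seeded_1acbe0a2.Y156.P.Main
import Pool.Graph.R_seed8.Y137.MV.Defs

/-!
# Supersingular norms of Weil numbers
-/

set_option autoImplicit false
set_option linter.unusedSectionVars false
set_option linter.unusedVariables false

namespace Pool.Agent.H298.Core

open NumberField Module Polynomial Pool.Agent.TH170.MF Pool.Agent.H204R3.CM Pool.Agent.TH170
  Pool.Agent.TH170.CM Pool.Agent.TH170.FW Pool.Agent.Y156.P Pool.Agent.H485R3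
open scoped IntermediateField

attribute [local instance] actC

section

variable {K : Type} [Field K] [NumberField K]

/-- The norm as a product over the extensions of an embedding. -/
theorem norm_eq_prod {L : Type} [Field L] [CharZero L] [IsAlgClosed L] (F : IntermediateField ℚ K)
    (π : K) (e : F →+* L) {T : Type} [Fintype T] (f : T → (K →+* L))
    (hf : ∀ t, ∀ x : F, f t x = e x) (hinj : Function.Injective f)
    (hsurj : ∀ g : K →+* L, (∀ x : F, g x = e x) → ∃ t, f t = g) :
    e (Algebra.norm F π) = ∏ t, f t π := by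
  let _ : Algebra F L := e.toAlgebra
  have h1 : e (Algebra.norm F π) = ∏ ψ : K →ₐ[F] L, ψ π :=
    Algebra.norm_eq_prod_embeddings F L π
  rw [h1]
  symm
  refine Fintype.prod_bijective
    (fun t => ({ f t with commutes' := fun x => hf t x } : K →ₐ[F] L)) ⟨?_, ?_⟩ _ _ fun t => rfl
  · intro s t hst
    apply hinj
    ext x
    exact congrArg (fun g : K →ₐ[F] L => g x) hst
  · intro g
    obtain ⟨t, ht⟩ := hsurj (g : K →+* L) fun x => g.commutes x
    refine ⟨t, ?_⟩
    ext x
    exact RingHom.congr_fun ht x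

open Classical in
/-- The norm as a product over the extensions of an embedding, in the complex numbers. -/
theorem norm_eq_prod_C (F : IntermediateField ℚ K) (π : K) (φ : K →+* ℂ) :
    φ (Algebra.norm F π : F) = ∏ ψ : K →+* ℂ with (∀ x ∈ F, ψ x = φ x), ψ π := by
  have h := norm_eq_prod F π (φ.comp (algebraMap F K))
    (T := {ψ : K →+* ℂ // ∀ x ∈ F, ψ x = φ x})
    (fun t => t.1) (fun t x => t.2 x x.2) Subtype.val_injective
    (fun g hg => ⟨⟨g, fun x hx => hg ⟨x, hx⟩⟩, rfl⟩)
  rw [Finset.prod_subtype (p := fun ψ : K →+* ℂ => ∀ x ∈ F, ψ x = φ x) _ (fun x => by simp)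
    (fun ψ : K →+* ℂ => ψ π)]
  exact h

variable {p : ℕ} [hp : Fact p.Prime] (ν : PadicAlgCl p ≃+* ℂ) {a : ℕ} {π : K}

open Classical in
theorem supersingular_iff (F : IntermediateField ℚ K) : SupersingularNorm p a π F ↔
    ∀ φ : K →+* ℂ, ∏ ψ : K →+* ℂ with (∀ x ∈ F, ψ x = φ x), ‖ν.symm (ψ π)‖ ^ 2 =
      ‖(p : PadicAlgCl p) ^ a‖ ^ finrank F K := by
  have key : ∀ φ : K →+* ℂ, ‖ν.symm (φ (Algebra.norm F π : F))‖ ^ 2 =
      ∏ ψ : K →+* ℂ with (∀ x ∈ F, ψ x = φ x), ‖ν.symm (ψ π)‖ ^ 2 := by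
    intro φ
    rw [norm_eq_prod_C, map_prod, norm_prod, Finset.prod_pow]
  constructor
  · intro h φ
    rw [← key]
    exact h (((ν.symm : ℂ ≃+* PadicAlgCl p) : ℂ →+* PadicAlgCl p).comp
      (φ.comp (algebraMap F K)))
  · intro h e
    let φ : K →+* ℂ := ComplexEmbedding.lift K
      (((ν : PadicAlgCl p ≃+* ℂ) : PadicAlgCl p →+* ℂ).comp e)
    have h1 : ∀ x : F, φ (x : K) = ν (e x) := fun x =>
      RingHom.congr_fun (ComplexEmbedding.lift_comp_algebraMap K
        (((ν : PadicAlgCl p ≃+* ℂ) : PadicAlgCl p →+* ℂ).comp e)) x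
    have h2 := h φ
    rw [← key, h1, RingEquiv.symm_apply_apply] at h2
    exact h2

theorem norm_pow_pos_lt (ha : 0 < a) : 0 < ‖(p : PadicAlgCl p) ^ a‖ ∧
    ‖(p : PadicAlgCl p) ^ a‖ < 1 := by
  have h2 : ‖(p : PadicAlgCl p)‖ = (p : ℝ)⁻¹ := by
    obtain ⟨ν⟩ := exists_iso p
    rw [← GS.norm_symm_p (ν := ν), map_natCast]
  have hp1 : (1 : ℝ) < p := by exact_mod_cast hp.out.one_lt
  rw [norm_pow, h2]
  exact ⟨by positivity, pow_lt_one₀ (by positivity) (inv_lt_one_of_one_lt₀ hp1) ha.ne'⟩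

include hp in
/-- Norms of odd degree of Weil numbers with odd slopes are not supersingular. -/
theorem not_supersingular_of_odd (ha : 0 < a) (h : OddSlopes p a π) {F : IntermediateField ℚ K}
    (hF : Odd (finrank F K)) : ¬ SupersingularNorm p a π F := by
  classical
  obtain ⟨ν⟩ := exists_iso p
  obtain ⟨hpos, hlt⟩ := norm_pow_pos_lt (p := p) ha
  intro hs
  rw [supersingular_iff ν] at hs
  obtain ⟨φ⟩ : Nonempty (K →+* ℂ) := inferInstance
  have h1 := hs φ
  obtain ⟨d, hd, hm⟩ := h
  choose m hm using fun ψ : K →+* ℂ => hm (((ν.symm : ℂ ≃+* PadicAlgCl p) :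
    ℂ →+* PadicAlgCl p).comp ψ)
  have h2 := congrArg (fun t : ℝ => t ^ d) h1
  rw [← Finset.prod_pow] at h2
  have h3 : ∀ ψ : K →+* ℂ, (‖ν.symm (ψ π)‖ ^ 2) ^ d = ‖(p : PadicAlgCl p) ^ a‖ ^ (2 * m ψ) := by
    intro ψ
    rw [pow_right_comm]
    have h4 := hm ψ
    change ‖ν.symm (ψ π)‖ ^ d = _ at h4
    rw [h4, mul_comm, zpow_mul]
    norm_cast
  rw [Finset.prod_congr rfl fun ψ _ => h3 ψ, ← pow_mul,
    ← zpow_natCast ‖(p : PadicAlgCl p) ^ a‖ (finrank F K * d)] at h2
  have h4 : ∀ s : Finset (K →+* ℂ), ∏ ψ ∈ s, ‖(p : PadicAlgCl p) ^ a‖ ^ (2 * m ψ) =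
      ‖(p : PadicAlgCl p) ^ a‖ ^ (∑ ψ ∈ s, 2 * m ψ) := by
    intro s
    induction s using Finset.induction_on with
    | empty => simp
    | insert b s hb ih => rw [Finset.prod_insert hb, Finset.sum_insert hb, ih, zpow_add₀ hpos.ne']
  rw [h4] at h2
  have h5 := zpow_right_injective₀ hpos hlt.ne h2
  rw [← Finset.mul_sum] at h5
  have h6 : Odd (((finrank F K * d : ℕ)) : ℤ) := by
    exact_mod_cast hF.mul hd
  rw [← h5] at h6
  exact absurd h6 (by simp)

/-- The norm of the conjugates of a Weil number. -/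
theorem norm_mul_conj [IsCMField K] (hw : π * IsCMField.complexConj K π = (p : K) ^ a)
    (φ : K →+* ℂ) : ‖ν.symm (φ π)‖ * ‖ν.symm (ComplexEmbedding.conjugate φ π)‖ =
      ‖(p : PadicAlgCl p) ^ a‖ := by
  rw [← norm_mul, ← map_mul, ComplexEmbedding.conjugate_coe_eq,
    ← IsCMField.complexEmbedding_complexConj, ← map_mul, hw, map_pow, map_pow, map_natCast,
    map_natCast]

include hp in
/-- Norms of degree two of Weil numbers are not supersingular. -/
theorem not_supersingular_of_two [IsCMField K] (hπ : IsSimpleWeil p a π)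
    {F : IntermediateField ℚ K} (hF : ¬ IsTotallyReal F) (h2 : finrank F K = 2) :
    ¬ SupersingularNorm p a π F := by
  classical
  obtain ⟨ν⟩ := exists_iso p
  intro hs
  rw [supersingular_iff ν] at hs
  obtain ⟨φ⟩ : Nonempty (K →+* ℂ) := inferInstance
  let O : (K →+* ℂ) → Finset (K →+* ℂ) := fun φ => Finset.univ.filter fun ψ => ∀ x ∈ F, ψ x = φ x
  have hO : ∀ φ ψ, ψ ∈ O φ ↔ ∀ x ∈ F, ψ x = φ x := by
    intro φ ψ
    simp [O]
  have hOcard : ∀ φ, (O φ).card = 2 := by
    intro φ
    rw [← h2, ← card_extensions F φ, ← Fintype.card_coe, ← Nat.card_eq_fintype_card]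
    exact Nat.card_congr (Equiv.subtypeEquivRight (hO φ))
  have hself : ∀ φ, φ ∈ O φ := fun φ => (hO φ φ).2 fun x _ => rfl
  obtain ⟨φ', hφ', hne⟩ : ∃ φ' ∈ O φ, φ' ≠ φ := by
    obtain ⟨x, y, hxy, h⟩ := Finset.card_eq_two.1 (hOcard φ)
    have h3 := hself φ
    rw [h, Finset.mem_insert, Finset.mem_singleton] at h3
    rcases h3 with h3 | h3
    · exact ⟨y, by rw [h]; simp, fun h4 => hxy (by rw [← h3, h4])⟩
    · exact ⟨x, by rw [h]; simp, fun h4 => hxy (by rw [← h3, h4])⟩
  have hset : ∀ σ : ℂ ≃+* ℂ, O (σ • φ) = {σ • φ, σ • φ'} := by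
    intro σ
    symm
    apply Finset.eq_of_subset_of_card_le
    · intro ψ hψ
      rw [Finset.mem_insert, Finset.mem_singleton] at hψ
      rcases hψ with rfl | rfl
      · exact hself _
      · rw [hO]
        intro x hx
        rw [actC_apply, actC_apply, (hO φ φ').1 hφ' x hx]
    · rw [hOcard, Finset.card_pair]
      intro h3
      exact hne (smul_left_cancel σ h3).symm
  have hp0 : 0 < ‖(p : PadicAlgCl p) ^ a‖ := by
    rw [norm_pos_iff]
    exact pow_ne_zero _ (Nat.cast_ne_zero.2 hp.out.ne_zero)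
  have hne' : φ' ≠ ComplexEmbedding.conjugate φ := by
    rintro rfl
    obtain ⟨x, hx, h3⟩ := conj_ne_on hF φ
    exact h3 ((hO _ _).1 hφ' x hx)
  refine false_of_same ν hπ.integral hπ.weil hπ.gen hne' fun τ => ?_
  have h3 := hs (τ • φ)
  change ∏ ψ ∈ O (τ • φ), _ = _ at h3
  rw [hset, Finset.prod_pair (fun h => hne (smul_left_cancel τ h).symm), h2, ← mul_pow] at h3
  have h4 := norm_mul_conj ν hπ.weil (τ • φ)
  rw [← smul_conj] at h4
  have h5 : ‖ν.symm ((τ • φ) π)‖ * ‖ν.symm ((τ • φ') π)‖ = ‖(p : PadicAlgCl p) ^ a‖ :=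
    (pow_left_inj₀ (by positivity) hp0.le two_ne_zero).1 h3
  rw [← h4] at h5
  have h6 : ‖ν.symm ((τ • φ) π)‖ ≠ 0 := by
    intro h0
    rw [h0, zero_mul] at h4
    exact hp0.ne h4
  exact mul_left_cancel₀ h6 h5

include hp in
/-- A norm is supersingular if and only if it is, up to a root of unity, a root of a power of `p`. -/
theorem supersingular_iff_pow [IsCMField K] (hπ : IsSimpleWeil p a π)
    (F : IntermediateField ℚ K) : SupersingularNorm p a π F ↔
      ∃ m : ℕ, 0 < m ∧ Algebra.norm F π ^ (2 * m) = (p : F) ^ (a * finrank F K * m) := by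
  classical
  constructor
  · intro hs
    obtain ⟨L, _, _, j, hj⟩ := exists_galois (fun _ : Unit => F)
    obtain ⟨e⟩ : Nonempty (F →+* L) := by
      obtain ⟨φ⟩ : Nonempty (F →+* ℂ) := inferInstance
      obtain ⟨e, -⟩ := hj () φ
      exact ⟨e⟩
    have hint : IsIntegral ℤ (Algebra.norm F π) := Algebra.isIntegral_norm F hπ.integral
    have hQ : π * IsCMField.complexConj K π = ((p ^ a : ℕ) : K) := by
      rw [hπ.weil]
      push_cast
      rfl
    have hpF : (p : L) ≠ 0 := Nat.cast_ne_zero.2 hp.out.ne_zero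
    set c := finrank F K with hc
    set x : L := (e (Algebra.norm F π)) ^ 2 / (p : L) ^ (a * c) with hx
    have hxint : IsIntegral ℤ x := by
      refine isIntegral_of_norm_le x fun l hl χ => ?_
      by_cases hlp : l = p
      · subst hlp
        have h1 := hs ((χ : L →+* PadicAlgCl l).comp e)
        rw [hx, map_div₀, norm_div, map_pow, norm_pow, map_pow, map_natCast]
        have h2 : ‖χ (e (Algebra.norm F π))‖ ^ 2 = ‖(l : PadicAlgCl l) ^ (a * c)‖ := by
          rw [pow_mul, norm_pow]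
          exact h1
        rw [h2]
        exact div_self_le_one _
      · have h1 : ‖χ ((p : L) ^ (a * c))‖ = 1 := by
          rw [map_pow, map_natCast, norm_pow, norm_prime_ne l hp.out hlp, one_pow]
        rw [hx, map_div₀, norm_div, h1, div_one, map_pow, norm_pow]
        refine pow_le_one₀ (norm_nonneg _) ?_
        apply norm_le_one_of_isIntegral
        exact map_isIntegral_int χ (map_isIntegral_int e hint)
    obtain ⟨m, hm, hxm⟩ := pow_eq_one_of_norm x hxint fun χ => by
      have h1 := norm_eq_prod_C F π (ComplexEmbedding.lift K ((χ : L →+* ℂ).comp e))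
      have h2 : ComplexEmbedding.lift K ((χ : L →+* ℂ).comp e) (Algebra.norm F π : F) =
          χ (e (Algebra.norm F π)) :=
        RingHom.congr_fun (ComplexEmbedding.lift_comp_algebraMap K ((χ : L →+* ℂ).comp e))
          (Algebra.norm F π)
      rw [h2] at h1
      have h3 : ‖χ (e (Algebra.norm F π))‖ ^ 2 = ((p : ℝ) ^ a) ^ c := by
        rw [h1, norm_prod, ← Finset.prod_pow, Finset.prod_congr rfl fun ψ _ =>
          norm_sq_weil hQ ψ, Finset.prod_const]
        congr 1
        · push_cast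
          rfl
        · rw [hc, ← card_extensions F (ComplexEmbedding.lift K ((χ : L →+* ℂ).comp e)),
            ← Fintype.card_coe, ← Nat.card_eq_fintype_card]
          exact Nat.card_congr (Equiv.subtypeEquivRight fun ψ => by simp)
      have hp1 : (0 : ℝ) < (p : ℝ) ^ (a * c) := by
        have : (0 : ℝ) < p := by exact_mod_cast hp.out.pos
        positivity
      rw [hx, map_div₀, norm_div, map_pow, norm_pow, h3, map_pow, map_natCast, norm_pow,
        Complex.norm_natCast, ← pow_mul, div_self hp1.ne']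
    refine ⟨m, hm, ?_⟩
    rw [hx, div_pow, div_eq_one_iff_eq (pow_ne_zero _ (pow_ne_zero _ hpF)), ← pow_mul,
      ← pow_mul] at hxm
    apply e.injective
    rw [map_pow, map_pow, map_natCast]
    exact hxm
  · rintro ⟨m, hm, h⟩ e
    have h1 := congrArg (fun t => ‖e t‖) h
    simp only [map_pow, map_natCast, norm_pow] at h1
    rw [norm_pow, ← pow_mul]
    refine (pow_left_inj₀ (by positivity) (by positivity) hm.ne').1 ?_
    rw [← pow_mul, ← pow_mul]
    exact h1

/-- Maximal angle rank excludes supersingular norms. -/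
theorem not_supersingular_of_angle [IsCMField K] (hπ : IsSimpleWeil p a π)
    (h : Pool.Agent.Y137.MV.MaximalAngleRank (p ^ a) fun _ : Unit => π)
    {F : IntermediateField ℚ K} (hF : ¬ IsTotallyReal F) : ¬ SupersingularNorm p a π F := by
  classical
  intro hs
  rw [supersingular_iff_pow hπ] at hs
  obtain ⟨m, hm, hs⟩ := hs
  obtain ⟨φ⟩ : Nonempty (K →+* ℂ) := inferInstance
  have h1 := congrArg (fun t : F => φ (t : K)) hs
  simp only [IntermediateField.coe_pow, map_pow] at h1
  rw [norm_eq_prod_C, ← Finset.prod_pow] at h1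
  have h2 := h ((finrank F K * m : ℕ) : ℤ)
    (fun z => if ∀ x ∈ F, z.2 x = φ x then ((2 * m : ℕ) : ℤ) else 0) (by
      rw [Fintype.prod_sigma, Fintype.prod_unique, zpow_natCast]
      rw [Finset.prod_filter] at h1
      rw [Finset.prod_congr rfl (g := fun ψ : K →+* ℂ =>
        if ∀ x ∈ F, ψ x = φ x then ψ π ^ (2 * m) else 1) fun ψ _ => by
          by_cases hψ : ∀ x ∈ F, ψ x = φ x
          · rw [if_pos hψ, if_pos hψ]
            exact zpow_natCast _ _
          · rw [if_neg hψ, if_neg hψ]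
            exact zpow_zero _]
      rw [h1]
      push_cast
      simp only [map_natCast]
      rw [← pow_mul, mul_assoc]) () φ
  rw [if_pos fun x _ => rfl, if_neg] at h2
  · have h3 : (2 * m : ℕ) = 0 := by exact_mod_cast h2
    omega
  · intro h3
    obtain ⟨x, hx, h4⟩ := conj_ne_on hF φ
    exact h4 (h3 x hx)

end

end Pool.Agent.H298.Core
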