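import Mathlib
import Pool.Agent.H298.Core.BlockDefs
import Pool.Agent.H298.Core.CritDefs
import Pool.Graph.R_seed8.H977R3.CM.Defs
import Pool.Graph.R_seed8.Y1.CT.IndepDefs
import Pool.Graph.R_seed8.Y137.MV.Defs
import Pool.Graph.R_pool_sql_team_seeded_1acbe0a2.Y156.P.Defs
import Pool.Graph.R_pool_sql_team_seeded_1acbe0a2.Y156.P.IrrDefs

/-!
# Weil numbers in CM fields with small cores
-/

set_option autoImplicit false

namespace Pool.Agent.H298.Core

open NumberField Module Pool.Agent.H977R3.CM Pool.Agent.Y156.P
open Pool.Agent.Y137.MV (MaximalAngleRank)

/-- The number `π` is a Weil number for `p ^ a` in the CM field `K`, each power of which generates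
`K`. The odd part of `K` is irreducible; or, for some `c`, the field `K` has a primitive core with
`c` pairs of embeddings, and `π` does not have a supersingular norm in a subfield `F` with
`[K : F] = c` which is not totally real. -/
structure IsCoreWeil (p a : ℕ) [Fact p.Prime] {K : Type} [Field K] [NumberField K] [IsCMField K]
    (π : K) : Prop where
  simple : IsSimpleWeil p a π
  core : OddIrreducible K ∨ ∃ c : ℕ, PrimitiveCore K c ∧ ∀ F : IntermediateField ℚ K,
    finrank F K = c → ¬ IsTotallyReal F → ¬ SupersingularNorm p a π F

/-- The condition on the supersingular norms is necessary and sufficient for the maximality of the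
angle rank of `π`, that is, for the absence of relations between the conjugates of `π`. It is
satisfied if `[K : F] = 2`, and if `[K : F]` is odd and the slopes of `π` have odd denominators. The
norm of `π` in `F` is supersingular if and only if it is a root of a power of `p` up to a root of
unity. -/
def NormCriteria (p a : ℕ) [Fact p.Prime] {K : Type} [Field K] [NumberField K] (π : K) : Prop :=
  (∀ c : ℕ, PrimitiveCore K c → (MaximalAngleRank (p ^ a) (fun _ : Unit => π) ↔
    ∀ F : IntermediateField ℚ K, finrank F K = c → ¬ IsTotallyReal F →
      ¬ SupersingularNorm p a π F)) ∧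
  ∀ F : IntermediateField ℚ K, (¬ IsTotallyReal F → finrank F K = 2 ∨
      (Odd (finrank F K) ∧ OddSlopes p a π) → ¬ SupersingularNorm p a π F) ∧
    (SupersingularNorm p a π F ↔
      ∃ m : ℕ, 0 < m ∧ Algebra.norm F π ^ (2 * m) = (p : F) ^ (a * finrank F K * m))

/-- Conditions on the field and on the slopes which are sufficient for `IsCoreWeil`, for Weil numbers
`π` all powers of which generate `K`, `[K : ℚ] = 2 g`: the degree of the Galois closure of `K` over
the Galois closure of the maximal real subfield is larger than `2 ^ (g / 3)`; or `K` has few divisors
(for instance that degree is larger than `2 ^ (g / 4)`), and the slopes of `π` have odd denominators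
(for instance `π` is ordinary); or the Galois group of the maximal real subfield is triply transitive
(for instance the symmetric group, or the alternating group and `5 ≤ g`), `3 ≤ g`, and no norm of `π`
to an imaginary quadratic field is supersingular. -/
def FieldCriteria (p a : ℕ) [Fact p.Prime] {K : Type} [Field K] [NumberField K] [IsCMField K]
    (π : K) : Prop :=
  (LargeClosure K 3 → IsCoreWeil p a π) ∧
  (FewDivisors K → OddSlopes p a π → IsCoreWeil p a π) ∧
  (6 ≤ finrank ℚ K → TriplyTransitive (maximalRealSubfield K) →
    (∀ F : IntermediateField ℚ K, 2 * finrank F K = finrank ℚ K → ¬ IsTotallyReal F →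
      ¬ SupersingularNorm p a π F) → IsCoreWeil p a π)

/-- What can be seen from the degrees of the fields and of their Galois closures, discriminants and
slopes: about the cores (`CoreFacts`); about the norms (`NormCriteria`); about Weil numbers
(`FieldCriteria`). The fields `K i` are pairwise independent if any two
of them are separated by a prime number, in one direction or the other. All nonzero elements of a
number field `F` are independent of the fields `K i` if all `K i` are separated from `F` by prime
numbers. -/
def CoreCriteria : Prop :=
  CoreFacts ∧
  (∀ (K : Type) [Field K] [NumberField K] [IsCMField K] (p : ℕ) [Fact p.Prime] (a : ℕ), 0 < a →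
    ∀ π : K, IsSimpleWeil p a π → NormCriteria p a π ∧ FieldCriteria p a π) ∧
  ∀ (I : Type) (K : I → Type) [∀ i, Field (K i)] [∀ i, NumberField (K i)] [∀ i, IsCMField (K i)],
    ((∀ i k, i ≠ k → ∃ q : ℕ, Separates q (K i) (K k) ∨ Separates q (K k) (K i)) →
      PairwiseIndep K) ∧
    ∀ (F : Type) [Field F] [NumberField F], (∀ i, ∃ q : ℕ, Separates q (K i) F) →
      ∀ (χ : F →+* ℂ) (x : F), x ≠ 0 → Pool.Agent.Y1.CT.Independent K (χ x)

end Pool.Agent.H298.Core
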