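import Mathlib
import Pool.Agent.H298.Core.Main
import Pool.Agent.H298.Core.Norm
import Pool.Agent.H298.Core.Crit
import Pool.Agent.H298.Core.WeilDefs
import Pool.Graph.R_pool_sql_team_seeded_1acbe0a2.Y156.P.Main

/-!
# Weil numbers in CM fields with small cores have nondegenerate slope types
-/

set_option autoImplicit false
set_option linter.unusedSectionVars false
set_option linter.unusedVariables false

namespace Pool.Agent.H298.Core

open NumberField Module Polynomial Pool.Agent.TH170.MF Pool.Agent.H204R3.CM Pool.Agent.TH170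
  Pool.Agent.TH170.CM Pool.Agent.TH170.FW Pool.Agent.Y156.P
open scoped IntermediateField

attribute [local instance] actC

section

variable {E : Type} [Field E] [NumberField E] [IsCMField E]

open Classical in
/-- For a function which is odd under the complex conjugation and orthogonal to a minimal space, in a
field with irreducible odd part or primitive core: it takes the same values at two embeddings and all their
images under automorphisms, or it is balanced over a subfield. -/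
theorem exists_same_core {S : Submodule ℚ ((E →+* ℂ) → ℚ)} (hS : S ∈ minimalSpaces E)
    (w : (E →+* ℂ) → ℚ) (hw : ∀ φ, w (ComplexEmbedding.conjugate φ) = - w φ)
    (horth : ∀ s ∈ S, ∑ φ, w φ * s φ = 0) {c : ℕ} (hcore : OddIrreducible E ∨ PrimitiveCore E c) :
    (∃ φ₀ φ₁ : E →+* ℂ, φ₀ ≠ φ₁ ∧
      ∀ τ : ℂ ≃+* ℂ, w ((τ : ℂ →+* ℂ).comp φ₀) = w ((τ : ℂ →+* ℂ).comp φ₁)) ∨
    (PrimitiveCore E c ∧ ∃ F : IntermediateField ℚ E, finrank F E = c ∧ ¬ IsTotallyReal F ∧
      ∀ φ : E →+* ℂ, ∑ ψ : E →+* ℂ with (∀ x ∈ F, ψ x = φ x), w ψ = 0) := by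
  obtain ⟨hS0, hst, hodd, -⟩ := hS
  obtain ⟨s, hs, hs0⟩ := Submodule.exists_mem_ne_zero_of_ne_bot hS0
  obtain ⟨D₁, r, hD₁, hr⟩ := GS.exists_den s
  obtain ⟨D₂, z, hD₂, hz⟩ := GS.exists_den w
  have hD₁q : (D₁ : ℚ) ≠ 0 := Nat.cast_ne_zero.2 hD₁
  have hD₂q : (D₂ : ℚ) ≠ 0 := Nat.cast_ne_zero.2 hD₂
  have hzc : ∀ φ, z (ComplexEmbedding.conjugate φ) = -z φ := by
    intro φ
    have h1 : ((z (ComplexEmbedding.conjugate φ) : ℤ) : ℚ) = ((-z φ : ℤ) : ℚ) := by
      rw [hz, Int.cast_neg, hz, hw]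
      ring
    exact_mod_cast h1
  have hrel : r ∈ Rel (ℂ ≃+* ℂ) ComplexEmbedding.conjugate z Set.univ := by
    refine ⟨fun φ => ?_, fun σ => ?_, fun y hy => absurd (Set.mem_univ y) hy⟩
    · have h1 : ((r (ComplexEmbedding.conjugate φ) : ℤ) : ℚ) = ((-r φ : ℤ) : ℚ) := by
        rw [hr, Int.cast_neg, hr, hodd s hs]
        ring
      exact_mod_cast h1
    · have h1 : (fun φ => s (((σ⁻¹ : ℂ ≃+* ℂ) : ℂ →+* ℂ).comp φ)) ∈ S := hst _ s hs
      have h2 := horth _ h1
      have h3 : ∑ φ : E →+* ℂ, s φ * w (σ • φ) = 0 := by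
        rw [← h2]
        refine Fintype.sum_equiv (MulAction.toPerm σ) _ _ fun φ => ?_
        have h4 : ((σ⁻¹ : ℂ ≃+* ℂ) : ℂ →+* ℂ).comp (MulAction.toPerm σ φ) = φ :=
          inv_smul_smul σ φ
        rw [h4, mul_comm]
        rfl
      have h5 : ((∑ φ : E →+* ℂ, r φ * z (σ • φ) : ℤ) : ℚ) = 0 := by
        push_cast
        calc ∑ φ : E →+* ℂ, (r φ : ℚ) * (z (σ • φ) : ℚ)
            = ∑ φ : E →+* ℂ, (D₁ * D₂ : ℚ) * (s φ * w (σ • φ)) := by
              refine Finset.sum_congr rfl fun φ _ => ?_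
              rw [hr, hz]
              ring
          _ = 0 := by rw [← Finset.mul_sum, h3, mul_zero]
      exact_mod_cast h5
  have hr0 : r ≠ 0 := by
    intro h0
    apply hs0
    funext φ
    have h1 := hr φ
    rw [h0, Pi.zero_apply, Int.cast_zero] at h1
    exact (mul_eq_zero.1 h1.symm).resolve_left hD₁q
  rcases dichotomy hzc hcore hrel hr0 with ⟨y₁, y₂, hne, h⟩ | ⟨h1, -, F, hF1, hF2, hF3⟩
  · left
    refine ⟨y₁, y₂, hne, fun τ => ?_⟩
    have h1 := congrArg (fun t : ℤ => (t : ℚ)) (h τ)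
    simp only [hz] at h1
    exact mul_left_cancel₀ hD₂q h1
  · right
    refine ⟨h1, F, hF1, hF2, fun φ => ?_⟩
    have h4 : ((∑ ψ : E →+* ℂ with (∀ x ∈ F, ψ x = φ x), z ψ : ℤ) : ℚ) = 0 := by
      have h5 := hF3 φ
      have h6 : ∑ ψ : E →+* ℂ with (∀ x ∈ F, ψ x = φ x), z ψ = 0 := by
        convert h5 using 2
      rw [h6, Int.cast_zero]
    push_cast at h4
    have h5 : (D₂ : ℚ) * ∑ ψ : E →+* ℂ with (∀ x ∈ F, ψ x = φ x), w ψ = 0 := by
      rw [← h4, Finset.mul_sum]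
      exact Finset.sum_congr rfl fun y _ => (hz y).symm
    exact (mul_eq_zero.1 h5).resolve_left hD₂q

variable {p : ℕ} [hp : Fact p.Prime] (ν : PadicAlgCl p ≃+* ℂ) {a : ℕ}

/-- **Weil numbers in fields with small cores have nondegenerate slope types.** -/
theorem exists_type_core (ha : 0 < a) {π : E} (hπ : IsCoreWeil p a π) :
    ∃ (M : (E →+* ℂ) → ℤ) (Φ : Set (E →+* ℂ)) (κ : ℝ),
      (∀ φ, M (ComplexEmbedding.conjugate φ) = M φ) ∧ IsCMType Φ ∧ Φ ∉ degTypes M ∧ κ ≠ 0 ∧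
        GS.HasSlopes ν M Φ a κ π := by
  classical
  obtain ⟨⟨hint, hw, hgen⟩, hcore⟩ := hπ
  refine exists_type_gen ν hw fun q hq hqc S hS horth => ?_
  have hp1 : (1 : ℝ) < p := by exact_mod_cast hp.out.one_lt
  have hpE : (p : E) ≠ 0 := Nat.cast_ne_zero.2 hp.out.ne_zero
  have hπ0 : π ≠ 0 := by
    intro h0
    rw [h0, zero_mul] at hw
    exact pow_ne_zero a hpE hw.symm
  have hν0 : ∀ φ : E →+* ℂ, ν.symm (φ π) ≠ 0 := fun φ =>
    (_root_.map_ne_zero ν.symm).2 ((_root_.map_ne_zero φ).2 hπ0)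
  let w : (E →+* ℂ) → ℚ := fun φ => -(2 * q φ) - a
  have hwc : ∀ φ, w (ComplexEmbedding.conjugate φ) = - w φ := by
    intro φ
    simp only [w]
    linear_combination -2 * hqc φ
  have hfinish : ¬ ∃ φ₀ φ₁ : E →+* ℂ, φ₀ ≠ φ₁ ∧
      ∀ τ : ℂ ≃+* ℂ, w ((τ : ℂ →+* ℂ).comp φ₀) = w ((τ : ℂ →+* ℂ).comp φ₁) := by
    rintro ⟨φ₀, φ₁, hne, hsame⟩
    refine false_of_same ν hint hw hgen hne fun τ => ?_
    have h1 := hsame τ
    simp only [w] at h1
    have h3 : q ((τ : ℂ →+* ℂ).comp φ₀) = q ((τ : ℂ →+* ℂ).comp φ₁) := by linarith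
    have h4 : Real.logb p ‖ν.symm (τ (φ₀ π))‖ = Real.logb p ‖ν.symm (τ (φ₁ π))‖ := by
      have h5 := hq ((τ : ℂ →+* ℂ).comp φ₀)
      have h6 := hq ((τ : ℂ →+* ℂ).comp φ₁)
      rw [h3] at h5
      exact h5.trans h6.symm
    exact Real.logb_injOn_pos hp1 (norm_pos_iff.2 (hν0 ((τ : ℂ →+* ℂ).comp φ₀)))
      (norm_pos_iff.2 (hν0 ((τ : ℂ →+* ℂ).comp φ₁))) h4
  rcases hcore with hcore | ⟨c, hcore, hnorm⟩
  · -- irreducible odd part; then the second alternative cannot occur with a core of no elements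
    by_cases h0 : PrimitiveCore E 0
    · obtain ⟨n, φ, h1⟩ := h0.1
      rw [mul_zero, Set.ncard_eq_zero (Set.toFinite _), coreOf_eq] at h1
      have h2 : φ ∈ (∅ : Set (E →+* ℂ)) := by
        rw [← h1]
        exact self_mem n φ
      exact h2.elim
    · rcases exists_same_core hS w hwc horth (c := 0) (Or.inl hcore) with h | h
      · exact hfinish h
      · exact h0 h.1
  · rcases exists_same_core hS w hwc horth (Or.inr hcore) with h | ⟨-, F, hF1, hF2, hF3⟩
    · exact hfinish h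
    · refine hnorm F hF1 hF2 ((supersingular_iff ν F).2 fun φ => ?_)
      have h2 : ‖(p : PadicAlgCl p)‖ = (p : ℝ)⁻¹ := by
        rw [← GS.norm_symm_p (ν := ν), map_natCast]
      have hp0 : (0 : ℝ) < p := by linarith
      have h3 : ∀ ψ : E →+* ℂ, 0 < ‖ν.symm (ψ π)‖ ^ 2 := fun ψ => by
        have := norm_pos_iff.2 (hν0 ψ)
        positivity
      refine Real.logb_injOn_pos hp1 (Finset.prod_pos fun ψ _ => h3 ψ)
        (show (0 : ℝ) < ‖(p : PadicAlgCl p) ^ a‖ ^ finrank F E by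
          rw [norm_pow, h2]; positivity) ?_
      rw [Real.logb_prod _ _ fun ψ _ => (h3 ψ).ne', norm_pow, h2, Real.logb_pow, Real.logb_pow,
        Real.logb_inv, Real.logb_self_eq_one hp1]
      have h4 := hF3 φ
      simp only [w] at h4
      rw [Finset.sum_sub_distrib, Finset.sum_const, nsmul_eq_mul] at h4
      have h5 : (Finset.univ.filter fun ψ : E →+* ℂ => ∀ x ∈ F, ψ x = φ x).card =
          finrank F E := by
        rw [← card_extensions F φ, ← Fintype.card_coe, ← Nat.card_eq_fintype_card]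
        exact Nat.card_congr (Equiv.subtypeEquivRight fun ψ => by simp)
      rw [h5] at h4
      have h6 : ∑ ψ : E →+* ℂ with (∀ x ∈ F, ψ x = φ x), Real.logb p (‖ν.symm (ψ π)‖ ^ 2) =
          ((∑ ψ : E →+* ℂ with (∀ x ∈ F, ψ x = φ x), 2 * q ψ : ℚ) : ℝ) := by
        push_cast
        refine Finset.sum_congr rfl fun ψ _ => ?_
        rw [Real.logb_pow, hq ψ]
        push_cast
        ring
      rw [h6]
      have h7 : (∑ ψ : E →+* ℂ with (∀ x ∈ F, ψ x = φ x), 2 * q ψ : ℚ) =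
          - ((finrank F E : ℚ) * a) := by
        rw [Finset.sum_neg_distrib] at h4
        linarith
      rw [h7]
      push_cast
      ring

end

end Pool.Agent.H298.Core
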