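import Mathlib
import Pool.Agent.H298.Core.Weil
import Pool.Graph.R_seed8.Y1.CT.UnrelRel

/-!
# There are no relations between Weil numbers in fields with small cores and unrelated numbers
-/

set_option autoImplicit false
set_option linter.unusedSectionVars false
set_option linter.unusedVariables false

namespace Pool.Agent.H298.Core

open NumberField Module Polynomial Pool.Agent.TH170.MF Pool.Agent.H204R3.CM Pool.Agent.H977R3.CM
  Pool.Agent.TH170 Pool.Agent.TH170.CM Pool.Agent.TH170.FW Pool.Agent.Y156.P Pool.Agent.Y1.KN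
  Pool.Agent.Y1.CT Pool.Agent.Y137.MV
open scoped IntermediateField

variable {p : ℕ} [hp : Fact p.Prime] {a : ℕ} {I : Type} [Fintype I] {K : I → Type}
  [∀ i, Field (K i)] [∀ i, NumberField (K i)] [∀ i, IsCMField (K i)]

/-- Weil numbers in independent fields with small cores have slope types without relations. -/
theorem exists_types (ha : 0 < a) {π : ∀ i, K i} (hπ : ∀ i, IsCoreWeil p a (π i)) :
    ∃ (ν : PadicAlgCl p ≃+* ℂ) (M : ∀ i, (K i →+* ℂ) → ℤ) (Φ : ∀ i, Set (K i →+* ℂ)),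
      (∀ i φ, M i (ComplexEmbedding.conjugate φ) = M i φ) ∧ (∀ i, IsCMType (Φ i)) ∧
      (∀ i, Φ i ∉ degTypes (M i)) ∧ ∀ i, HasType ν a (M i) (Φ i) (π i) := by
  obtain ⟨ν⟩ := exists_iso p
  choose M Φ κ hM hΦ hnd hκ hsl using fun i => exists_type_core ν ha (hπ i)
  exact ⟨ν, M, Φ, hM, hΦ, hnd, fun i =>
    ⟨gen_one (hπ i).simple, (hπ i).simple.weil, κ i, hκ i, hsl i⟩⟩

/-- Weil numbers in independent fields with small cores have maximal angle rank. -/
theorem angle_core (ha : 0 < a) (hind : PairwiseIndep K) {π : ∀ i, K i}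
    (hπ : ∀ i, IsCoreWeil p a (π i)) : MaximalAngleRank (p ^ a) π := by
  obtain ⟨ν, M, Φ, hM, hΦ, hnd, hT⟩ := exists_types ha hπ
  exact Y1.TS.angle_types hind hM hΦ hnd hT

theorem noRel_unrelated (ha : 0 < a) (hind : PairwiseIndep K) {π : ∀ i, K i}
    (hπ : ∀ i, IsCoreWeil p a (π i)) {f : I → ℤ[X]} (hf : ∀ i, IsPolyOf (π i) (f i)) :
    Y1.CT.NoRel f (p ^ a) (Unrelated K) :=
  ⟨fun i => (hf i).1, unrelated_one K, fun s hs ρ hρ =>
    exactPair_of_angle (angle_core ha hind hπ) (fun i => (hπ i).simple.weil) f hf s hs ρ hρ⟩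

theorem noRel_independent (ha : 0 < a) (hind : PairwiseIndep K) {π : ∀ i, K i}
    (hπ : ∀ i, IsCoreWeil p a (π i)) {f : I → ℤ[X]} (hf : ∀ i, IsPolyOf (π i) (f i)) :
    Y1.CT.NoRel f (p ^ a) (Y1.CT.Independent K) :=
  ⟨fun i => (hf i).1, Pool.Agent.Y1.CT.independent_one K, fun s hs ρ hρ =>
    (noRel_unrelated ha hind hπ hf).3 s hs ρ (unrelated_of_independent hρ)⟩

theorem normCriteria_hold {p : ℕ} [Fact p.Prime] {a : ℕ} (ha : 0 < a) {K : Type} [Field K]
    [NumberField K] [IsCMField K] {π : K} (hπ : IsSimpleWeil p a π) : NormCriteria p a π := by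
  refine ⟨fun c hc => ⟨fun h F _ hF => not_supersingular_of_angle hπ h hF, fun h =>
    angle_core (I := Unit) (K := fun _ => K) ha (fun i k hik => absurd rfl hik)
      (π := fun _ => π) fun _ => ⟨hπ, Or.inr ⟨c, hc, h⟩⟩⟩, fun F => ⟨?_, supersingular_iff_pow hπ F⟩⟩
  intro hF h
  rcases h with h | ⟨h, h'⟩
  · exact not_supersingular_of_two hπ hF h
  · exact not_supersingular_of_odd ha h' h

theorem fieldCriteria_hold {p : ℕ} [Fact p.Prime] {a : ℕ} (ha : 0 < a) {K : Type} [Field K]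
    [NumberField K] [IsCMField K] {π : K} (hπ : IsSimpleWeil p a π) : FieldCriteria p a π := by
  refine ⟨fun h => ?_, fun h h' => ?_, fun h6 h h' => ?_⟩
  · obtain ⟨c, hc, h1, h2⟩ := core_of_largeClosure h
    rcases (by omega : c = 1 ∨ c = 2) with rfl | rfl
    · exact ⟨hπ, Or.inl (oddIrreducible_of_one hc)⟩
    · exact ⟨hπ, Or.inr ⟨2, ⟨hc, Or.inl Nat.prime_two⟩,
        fun F hF hF' => not_supersingular_of_two hπ hF' hF⟩⟩
  · obtain ⟨c, h1, hc⟩ := hasCore_of_fewDivisors h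
    rcases h1 with rfl | h1
    · exact ⟨hπ, Or.inl (oddIrreducible_of_one hc)⟩
    · refine ⟨hπ, Or.inr ⟨c, ⟨hc, Or.inl h1⟩, fun F hF hF' => ?_⟩⟩
      rcases h1.eq_two_or_odd' with h2 | h2
      · exact not_supersingular_of_two hπ hF' (hF.trans h2)
      · exact not_supersingular_of_odd ha h' (by rwa [hF])
  · rcases triply_field h6 h with h1 | ⟨F, h1, h2, h3⟩
    · exact ⟨hπ, Or.inl h1⟩
    · exact ⟨hπ, Or.inr ⟨finrank F K, ⟨hasCore_top h1.symm, Or.inr ⟨F, rfl, h2, h3⟩⟩,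
        fun F' hF hF' => h' F' (by rw [hF, h1]) hF'⟩⟩

theorem coreCriteria_hold : CoreCriteria :=
  ⟨coreFacts_hold, fun K _ _ _ p _ a ha π hπ =>
    ⟨normCriteria_hold ha hπ, fieldCriteria_hold ha hπ⟩, fun I K _ _ _ =>
    ⟨pairwiseIndep_of_separates, fun F _ _ h χ x hx => independent_of_separates h χ hx⟩⟩

end Pool.Agent.H298.Core
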