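import Mathlib
import Pool.Agent.H298.Core.TypeDefs
import Pool.Agent.H298.Core.CritDefs
import Pool.Graph.R_seed8.TH170.CM.Defs
import Pool.Graph.R_pool_sql_team_seeded_1acbe0a2.Y156.P.IrrDefs

/-!
# CM types of fields with small cores
-/

set_option autoImplicit false

namespace Pool.Agent.H298.Core

open NumberField Module Pool.Agent.H204R3.CM Pool.Agent.H977R3.CM Pool.Agent.TH170.CM
  Pool.Agent.Y156.P

/-- A primitive core with `c` pairs, or any core with four pairs. -/
def SmallOrPrimitive (E : Type) [Field E] [NumberField E] (c : ℕ) : Prop :=
  PrimitiveCore E c ∨ (c = 4 ∧ HasCore E 4)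

/-- The CM type `Φ` of the CM field `E` belongs to one of the following classes. The field has
irreducible odd part, for instance because there is a core with one pair. Or the type does not come
from a proper subfield, and either the field has few divisors (`FewDivisors`), for instance because
its Galois closure has degree larger than `2 ^ (g / 4)` over the Galois closure of its maximal real
subfield, `[E : ℚ] = 2 g`, or there is a core with `c` pairs, primitive or with `c = 4`, and (this is
automatic if `c = 2` or if `c` is odd) the type is not balanced over a subfield which is not totally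
real, of index `c` (`Balanced`: one half of the extensions of each embedding of the subfield are in
the type). Or there is a core with a power of a prime number of pairs, and a sum of signs is prime to
it. -/
def CoreType {E : Type} [Field E] [NumberField E] (Φ : Set (E →+* ℂ)) : Prop :=
  IsCMType Φ ∧ (HasCore E 1 ∨ OddIrreducible E ∨
    (¬ Induced (sgn Φ) ∧ (FewDivisors E ∨
      ∃ c : ℕ, SmallOrPrimitive E c ∧ (c = 2 ∨ Odd c ∨ ¬ Balanced c (sgn Φ)))) ∨
    OddPrimePowerCore 1 Φ ∨ TwoPowerCore 1 Φ)

/-- The CM types `Φ k` of the CM field `E` are jointly nondegenerate: there are no antisymmetric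
linear relations between the translates of the sign functions of all the types. (This means that the
Hodge group of the product of the abelian varieties with these CM types has the largest possible
dimension `card κ * g`, `[E : ℚ] = 2 g`.) -/
def JointlyNondegenerate {E : Type} [Field E] [NumberField E] {κ : Type} [Fintype κ]
    (Φ : κ → Set (E →+* ℂ)) : Prop :=
  ∀ b : κ → (E →+* ℂ) → ℤ, (∀ k φ, b k (ComplexEmbedding.conjugate φ) = -b k φ) →
    (∀ σ : ℂ ≃+* ℂ, ∑ k, ∑ φ, b k φ * sgn (Φ k) ((σ : ℂ →+* ℂ).comp φ) = 0) → b = 0

/-- The sign functions of the types `Φ k` are linearly independent. -/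
def IndependentSigns {E : Type} [Field E] {κ : Type} [Fintype κ] (Φ : κ → Set (E →+* ℂ)) : Prop :=
  ∀ c : κ → ℤ, (∀ φ, ∑ k, c k * sgn (Φ k) φ = 0) → c = 0

open Classical in
/-- The sums of the sign functions of the types `Φ k` over the extensions of the embeddings of the
subfield `F` are linearly independent, and no linear combination of the sign functions, except zero,
comes from `F`. -/
def IndependentOver {E : Type} [Field E] [NumberField E] {κ : Type} [Fintype κ]
    (F : IntermediateField ℚ E) (Φ : κ → Set (E →+* ℂ)) : Prop :=
  ∀ c : κ → ℤ,
    ((∀ φ : E →+* ℂ, ∑ k, c k * ∑ ψ : E →+* ℂ with (∀ x ∈ F, ψ x = φ x), sgn (Φ k) ψ = 0) →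
      c = 0) ∧
    ((∀ φ ψ : E →+* ℂ, (∀ x ∈ F, ψ x = φ x) →
      ∑ k, c k * sgn (Φ k) ψ = ∑ k, c k * sgn (Φ k) φ) → c = 0)

/-- The family of the types `Φ k` of the CM field `E` belongs to one of the following classes. There
is a core with one pair, and the sign functions are linearly independent. There is a core with `c`
pairs, `c = [E : F]` for a subfield `F` which is not totally real and has doubly transitive
extensions to `E`, and the types are independent over `F`. There is only one type (at most), and it
is of one of the classes of `CoreType`. -/
def CoreTypes {E : Type} [Field E] [NumberField E] {κ : Type} [Fintype κ]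
    (Φ : κ → Set (E →+* ℂ)) : Prop :=
  (∀ k, IsCMType (Φ k)) ∧ ((HasCore E 1 ∧ IndependentSigns Φ) ∨
    (∃ F : IntermediateField ℚ E, HasCore E (finrank F E) ∧ ¬ IsTotallyReal F ∧
      DoublyTransitive F ∧ IndependentOver F Φ) ∨
    (Subsingleton κ ∧ ∀ k, CoreType (Φ k)))

/-- Criteria. For a field with a core with `c` pairs, primitive or with `c = 4`, a CM type is
degenerate if and only if it comes from a proper subfield or is balanced over a subfield of index
`c` which is not totally real. If the field has few divisors, for instance if the degree of its
Galois closure over the Galois closure of the maximal real subfield is larger than `2 ^ (g / 4)`, a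
CM type is degenerate if and only if it comes from a proper subfield; if that degree is larger than
`2 ^ (g / 6)`, if and only if it comes from a proper subfield or is balanced over a subfield of
index `4`; if the Galois group of the maximal real subfield is triply transitive (for instance the
symmetric group, or the alternating group and `5 ≤ g`) and `3 ≤ g`, if and only if it comes from a
proper subfield or is balanced over an imaginary quadratic subfield. For a field with a core with
one pair, several types are jointly nondegenerate if and only if the sign functions are linearly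
independent; and for a core with `c` pairs, `c = [E : F]`, `c ≠ 1`, if and only if they are
independent over `F`, if `F` is not totally real and has doubly transitive extensions. The sign
functions of at most three types are linearly independent if the types are pairwise different and
not complementary. The facts about the cores (`CoreFacts`). The fields `K i` are pairwise
independent if any two of them are separated by a prime number, in one direction or the other. -/
def CoreTypeCriteria : Prop :=
  (∀ (E : Type) [Field E] [NumberField E] [IsCMField E],
    (∀ (Φ : Set (E →+* ℂ)) (c : ℕ), IsCMType Φ → SmallOrPrimitive E c →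
      (Degenerate Φ ↔ Induced (sgn Φ) ∨ Balanced c (sgn Φ))) ∧
    (∀ Φ : Set (E →+* ℂ), IsCMType Φ →
      (FewDivisors E → (Degenerate Φ ↔ Induced (sgn Φ))) ∧
      (LargeClosure E 6 → (Degenerate Φ ↔ Induced (sgn Φ) ∨ Balanced 4 (sgn Φ))) ∧
      (6 ≤ finrank ℚ E → TriplyTransitive (maximalRealSubfield E) →
        (Degenerate Φ ↔ Induced (sgn Φ) ∨ Balanced (finrank ℚ E / 2) (sgn Φ)))) ∧
    ∀ (κ : Type) [Fintype κ] (Φ : κ → Set (E →+* ℂ)), (∀ k, IsCMType (Φ k)) →
      (HasCore E 1 → (JointlyNondegenerate Φ ↔ IndependentSigns Φ)) ∧
      (∀ F : IntermediateField ℚ E, HasCore E (finrank F E) → finrank F E ≠ 1 →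
        ¬ IsTotallyReal F → DoublyTransitive F →
          (JointlyNondegenerate Φ ↔ IndependentOver F Φ)) ∧
      (Fintype.card κ ≤ 3 → (∀ k l, k ≠ l → Φ k ≠ Φ l ∧ Φ k ≠ (Φ l)ᶜ) →
        IndependentSigns Φ)) ∧
  CoreFacts ∧
  ∀ (I : Type) (K : I → Type) [∀ i, Field (K i)] [∀ i, NumberField (K i)] [∀ i, IsCMField (K i)],
    (∀ i k, i ≠ k → ∃ q : ℕ, Separates q (K i) (K k) ∨ Separates q (K k) (K i)) →
      PairwiseIndep K

end Pool.Agent.H298.Core
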