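import Mathlib
import Pool.Agent.H298.Core.Main

/-!
# Relations of signs in a core of eight elements
-/

set_option autoImplicit false
set_option linter.unusedSectionVars false
set_option linter.unusedVariables false

namespace Pool.Agent.H298.Core

open MulAction Finset

variable {G : Type*} [Group G] {Y : Type*} [MulAction G Y] {inv : Y → Y} [Fintype Y]
  {D : Y → ℤ}

/-- A relation between signs which vanishes at an element of a core of eight elements. -/
theorem small_support (hinv : ∀ y, inv (inv y) = y) (hne : ∀ y, inv y ≠ y)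
    (hG : ∀ (g : G) (y : Y), g • inv y = inv (g • y)) (hD : ∀ y, D (inv y) = -D y)
    (hD1 : ∀ y, D y = 1 ∨ D y = -1) (n : ℕ) (x : Y) (hcard : (core G inv n x).ncard = 8)
    (hno : ∀ y₁ y₂, y₁ ≠ y₂ → ¬ ∀ g : G, D (g • y₁) = D (g • y₂)) {c : Y → ℤ}
    (hc : c ∈ Rel G inv D (core G inv n x)) (hx : c x = 0) : c = 0 := by
  classical
  set P : Finset Y := univ.filter fun y => 0 < c y with hP
  have hmem : ∀ y, y ∈ P ↔ 0 < c y := fun y => by simp [hP]
  have hsub : ∀ y ∈ P, y ∈ core G inv n x := by
    intro y hy
    by_contra h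
    have h1 := (hmem y).1 hy
    rw [hc.2.2 y h] at h1
    exact lt_irrefl _ h1
  have hPinv : ∀ y ∈ P, inv y ∉ P := by
    intro y hy h
    rw [hmem] at hy h
    rw [hc.1] at h
    omega
  have hrel : ∀ g : G, ∑ y ∈ P, c y * D (g • y) = 0 := by
    intro g
    have h1 := hc.2.1 g
    rw [sum_eq_two_mul (B := {y | c y ≠ 0}) hinv P hPinv (fun y => by
      rw [hmem, hmem, hc.1]
      change c y ≠ 0 ↔ _
      omega) (fun y => c y * D (g • y)) (fun y => by
      rw [hc.1, hG, hD]
      ring) (fun y hy => by
        have h2 : c y = 0 := by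
          by_contra h
          exact hy h
        rw [h2, zero_mul])] at h1
    exact (mul_eq_zero.1 h1).resolve_left two_ne_zero
  have hinj : Function.Injective inv := fun a b h => by rw [← hinv a, h, hinv]
  have hle : P.card ≤ 3 := by
    have hdisj : Disjoint P (P.image inv) := by
      rw [Finset.disjoint_left]
      intro y hy hy'
      obtain ⟨z, hz, rfl⟩ := Finset.mem_image.1 hy'
      exact hPinv z hz hy
    have h1 : (insert x (insert (inv x) (P ∪ P.image inv)) : Finset Y).card ≤ 8 := by
      rw [← hcard, ← Set.ncard_coe_finset]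
      refine Set.ncard_le_ncard ?_ (Set.toFinite _)
      intro y hy
      simp only [Finset.coe_insert, Finset.coe_union, Finset.coe_image, Set.mem_insert_iff,
        Set.mem_union, Finset.mem_coe, Set.mem_image] at hy
      rcases hy with rfl | rfl | h | ⟨z, hz, rfl⟩
      · exact self_mem n _
      · exact inv_mem hinv hG (self_mem n x)
      · exact hsub y h
      · exact inv_mem hinv hG (hsub z hz)
    have hxP : x ∉ P := fun h => by
      have := (hmem x).1 h
      omega
    have hixP : inv x ∉ P := fun h => by
      have := (hmem _).1 h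
      rw [hc.1] at this
      omega
    have h2 : inv x ∉ P ∪ P.image inv := by
      rw [Finset.mem_union, Finset.mem_image]
      rintro (h | ⟨z, hz, h⟩)
      · exact hixP h
      · exact hxP (by rwa [← hinj h])
    have h3 : x ∉ insert (inv x) (P ∪ P.image inv) := by
      rw [Finset.mem_insert, Finset.mem_union, Finset.mem_image]
      rintro (h | h | ⟨z, hz, h⟩)
      · exact hne x h.symm
      · exact hxP h
      · exact hixP (by rwa [← h, hinv])
    rw [Finset.card_insert_of_notMem h3, Finset.card_insert_of_notMem h2,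
      Finset.card_union_of_disjoint hdisj, Finset.card_image_of_injective _ hinj] at h1
    omega
  -- no positive values
  have hempty : P = ∅ := by
    have hD' : ∀ y, (D y - 1) * (D y + 1) = 0 := fun y => by
      rcases hD1 y with h | h <;> rw [h] <;> ring
    by_contra hPne
    have h1 : P.card = 1 ∨ P.card = 2 ∨ P.card = 3 := by
      have := Finset.card_pos.2 (Finset.nonempty_iff_ne_empty.2 hPne)
      omega
    rcases h1 with h1 | h1 | h1
    · obtain ⟨a, ha⟩ := Finset.card_eq_one.1 h1
      have h2 := hrel 1
      rw [ha, Finset.sum_singleton, one_smul] at h2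
      have h3 := (hmem a).1 (by rw [ha]; exact Finset.mem_singleton_self _)
      rcases hD1 a with h | h <;> rw [h] at h2 <;> omega
    · obtain ⟨a, b, hab, hPab⟩ := Finset.card_eq_two.1 h1
      have ha : 0 < c a := (hmem a).1 (by rw [hPab]; simp)
      have hb : 0 < c b := (hmem b).1 (by rw [hPab]; simp)
      refine hno a (inv b) ?_ fun g => ?_
      · rintro rfl
        rw [hc.1] at ha
        omega
      · have h2 := hrel g
        rw [hPab, Finset.sum_pair hab] at h2
        rw [hG, hD]
        rcases hD1 (g • a) with h | h <;> rcases hD1 (g • b) with h' | h' <;>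
          rw [h, h'] at h2 ⊢ <;> omega
    · obtain ⟨a, b, d, hab, had, hbd, hPabd⟩ := Finset.card_eq_three.1 h1
      have hsum : ∀ g : G, c a * D (g • a) + (c b * D (g • b) + c d * D (g • d)) = 0 := by
        intro g
        have h2 := hrel g
        rw [hPabd, Finset.sum_insert (by simp [hab, had]), Finset.sum_pair hbd] at h2
        exact h2
      have ha : 0 < c a := (hmem a).1 (by rw [hPabd]; simp)
      have hb : 0 < c b := (hmem b).1 (by rw [hPabd]; simp)
      have hd : 0 < c d := (hmem d).1 (by rw [hPabd]; simp)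
      -- the two elements with the smaller coefficients
      rcases le_total (c b) (c a) with hba | hba
      · rcases le_total (c d) (c a) with hda | hda
        · refine hno b d hbd fun g => ?_
          have h2 := hsum g
          rcases hD1 (g • a) with h | h <;> rcases hD1 (g • b) with h' | h' <;>
            rcases hD1 (g • d) with h'' | h'' <;> rw [h, h', h''] at h2 <;> rw [h', h''] <;>
            omega
        · refine hno a b hab fun g => ?_
          have h2 := hsum g
          rcases hD1 (g • a) with h | h <;> rcases hD1 (g • b) with h' | h' <;>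
            rcases hD1 (g • d) with h'' | h'' <;> rw [h, h', h''] at h2 <;> rw [h, h'] <;>
            omega
      · rcases le_total (c d) (c b) with hdb | hdb
        · refine hno a d had fun g => ?_
          have h2 := hsum g
          rcases hD1 (g • a) with h | h <;> rcases hD1 (g • b) with h' | h' <;>
            rcases hD1 (g • d) with h'' | h'' <;> rw [h, h', h''] at h2 <;> rw [h, h''] <;>
            omega
        · refine hno a b hab fun g => ?_
          have h2 := hsum g
          rcases hD1 (g • a) with h | h <;> rcases hD1 (g • b) with h' | h' <;>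
            rcases hD1 (g • d) with h'' | h'' <;> rw [h, h', h''] at h2 <;> rw [h, h'] <;>
            omega
  funext y
  by_contra h
  rcases lt_or_gt_of_ne h with h | h
  · have h1 : inv y ∈ P := by
      rw [hmem, hc.1]
      change c y < 0 at h
      omega
    rw [hempty] at h1
    simp at h1
  · have h1 : y ∈ P := (hmem y).2 h
    rw [hempty] at h1
    simp at h1

/-- **Relations of signs in a core of eight elements.** -/
theorem four_core [IsPretransitive G Y] (hinv : ∀ y, inv (inv y) = y)
    (hne : ∀ y, inv y ≠ y) (hG : ∀ (g : G) (y : Y), g • inv y = inv (g • y))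
    (hD : ∀ y, D (inv y) = -D y) (hD1 : ∀ y, D y = 1 ∨ D y = -1) (n : ℕ) (x : Y)
    (hcard : (core G inv n x).ncard = 8) {c : Y → ℤ} (hc : c ∈ Rel G inv D Set.univ)
    (hc0 : c ≠ 0) : (∃ y₁ y₂, y₁ ≠ y₂ ∧ ∀ g : G, D (g • y₁) = D (g • y₂)) ∨
      ∃ O : Finset Y, x ∈ O ∧ O.card = 4 ∧ (∀ y ∈ O, inv y ∉ O) ∧
        (∀ (g : G), ∀ y ∈ O, g • y ∈ O → ∀ z ∈ O, g • z ∈ O) ∧
        ∀ g : G, ∑ y ∈ O, D (g • y) = 0 := by
  classical
  by_cases hno : ∃ y₁ y₂, y₁ ≠ y₂ ∧ ∀ g : G, D (g • y₁) = D (g • y₂)
  · exact Or.inl hno
  right
  have hno' : ∀ y₁ y₂, y₁ ≠ y₂ → ¬ ∀ g : G, D (g • y₁) = D (g • y₂) := fun y₁ y₂ h h' =>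
    hno ⟨y₁, y₂, h, h'⟩
  obtain ⟨c, hc, hcx⟩ := exists_rel_core hinv hne hG n x hc hc0
  -- translates of the relation are proportional
  have hprop : ∀ h : G, h • x ∈ core G inv n x → ∀ y, c x * c (h • y) = c (h • x) * c y := by
    intro h hh y
    have h1 : (fun y => c (h • y)) ∈ Rel G inv D (core G inv n x) :=
      comp_mem hG hc h fun y hy hy' => hy ((smul_mem_core hinv hG (self_mem n x) hh y).1 hy')
    have h2 : (c x • (fun y => c (h • y)) - c (h • x) • c) ∈ Rel G inv D (core G inv n x) :=
      AddSubgroup.sub_mem _ (AddSubgroup.zsmul_mem _ h1 _) (AddSubgroup.zsmul_mem _ hc _)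
    have h3 := small_support hinv hne hG hD hD1 n x hcard hno' h2 (by
      simp only [Pi.sub_apply, Pi.smul_apply, smul_eq_mul]
      ring)
    have h4 := congrFun h3 y
    simp only [Pi.sub_apply, Pi.smul_apply, smul_eq_mul, Pi.zero_apply] at h4
    linarith
  -- the absolute values are equal
  have habs : ∀ h : G, h • x ∈ core G inv n x → c (h • x) = c x ∨ c (h • x) = -c x := by
    intro h hh
    have hpow : ∀ k : ℕ, h ^ k • x ∈ core G inv n x ∧ c x ^ k * c (h ^ k • x) =
        c (h • x) ^ k * c x := by
      intro k
      induction k with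
      | zero => simp [self_mem n x]
      | succ k ih =>
        rw [pow_succ' h, mul_smul]
        refine ⟨(smul_mem_core hinv hG (self_mem n x) hh _).2 ih.1, ?_⟩
        have h1 := hprop h hh (h ^ k • x)
        calc c x ^ (k + 1) * c (h • h ^ k • x) = c x ^ k * (c x * c (h • h ^ k • x)) := by ring
          _ = c (h • x) * (c x ^ k * c (h ^ k • x)) := by rw [h1]; ring
          _ = _ := by rw [ih.2]; ring
    have hper : 0 < period h x := by
      refine period_pos_of_fixed (n := orderOf (MulAction.toPermHom G Y h)) (orderOf_pos _) ?_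
      have h1 := pow_orderOf_eq_one (MulAction.toPermHom G Y h)
      rw [← map_pow] at h1
      exact Equiv.congr_fun h1 x
    have h1 := (hpow (period h x)).2
    rw [pow_period_smul] at h1
    have h2 : c x ^ period h x = c (h • x) ^ period h x := mul_right_cancel₀ hcx h1
    have h3 : |c x| = |c (h • x)| := by
      have h4 : |c x| ^ period h x = |c (h • x)| ^ period h x := by
        rw [← abs_pow, ← abs_pow, h2]
      exact (pow_left_inj₀ (abs_nonneg _) (abs_nonneg _) hper.ne').1 h4
    rcases abs_eq_abs.1 h3 with h4 | h4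
    · exact Or.inl h4.symm
    · right; linarith
  have hval : ∀ y ∈ core G inv n x, c y = c x ∨ c y = -c x := by
    intro y hy
    obtain ⟨h, rfl⟩ := exists_smul_eq G x y
    exact habs h hy
  let O : Finset Y := univ.filter fun y => y ∈ core G inv n x ∧ c y = c x
  have hO : ∀ y, y ∈ O ↔ y ∈ core G inv n x ∧ c y = c x := fun y => by simp [O]
  have hOinv : ∀ y ∈ O, inv y ∉ O := by
    intro y hy h
    rw [hO] at hy h
    have h1 := h.2
    rw [hc.1, hy.2] at h1
    omega
  have hcover : ∀ y, y ∈ core G inv n x ↔ y ∈ O ∨ inv y ∈ O := by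
    intro y
    rw [hO, hO]
    constructor
    · intro h
      rcases hval y h with h1 | h1
      · exact Or.inl ⟨h, h1⟩
      · right
        refine ⟨inv_mem hinv hG h, ?_⟩
        rw [hc.1, h1, neg_neg]
    · rintro (h | h)
      · exact h.1
      · exact (inv_mem_iff hinv hG).1 h.1
  have hinj : Function.Injective inv := fun a b h => by rw [← hinv a, h, hinv]
  refine ⟨O, (hO x).2 ⟨self_mem n x, rfl⟩, ?_, hOinv, ?_, ?_⟩
  · have hdisj : Disjoint O (O.image inv) := by
      rw [Finset.disjoint_left]
      intro y hy hy'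
      obtain ⟨z, hz, rfl⟩ := Finset.mem_image.1 hy'
      exact hOinv z hz hy
    have h1 : core G inv n x = ((O ∪ O.image inv : Finset Y) : Set Y) := by
      ext y
      rw [hcover, Finset.coe_union, Set.mem_union, Finset.mem_coe, Finset.mem_coe,
        Finset.mem_image]
      refine or_congr_right ⟨fun h => ⟨_, h, hinv y⟩, ?_⟩
      rintro ⟨w, hw, rfl⟩
      rwa [hinv]
    rw [h1, Set.ncard_coe_finset, Finset.card_union_of_disjoint hdisj,
      Finset.card_image_of_injective _ hinj] at hcard
    omega
  · intro g y hy hgy z hz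
    rw [hO] at hy hgy hz ⊢
    have hgcore := fun w => smul_mem_core hinv hG hy.1 hgy.1 w
    have hgx : g • x ∈ core G inv n x := (hgcore x).2 (self_mem n x)
    refine ⟨(hgcore z).2 hz.1, ?_⟩
    have h1 := hprop g hgx y
    have h2 := hprop g hgx z
    rw [hgy.2, hy.2] at h1
    have h3 : c (g • x) = c x := (mul_right_cancel₀ hcx h1).symm
    rw [h3, hz.2] at h2
    exact mul_left_cancel₀ hcx h2
  · intro g
    have h1 := hc.2.1 g
    rw [sum_eq_two_mul hinv O hOinv hcover (fun y => c y * D (g • y)) (fun y => by
      rw [hc.1, hG, hD]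
      ring) (fun y hy => by rw [hc.2.2 y hy, zero_mul])] at h1
    have h2 := (mul_eq_zero.1 h1).resolve_left two_ne_zero
    rw [Finset.sum_congr rfl (g := fun y => c x * D (g • y)) fun y hy => by
      rw [((hO y).1 hy).2], ← Finset.mul_sum] at h2
    exact (mul_eq_zero.1 h2).resolve_left hcx

end Pool.Agent.H298.Core
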