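import Mathlib
import Pool.Agent.H298.Core.CMTypeDefs
import Pool.Agent.H298.Core.Four
import Pool.Agent.H298.Core.Crit

/-!
# CM types of fields with small cores are not degenerate
-/

set_option autoImplicit false
set_option linter.unusedSectionVars false
set_option linter.unusedVariables false

namespace Pool.Agent.H298.Core

open NumberField Module MulAction Finset Pool.Agent.H204R3.CM Pool.Agent.H977R3.CM
  Pool.Agent.TH170.CM Pool.Agent.Q29.OS Pool.Agent.Q29.DP

attribute [local instance] actC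

section

variable {E : Type} [Field E] [NumberField E] [IsCMField E] {Φ : Set (E →+* ℂ)}

theorem weights_one (Φ : Set (E →+* ℂ)) : weights 1 Φ = sgn Φ := by
  funext φ
  unfold weights
  rw [Pi.one_apply, mul_one]

/-- A type without relations is not degenerate. -/
theorem not_degenerate_of_noRel (h : NoRelations 1 Φ) : ¬ Degenerate Φ := by
  rintro ⟨b, hb0, hb, hrel⟩
  refine hb0 (h b hb fun σ => ?_)
  simpa using hrel σ

theorem noRelations_iff_not_degenerate : NoRelations 1 Φ ↔ ¬ Degenerate Φ := by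
  refine ⟨not_degenerate_of_noRel, fun h b hb hrel => ?_⟩
  by_contra hb0
  exact h ⟨b, hb0, hb, fun σ => by simpa using hrel σ⟩

/-- A core with four pairs. -/
theorem noRelations_of_four (hΦ : IsCMType Φ) (hc : HasCore E 4) (h1 : ¬ Induced (sgn Φ))
    (h2 : ¬ Balanced 4 (sgn Φ)) : NoRelations 1 Φ := by
  obtain ⟨n, φ, hcard⟩ := hc
  rw [coreOf_eq] at hcard
  refine noRelations_of fun r hr => ?_
  by_contra hr0
  rw [weights_one] at hr
  rcases four_core conj_conj conj_ne smul_conj (fun φ => sgn_conj' hΦ φ)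
    (fun φ => sgn_sq Φ φ) n φ hcard hr hr0 with ⟨y₁, y₂, hne, h⟩ | ⟨O, hx, hO4, hO, hb, hs⟩
  · exact h1 (induced_of_pair hne h)
  · exact h2 (balanced_of_block O hx hO4 hO hb hs)

theorem noRelations_of_small (hΦ : IsCMType Φ) {c : ℕ} (hc : SmallOrPrimitive E c)
    (h1 : ¬ Induced (sgn Φ)) (h2 : c = 2 ∨ ¬ Balanced c (sgn Φ)) : NoRelations 1 Φ := by
  rcases hc with hc | ⟨rfl, hc⟩
  · exact noRelations_of_primitive (fun _ => rfl) hΦ hc (by rwa [weights_one])
      (by rwa [weights_one])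
  · exact noRelations_of_four hΦ hc h1 (h2.resolve_left (by norm_num))

theorem noRelations_of_coreType (h : CoreType Φ) : NoRelations 1 Φ := by
  obtain ⟨hΦ, h⟩ := h
  have hodd : ∀ φ : E →+* ℂ, Odd ((1 : (E →+* ℂ) → ℤ) φ) := fun _ => odd_one
  rcases h with h | h | ⟨h1, h | ⟨c, hc, h⟩⟩ | h | h
  · exact noRelations_of_smallCore (fun _ => rfl) (fun _ => one_ne_zero) hΦ (Or.inl (Or.inl h))
  · exact noRelations_of_smallCore (fun _ => rfl) (fun _ => one_ne_zero) hΦ
      (Or.inl (Or.inr (Or.inl h)))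
  · exact noRelations_of_smallCore (fun _ => rfl) (fun _ => one_ne_zero) hΦ
      (Or.inl (Or.inr (Or.inr ⟨by rwa [weights_one], Or.inr ⟨h, Or.inl hodd⟩⟩)))
  · refine noRelations_of_small hΦ hc h1 ?_
    rcases h with h | h | h
    · exact Or.inl h
    · right
      have h2 := not_balanced_of_odd (Φ := Φ) hodd h
      rwa [weights_one] at h2
    · exact Or.inr h
  · exact noRelations_of_smallCore (fun _ => rfl) (fun _ => one_ne_zero) hΦ (Or.inr (Or.inl h))
  · exact noRelations_of_smallCore (fun _ => rfl) (fun _ => one_ne_zero) hΦ (Or.inr (Or.inr h))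

/-- **CM types of fields with small cores are not degenerate.** -/
theorem not_degenerate_core (h : CoreType Φ) : ¬ Degenerate Φ :=
  not_degenerate_of_noRel (noRelations_of_coreType h)

/-- **The degenerate CM types of fields with small cores.** -/
theorem degenerate_iff_core (hΦ : IsCMType Φ) {c : ℕ} (hc : SmallOrPrimitive E c) :
    Degenerate Φ ↔ Induced (sgn Φ) ∨ Balanced c (sgn Φ) := by
  rw [← not_iff_not, ← noRelations_iff_not_degenerate, not_or]
  constructor
  · intro h
    have h1 := not_induced_of_noRelations h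
    have h2 := not_balanced_of_noRelations h c
    rw [weights_one] at h1 h2
    exact ⟨h1, h2⟩
  · rintro ⟨h1, h2⟩
    exact noRelations_of_small hΦ hc h1 (Or.inr h2)

theorem degenerate_of (h : Induced (sgn Φ) ∨ ∃ c, Balanced c (sgn Φ)) : Degenerate Φ := by
  by_contra h0
  rw [← noRelations_iff_not_degenerate] at h0
  rcases h with h | ⟨c, h⟩
  · have h1 := not_induced_of_noRelations h0
    rw [weights_one] at h1
    exact h1 h
  · have h1 := not_balanced_of_noRelations h0 c
    rw [weights_one] at h1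
    exact h1 h

/-- **Fields with few divisors.** -/
theorem degenerate_iff_few (hΦ : IsCMType Φ) (h : FewDivisors E) :
    Degenerate Φ ↔ Induced (sgn Φ) := by
  refine ⟨fun h1 => ?_, fun h1 => degenerate_of (Or.inl h1)⟩
  by_contra h2
  exact not_degenerate_core ⟨hΦ, Or.inr (Or.inr (Or.inl ⟨h2, Or.inl h⟩))⟩ h1

/-- **Fields with a large Galois closure.** -/
theorem degenerate_iff_six (hΦ : IsCMType Φ) (h : LargeClosure E 6) :
    Degenerate Φ ↔ Induced (sgn Φ) ∨ Balanced 4 (sgn Φ) := by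
  refine ⟨fun h1 => ?_, fun h1 => degenerate_of (h1.imp_right fun h2 => ⟨4, h2⟩)⟩
  by_contra h2
  rw [not_or] at h2
  obtain ⟨c, hc, hc1, hc2⟩ := core_of_largeClosure h
  refine not_degenerate_core ⟨hΦ, ?_⟩ h1
  interval_cases c
  · exact Or.inl hc
  · exact Or.inr (Or.inr (Or.inl ⟨h2.1, Or.inr ⟨2, Or.inl ⟨hc, Or.inl Nat.prime_two⟩, Or.inl rfl⟩⟩))
  · exact Or.inr (Or.inr (Or.inl ⟨h2.1, Or.inr ⟨3, Or.inl ⟨hc, Or.inl Nat.prime_three⟩,
      Or.inr (Or.inl (by decide))⟩⟩))
  · exact Or.inr (Or.inr (Or.inl ⟨h2.1, Or.inr ⟨4, Or.inr ⟨rfl, hc⟩, Or.inr (Or.inr h2.2)⟩⟩))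
  · exact Or.inr (Or.inr (Or.inl ⟨h2.1, Or.inr ⟨5, Or.inl ⟨hc, Or.inl Nat.prime_five⟩,
      Or.inr (Or.inl (by decide))⟩⟩))

/-- **Fields whose maximal real subfield has a triply transitive Galois group.** -/
theorem degenerate_iff_triply (hΦ : IsCMType Φ) (h6 : 6 ≤ finrank ℚ E)
    (h : TriplyTransitive (maximalRealSubfield E)) :
    Degenerate Φ ↔ Induced (sgn Φ) ∨ Balanced (finrank ℚ E / 2) (sgn Φ) := by
  refine ⟨fun h1 => ?_, fun h1 => degenerate_of (h1.imp_right fun h2 => ⟨_, h2⟩)⟩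
  by_contra h2
  rw [not_or] at h2
  refine not_degenerate_core ⟨hΦ, ?_⟩ h1
  rcases triply_field h6 h with h3 | ⟨F, h3, h4, h5⟩
  · exact Or.inr (Or.inl h3)
  · refine Or.inr (Or.inr (Or.inl ⟨h2.1, Or.inr ⟨finrank F E, Or.inl ⟨hasCore_top h3.symm,
      Or.inr ⟨F, rfl, h4, h5⟩⟩, Or.inr (Or.inr ?_)⟩⟩))
    have h7 : finrank ℚ E / 2 = finrank F E := by omega
    rw [← h7]
    exact h2.2

end

end Pool.Agent.H298.Core
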