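import Mathlib

/-!
# Doubly transitive fields and the degrees of two-graphs
-/

set_option autoImplicit false

namespace Pool.Agent.H298.Core

/-- The automorphisms of the complex numbers act doubly transitively on the embeddings of `F`: the
Galois group of the Galois closure of `F` is a doubly transitive permutation group. -/
def TwiceTransitive (F : Type) [Field F] : Prop :=
  ∀ φ ψ : Fin 2 → (F →+* ℂ), Function.Injective φ → Function.Injective ψ →
    ∃ σ : ℂ ≃+* ℂ, ∀ i, (σ : ℂ →+* ℂ).comp (φ i) = ψ i

/-- The number `g` is one of `10, 16, 26, 28, 36, …`: it is even, and `g - 1 = r s` with `1 < r`,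
`1 < s`, such that `r + s` divides `g s`. These are the conditions on the eigenvalues of a regular
two-graph with `g` vertices. -/
def TwoGraphDegree (g : ℕ) : Prop :=
  Even g ∧ ∃ r s : ℕ, 1 < r ∧ 1 < s ∧ r * s + 1 = g ∧ (r + s) ∣ g * s

end Pool.Agent.H298.Core
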