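import Mathlib
import Pool.Agent.H298.Core.WeilDefs
import Pool.Agent.H298.Core.TwoGraph

/-!
# CM fields whose maximal real subfield has a doubly transitive Galois group
-/

set_option autoImplicit false

namespace Pool.Agent.H298.Core

open NumberField Module Pool.Agent.Y156.P

/-- Let `K` be a CM field, `[K : ℚ] = 2 g`, such that the Galois group of the maximal real subfield
is doubly transitive and `g` is none of the numbers `10, 16, 26, 28, 36, …` (`TwoGraphDegree`; this
is so if `g` is odd or `g - 1` is a prime number). Then the odd part of `K` is irreducible, or `K`
contains an imaginary quadratic field `F`, over which it has doubly transitive extensions. All Weil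
numbers `π` for `p ^ a` all powers of which generate `K` satisfy `IsCoreWeil`, if no norm of `π` to an
imaginary quadratic field is supersingular. -/
def DoublyCriteria : Prop :=
  (∀ g : ℕ, Odd g ∨ (g - 1).Prime → ¬ TwoGraphDegree g) ∧
  ∀ (K : Type) [Field K] [NumberField K] [IsCMField K],
    TwiceTransitive (maximalRealSubfield K) → ¬ TwoGraphDegree (finrank ℚ K / 2) →
    (OddIrreducible K ∨ ∃ F : IntermediateField ℚ K,
      2 * finrank F K = finrank ℚ K ∧ ¬ IsTotallyReal F ∧ DoublyTransitive F) ∧
    ∀ (p : ℕ) [Fact p.Prime] (a : ℕ) (π : K), IsSimpleWeil p a π →
      (∀ F : IntermediateField ℚ K, 2 * finrank F K = finrank ℚ K → ¬ IsTotallyReal F →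
        ¬ SupersingularNorm p a π F) → IsCoreWeil p a π

/-- The criteria for `IsCoreWeil`, for the independence of the fields, and the facts about cores and
norms (`CoreCriteria`), and the case of a doubly transitive maximal real subfield
(`DoublyCriteria`). -/
def AllCriteria : Prop := CoreCriteria ∧ DoublyCriteria

end Pool.Agent.H298.Core
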