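import Mathlib

/-!
# Reproducing kernels of invariant spaces of odd functions
-/

set_option autoImplicit false
set_option linter.unusedSectionVars false
set_option linter.unusedVariables false

namespace Pool.Agent.H298.Core

open MulAction Finset

namespace TG

section kernel

variable {Y : Type*} [Fintype Y] [DecidableEq Y]

/-- The scalar product. -/
def dotY (Y : Type*) [Fintype Y] : LinearMap.BilinForm ℚ (Y → ℚ) :=
  LinearMap.mk₂ ℚ (fun c d => ∑ x, c x * d x)
    (fun c c' d => by simp only [Pi.add_apply, add_mul, Finset.sum_add_distrib])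
    (fun r c d => by simp only [Pi.smul_apply, smul_eq_mul, mul_assoc, Finset.mul_sum])
    (fun c d d' => by simp only [Pi.add_apply, mul_add, Finset.sum_add_distrib])
    (fun r c d => by
      simp only [Pi.smul_apply, smul_eq_mul, Finset.mul_sum]
      exact Finset.sum_congr rfl fun x _ => by ring)

theorem dotY_apply (c d : Y → ℚ) : dotY Y c d = ∑ x, c x * d x := rfl

theorem dotY_self {c : Y → ℚ} (h : ∑ x, c x * c x = 0) : c = 0 := by
  rw [Finset.sum_eq_zero_iff_of_nonneg fun x _ => mul_self_nonneg _] at h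
  funext x
  exact mul_self_eq_zero.1 (h x (Finset.mem_univ x))

/-- The reproducing kernel. -/
theorem exists_kernel (V : Submodule ℚ (Y → ℚ)) : ∃ K : Y → Y → ℚ, (∀ x, K x ∈ V) ∧
    ∀ x, ∀ f ∈ V, ∑ y, f y * K x y = f x := by
  have hsymm : ∀ c d, dotY Y c d = dotY Y d c := fun c d => by
    rw [dotY_apply, dotY_apply]
    exact Finset.sum_congr rfl fun x _ => mul_comm _ _
  have hrefl : (dotY Y).IsRefl := fun c d h => by rw [hsymm]; exact h
  have hdis : Disjoint V ((dotY Y).orthogonal V) := by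
    rw [Submodule.disjoint_def]
    intro c hc hc'
    exact dotY_self (hc' c hc)
  have hcompl := (LinearMap.BilinForm.isCompl_orthogonal_iff_disjoint hrefl).2 hdis
  have h : ∀ x : Y, ∃ v ∈ V, ∀ f ∈ V, ∑ y, f y * v y = f x := by
    intro x
    have h1 : (Pi.single x 1 : Y → ℚ) ∈ V ⊔ (dotY Y).orthogonal V := by
      rw [hcompl.sup_eq_top]
      trivial
    obtain ⟨v, hv, w, hw, hvw⟩ := Submodule.mem_sup.1 h1
    refine ⟨v, hv, fun f hf => ?_⟩
    have h2 : ∑ y, f y * w y = 0 := hw f hf
    have h3 : ∑ y, f y * (v + w) y = f x := by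
      rw [hvw]
      rw [Finset.sum_eq_single x]
      · rw [Pi.single_eq_same, mul_one]
      · intro y _ hy
        rw [Pi.single_eq_of_ne hy, mul_zero]
      · intro h
        exact absurd (Finset.mem_univ x) h
    simp only [Pi.add_apply, mul_add, Finset.sum_add_distrib, h2, add_zero] at h3
    exact h3
  choose K hK1 hK2 using h
  exact ⟨K, hK1, hK2⟩

variable {V : Submodule ℚ (Y → ℚ)} {K : Y → Y → ℚ} (hK1 : ∀ x, K x ∈ V)
  (hK2 : ∀ x, ∀ f ∈ V, ∑ y, f y * K x y = f x)

include hK1 hK2

theorem K_symm (x y : Y) : K x y = K y x := by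
  rw [← hK2 y (K x) (hK1 x), ← hK2 x (K y) (hK1 y)]
  exact Finset.sum_congr rfl fun z _ => mul_comm _ _

theorem K_unique {x : Y} {u : Y → ℚ} (hu : u ∈ V) (h : ∀ f ∈ V, ∑ y, f y * u y = f x) :
    u = K x := by
  have h1 : u - K x ∈ V := V.sub_mem hu (hK1 x)
  have h2 : ∑ y, (u - K x) y * (u - K x) y = 0 := by
    have h3 := h _ h1
    have h4 := hK2 x _ h1
    have h5 : ∑ y, (u - K x) y * (u - K x) y =
        (∑ y, (u - K x) y * u y) - ∑ y, (u - K x) y * K x y := by
      rw [← Finset.sum_sub_distrib]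
      exact Finset.sum_congr rfl fun y _ => by simp only [Pi.sub_apply]; ring
    rw [h5, h3, h4, sub_self]
  exact sub_eq_zero.1 (dotY_self h2)

theorem K_mul (x z : Y) : ∑ y, K x y * K y z = K x z := by
  rw [← hK2 z (K x) (hK1 x)]
  exact Finset.sum_congr rfl fun y _ => by rw [K_symm hK1 hK2 y z]

theorem K_trace : ((Module.finrank ℚ V : ℕ) : ℚ) = ∑ x, K x x := by
  let P : (Y → ℚ) →ₗ[ℚ] (Y → ℚ) := Matrix.toLin' (Matrix.of K)
  have hP : ∀ f x, P f x = ∑ y, K x y * f y := fun f x => by
    simp only [P, Matrix.toLin'_apply, Matrix.mulVec, dotProduct, Matrix.of_apply]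
  have hproj : LinearMap.IsProj V P := by
    refine ⟨fun f => ?_, fun f hf => ?_⟩
    · have h1 : P f = ∑ y, f y • K y := by
        funext x
        rw [hP, Finset.sum_apply]
        refine Finset.sum_congr rfl fun y _ => ?_
        rw [Pi.smul_apply, smul_eq_mul, K_symm hK1 hK2 x y, mul_comm]
      rw [h1]
      exact V.sum_mem fun y _ => V.smul_mem _ (hK1 y)
    · funext x
      rw [hP, ← hK2 x f hf]
      exact Finset.sum_congr rfl fun y _ => mul_comm _ _
  rw [← hproj.trace, Matrix.trace_toLin'_eq]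
  rfl

theorem K_smul {G : Type*} [Group G] [MulAction G Y]
    (hst : ∀ (g : G), ∀ f ∈ V, (fun y => f (g • y)) ∈ V) (g : G) (x y : Y) :
    K (g • x) (g • y) = K x y := by
  have h1 : (fun y => K (g • x) (g • y)) = K x := by
    refine K_unique hK1 hK2 (hst g _ (hK1 _)) fun f hf => ?_
    have h2 := hK2 (g • x) (fun y => f (g⁻¹ • y)) (hst g⁻¹ f hf)
    simp only [inv_smul_smul] at h2
    rw [← h2]
    refine Fintype.sum_equiv (MulAction.toPerm g) _ _ fun y => ?_
    simp only [MulAction.toPerm_apply, inv_smul_smul]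
  exact congrFun h1 y

end kernel

section half

variable {Y : Type*} [Fintype Y] [DecidableEq Y] {inv : Y → Y}

/-- One element of each pair. -/
theorem exists_half (hinv : ∀ y, inv (inv y) = y) (hne : ∀ y, inv y ≠ y) :
    ∃ H : Finset Y, ∀ y, y ∈ H ↔ inv y ∉ H := by
  classical
  let e := Fintype.equivFin Y
  refine ⟨Finset.univ.filter fun y => e y < e (inv y), fun y => ?_⟩
  simp only [Finset.mem_filter, Finset.mem_univ, true_and, hinv, not_lt]
  constructor
  · exact le_of_lt
  · intro h
    exact lt_of_le_of_ne h fun h1 => hne y (e.injective h1).symm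

theorem sum_half (hinv : ∀ y, inv (inv y) = y) {H : Finset Y} (hH : ∀ y, y ∈ H ↔ inv y ∉ H)
    {M : Type*} [AddCommMonoid M] (φ : Y → M) (hφ : ∀ y, φ (inv y) = φ y) :
    ∑ y, φ y = (∑ y ∈ H, φ y) + ∑ y ∈ H, φ y := by
  classical
  rw [← Finset.sum_add_sum_compl H]
  congr 1
  refine Finset.sum_bij' (fun y _ => inv y) (fun y _ => inv y) ?_ ?_ ?_ ?_ ?_
  · intro y hy
    rw [Finset.mem_compl, hH, not_not] at hy
    exact hy
  · intro y hy
    rw [Finset.mem_compl]
    exact (hH y).1 hy
  · intro y _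
    exact hinv y
  · intro y _
    exact hinv y
  · intro y _
    exact (hφ y).symm

end half

end TG

end Pool.Agent.H298.Core
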