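import Mathlib
import Pool.Agent.H298.Core.Graph1
import Pool.Agent.H298.Core.ThreeTrans

/-!
# Doubly transitive actions on the pairs: the eigenvalues of the two-graph
-/

set_option autoImplicit false
set_option linter.unusedSectionVars false
set_option linter.unusedVariables false

namespace Pool.Agent.H298.Core

open MulAction Finset

namespace TG

/-- The arithmetic of the eigenvalues. -/
theorem eigenvalues {κ β : ℚ} {g n : ℤ} (h1 : 2 * κ ^ 2 + (2 * g - 2) * β ^ 2 = κ)
    (h2 : 4 * κ + 2 * n * β = 1) :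
    ∃ r s : ℤ, r * s = g - 1 ∧ r - s = n ∧ ((r : ℚ) + s) * (2 * β) = 1 ∧
      2 * κ * ((r : ℚ) + s) = s := by
  have hκ : κ = (1 - 2 * n * β) / 4 := by linarith
  have h3 : (2 * β) ^ 2 * ((n : ℚ) ^ 2 + 4 * (g - 1)) = 1 := by
    rw [hκ] at h1
    linear_combination 8 * h1
  have hβ : β ≠ 0 := by
    rintro rfl
    norm_num at h3
  have hb : (2 * β : ℚ) ≠ 0 := mul_ne_zero two_ne_zero hβ
  have h4 : IsSquare (((n ^ 2 + 4 * (g - 1) : ℤ)) : ℚ) := by
    refine ⟨1 / (2 * β), ?_⟩
    push_cast
    field_simp
    linear_combination h3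
  rw [Rat.isSquare_intCast_iff] at h4
  obtain ⟨t, ht⟩ := h4
  have h5 : (1 / (2 * β) : ℚ) = t ∨ (1 / (2 * β) : ℚ) = -t := by
    apply sq_eq_sq_iff_eq_or_eq_neg.1
    have h6 : ((t : ℚ)) ^ 2 = (n : ℚ) ^ 2 + 4 * (g - 1) := by
      have h7 : (((n ^ 2 + 4 * (g - 1) : ℤ)) : ℚ) = ((t * t : ℤ) : ℚ) := by rw [ht]
      push_cast at h7
      linear_combination -h7
    rw [h6]
    field_simp
    linear_combination -h3
  obtain ⟨m, hm, hm2⟩ : ∃ m : ℤ, (m : ℚ) * (2 * β) = 1 ∧ m ^ 2 = n ^ 2 + 4 * (g - 1) := by
    rcases h5 with h5 | h5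
    · refine ⟨t, ?_, by rw [ht]; ring⟩
      rw [← h5]
      field_simp
    · refine ⟨-t, ?_, by rw [ht]; ring⟩
      push_cast
      rw [← h5]
      field_simp
  have hpar : Even (m + n) := by
    by_contra hodd
    rw [Int.not_even_iff_odd] at hodd
    have h6 : Odd (m - n) := by
      have h7 : m - n = (m + n) - 2 * n := by ring
      rw [h7]
      exact hodd.sub_even (even_two_mul n)
    have h8 : Odd ((m + n) * (m - n)) := hodd.mul h6
    have h9 : (m + n) * (m - n) = 2 * (2 * (g - 1)) := by linear_combination hm2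
    rw [h9] at h8
    exact (Int.not_even_iff_odd.2 h8) (even_two_mul _)
  obtain ⟨r, hr⟩ := hpar
  have hs : m - n = 2 * (m - r) := by linarith
  refine ⟨r, m - r, ?_, by linarith, ?_, ?_⟩
  · have hn : n = 2 * r - m := by linarith
    rw [hn] at hm2
    nlinarith
  · have h6 : ((r : ℚ)) + ((m - r : ℤ) : ℚ) = m := by push_cast; ring
    rw [h6]
    exact hm
  · have h6 : ((r : ℚ)) + ((m - r : ℤ) : ℚ) = m := by push_cast; ring
    rw [h6, hκ]
    have hn : (n : ℚ) = 2 * r - m := by
      have h7 : n = 2 * r - m := by linarith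
      rw [h7]
      push_cast
      ring
    rw [hn]
    push_cast
    linear_combination (-(2 * (r : ℚ) - m) / 2) * hm

variable {Y : Type*} [Fintype Y] [DecidableEq Y] {inv : Y → Y}
  (hinv : ∀ y, inv (inv y) = y) (hne : ∀ y, inv y ≠ y)

include hinv hne in
theorem sum_np {M : Type*} [AddCommMonoid M] (φ : Y → M) (x : Y) [DecidablePred (TT.NP inv x)] :
    ∑ y, φ y = φ x + φ (inv x) + ∑ y with TT.NP inv x y, φ y := by
  classical
  have h1 : (Finset.univ.filter fun y => ¬ TT.NP inv x y) = {x, inv x} := by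
    ext y
    simp only [Finset.mem_filter, Finset.mem_univ, true_and, Finset.mem_insert,
      Finset.mem_singleton, TT.NP, not_and_or, not_not]
    constructor
    · rintro (h | h)
      · exact Or.inl h.symm
      · exact Or.inr (by rw [h, hinv])
    · rintro (h | h)
      · exact Or.inl h.symm
      · exact Or.inr (by rw [h, hinv])
  rw [← Finset.sum_filter_add_sum_filter_not Finset.univ (fun y => TT.NP inv x y) φ, h1,
    Finset.sum_pair (hne x).symm, add_comm]

include hinv in
theorem np_inv_iff {x y : Y} : TT.NP inv x (inv y) ↔ TT.NP inv x y := by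
  constructor
  · intro h
    have h1 := TT.NP.inv_right hinv h
    rwa [hinv] at h1
  · exact TT.NP.inv_right hinv

/-- The sum over one element of each pair. -/
theorem sum_half_filter {H : Finset Y} (hinv : ∀ y, inv (inv y) = y)
    (hH : ∀ y, y ∈ H ↔ inv y ∉ H) {M : Type*} [AddCommMonoid M] (P : Y → Prop) [DecidablePred P]
    (hP : ∀ y, P (inv y) ↔ P y) (φ : Y → M) (hφ : ∀ y, φ (inv y) = φ y) :
    ∑ y with P y, φ y = (∑ y ∈ H with P y, φ y) + ∑ y ∈ H with P y, φ y := by
  rw [Finset.sum_filter, Finset.sum_filter]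
  exact sum_half hinv hH (fun y => if P y then φ y else 0) fun y => by
    simp only [hP, hφ]

section cards

variable {H : Finset Y} (hH : ∀ y, y ∈ H ↔ inv y ∉ H)

include hinv hne hH

theorem card_univ' : Fintype.card Y = 2 * H.card := by
  have h := sum_half hinv hH (fun _ : Y => 1) fun _ => rfl
  simp only [Finset.sum_const, smul_eq_mul, mul_one, Finset.card_univ] at h
  omega

theorem card_np (x : Y) [DecidablePred (TT.NP inv x)] :
    (H.filter (TT.NP inv x)).card + 1 = H.card := by
  have h1 := sum_np hinv hne (fun _ : Y => 1) x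
  have h2 := sum_half_filter hinv hH (TT.NP inv x) (fun y => np_inv_iff hinv) (fun _ : Y => 1)
    fun _ => rfl
  rw [h2] at h1
  have h3 := card_univ' hinv hne hH
  rw [← Finset.card_eq_sum_ones, ← Finset.card_eq_sum_ones, Finset.card_univ] at h1
  change (H.filter fun y => TT.NP inv x y).card + 1 = H.card
  omega

theorem card_np2 {x z : Y} (hxz : TT.NP inv x z) [DecidablePred (TT.NP inv x)]
    [DecidablePred (TT.NP inv z)] :
    (H.filter fun y => TT.NP inv x y ∧ TT.NP inv z y).card + 2 = H.card := by
  have h1 := card_np hinv hne hH x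
  have h2 : (H.filter (TT.NP inv x)).card =
      (H.filter fun y => TT.NP inv x y ∧ TT.NP inv z y).card + 1 := by
    rw [← Finset.card_filter_add_card_filter_not (s := H.filter (TT.NP inv x)) (TT.NP inv z)]
    rw [Finset.filter_filter, Finset.filter_filter]
    congr 1
    rw [Finset.card_eq_one]
    by_cases hz : z ∈ H
    · refine ⟨z, ?_⟩
      ext y
      simp only [Finset.mem_filter, Finset.mem_singleton, TT.NP, not_and_or, not_not]
      constructor
      · rintro ⟨h3, -, h4 | h4⟩
        · exact h4.symm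
        · rw [h4] at hz
          exact absurd hz ((hH y).1 h3)
      · rintro rfl
        exact ⟨hz, hxz, Or.inl rfl⟩
    · have hz' : inv z ∈ H := by
        by_contra h
        exact hz ((hH z).2 h)
      refine ⟨inv z, ?_⟩
      ext y
      simp only [Finset.mem_filter, Finset.mem_singleton, TT.NP, not_and_or, not_not]
      constructor
      · rintro ⟨h3, -, h4 | h4⟩
        · rw [h4] at hz
          exact absurd h3 hz
        · rw [h4, hinv]
      · rintro rfl
        exact ⟨hz', TT.NP.inv_right hinv hxz, Or.inr (hinv z).symm⟩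
  omega

end cards

/-- The sum of signs has the parity of their number. -/
theorem parity_sum (s : Finset Y) (ε : Y → ℤ) (hε : ∀ y ∈ s, ε y = 1 ∨ ε y = -1) :
    Even (∑ y ∈ s, ε y - s.card) := by
  classical
  induction s using Finset.induction_on with
  | empty => simp
  | insert a s ha ih =>
    have h1 := ih fun y hy => hε y (Finset.mem_insert_of_mem hy)
    rw [Finset.sum_insert ha, Finset.card_insert_of_notMem ha]
    have h2 : Even (ε a - 1) := by
      rcases hε a (Finset.mem_insert_self a s) with h | h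
      · rw [h]; simp
      · rw [h]; exact ⟨-1, by norm_num⟩
    have h3 : ε a + ∑ y ∈ s, ε y - ((s.card + 1 : ℕ) : ℤ) = (ε a - 1) +
        (∑ y ∈ s, ε y - s.card) := by push_cast; ring
    rw [h3]
    exact h2.add h1

end TG

end Pool.Agent.H298.Core
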