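import Mathlib
import Pool.Agent.H298.Core.Graph2

/-!
# Doubly transitive actions on the pairs: irreducibility, an invariant half, or a two-graph
-/

set_option autoImplicit false
set_option linter.unusedSectionVars false
set_option linter.unusedVariables false

namespace Pool.Agent.H298.Core

open MulAction Finset

namespace TG

open Classical in
/-- The sign of the kernel. -/
noncomputable def sg {Y : Type*} (K : Y → Y → ℚ) (β : ℚ) (x y : Y) : ℤ :=
  if K x y = β then 1 else -1

theorem sg_or {Y : Type*} (K : Y → Y → ℚ) (β : ℚ) (x y : Y) : sg K β x y = 1 ∨ sg K β x y = -1 := by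
  unfold sg
  split_ifs
  · exact Or.inl rfl
  · exact Or.inr rfl

variable {G : Type*} [Group G] {Y : Type*} [MulAction G Y] [Fintype Y] [DecidableEq Y]
  {inv : Y → Y} (hinv : ∀ y, inv (inv y) = y) (hne : ∀ y, inv y ≠ y)
  (hG : ∀ (g : G) (y : Y), g • inv y = inv (g • y)) (htr : ∀ x y : Y, ∃ g : G, g • x = y)
  (h2 : ∀ a b a' b' : Y, TT.NP inv a b → TT.NP inv a' b' →
    ∃ g : G, (g • a = a' ∨ g • a = inv a') ∧ (g • b = b' ∨ g • b = inv b'))
  {V : Submodule ℚ (Y → ℚ)} (hst : ∀ (g : G), ∀ f ∈ V, (fun y => f (g • y)) ∈ V)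
  (hodd : ∀ f ∈ V, ∀ y, f (inv y) = - f y)
  {K : Y → Y → ℚ} (hK1 : ∀ x, K x ∈ V) (hK2 : ∀ x, ∀ f ∈ V, ∑ y, f y * K x y = f x)

include hK1 hodd in
theorem K_right (x y : Y) : K x (inv y) = - K x y := hodd _ (hK1 x) y

include hK1 hK2 hodd in
theorem K_left (x y : Y) : K (inv x) y = - K x y := by
  rw [K_symm hK1 hK2, K_right hodd hK1, K_symm hK1 hK2]

include htr hst hK1 hK2 in
theorem K_diag (x y : Y) : K x x = K y y := by
  obtain ⟨g, rfl⟩ := htr x y
  exact (K_smul hK1 hK2 hst g x x).symm

include hG h2 hst hK1 hK2 hodd in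
theorem K_np {a b a' b' : Y} (h : TT.NP inv a b) (h' : TT.NP inv a' b') :
    K a' b' = K a b ∨ K a' b' = - K a b := by
  obtain ⟨g, h3, h4⟩ := h2 a b a' b' h h'
  have h5 := K_smul hK1 hK2 hst g a b
  rcases h3 with h3 | h3 <;> rcases h4 with h4 | h4 <;> rw [h3, h4] at h5
  · exact Or.inl h5
  · rw [K_right hodd hK1] at h5
    exact Or.inr (by linarith)
  · rw [K_left hodd hK1 hK2] at h5
    exact Or.inr (by linarith)
  · rw [K_left hodd hK1 hK2, K_right hodd hK1, neg_neg] at h5
    exact Or.inl h5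

section beta

variable {β : ℚ} (hβ : β ≠ 0) (hval : ∀ x y, TT.NP inv x y → K x y = β ∨ K x y = -β)

include hval in
theorem K_eq {x y : Y} (h : TT.NP inv x y) : K x y = β * sg K β x y := by
  unfold sg
  split_ifs with h1
  · rw [h1]; simp
  · rw [(hval x y h).resolve_left h1]; simp

include hβ hval hinv hodd hK1 in
theorem sg_right {x y : Y} (h : TT.NP inv x y) : sg K β x (inv y) = - sg K β x y := by
  have h1 := K_eq hval h
  have h3 := K_eq hval (TT.NP.inv_right hinv h)
  rw [K_right hodd hK1, h1] at h3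
  have h4 : ((sg K β x (inv y) : ℤ) : ℚ) = ((- sg K β x y : ℤ) : ℚ) := by
    push_cast
    have h5 : β * ((sg K β x (inv y) : ℤ) : ℚ) = β * (- (sg K β x y : ℚ)) := by linarith
    exact mul_left_cancel₀ hβ h5
  exact_mod_cast h4

include hK1 hK2 in
theorem sg_symm (x y : Y) : sg K β x y = sg K β y x := by
  unfold sg
  rw [K_symm hK1 hK2]

end beta

/-- The sum of a function with signs over one element of each pair. -/
noncomputable def SS (K : Y → Y → ℚ) (β : ℚ) (inv : Y → Y) (H : Finset Y) (f : Y → ℚ) (x : Y) : ℚ :=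
  by classical exact ∑ y ∈ H with TT.NP inv x y, (sg K β x y : ℚ) * f y

open Classical in
theorem SS_def (K : Y → Y → ℚ) (β : ℚ) (inv : Y → Y) (H : Finset Y) (f : Y → ℚ) (x : Y) :
    SS K β inv H f x = ∑ y ∈ H with TT.NP inv x y, (sg K β x y : ℚ) * f y := by
  unfold SS
  congr

variable {H : Finset Y} (hH : ∀ y, y ∈ H ↔ inv y ∉ H)

include hinv hne hodd hK1 hK2 hH in
/-- The sum of the values of an odd function against the kernel. -/
theorem sum_K {β : ℚ} (hβ : β ≠ 0) (hval : ∀ x y, TT.NP inv x y → K x y = β ∨ K x y = -β)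
    {f : Y → ℚ} (hf : ∀ y, f (inv y) = - f y) (x : Y) :
    ∑ y, K x y * f y = 2 * K x x * f x + 2 * β * SS K β inv H f x := by
  classical
  rw [sum_np hinv hne (fun y => K x y * f y) x]
  have h1 : ∑ y with TT.NP inv x y, K x y * f y =
      β * ∑ y with TT.NP inv x y, (sg K β x y : ℚ) * f y := by
    rw [Finset.mul_sum]
    refine Finset.sum_congr rfl fun y hy => ?_
    rw [K_eq hval (Finset.mem_filter.1 hy).2]
    ring
  have h3 : ∑ y with TT.NP inv x y, (sg K β x y : ℚ) * f y = 2 * SS K β inv H f x := by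
    have h4 : ∀ φ : Y → ℚ, (∀ y, TT.NP inv x y → φ (inv y) = φ y) →
        ∑ y with TT.NP inv x y, φ y = (∑ y ∈ H with TT.NP inv x y, φ y) +
          ∑ y ∈ H with TT.NP inv x y, φ y := by
      intro φ hφ
      have h5 := sum_half hinv hH (fun y => if TT.NP inv x y then φ y else 0) fun y => by
        by_cases h6 : TT.NP inv x y
        · have h7 : TT.NP inv x (inv y) := TT.NP.inv_right hinv h6
          simp only [if_pos h6, if_pos h7, hφ y h6]
        · have h7 : ¬ TT.NP inv x (inv y) := fun h8 => h6 ((np_inv_iff hinv).1 h8)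
          simp only [if_neg h6, if_neg h7]
      rw [Finset.sum_filter, Finset.sum_filter]
      exact h5
    rw [h4 _ fun y hy => ?_, SS_def]
    · ring
    · rw [sg_right hinv hodd hK1 hβ hval hy, hf]
      push_cast
      ring
  rw [h1, h3, K_right hodd hK1, hf]
  ring

include hinv hne hG htr h2 hst hodd hK1 hK2 hH in
/-- **The eigenvalues.** -/
theorem exists_rs {a₀ b₀ : Y} (h₀ : TT.NP inv a₀ b₀) (hβ : K a₀ b₀ ≠ 0) :
    ∃ r s : ℤ, r * s = (H.card : ℤ) - 1 ∧ Even (r - s - H.card) ∧
      ((Module.finrank ℚ V : ℕ) : ℤ) * (r + s) = H.card * s ∧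
      (∀ f ∈ V, ∀ x, SS K (K a₀ b₀) inv H f x = r * f x) ∧
      ∀ f : Y → ℚ, (∀ y, f (inv y) = - f y) → (∀ x, ∑ y, K x y * f y = 0) →
        ∀ x, SS K (K a₀ b₀) inv H f x = - s * f x := by
  classical
  set β := K a₀ b₀ with hβdef
  have hval : ∀ x y, TT.NP inv x y → K x y = β ∨ K x y = -β := fun x y h =>
    K_np hG h2 hst hodd hK1 hK2 h₀ h
  have hcard := card_univ' hinv hne hH
  set κ := K a₀ a₀ with hκ
  have hdiag : ∀ x, K x x = κ := fun x => K_diag htr hst hK1 hK2 x a₀
  -- the diagonal equation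
  have e1 : 2 * κ ^ 2 + (2 * ((H.card : ℤ) : ℚ) - 2) * β ^ 2 = κ := by
    have h3 := sum_K hinv hne hodd hK1 hK2 hH hβ hval (f := K a₀) (fun y => K_right hodd hK1 a₀ y) a₀
    have h4 : ∑ y, K a₀ y * K a₀ y = κ := hK2 a₀ _ (hK1 a₀)
    have h5 : SS K β inv H (K a₀) a₀ = β * ((H.card : ℚ) - 1) := by
      rw [SS_def]
      have h6 : ∀ y ∈ H.filter (TT.NP inv a₀), (sg K β a₀ y : ℚ) * K a₀ y = β := by
        intro y hy
        rw [K_eq hval (Finset.mem_filter.1 hy).2]
        rcases sg_or K β a₀ y with h7 | h7 <;> rw [h7] <;> push_cast <;> ring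
      rw [Finset.sum_congr rfl h6, Finset.sum_const, nsmul_eq_mul]
      have h7 := card_np hinv hne hH a₀
      have h8 : ((H.filter (TT.NP inv a₀)).card : ℚ) = H.card - 1 := by
        rw [← h7]; push_cast; ring
      rw [h8]
      ring
    rw [h4, h5] at h3
    push_cast
    rw [← hκ] at h3
    linear_combination -h3
  -- the other equation
  obtain ⟨n, hn, e2⟩ : ∃ n : ℤ, Even (n - H.card) ∧ 4 * κ + 2 * n * β = 1 := by
    let n : ℤ := ∑ y ∈ H.filter (fun y => TT.NP inv a₀ y ∧ TT.NP inv b₀ y),
      sg K β a₀ y * sg K β b₀ y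
    refine ⟨n, ?_, ?_⟩
    · have h3 := parity_sum (H.filter (fun y => TT.NP inv a₀ y ∧ TT.NP inv b₀ y))
        (fun y => sg K β a₀ y * sg K β b₀ y) fun y _ => by
          rcases sg_or K β a₀ y with h4 | h4 <;> rcases sg_or K β b₀ y with h5 | h5 <;>
            rw [h4, h5] <;> norm_num
      have h4 := card_np2 hinv hne hH h₀
      have h5 : n - H.card = (n - ((H.filter (fun y => TT.NP inv a₀ y ∧ TT.NP inv b₀ y)).card : ℤ))
          - 2 := by
        rw [← h4]
        push_cast
        ring
      rw [h5]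
      exact h3.sub even_two
    · have h3 := sum_K hinv hne hodd hK1 hK2 hH hβ hval (f := K b₀)
        (fun y => K_right hodd hK1 b₀ y) a₀
      have h4 : ∑ y, K a₀ y * K b₀ y = β := by
        rw [hK2 b₀ _ (hK1 a₀)]
      have h5 : SS K β inv H (K b₀) a₀ = κ + β * n := by
        rw [SS_def]
        have hsplit : ∑ y ∈ H with TT.NP inv a₀ y, (sg K β a₀ y : ℚ) * K b₀ y =
            (∑ y ∈ (H.filter (TT.NP inv a₀)).filter (TT.NP inv b₀),
              (sg K β a₀ y : ℚ) * K b₀ y) +
            ∑ y ∈ (H.filter (TT.NP inv a₀)).filter (fun y => ¬ TT.NP inv b₀ y),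
              (sg K β a₀ y : ℚ) * K b₀ y :=
          (Finset.sum_filter_add_sum_filter_not _ _ _).symm
        rw [hsplit]
        have h6 : ∑ y ∈ (H.filter (TT.NP inv a₀)).filter (TT.NP inv b₀),
            (sg K β a₀ y : ℚ) * K b₀ y = β * n := by
          rw [Finset.filter_filter]
          simp only [n]
          push_cast
          rw [Finset.mul_sum]
          refine Finset.sum_congr rfl fun y hy => ?_
          rw [K_eq hval (Finset.mem_filter.1 hy).2.2]
          ring
        have hsb : sg K β a₀ b₀ = 1 := by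
          unfold sg
          rw [if_pos rfl]
        have h7 : ∑ y ∈ (H.filter (TT.NP inv a₀)).filter (fun y => ¬ TT.NP inv b₀ y),
            (sg K β a₀ y : ℚ) * K b₀ y = κ := by
          by_cases hb : b₀ ∈ H
          · have h8 : (H.filter (TT.NP inv a₀)).filter (fun y => ¬ TT.NP inv b₀ y) = {b₀} := by
              ext y
              simp only [Finset.mem_filter, Finset.mem_singleton, TT.NP, not_and_or, not_not]
              constructor
              · rintro ⟨⟨h3, -⟩, h4 | h4⟩
                · exact h4.symm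
                · rw [h4] at hb
                  exact absurd hb ((hH y).1 h3)
              · rintro rfl
                exact ⟨⟨hb, h₀⟩, Or.inl rfl⟩
            rw [h8, Finset.sum_singleton, hsb, hdiag]
            simp
          · have hb' : inv b₀ ∈ H := by
              by_contra h
              exact hb ((hH b₀).2 h)
            have h8 : (H.filter (TT.NP inv a₀)).filter (fun y => ¬ TT.NP inv b₀ y) =
                {inv b₀} := by
              ext y
              simp only [Finset.mem_filter, Finset.mem_singleton, TT.NP, not_and_or, not_not]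
              constructor
              · rintro ⟨⟨h3, -⟩, h4 | h4⟩
                · rw [h4] at hb
                  exact absurd h3 hb
                · rw [h4, hinv]
              · rintro rfl
                exact ⟨⟨hb', TT.NP.inv_right hinv h₀⟩, Or.inr (hinv b₀).symm⟩
            rw [h8, Finset.sum_singleton, sg_right hinv hodd hK1 hβ hval h₀, hsb,
              K_right hodd hK1, hdiag]
            push_cast
            ring
        rw [h6, h7]
        ring
      rw [h4, h5, ← hκ, K_symm hK1 hK2 b₀ a₀, ← hβdef] at h3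
      have h6 : β * (4 * κ + 2 * n * β - 1) = 0 := by linear_combination -h3
      have h7 := (mul_eq_zero.1 h6).resolve_left hβ
      linarith
  obtain ⟨r, s, h3, h4, h5, h6⟩ := eigenvalues e1 e2
  have hκs : κ = β * s := by
    have h7 : κ * (((r : ℚ) + s) * (2 * β)) = β * (2 * κ * ((r : ℚ) + s)) := by ring
    rwa [h5, h6, mul_one] at h7
  have hβrs : 1 - 2 * κ = 2 * β * r := by
    rw [hκs]
    linear_combination -h5
  refine ⟨r, s, h3, by rw [h4]; exact hn, ?_, ?_, ?_⟩
  · have h7 := K_trace hK1 hK2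
    rw [Finset.sum_congr rfl fun x _ => hdiag x, Finset.sum_const, nsmul_eq_mul,
      Finset.card_univ, hcard] at h7
    have h8 : ((((Module.finrank ℚ V : ℕ) : ℤ) * (r + s) : ℤ) : ℚ) = ((H.card * s : ℤ) : ℚ) := by
      push_cast
      rw [h7]
      push_cast
      linear_combination (H.card : ℚ) * h6
    exact_mod_cast h8
  · intro f hf x
    have h7 := sum_K hinv hne hodd hK1 hK2 hH hβ hval (hodd f hf) x
    have h8 : ∑ y, K x y * f y = f x := by
      rw [← hK2 x f hf]
      exact Finset.sum_congr rfl fun y _ => mul_comm _ _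
    rw [h8, hdiag] at h7
    have h9 : 2 * β * (SS K β inv H f x) = 2 * β * (r * f x) := by
      linear_combination -h7 + f x * hβrs
    exact mul_left_cancel₀ (mul_ne_zero two_ne_zero hβ) h9
  · intro f hf h0 x
    have h7 := sum_K hinv hne hodd hK1 hK2 hH hβ hval hf x
    rw [h0, hdiag, hκs] at h7
    have h9 : 2 * β * (SS K β inv H f x) = 2 * β * (-s * f x) := by
      linear_combination -h7
    exact mul_left_cancel₀ (mul_ne_zero two_ne_zero hβ) h9

end TG

end Pool.Agent.H298.Core
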