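import Mathlib
import Pool.Agent.H298.Core.Graph3

/-!
# Doubly transitive actions on the pairs: irreducibility, an invariant half, or a two-graph
-/

set_option autoImplicit false
set_option linter.unusedSectionVars false
set_option linter.unusedVariables false

namespace Pool.Agent.H298.Core

open MulAction Finset

namespace TG

section lemmaR

variable {G : Type*} [Group G] {Y : Type*} [MulAction G Y] [Fintype Y]
  {inv : Y → Y} (hinv : ∀ y, inv (inv y) = y)
  (hG : ∀ (g : G) (y : Y), g • inv y = inv (g • y)) (htr : ∀ x y : Y, ∃ g : G, g • x = y)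
  {ρ : G} (hρ : ∀ y : Y, ρ • y = inv y)
  (h2 : ∀ a b a' b' : Y, TT.NP inv a b → TT.NP inv a' b' →
    ∃ g : G, (g • a = a' ∨ g • a = inv a') ∧ (g • b = b' ∨ g • b = inv b'))
  {U : Submodule ℚ (Y → ℚ)} (hst : ∀ (g : G), ∀ f ∈ U, (fun y => f (g • y)) ∈ U)
  (hodd : ∀ f ∈ U, ∀ y, f (inv y) = - f y)

include hinv hG htr hρ h2 hst hodd in
/-- A stable space of odd functions on which the evaluations are injective gives an invariant
half. -/
theorem exists_setoid (hU : U ≠ ⊥) (hev : ∀ f ∈ U, ∀ x, f x = 0 → f = 0) :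
    ∃ R : Setoid Y, (∀ (g : G) (x y : Y), R x y → R (g • x) (g • y)) ∧ (∀ x, ¬ R x (inv x)) ∧
      (∀ x y, R x y ∨ R x (inv y)) ∧
      ∀ x x' y y' : Y, R x x' → R y y' → x ≠ x' → y ≠ y' → ∃ g : G, g • x = y ∧ g • x' = y' := by
  classical
  obtain ⟨f, hf, hf0⟩ := Submodule.exists_mem_ne_zero_of_ne_bot hU
  have hfx : ∀ x, f x ≠ 0 := fun x h => hf0 (hev f hf x h)
  -- the values are preserved up to a constant
  have hc : ∀ g : G, ∀ x₀ y : Y, f (g • y) = (f (g • x₀) / f x₀) * f y := by
    intro g x₀ y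
    have h3 : (fun y => f (g • y)) - (f (g • x₀) / f x₀) • f ∈ U :=
      U.sub_mem (hst g f hf) (U.smul_mem _ hf)
    have h4 := hev _ h3 x₀ (by
      simp only [Pi.sub_apply, Pi.smul_apply, smul_eq_mul]
      rw [div_mul_cancel₀ _ (hfx x₀), sub_self])
    have h5 := congrFun h4 y
    simp only [Pi.sub_apply, Pi.smul_apply, smul_eq_mul, Pi.zero_apply] at h5
    linarith
  have hpm : ∀ (g : G) (x₀ : Y), f (g • x₀) / f x₀ = 1 ∨ f (g • x₀) / f x₀ = -1 := by
    intro g x₀
    set c := f (g • x₀) / f x₀ with hcdef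
    have h3 : ∑ y, f (g • y) ^ 2 = ∑ y, f y ^ 2 :=
      Fintype.sum_equiv (MulAction.toPerm g) _ _ fun y => rfl
    have h4 : ∑ y, f (g • y) ^ 2 = c ^ 2 * ∑ y, f y ^ 2 := by
      rw [Finset.mul_sum]
      exact Finset.sum_congr rfl fun y _ => by rw [hc g x₀ y, ← hcdef]; ring
    have h5 : (∑ y, f y ^ 2) ≠ 0 := by
      have h6 : 0 < ∑ y, f y ^ 2 :=
        Finset.sum_pos (fun y _ => by have := hfx y; positivity) ⟨x₀, Finset.mem_univ x₀⟩
      exact h6.ne'
    have h6 : c ^ 2 = 1 := by
      rw [h4] at h3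
      have h7 : (c ^ 2 - 1) * ∑ y, f y ^ 2 = 0 := by linarith
      have h8 := (mul_eq_zero.1 h7).resolve_right h5
      linarith
    exact sq_eq_one_iff.1 h6
  have habs : ∀ x y, f y = f x ∨ f y = - f x := by
    intro x y
    obtain ⟨g, rfl⟩ := htr x y
    rcases hpm g x with h3 | h3
    · left
      rw [hc g x x, h3, one_mul]
    · right
      rw [hc g x x, h3]
      ring
  have hRG : ∀ (g : G) (x y : Y), f x = f y → f (g • x) = f (g • y) := by
    intro g x y h
    rw [hc g x x, hc g x y, h]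
  refine ⟨{ r := fun x y => f x = f y
            iseqv := ⟨fun _ => rfl, fun h => h.symm, fun h h' => h.trans h'⟩ }, hRG, ?_, ?_, ?_⟩
  · intro x h
    have h3 : f x = - f x := by rw [← hodd f hf x]; exact h
    exact hfx x (by linarith)
  · intro x y
    rcases habs x y with h3 | h3
    · exact Or.inl h3.symm
    · right
      change f x = f (inv y)
      rw [hodd f hf y, h3, neg_neg]
  · intro x x' y y' hx hy hxx hyy
    change f x = f x' at hx
    change f y = f y' at hy
    have hnp : ∀ a b : Y, f a = f b → a ≠ b → TT.NP inv a b := by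
      intro a b h hab
      refine ⟨hab, fun h3 => hfx b ?_⟩
      rw [h3, hodd f hf] at h
      linarith
    have hno : ∀ a b : Y, f a = f b → f a ≠ f (inv b) := by
      intro a b h h3
      rw [hodd f hf, h] at h3
      exact hfx b (by linarith)
    obtain ⟨g, h3, h4⟩ := h2 x x' y y' (hnp _ _ hx hxx) (hnp _ _ hy hyy)
    have h5 := hRG g x x' hx
    rcases h3 with h3 | h3 <;> rcases h4 with h4 | h4
    · exact ⟨g, h3, h4⟩
    · rw [h3, h4] at h5
      exact absurd h5 (hno y y' hy)
    · rw [h3, h4] at h5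
      exact absurd h5.symm (hno y' y hy.symm)
    · refine ⟨ρ * g, ?_, ?_⟩
      · rw [mul_smul, h3, hρ, hinv]
      · rw [mul_smul, h4, hρ, hinv]

end lemmaR

variable {Y : Type*} [Fintype Y] [DecidableEq Y] {inv : Y → Y}
  (hinv : ∀ y, inv (inv y) = y) (hne : ∀ y, inv y ≠ y)
  {H : Finset Y} (hH : ∀ y, y ∈ H ↔ inv y ∉ H)

include hinv hne hH in
/-- The maximum principle. -/
theorem eval_max {K : Y → Y → ℚ} {β lam : ℚ} (hlam : |lam| = (H.card : ℚ) - 1)
    {f : Y → ℚ} (hf : ∀ y, f (inv y) = - f y) (hS : ∀ x, SS K β inv H f x = lam * f x)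
    {x₀ : Y} (h0 : f x₀ = 0) : f = 0 := by
  classical
  obtain ⟨x₁, -, hx₁⟩ := Finset.exists_max_image Finset.univ (fun y => |f y|)
    ⟨x₀, Finset.mem_univ x₀⟩
  have hmax : ∀ y, |f y| ≤ |f x₁| := fun y => hx₁ y (Finset.mem_univ y)
  by_cases hM : f x₁ = 0
  · funext y
    have h1 := hmax y
    rw [hM, abs_zero] at h1
    exact abs_nonpos_iff.1 h1
  exfalso
  -- `x₀` is not in the pair of `x₁`
  have hfi : ∀ y, |f (inv y)| = |f y| := fun y => by rw [hf, abs_neg]
  have hnp : TT.NP inv x₁ x₀ := by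
    refine ⟨fun h => hM (by rw [h, h0]), fun h => hM ?_⟩
    rw [h, hf, h0, neg_zero]
  -- a representative in `H`
  obtain ⟨z, hzH, hz, hz0⟩ : ∃ z ∈ H, TT.NP inv x₁ z ∧ f z = 0 := by
    by_cases hx : x₀ ∈ H
    · exact ⟨x₀, hx, hnp, h0⟩
    · refine ⟨inv x₀, ?_, TT.NP.inv_right hinv hnp, by rw [hf, h0, neg_zero]⟩
      by_contra h
      exact hx ((hH x₀).2 h)
  have h1 := hS x₁
  rw [SS_def] at h1
  have h2 : |lam * f x₁| ≤ ∑ y ∈ H with TT.NP inv x₁ y, |f y| := by
    rw [← h1]
    refine (Finset.abs_sum_le_sum_abs _ _).trans (Finset.sum_le_sum fun y _ => ?_)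
    rw [abs_mul]
    rcases sg_or K β x₁ y with h3 | h3 <;> rw [h3] <;> simp
  have h3 : ∑ y ∈ H with TT.NP inv x₁ y, |f y| <
      ∑ y ∈ H with TT.NP inv x₁ y, |f x₁| := by
    refine Finset.sum_lt_sum (fun y _ => hmax y) ⟨z, Finset.mem_filter.2 ⟨hzH, hz⟩, ?_⟩
    rw [hz0, abs_zero]
    exact abs_pos.2 hM
  rw [Finset.sum_const, nsmul_eq_mul] at h3
  have h4 := card_np hinv hne hH x₁
  have h5 : ((H.filter (TT.NP inv x₁)).card : ℚ) = H.card - 1 := by
    rw [← h4]; push_cast; ring
  rw [h5] at h3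
  rw [abs_mul, hlam] at h2
  linarith

include hinv hH in
/-- The descent modulo two, for integral functions. -/
theorem eval_descent {K : Y → Y → ℚ} {β : ℚ} {lam : ℤ} (hlam : Even lam) {x₀ : Y} (N : ℕ) :
    ∀ F : Y → ℤ, (∀ y, F (inv y) = - F y) →
      (∀ x, SS K β inv H (fun y => (F y : ℚ)) x = lam * F x) → F x₀ = 0 →
      (∀ y, |F y| ≤ N) → F = 0 := by
  classical
  induction N using Nat.strong_induction_on with
  | _ N ih =>
  intro F hF hS h0 hN
  -- all the values are even
  have hT : ∀ x, Even ((∑ y ∈ H, F y) - F x) := by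
    intro x
    have h1 := hS x
    rw [SS_def] at h1
    have h2 : ∑ y ∈ H with TT.NP inv x y, sg K β x y * F y = lam * F x := by
      exact_mod_cast h1
    have h3 : Even (∑ y ∈ H with TT.NP inv x y, F y) := by
      have h4 : Even (∑ y ∈ H with TT.NP inv x y, (sg K β x y * F y - F y)) := by
        refine Finset.even_sum _ fun y _ => ?_
        rcases sg_or K β x y with h5 | h5
        · rw [h5]; simp
        · rw [h5]; exact ⟨-F y, by ring⟩
      rw [Finset.sum_sub_distrib, h2] at h4
      have h5 : (∑ y ∈ H with TT.NP inv x y, F y) = lam * F x -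
          (lam * F x - ∑ y ∈ H with TT.NP inv x y, F y) := by ring
      rw [h5]
      exact (hlam.mul_right _).sub h4
    -- the complement is one element
    have h4 : Even ((∑ y ∈ H with ¬ TT.NP inv x y, F y) - F x) := by
      by_cases hx : x ∈ H
      · have h8 : H.filter (fun y => ¬ TT.NP inv x y) = {x} := by
          ext y
          simp only [Finset.mem_filter, Finset.mem_singleton, TT.NP, not_and_or, not_not]
          constructor
          · rintro ⟨h3, h4 | h4⟩
            · exact h4.symm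
            · rw [h4] at hx
              exact absurd hx ((hH y).1 h3)
          · rintro rfl
            exact ⟨hx, Or.inl rfl⟩
        rw [h8, Finset.sum_singleton, sub_self]
        exact Even.zero
      · have hx' : inv x ∈ H := by
          by_contra h
          exact hx ((hH x).2 h)
        have h8 : H.filter (fun y => ¬ TT.NP inv x y) = {inv x} := by
          ext y
          simp only [Finset.mem_filter, Finset.mem_singleton, TT.NP, not_and_or, not_not]
          constructor
          · rintro ⟨h3, h4 | h4⟩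
            · rw [h4] at hx
              exact absurd h3 hx
            · rw [h4, hinv]
          · rintro rfl
            exact ⟨hx', Or.inr (hinv x).symm⟩
        rw [h8, Finset.sum_singleton, hF]
        exact ⟨-F x, by ring⟩
    have h5 : (∑ y ∈ H, F y) - F x = (∑ y ∈ H with TT.NP inv x y, F y) +
        ((∑ y ∈ H with ¬ TT.NP inv x y, F y) - F x) := by
      rw [← Finset.sum_filter_add_sum_filter_not H (fun y => TT.NP inv x y) F]
      ring
    rw [h5]
    exact h3.add h4
  have heven : ∀ x, Even (F x) := by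
    intro x
    have h1 := hT x₀
    have h2 := hT x
    rw [h0, sub_zero] at h1
    have h3 : F x = (∑ y ∈ H, F y) - ((∑ y ∈ H, F y) - F x) := by ring
    rw [h3]
    exact h1.sub h2
  choose F' hF' using heven
  have hF2 : ∀ x, F x = 2 * F' x := fun x => by rw [hF' x]; ring
  by_cases hN0 : N = 0
  · funext y
    have h1 := hN y
    rw [hN0] at h1
    exact abs_nonpos_iff.1 (by exact_mod_cast h1)
  have h1 : F' = 0 := by
    refine ih (N / 2) (Nat.div_lt_self (Nat.pos_of_ne_zero hN0) one_lt_two) F' ?_ ?_ ?_ ?_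
    · intro y
      have h1 := hF y
      rw [hF2, hF2] at h1
      omega
    · intro x
      have h1 := hS x
      rw [SS_def] at h1 ⊢
      simp only [hF2] at h1
      push_cast at h1
      have h2 : (2 : ℚ) * ∑ y ∈ H with TT.NP inv x y, (sg K β x y : ℚ) * (F' y : ℚ) =
          2 * (lam * F' x) := by
        rw [Finset.mul_sum]
        rw [show (2 : ℚ) * (lam * F' x) = lam * (2 * F' x) by ring, ← h1]
        exact Finset.sum_congr rfl fun y _ => by ring
      exact mul_left_cancel₀ two_ne_zero h2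
    · have h1 := hF2 x₀
      rw [h0] at h1
      omega
    · intro y
      have h1 := hN y
      rw [hF2, abs_mul] at h1
      have h2 : |(2 : ℤ)| = 2 := rfl
      rw [h2] at h1
      omega
  funext y
  rw [hF2, h1]
  simp

omit [DecidableEq Y] in
/-- A common denominator. -/
theorem exists_den (q : Y → ℚ) : ∃ (D : ℕ) (m : Y → ℤ), D ≠ 0 ∧ ∀ y, (m y : ℚ) = D * q y := by
  classical
  have h : ∀ y, ∃ n : ℤ, (n : ℚ) = ((∏ i, (q i).den : ℕ) : ℚ) * q y := by
    intro y
    obtain ⟨k, hk⟩ := Finset.dvd_prod_of_mem (fun i => (q i).den) (Finset.mem_univ y)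
    refine ⟨(q y).num * k, ?_⟩
    rw [hk]
    push_cast
    have h1 : ((q y).den : ℚ) * q y = (q y).num := by
      rw [mul_comm]
      exact Rat.mul_den_eq_num _
    rw [← h1]
    ring
  choose m hm using h
  exact ⟨_, m, Finset.prod_ne_zero_iff.2 fun i _ => (q i).den_nz, hm⟩

include hinv hH in
/-- The evaluations are injective if the eigenvalue is even. -/
theorem eval_even {K : Y → Y → ℚ} {β : ℚ} {lam : ℤ} (hlam : Even lam)
    {f : Y → ℚ} (hf : ∀ y, f (inv y) = - f y) (hS : ∀ x, SS K β inv H f x = lam * f x)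
    {x₀ : Y} (h0 : f x₀ = 0) : f = 0 := by
  classical
  obtain ⟨D, F, hD, hF⟩ := exists_den f
  have hDq : (D : ℚ) ≠ 0 := Nat.cast_ne_zero.2 hD
  have h1 : F = 0 := by
    refine eval_descent hinv hH hlam (K := K) (β := β) (x₀ := x₀) (∑ y, (F y).natAbs) F ?_ ?_ ?_ ?_
    · intro y
      have h1 : ((F (inv y) : ℤ) : ℚ) = ((- F y : ℤ) : ℚ) := by
        rw [hF, Int.cast_neg, hF, hf]
        ring
      exact_mod_cast h1
    · intro x
      have h1 := hS x
      rw [SS_def] at h1 ⊢
      simp only [hF]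
      calc ∑ y ∈ H with TT.NP inv x y, (sg K β x y : ℚ) * ((D : ℚ) * f y)
          = (D : ℚ) * ∑ y ∈ H with TT.NP inv x y, (sg K β x y : ℚ) * f y := by
            rw [Finset.mul_sum]
            exact Finset.sum_congr rfl fun y _ => by ring
        _ = lam * ((D : ℚ) * f x) := by rw [h1]; ring
    · have h1 := hF x₀
      rw [h0, mul_zero] at h1
      exact_mod_cast h1
    · intro y
      rw [Int.abs_eq_natAbs]
      exact_mod_cast Finset.single_le_sum (f := fun y => (F y).natAbs) (fun _ _ => Nat.zero_le _)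
        (Finset.mem_univ y)
  funext y
  have h2 := hF y
  rw [h1] at h2
  simp only [Pi.zero_apply, Int.cast_zero] at h2
  exact (mul_eq_zero.1 h2.symm).resolve_left hDq

end TG

end Pool.Agent.H298.Core
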