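import Mathlib
import Pool.Agent.H298.Core.Graph4
import Pool.Agent.H298.Core.TwoGraph

/-!
# Doubly transitive actions on the pairs: the dichotomy
-/

set_option autoImplicit false
set_option linter.unusedSectionVars false
set_option linter.unusedVariables false

namespace Pool.Agent.H298.Core

open MulAction Finset

namespace TG

section perp

variable {G : Type*} [Group G] {Y : Type*} [MulAction G Y] [Fintype Y] [DecidableEq Y]
  {inv : Y → Y} (hinv : ∀ y, inv (inv y) = y) (hne : ∀ y, inv y ≠ y)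
  (hG : ∀ (g : G) (y : Y), g • inv y = inv (g • y))
  {V : Submodule ℚ (Y → ℚ)} (hst : ∀ (g : G), ∀ f ∈ V, (fun y => f (g • y)) ∈ V)
  (hodd : ∀ f ∈ V, ∀ y, f (inv y) = - f y)
  {K : Y → Y → ℚ} (hK1 : ∀ x, K x ∈ V) (hK2 : ∀ x, ∀ f ∈ V, ∑ y, f y * K x y = f x)

/-- The odd functions orthogonal to the kernel. -/
def perp (inv : Y → Y) (K : Y → Y → ℚ) : Submodule ℚ (Y → ℚ) where
  carrier := {f | (∀ y, f (inv y) = - f y) ∧ ∀ x, ∑ y, K x y * f y = 0}
  add_mem' := by
    rintro a b ⟨h1, h2⟩ ⟨h3, h4⟩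
    refine ⟨fun y => ?_, fun x => ?_⟩
    · simp only [Pi.add_apply, h1, h3]
      ring
    · simp only [Pi.add_apply, mul_add, Finset.sum_add_distrib, h2, h4, add_zero]
  zero_mem' := ⟨fun y => by simp, fun x => by simp⟩
  smul_mem' := by
    rintro c a ⟨h1, h2⟩
    refine ⟨fun y => ?_, fun x => ?_⟩
    · simp only [Pi.smul_apply, smul_eq_mul, h1]
      ring
    · have h3 : ∑ y, K x y * (c • a) y = c * ∑ y, K x y * a y := by
        rw [Finset.mul_sum]
        exact Finset.sum_congr rfl fun y _ => by simp only [Pi.smul_apply, smul_eq_mul]; ring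
      rw [h3, h2, mul_zero]

include hG hst hK1 hK2 in
theorem perp_stable (g : G) : ∀ f ∈ perp inv K, (fun y => f (g • y)) ∈ perp inv K := by
  rintro f ⟨h1, h2⟩
  refine ⟨fun y => ?_, fun x => ?_⟩
  · change f (g • inv y) = - f (g • y)
    rw [hG, h1]
  · have h3 := h2 (g • x)
    rw [← h3]
    refine Fintype.sum_equiv (MulAction.toPerm g) _ _ fun y => ?_
    rw [MulAction.toPerm_apply, K_smul hK1 hK2 hst]

include hodd hK1 hK2 in
theorem perp_ne_bot {u : Y → ℚ} (hu : ∀ y, u (inv y) = - u y) (huV : u ∉ V) :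
    perp inv K ≠ ⊥ := by
  intro hbot
  let P : Y → ℚ := fun x => ∑ y, K x y * u y
  have hP : P ∈ V := by
    have h1 : P = ∑ y, u y • K y := by
      funext x
      simp only [P, Finset.sum_apply, Pi.smul_apply, smul_eq_mul]
      exact Finset.sum_congr rfl fun y _ => by rw [K_symm hK1 hK2 x y, mul_comm]
    rw [h1]
    exact V.sum_mem fun y _ => V.smul_mem _ (hK1 y)
  have h1 : u - P ∈ perp inv K := by
    refine ⟨fun y => ?_, fun x => ?_⟩
    · simp only [Pi.sub_apply, hu, hodd P hP]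
      ring
    · have h2 : ∑ y, K x y * P y = P x := by
        rw [← hK2 x P hP]
        exact Finset.sum_congr rfl fun y _ => mul_comm _ _
      simp only [Pi.sub_apply, mul_sub, Finset.sum_sub_distrib, h2]
      simp [P]
  rw [hbot, Submodule.mem_bot, sub_eq_zero] at h1
  exact huV (h1 ▸ hP)

end perp

end TG

/-- **Doubly transitive actions on the pairs.** A stable space of odd functions is zero or everything,
or there is an invariant half, or the number of pairs is a degree of a regular two-graph. -/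
theorem dichotomy2 {G : Type*} [Group G] {Y : Type*} [MulAction G Y] [Fintype Y] {inv : Y → Y}
    (hinv : ∀ y, inv (inv y) = y) (hne : ∀ y, inv y ≠ y)
    (hG : ∀ (g : G) (y : Y), g • inv y = inv (g • y)) (htr : ∀ x y : Y, ∃ g : G, g • x = y)
    {ρ : G} (hρ : ∀ y : Y, ρ • y = inv y)
    (h2 : ∀ a b a' b' : Y, TT.NP inv a b → TT.NP inv a' b' →
      ∃ g : G, (g • a = a' ∨ g • a = inv a') ∧ (g • b = b' ∨ g • b = inv b'))
    {m : ℕ} (hm : Fintype.card Y = 2 * m)
    {V : Submodule ℚ (Y → ℚ)} (hst : ∀ (g : G), ∀ f ∈ V, (fun y => f (g • y)) ∈ V)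
    (hodd : ∀ f ∈ V, ∀ y, f (inv y) = - f y) (hV : V ≠ ⊥)
    {u : Y → ℚ} (hu : ∀ y, u (inv y) = - u y) (huV : u ∉ V) :
    (∃ R : Setoid Y, (∀ (g : G) (x y : Y), R x y → R (g • x) (g • y)) ∧ (∀ x, ¬ R x (inv x)) ∧
      (∀ x y, R x y ∨ R x (inv y)) ∧
      ∀ x x' y y' : Y, R x x' → R y y' → x ≠ x' → y ≠ y' →
        ∃ g : G, g • x = y ∧ g • x' = y') ∨ TwoGraphDegree m := by
  classical
  obtain ⟨H, hH⟩ := TG.exists_half hinv hne
  have hcard := TG.card_univ' hinv hne hH
  have hmH : H.card = m := by omega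
  obtain ⟨K, hK1, hK2⟩ := TG.exists_kernel V
  by_cases hNP : ∃ a₀ b₀ : Y, TT.NP inv a₀ b₀
  swap
  · left
    push Not at hNP
    refine TG.exists_setoid hinv hG htr hρ h2 hst hodd hV fun f hf x h0 => ?_
    funext y
    have h1 := hNP x y
    by_cases h3 : x = y
    · rw [← h3, h0]
      rfl
    · by_cases h4 : x = inv y
      · have h5 := hodd f hf y
        rw [← h4, h0] at h5
        simp only [Pi.zero_apply]
        linarith
      · exact absurd ⟨h3, h4⟩ h1
  obtain ⟨a₀, b₀, h₀⟩ := hNP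
  by_cases hβ : K a₀ b₀ = 0
  · -- the kernel is diagonal
    exfalso
    have h3 : ∀ f : Y → ℚ, (∀ y, f (inv y) = - f y) → ∀ x,
        ∑ y, K x y * f y = 2 * K a₀ a₀ * f x := by
      intro f hf x
      rw [TG.sum_np hinv hne (fun y => K x y * f y) x]
      have h4 : ∑ y with TT.NP inv x y, K x y * f y = 0 := by
        refine Finset.sum_eq_zero fun y hy => ?_
        have h5 := TG.K_np hG h2 hst hodd hK1 hK2 h₀ (Finset.mem_filter.1 hy).2
        rw [hβ, neg_zero, or_self] at h5
        rw [h5, zero_mul]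
      rw [h4, TG.K_right hodd hK1, hf, TG.K_diag htr hst hK1 hK2 x a₀]
      ring
    obtain ⟨f, hf, hf0⟩ := Submodule.exists_mem_ne_zero_of_ne_bot hV
    obtain ⟨x, hx⟩ := Function.ne_iff.1 hf0
    have h4 : 2 * K a₀ a₀ = 1 := by
      have h5 := h3 f (hodd f hf) x
      have h6 := hK2 x f hf
      have h7 : ∑ y, K x y * f y = f x := by
        rw [← h6]
        exact Finset.sum_congr rfl fun y _ => mul_comm _ _
      rw [h7] at h5
      have h8 : (2 * K a₀ a₀ - 1) * f x = 0 := by linarith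
      have h9 := (mul_eq_zero.1 h8).resolve_right hx
      linarith
    apply huV
    have h5 : u = ∑ y, u y • K y := by
      funext x
      have h6 := h3 u hu x
      rw [h4, one_mul] at h6
      rw [← h6, Finset.sum_apply]
      exact Finset.sum_congr rfl fun y _ => by
        rw [Pi.smul_apply, smul_eq_mul, TG.K_symm hK1 hK2 x y, mul_comm]
    rw [h5]
    exact V.sum_mem fun y _ => V.smul_mem _ (hK1 y)
  obtain ⟨r, s, hrs, hpar, hdim, hr, hs⟩ :=
    TG.exists_rs hinv hne hG htr h2 hst hodd hK1 hK2 hH h₀ hβ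
  -- at least two pairs
  have hg2 : 2 ≤ H.card := by
    have h3 := TG.card_np2 hinv hne hH h₀
    omega
  have hW := TG.perp_ne_bot hodd hK1 hK2 hu huV
  have hWst := TG.perp_stable (inv := inv) hG hst hK1 hK2
  have hWodd : ∀ f ∈ TG.perp inv K, ∀ y, f (inv y) = - f y := fun f hf => hf.1
  have hWs : ∀ f ∈ TG.perp inv K, ∀ x, TG.SS K (K a₀ b₀) inv H f x = -s * f x :=
    fun f hf => hs f hf.1 hf.2
  have hcast : ((H.card : ℤ) : ℚ) - 1 = (H.card : ℚ) - 1 := by norm_cast
  -- the eigenvalue `± (g - 1)`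
  have hbig : ∀ t : ℤ, |t| = 1 → ∀ v : ℤ, t * v = (H.card : ℤ) - 1 →
      |((v : ℤ) : ℚ)| = (H.card : ℚ) - 1 := by
    intro t ht v hv
    have h3 : |v| = (H.card : ℤ) - 1 := by
      have h4 : |t * v| = (H.card : ℤ) - 1 := by
        rw [hv]
        exact abs_of_nonneg (by omega)
      rwa [abs_mul, ht, one_mul] at h4
    rw [← Int.cast_abs, h3]
    push_cast
    ring
  by_cases hs1 : |s| = 1
  · left
    refine TG.exists_setoid hinv hG htr hρ h2 hst hodd hV fun f hf x h0 => ?_
    exact TG.eval_max hinv hne hH (hbig s hs1 r (by rw [mul_comm]; exact hrs)) (hodd f hf)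
      (hr f hf) h0
  by_cases hr1 : |r| = 1
  · left
    refine TG.exists_setoid hinv hG htr hρ h2 hWst hWodd hW fun f hf x h0 => ?_
    refine TG.eval_max hinv hne hH (lam := -s) ?_ (hWodd f hf) (hWs f hf) h0
    rw [abs_neg]
    exact hbig r hr1 s hrs
  by_cases hodd' : Odd H.card
  · -- one of the eigenvalues is even
    left
    have h3 : Even r ∨ Even s := by
      by_contra h4
      push Not at h4
      rw [Int.not_even_iff_odd, Int.not_even_iff_odd] at h4
      have h5 : Odd (r * s) := h4.1.mul h4.2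
      rw [hrs] at h5
      have h6 : Odd ((H.card : ℤ)) := by exact_mod_cast hodd'
      exact (Int.not_even_iff_odd.2 h5) (h6.sub_odd odd_one)
    rcases h3 with h3 | h3
    · refine TG.exists_setoid hinv hG htr hρ h2 hst hodd hV fun f hf x h0 => ?_
      exact TG.eval_even hinv hH h3 (hodd f hf) (hr f hf) h0
    · refine TG.exists_setoid hinv hG htr hρ h2 hWst hWodd hW fun f hf x h0 => ?_
      refine TG.eval_even hinv hH (K := K) (β := K a₀ b₀) (lam := -s) h3.neg (hWodd f hf)
        (fun x => ?_) h0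
      rw [hWs f hf x]
      push_cast
      ring
  · right
    rw [Nat.not_odd_iff_even] at hodd'
    have hpos : 0 < r * s := by
      rw [hrs]
      omega
    have hr0 : r ≠ 0 := by
      rintro rfl
      simp at hpos
    have hs0 : s ≠ 0 := by
      rintro rfl
      simp at hpos
    have hnat : r.natAbs * s.natAbs + 1 = H.card := by
      rw [← Int.natAbs_mul, hrs]
      omega
    have hsum : r.natAbs + s.natAbs = (r + s).natAbs := by
      rcases (mul_pos_iff.1 hpos) with ⟨h3, h4⟩ | ⟨h3, h4⟩ <;> omega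
    refine ⟨by rw [← hmH]; exact hodd', r.natAbs, s.natAbs, ?_, ?_, by rw [hnat, hmH], ?_⟩
    · have h3 : r.natAbs ≠ 1 := fun h => hr1 (by rw [Int.abs_eq_natAbs, h]; rfl)
      omega
    · have h3 : s.natAbs ≠ 1 := fun h => hs1 (by rw [Int.abs_eq_natAbs, h]; rfl)
      omega
    · rw [hsum, ← hmH]
      refine ⟨Module.finrank ℚ V, ?_⟩
      have h3 := congrArg Int.natAbs hdim
      rw [Int.natAbs_mul, Int.natAbs_mul, Int.natAbs_natCast, Int.natAbs_natCast] at h3
      rw [← h3, mul_comm]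

/-- If the number of pairs is odd or one more than a prime, it is not a degree of a two-graph. -/
theorem not_twoGraphDegree {g : ℕ} (h : Odd g ∨ (g - 1).Prime) : ¬ TwoGraphDegree g := by
  rintro ⟨h1, r, s, hr, hs, h2, -⟩
  rcases h with h | h
  · exact (Nat.not_even_iff_odd.2 h) h1
  · have h3 : g - 1 = r * s := by omega
    rw [h3] at h
    rcases (Nat.prime_mul_iff.1 h) with ⟨-, h4⟩ | ⟨-, h4⟩ <;> omega

end Pool.Agent.H298.Core
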