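import Mathlib
import Pool.Agent.H298.Core.Graph5
import Pool.Agent.H298.Core.ThreeField

/-!
# Fields whose maximal real subfield has a doubly transitive Galois group
-/

set_option autoImplicit false
set_option linter.unusedSectionVars false
set_option linter.unusedVariables false

namespace Pool.Agent.H298.Core

open NumberField Module MulAction Finset

attribute [local instance] actC

variable {E : Type} [Field E] [NumberField E] [IsCMField E]

/-- An invariant half gives a subfield. -/
theorem field_of_setoid (R : Setoid (E →+* ℂ))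
    (hR1 : ∀ (g : ℂ ≃+* ℂ) (x y : E →+* ℂ), R x y → R (g • x) (g • y))
    (hR2 : ∀ x, ¬ R x (ComplexEmbedding.conjugate x))
    (hR3 : ∀ x y, R x y ∨ R x (ComplexEmbedding.conjugate y))
    (hR4 : ∀ x x' y y' : E →+* ℂ, R x x' → R y y' → x ≠ x' → y ≠ y' →
      ∃ g : ℂ ≃+* ℂ, g • x = y ∧ g • x' = y') :
    ∃ F : IntermediateField ℚ E,
      2 * finrank F E = finrank ℚ E ∧ ¬ IsTotallyReal F ∧ DoublyTransitive F := by
  classical
  obtain ⟨F, hF⟩ := exists_subfield R hR1
  refine ⟨F, ?_, fun hreal => ?_, ?_⟩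
  · obtain ⟨φ⟩ : Nonempty (E →+* ℂ) := inferInstance
    rw [← card_extensions F φ, ← Embeddings.card E ℂ, Nat.card_eq_fintype_card,
      Fintype.card_subtype, two_mul]
    have h2 : (Finset.univ : Finset (E →+* ℂ)).card =
        (Finset.univ.filter fun ψ : E →+* ℂ => ∀ x ∈ F, ψ x = φ x).card +
        (Finset.univ.filter fun ψ : E →+* ℂ => ¬ ∀ x ∈ F, ψ x = φ x).card :=
      (Finset.card_filter_add_card_filter_not _).symm
    rw [← Finset.card_univ, h2]
    congr 1
    refine Finset.card_bij (fun ψ _ => ComplexEmbedding.conjugate ψ) ?_ ?_ ?_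
    · intro ψ hψ
      simp only [Finset.mem_filter, Finset.mem_univ, true_and] at hψ ⊢
      rw [hF] at hψ ⊢
      intro h3
      exact hR2 ψ (R.trans hψ (R.symm h3))
    · intro ψ _ χ _ h3
      have h4 := congrArg ComplexEmbedding.conjugate h3
      rwa [Pool.Agent.H298.Core.conj_conj, Pool.Agent.H298.Core.conj_conj] at h4
    · intro χ hχ
      simp only [Finset.mem_filter, Finset.mem_univ, true_and] at hχ
      refine ⟨ComplexEmbedding.conjugate χ, ?_, Pool.Agent.H298.Core.conj_conj χ⟩
      simp only [Finset.mem_filter, Finset.mem_univ, true_and]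
      rw [hF] at hχ ⊢
      rcases hR3 φ χ with h3 | h3
      · exact absurd (R.symm h3) hχ
      · exact R.symm h3
  · obtain ⟨φ⟩ : Nonempty (E →+* ℂ) := inferInstance
    apply hR2 φ
    rw [← hF]
    intro x hx
    rw [ComplexEmbedding.conjugate_coe_eq]
    have h2 : ComplexEmbedding.IsReal (φ.comp (algebraMap F E)) := hreal.complexEmbedding_isReal _
    have h3 := RingHom.congr_fun (ComplexEmbedding.isReal_iff.1 h2) ⟨x, hx⟩
    exact h3.symm
  · intro φ φ' ψ ψ' h1 h2 h3 h4 h5
    have e1 : R φ φ' := R.symm ((hF _ _).1 h1)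
    have e2 : R ψ ψ' := (hF _ _).1 fun x hx => (h2 x hx).trans (h3 x hx).symm
    exact hR4 φ φ' ψ ψ' e1 e2 h4 h5

/-- The number of embeddings. -/
theorem card_embeddings_two : Fintype.card (E →+* ℂ) = 2 * (finrank ℚ E / 2) := by
  rw [Embeddings.card]
  have hev : 2 ∣ finrank ℚ E := by
    rw [← finrank_mul_finrank ℚ (maximalRealSubfield E) E,
      Algebra.IsQuadraticExtension.finrank_eq_two (maximalRealSubfield E) E]
    exact Dvd.intro_left _ rfl
  omega

/-- **Fields whose maximal real subfield has a doubly transitive Galois group.** -/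
theorem doubly_field (h : TwiceTransitive (maximalRealSubfield E))
    (hg : ¬ TwoGraphDegree (finrank ℚ E / 2)) :
    Pool.Agent.Y156.P.OddIrreducible E ∨ ∃ F : IntermediateField ℚ E,
      2 * finrank F E = finrank ℚ E ∧ ¬ IsTotallyReal F ∧ DoublyTransitive F := by
  classical
  have hT : ∀ a b a' b' : E →+* ℂ, TT.NP ComplexEmbedding.conjugate a b →
      TT.NP ComplexEmbedding.conjugate a' b' → ∃ g : ℂ ≃+* ℂ,
        (g • a = a' ∨ g • a = ComplexEmbedding.conjugate a') ∧
        (g • b = b' ∨ g • b = ComplexEmbedding.conjugate b') := by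
    intro a b a' b' h1 h1'
    rw [np_iff_restrict] at h1 h1'
    have hinj : ∀ x y : maximalRealSubfield E →+* ℂ, x ≠ y → Function.Injective ![x, y] := by
      intro x y hxy i j hij
      fin_cases i <;> fin_cases j <;> simp_all
    obtain ⟨σ, hσ⟩ := h _ _ (hinj _ _ h1) (hinj _ _ h1')
    exact ⟨σ, eq_or_conj_of_restrict (hσ 0), eq_or_conj_of_restrict (hσ 1)⟩
  by_cases hirr : Pool.Agent.Y156.P.OddIrreducible E
  · exact Or.inl hirr
  right
  unfold Pool.Agent.Y156.P.OddIrreducible at hirr
  push Not at hirr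
  obtain ⟨S, hst, hodd, hS0, u, hu, huS⟩ := hirr
  rcases dichotomy2 (G := ℂ ≃+* ℂ) Pool.Agent.H298.Core.conj_conj Pool.Agent.H298.Core.conj_ne
    smul_conj (fun x y => exists_smul_eq (ℂ ≃+* ℂ) x y)
    (ρ := (starRingAut : ℂ ≃+* ℂ)) (fun φ => RingHom.ext fun x => rfl) hT
    (m := finrank ℚ E / 2) card_embeddings_two
    (V := S) (fun g f hf => hst g f hf) (fun f hf => hodd f hf) hS0 (u := u) hu huS with h1 | h1
  · obtain ⟨R, hR1, hR2, hR3, hR4⟩ := h1
    exact field_of_setoid R hR1 hR2 hR3 hR4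
  · exact absurd h1 hg

end Pool.Agent.H298.Core
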