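import Mathlib
import Pool.Agent.H298.Core.DoubleDefs
import Pool.Agent.H298.Core.DoubleField
import Pool.Agent.H298.Core.WeilRel

/-!
# CM fields whose maximal real subfield has a doubly transitive Galois group: the criteria
-/

set_option autoImplicit false

namespace Pool.Agent.H298.Core

open NumberField Module

theorem doublyCriteria_hold : DoublyCriteria := by
  refine ⟨fun g h => not_twoGraphDegree h, fun K _ _ _ h hg => ⟨doubly_field h hg, ?_⟩⟩
  intro p _ a π hπ h'
  rcases doubly_field h hg with h1 | ⟨F, h1, h2, h3⟩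
  · exact ⟨hπ, Or.inl h1⟩
  · exact ⟨hπ, Or.inr ⟨finrank F K, ⟨hasCore_top h1.symm, Or.inr ⟨F, rfl, h2, h3⟩⟩,
      fun F' hF hF' => h' F' (by rw [hF, h1]) hF'⟩⟩

theorem allCriteria_hold : AllCriteria := ⟨coreCriteria_hold, doublyCriteria_hold⟩

end Pool.Agent.H298.Core
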