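import Mathlib
import Pool.Agent.H298.Core.DoubleFactDefs
import Pool.Agent.H298.Core.DoubleField
import Pool.Agent.H298.Core.Main

/-!
# CM fields whose maximal real subfield has a doubly transitive Galois group: proof of the facts
-/

set_option autoImplicit false

namespace Pool.Agent.H298.Core

theorem doublyFacts_hold : DoublyFacts :=
  ⟨fun _ h => not_twoGraphDegree h, fun _ _ _ _ h hg => doubly_field h hg⟩

theorem allFacts_hold : AllFacts := ⟨coreFacts_hold, doublyFacts_hold⟩

end Pool.Agent.H298.Core
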