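import Mathlib
import Pool.Agent.H298.Core.CMTypeDefs
import Pool.Agent.H298.Core.TwoGraph

/-!
# CM types of fields whose maximal real subfield has a doubly transitive Galois group
-/

set_option autoImplicit false

namespace Pool.Agent.H298.Core

open NumberField Module Pool.Agent.H204R3.CM Pool.Agent.H977R3.CM Pool.Agent.TH170.CM
  Pool.Agent.Y156.P

/-- Let `E` be a CM field, `[E : ℚ] = 2 g`, such that the Galois group of the maximal real subfield
is doubly transitive and `g` is none of the numbers `10, 16, 26, 28, 36, …` (`TwoGraphDegree`; this
is so if `g` is odd or `g - 1` is a prime number). Then the odd part of `E` is irreducible, or `E`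
contains an imaginary quadratic field `F`, over which it has doubly transitive extensions. A CM type
of `E` is degenerate if and only if it comes from a proper subfield or is balanced over an imaginary
quadratic subfield, and if it is not balanced over such a subfield, and does not come from a proper
subfield, it satisfies `CoreType`. -/
def DoublyTypeCriteria : Prop :=
  (∀ g : ℕ, Odd g ∨ (g - 1).Prime → ¬ TwoGraphDegree g) ∧
  ∀ (E : Type) [Field E] [NumberField E] [IsCMField E],
    TwiceTransitive (maximalRealSubfield E) → ¬ TwoGraphDegree (finrank ℚ E / 2) →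
    (OddIrreducible E ∨ ∃ F : IntermediateField ℚ E,
      2 * finrank F E = finrank ℚ E ∧ ¬ IsTotallyReal F ∧ DoublyTransitive F) ∧
    ∀ Φ : Set (E →+* ℂ), IsCMType Φ →
      (Degenerate Φ ↔ Induced (sgn Φ) ∨ Balanced (finrank ℚ E / 2) (sgn Φ)) ∧
      (¬ Induced (sgn Φ) → ¬ Balanced (finrank ℚ E / 2) (sgn Φ) → CoreType Φ)

/-- The criteria for cores and types (`CoreTypeCriteria`) and for doubly transitive fields. -/
def AllTypeCriteria : Prop := CoreTypeCriteria ∧ DoublyTypeCriteria

end Pool.Agent.H298.Core
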