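import Mathlib
import Pool.Agent.H298.Core.TwoTrans

/-!
# Relations between several functions, localized at a core
-/

set_option autoImplicit false
set_option linter.unusedSectionVars false
set_option linter.unusedVariables false

namespace Pool.Agent.H298.Core

open MulAction Finset

variable {G : Type*} [Group G] {Y : Type*} [MulAction G Y] {inv : Y → Y} [Fintype Y]
  {κ : Type*} [Fintype κ] {D : κ → Y → ℤ}

/-- The partner in several copies of `Y`. -/
def invS (κ : Type*) {Y : Type*} (inv : Y → Y) (z : Σ _ : κ, Y) : Σ _ : κ, Y := ⟨z.1, inv z.2⟩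

theorem core_sigma (n : ℕ) (k : κ) (x : Y) (z : Σ _ : κ, Y) :
    z ∈ core G (invS κ inv) n ⟨k, x⟩ ↔ z.2 ∈ core G inv n x := by
  induction n generalizing z with
  | zero => exact ⟨fun _ => trivial, fun _ => trivial⟩
  | succ n ih =>
    have hs : ∀ g : G, g ∈ Signs G (invS κ inv) (core G (invS κ inv) n ⟨k, x⟩) ↔
        g ∈ Signs G inv (core G inv n x) := by
      intro g
      constructor
      · intro h y hy
        rcases h ⟨k, y⟩ ((ih ⟨k, y⟩).2 hy) with h1 | h1
        · left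
          rw [Sigma.smul_mk] at h1
          simpa using h1
        · right
          rw [Sigma.smul_mk] at h1
          simpa [invS] using h1
      · rintro h ⟨l, y⟩ hy
        rcases h y ((ih ⟨l, y⟩).1 hy) with h1 | h1
        · left
          rw [Sigma.smul_mk, h1]
        · right
          rw [Sigma.smul_mk, h1]
          rfl
    rw [mem_core_succ, mem_core_succ, ih]
    refine and_congr_right fun _ => ?_
    obtain ⟨l, y⟩ := z
    refine forall_congr' fun g => ?_
    rw [hs g]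
    refine imp_congr_right fun _ => ?_
    rw [Sigma.smul_mk, Sigma.smul_mk]
    simp

/-- The localization of relations between several functions at a core with the half `O`. -/
theorem joint_local [IsPretransitive G Y] (hinv : ∀ y, inv (inv y) = y)
    (hne : ∀ y, inv y ≠ y) (hG : ∀ (g : G) (y : Y), g • inv y = inv (g • y))
    (hD : ∀ k y, D k (inv y) = -D k y) (n : ℕ) (x : Y) (O : Finset Y)
    (hO : ∀ y ∈ O, inv y ∉ O) (hcover : ∀ y, y ∈ core G inv n x ↔ y ∈ O ∨ inv y ∈ O)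
    {b : κ → Y → ℤ} (hb : ∀ k y, b k (inv y) = -b k y)
    (hrel : ∀ g : G, ∑ k, ∑ y, b k y * D k (g • y) = 0) (hb0 : b ≠ 0) :
    ∃ b' : κ → Y → ℤ, (∃ k, b' k x ≠ 0) ∧ ∀ g : G, ∑ k, ∑ y ∈ O, b' k y * D k (g • y) = 0 := by
  classical
  obtain ⟨k, y₀, hk⟩ : ∃ k y, b k y ≠ 0 := by
    by_contra h
    push Not at h
    exact hb0 (funext fun k => funext (h k))
  obtain ⟨t, rfl⟩ := exists_smul_eq G x y₀
  have hinv' : ∀ z, invS κ inv (invS κ inv z) = z := fun ⟨k, y⟩ => by
    simp only [invS, hinv]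
  have hne' : ∀ z, invS κ inv z ≠ z := fun ⟨k, y⟩ h => by
    simp only [invS, Sigma.mk.injEq, heq_eq_eq, true_and] at h
    exact hne y h
  have hG' : ∀ (g : G) (z : Σ _ : κ, Y), g • invS κ inv z = invS κ inv (g • z) :=
    fun g ⟨k, y⟩ => by
      change g • (⟨k, inv y⟩ : Σ _ : κ, Y) = _
      rw [Sigma.smul_mk, hG]
      rfl
  -- the relation as a function on the copies
  have hmem : (fun z : Σ _ : κ, Y => b z.1 z.2) ∈
      Rel G (invS κ inv) (fun z : Σ _ : κ, Y => D z.1 z.2) Set.univ := by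
    refine ⟨fun ⟨k, y⟩ => hb k y, fun g => ?_, fun z hz => absurd trivial hz⟩
    rw [← hrel g, ← Finset.univ_sigma_univ, Finset.sum_sigma]
    rfl
  have hmem' := comp_mem (B' := Set.univ) hG' hmem t fun z hz => absurd trivial hz
  obtain ⟨c, hc, hcx⟩ := localize hinv' hne' hG' n (x := ⟨k, x⟩) hmem' hk
  refine ⟨fun k y => c ⟨k, y⟩, ⟨k, hcx⟩, fun g => ?_⟩
  have h1 := hc.2.1 g
  rw [sum_eq_two_mul (B := core G (invS κ inv) n ⟨k, x⟩) hinv' (Finset.univ.sigma fun _ => O)
    (fun z hz hz' => hO z.2 (Finset.mem_sigma.1 hz).2 (Finset.mem_sigma.1 hz').2)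
    (fun z => by
      rw [core_sigma, hcover, Finset.mem_sigma, Finset.mem_sigma]
      simp [invS]) (fun z => c z * (fun z : Σ _ : κ, Y => D z.1 z.2) (g • z)) (fun z => by
      obtain ⟨l, y⟩ := z
      have h2 := hc.1 ⟨l, y⟩
      change c (invS κ inv ⟨l, y⟩) * D l (g • inv y) = c ⟨l, y⟩ * D l (g • y)
      rw [h2, hG, hD]
      ring) (fun z hz => by rw [hc.2.2 z hz, zero_mul])] at h1
  have h2 := (mul_eq_zero.1 h1).resolve_left two_ne_zero
  rw [Finset.sum_sigma] at h2
  exact h2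

/-- **Several functions, cores of two elements.** -/
theorem joint_core_one [IsPretransitive G Y] (hinv : ∀ y, inv (inv y) = y)
    (hne : ∀ y, inv y ≠ y) (hG : ∀ (g : G) (y : Y), g • inv y = inv (g • y))
    (hD : ∀ k y, D k (inv y) = -D k y) (n : ℕ) (x : Y) (hcard : (core G inv n x).ncard = 2)
    (hind : ∀ c : κ → ℤ, (∀ y, ∑ k, c k * D k y = 0) → c = 0)
    {b : κ → Y → ℤ} (hb : ∀ k y, b k (inv y) = -b k y)
    (hrel : ∀ g : G, ∑ k, ∑ y, b k y * D k (g • y) = 0) : b = 0 := by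
  classical
  by_contra hb0
  have hO : ∀ y ∈ ({x} : Finset Y), inv y ∉ ({x} : Finset Y) := by
    intro y hy
    rw [Finset.mem_singleton] at hy ⊢
    rw [hy]
    exact hne x
  obtain ⟨b', ⟨k, hk⟩, h⟩ := joint_local hinv hne hG hD n x {x} hO
    (half_cover hinv hG {x} (fun y hy => by
      rw [Finset.mem_singleton] at hy
      rw [hy]
      exact self_mem n x) hO (by rw [hcard, Finset.card_singleton])) hb hrel hb0
  refine hk (congrFun (hind (fun k => b' k x) fun y => ?_) k)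
  obtain ⟨g, rfl⟩ := exists_smul_eq G x y
  have h1 := h g
  simpa only [Finset.sum_singleton] using h1

/-- **Several functions, cores which are covered by a block with a doubly transitive
stabilizer.** -/
theorem joint_core_two [IsPretransitive G Y] (hinv : ∀ y, inv (inv y) = y)
    (hne : ∀ y, inv y ≠ y) (hG : ∀ (g : G) (y : Y), g • inv y = inv (g • y))
    (hD : ∀ k y, D k (inv y) = -D k y) (n : ℕ) (x : Y) (O : Finset Y) (hx : x ∈ O)
    (hO : ∀ y ∈ O, inv y ∉ O) (hsub : ∀ y ∈ O, y ∈ core G inv n x)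
    (hcard : (core G inv n x).ncard = 2 * O.card)
    (hblock : ∀ (g : G), ∀ y ∈ O, g • y ∈ O → ∀ z ∈ O, g • z ∈ O)
    (h2 : ∀ y₁ ∈ O, ∀ y₂ ∈ O, ∀ z₁ ∈ O, ∀ z₂ ∈ O, y₁ ≠ y₂ → z₁ ≠ z₂ →
      ∃ g : G, g • y₁ = z₁ ∧ g • y₂ = z₂)
    (hind1 : ∀ c : κ → ℤ, (∀ g : G, ∑ k, c k * ∑ y ∈ O, D k (g • y) = 0) → c = 0)
    (hind2 : ∀ c : κ → ℤ, (∀ (g : G), ∀ y ∈ O, ∑ k, c k * D k (g • y) = ∑ k, c k * D k (g • x)) →
      c = 0)
    {b : κ → Y → ℤ} (hb : ∀ k y, b k (inv y) = -b k y)
    (hrel : ∀ g : G, ∑ k, ∑ y, b k y * D k (g • y) = 0) : b = 0 := by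
  classical
  by_contra hb0
  obtain ⟨c, ⟨k₀, hk₀⟩, hcrel⟩ := joint_local hinv hne hG hD n x O hO
    (half_cover hinv hG O hsub hO hcard) hb hrel hb0
  clear hrel hb0 hb b
  have hrel := hcrel
  have hcardpos : 0 < O.card := Finset.card_pos.2 ⟨x, hx⟩
  -- transitivity on the block
  have htrans : ∀ y ∈ O, ∀ z ∈ O, ∃ g : G, g • y = z := fun y _ z _ => exists_smul_eq G y z
  -- averages over the stabilizer of the block
  let Q : Finset (Equiv.Perm Y) := univ.filter fun s => ∃ g : G, (∀ y, s y = g • y) ∧ g • x ∈ O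
  have hQ : ∀ s, s ∈ Q ↔ ∃ g : G, (∀ y, s y = g • y) ∧ g • x ∈ O := fun s => by simp [Q]
  have h1Q : (1 : Equiv.Perm Y) ∈ Q := (hQ 1).2 ⟨1, fun y => by simp, by rwa [one_smul]⟩
  have hQpos : (Q.card : ℤ) ≠ 0 := by
    exact_mod_cast (Finset.card_pos.2 ⟨1, h1Q⟩).ne'
  have hQrel : ∀ g : G, ∑ k, ∑ y ∈ O, (∑ s ∈ Q, c k (s y)) * D k (g • y) = 0 := by
    intro g
    have h3 : ∀ k, ∑ y ∈ O, (∑ s ∈ Q, c k (s y)) * D k (g • y) =
        ∑ s ∈ Q, ∑ y ∈ O, c k (s y) * D k (g • y) := by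
      intro k
      simp only [Finset.sum_mul]
      rw [Finset.sum_comm]
    simp only [h3]
    rw [Finset.sum_comm]
    refine Finset.sum_eq_zero fun s hs => ?_
    obtain ⟨h, hh, hhx⟩ := (hQ s).1 hs
    rw [← hrel (g * h⁻¹)]
    refine Finset.sum_congr rfl fun k _ => ?_
    rw [← sum_block O hblock (h := h) hx hhx fun y => c k y * D k ((g * h⁻¹) • y)]
    refine Finset.sum_congr rfl fun y _ => ?_
    rw [hh, mul_smul, inv_smul_smul]
  have hQconst : ∀ k, ∀ y ∈ O, ∑ s ∈ Q, c k (s y) = ∑ s ∈ Q, c k (s x) := by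
    intro k y hy
    obtain ⟨h, hh⟩ := htrans y hy x hx
    have h5 : ∑ s ∈ Q, c k (s x) =
        ∑ s ∈ Q, c k ((s * (MulAction.toPerm h : Equiv.Perm Y)) y) := by
      refine Finset.sum_congr rfl fun s _ => ?_
      rw [Equiv.Perm.mul_apply, MulAction.toPerm_apply, hh]
    rw [h5]
    symm
    refine Finset.sum_equiv (Equiv.mulRight (MulAction.toPerm h : Equiv.Perm Y)) ?_
      fun s _ => rfl
    intro s
    rw [hQ, hQ]
    constructor
    · rintro ⟨g, hg, hgx⟩
      refine ⟨g * h, fun w => ?_, ?_⟩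
      · change s (h • w) = _
        rw [hg, mul_smul]
      · rw [mul_smul]
        refine hblock g x hx hgx (h • x) (hblock h y hy (by rwa [hh]) x hx)
    · rintro ⟨g, hg, hgx⟩
      refine ⟨g * h⁻¹, fun w => ?_, ?_⟩
      · have h6 := hg (h⁻¹ • w)
        change s (h • h⁻¹ • w) = _ at h6
        rw [smul_inv_smul] at h6
        rw [h6, mul_smul]
      · rw [mul_smul]
        have h6 : h⁻¹ • x = y := by rw [inv_smul_eq_iff, hh]
        rw [h6]
        exact hblock g x hx hgx y hy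
  have hQsum : ∀ k, ∑ y ∈ O, ∑ s ∈ Q, c k (s y) = Q.card * ∑ y ∈ O, c k y := by
    intro k
    rw [Finset.sum_comm, Finset.sum_congr rfl (g := fun _ => ∑ y ∈ O, c k y) fun s hs => ?_,
      Finset.sum_const, nsmul_eq_mul]
    obtain ⟨h, hh, hhx⟩ := (hQ s).1 hs
    rw [← sum_block O hblock (h := h) hx hhx (c k)]
    exact Finset.sum_congr rfl fun y _ => by rw [hh]
  have hS : ∀ k, ∑ y ∈ O, c k y = 0 := by
    have h3 := hind1 (fun k => ∑ s ∈ Q, c k (s x)) fun g => by
      rw [← hQrel g]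
      refine Finset.sum_congr rfl fun k _ => ?_
      rw [Finset.mul_sum]
      exact Finset.sum_congr rfl fun y hy => by rw [hQconst k y hy]
    intro k
    have h4 := hQsum k
    rw [Finset.sum_congr rfl (g := fun _ => (0 : ℤ)) fun y hy => by
      rw [hQconst k y hy]
      exact congrFun h3 k, Finset.sum_const_zero] at h4
    exact (mul_eq_zero.1 h4.symm).resolve_left hQpos
  -- averages over the stabilizer of the point
  let P : Finset (Equiv.Perm Y) := univ.filter fun s => ∃ g : G, (∀ y, s y = g • y) ∧ g • x = x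
  have hP : ∀ s, s ∈ P ↔ ∃ g : G, (∀ y, s y = g • y) ∧ g • x = x := fun s => by simp [P]
  have h1P : (1 : Equiv.Perm Y) ∈ P := (hP 1).2 ⟨1, fun y => by simp, one_smul G x⟩
  have hPpos : (P.card : ℤ) ≠ 0 := by
    exact_mod_cast (Finset.card_pos.2 ⟨1, h1P⟩).ne'
  let b : κ → Y → ℤ := fun k y => ∑ s ∈ P, c k (s y)
  have hbrel : ∀ g : G, ∑ k, ∑ y ∈ O, b k y * D k (g • y) = 0 := by
    intro g
    have h3 : ∀ k, ∑ y ∈ O, b k y * D k (g • y) =
        ∑ s ∈ P, ∑ y ∈ O, c k (s y) * D k (g • y) := by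
      intro k
      simp only [b, Finset.sum_mul]
      rw [Finset.sum_comm]
    simp only [h3]
    rw [Finset.sum_comm]
    refine Finset.sum_eq_zero fun s hs => ?_
    obtain ⟨h, hh, hhx⟩ := (hP s).1 hs
    rw [← hrel (g * h⁻¹)]
    refine Finset.sum_congr rfl fun k _ => ?_
    rw [← sum_block O hblock (h := h) hx (by rwa [hhx]) fun y => c k y * D k ((g * h⁻¹) • y)]
    refine Finset.sum_congr rfl fun y _ => ?_
    rw [hh, mul_smul, inv_smul_smul]
  have hbx : ∀ k, b k x = P.card * c k x := by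
    intro k
    simp only [b]
    rw [Finset.sum_congr rfl (g := fun _ => c k x) fun s hs => ?_, Finset.sum_const,
      nsmul_eq_mul]
    obtain ⟨h, hh, hhx⟩ := (hP s).1 hs
    rw [hh, hhx]
  have hbc : ∀ k, ∀ y ∈ O, y ≠ x → ∀ z ∈ O, z ≠ x → b k y = b k z := by
    intro k y hy hyx z hz hzx
    obtain ⟨h, h3, h4⟩ := h2 x hx y hy x hx z hz hyx.symm hzx.symm
    have h5 : ∑ s ∈ P, c k (s z) =
        ∑ s ∈ P, c k ((s * (MulAction.toPerm h : Equiv.Perm Y)) y) := by
      refine Finset.sum_congr rfl fun s _ => ?_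
      rw [Equiv.Perm.mul_apply, MulAction.toPerm_apply, h4]
    change ∑ s ∈ P, c k (s y) = ∑ s ∈ P, c k (s z)
    rw [h5]
    symm
    refine Finset.sum_equiv (Equiv.mulRight (MulAction.toPerm h : Equiv.Perm Y)) ?_
      fun s _ => rfl
    intro s
    rw [hP, hP]
    constructor
    · rintro ⟨g, hg, hgz⟩
      refine ⟨g * h, fun w => ?_, by rw [mul_smul, h3, hgz]⟩
      change s (h • w) = _
      rw [hg, mul_smul]
    · rintro ⟨g, hg, hgz⟩
      refine ⟨g * h⁻¹, fun w => ?_, ?_⟩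
      · have h6 := hg (h⁻¹ • w)
        change s (h • h⁻¹ • w) = _ at h6
        rw [smul_inv_smul] at h6
        rw [h6, mul_smul]
      · have h6 : h⁻¹ • x = x := by rw [inv_smul_eq_iff, h3]
        rw [mul_smul, h6, hgz]
  have hbsum : ∀ k, ∑ y ∈ O, b k y = 0 := by
    intro k
    simp only [b]
    rw [Finset.sum_comm]
    refine Finset.sum_eq_zero fun s hs => ?_
    obtain ⟨h, hh, hhx⟩ := (hP s).1 hs
    rw [← hS k, ← sum_block O hblock (h := h) hx (by rwa [hhx]) (c k)]
    exact Finset.sum_congr rfl fun y _ => by rw [hh]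
  have hsplit : ∀ f : Y → ℤ, ∑ y ∈ O, f y = f x + ∑ y ∈ O.erase x, f y := fun f =>
    (Finset.add_sum_erase O f hx).symm
  have hcard' : ((O.erase x).card : ℤ) = O.card - 1 := by
    rw [Finset.card_erase_of_mem hx]
    omega
  -- the values at the other points
  have hother : ∀ k, ∀ y ∈ O, y ≠ x → ((O.card : ℤ) - 1) * b k y = -b k x := by
    intro k y hy hyx
    have h3 := hbsum k
    rw [hsplit, Finset.sum_congr rfl (g := fun _ => b k y) fun z hz =>
      hbc k z (Finset.mem_of_mem_erase hz) (Finset.ne_of_mem_erase hz) y hy hyx,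
      Finset.sum_const, nsmul_eq_mul, hcard'] at h3
    linarith
  have hmain : ∀ g : G, ∑ k, c k x * ((O.card : ℤ) * D k (g • x) - ∑ y ∈ O, D k (g • y)) = 0 := by
    intro g
    have h3 : ∑ k, ((O.card : ℤ) - 1) * ∑ y ∈ O, b k y * D k (g • y) = 0 := by
      rw [← Finset.mul_sum, hbrel g, mul_zero]
    have h4 : ∀ k, ((O.card : ℤ) - 1) * ∑ y ∈ O, b k y * D k (g • y) =
        P.card * (c k x * ((O.card : ℤ) * D k (g • x) - ∑ y ∈ O, D k (g • y))) := by
      intro k
      rw [hsplit, mul_add, Finset.mul_sum, Finset.sum_congr rfl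
        (g := fun y => -b k x * D k (g • y)) fun y hy => by
          rw [← mul_assoc, hother k y (Finset.mem_of_mem_erase hy) (Finset.ne_of_mem_erase hy)],
        ← Finset.mul_sum, hsplit fun y => D k (g • y), hbx]
      ring
    simp only [h4] at h3
    rw [← Finset.mul_sum] at h3
    exact (mul_eq_zero.1 h3).resolve_left hPpos
  apply hk₀
  refine congrFun (hind2 (fun k => c k x) fun g y hy => ?_) k₀
  have h3 : ∀ g : G, (O.card : ℤ) * ∑ k, c k x * D k (g • x) =
      ∑ k, c k x * ∑ y ∈ O, D k (g • y) := by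
    intro g
    have h4 := hmain g
    simp only [mul_sub, Finset.sum_sub_distrib] at h4
    rw [Finset.mul_sum]
    rw [sub_eq_zero] at h4
    rw [← h4]
    exact Finset.sum_congr rfl fun k _ => by ring
  obtain ⟨h, hh⟩ := htrans x hx y hy
  have h4 := h3 (g * h)
  have h5 := h3 g
  have h6 : ∀ k, ∑ z ∈ O, D k ((g * h) • z) = ∑ z ∈ O, D k (g • z) := by
    intro k
    rw [← sum_block O hblock (h := h) hx (by rwa [hh]) fun y => D k (g • y)]
    exact Finset.sum_congr rfl fun y _ => by rw [mul_smul]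
  simp only [h6] at h4
  rw [← h5] at h4
  have h7 := mul_left_cancel₀ (by exact_mod_cast hcardpos.ne') h4
  rw [← h7]
  exact Finset.sum_congr rfl fun k _ => by rw [mul_smul, hh]

end Pool.Agent.H298.Core
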