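import Mathlib
import Pool.Agent.H298.Core.CMTypes
import Pool.Agent.H298.Core.Multi
import Pool.Graph.R_seed8.Y1.HZ.Main

/-!
# Families of CM types of fields with small cores
-/

set_option autoImplicit false
set_option linter.unusedSectionVars false
set_option linter.unusedVariables false

namespace Pool.Agent.H298.Core

open NumberField Module MulAction Finset Pool.Agent.H204R3.CM Pool.Agent.H977R3.CM
  Pool.Agent.TH170.CM Pool.Agent.Q29.OS Pool.Agent.Q29.DP

attribute [local instance] actC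

section

variable {E : Type} [Field E] [NumberField E] [IsCMField E] {κ : Type} [Fintype κ]
  {Φ : κ → Set (E →+* ℂ)}

theorem joint_of_one (hΦ : ∀ k, IsCMType (Φ k)) (hc : HasCore E 1) (h : IndependentSigns Φ) :
    JointlyNondegenerate Φ := by
  classical
  intro b hb hrel
  obtain ⟨n, φ, hcard⟩ := hc
  rw [coreOf_eq, mul_one] at hcard
  exact joint_core_one (G := ℂ ≃+* ℂ) (D := fun k => sgn (Φ k)) conj_conj conj_ne smul_conj
    (fun k φ => sgn_conj' (hΦ k) φ) n φ hcard h hb hrel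

theorem signs_of_joint (hΦ : ∀ k, IsCMType (Φ k)) (h : JointlyNondegenerate Φ) :
    IndependentSigns Φ := by
  classical
  intro c hc
  obtain ⟨φ⟩ : Nonempty (E →+* ℂ) := inferInstance
  have h1 := h (fun k ψ => c k * ((if ψ = φ then 1 else 0) -
    (if ψ = ComplexEmbedding.conjugate φ then 1 else 0))) (fun k ψ => by
      have h2 : (ComplexEmbedding.conjugate ψ = φ) ↔ (ψ = ComplexEmbedding.conjugate φ) :=
        ⟨fun h => by rw [← h, Pool.Agent.H298.Core.conj_conj],
          fun h => by rw [h, Pool.Agent.H298.Core.conj_conj]⟩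
      have h3 : (ComplexEmbedding.conjugate ψ = ComplexEmbedding.conjugate φ) ↔ (ψ = φ) :=
        ⟨fun h => by
          rw [← Pool.Agent.H298.Core.conj_conj ψ, h, Pool.Agent.H298.Core.conj_conj],
          fun h => by rw [h]⟩
      simp only [h2, h3]
      ring) (fun σ => by
      have h2 : ∀ k, ∑ ψ : E →+* ℂ, c k * ((if ψ = φ then 1 else 0) -
          (if ψ = ComplexEmbedding.conjugate φ then 1 else 0)) *
            sgn (Φ k) ((σ : ℂ →+* ℂ).comp ψ) = 2 * (c k * sgn (Φ k) ((σ : ℂ →+* ℂ).comp φ)) := by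
        intro k
        have h3 : sgn (Φ k) ((σ : ℂ →+* ℂ).comp (ComplexEmbedding.conjugate φ)) =
            - sgn (Φ k) ((σ : ℂ →+* ℂ).comp φ) := by
          rw [comp_conj, sgn_conj' (hΦ k)]
        simp only [mul_sub, sub_mul, sum_sub_distrib, mul_ite, mul_one, mul_zero, ite_mul, zero_mul,
          sum_ite_eq', mem_univ, if_true, h3]
        ring
      simp only [h2]
      rw [← Finset.mul_sum, hc, mul_zero])
  funext k
  have h2 := congrFun (congrFun h1 k) φ
  simp only [if_true, if_neg (conj_ne φ).symm, Pi.zero_apply] at h2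
  simpa using h2

/-- The data of an embedding of a subfield which is not totally real, with doubly transitive
extensions. -/
theorem joint_of_two (hΦ : ∀ k, IsCMType (Φ k)) {F : IntermediateField ℚ E}
    (hcore : HasCore E (finrank F E)) (hF : ¬ IsTotallyReal F) (h2 : DoublyTransitive F)
    (h : IndependentOver F Φ) : JointlyNondegenerate Φ := by
  classical
  intro b hb hrel
  obtain ⟨n, φ, hcard⟩ := hcore
  rw [coreOf_eq] at hcard
  let O : Finset (E →+* ℂ) := univ.filter fun ψ => ∀ x ∈ F, ψ x = φ x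
  have hO : ∀ ψ, ψ ∈ O ↔ ∀ x ∈ F, ψ x = φ x := by
    intro ψ
    simp [O]
  have hφO : φ ∈ O := (hO φ).2 fun x _ => rfl
  have hOcard : O.card = finrank F E := by
    rw [← card_extensions F φ, ← Fintype.card_coe, ← Nat.card_eq_fintype_card]
    exact Nat.card_congr (Equiv.subtypeEquivRight hO)
  have hOconj : ∀ y ∈ O, ComplexEmbedding.conjugate y ∉ O := by
    intro y hy hy'
    obtain ⟨x, hx, hne⟩ := conj_ne_on hF y
    exact hne (((hO _).1 hy' x hx).trans ((hO _).1 hy x hx).symm)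
  have hsub : ∀ y ∈ O, y ∈ core (ℂ ≃+* ℂ) ComplexEmbedding.conjugate n φ := by
    intro y hy
    rw [← coreOf_eq]
    exact ext_mem_coreOf hF n ((hO y).1 hy)
  have hblock : ∀ (σ : ℂ ≃+* ℂ), ∀ y ∈ O, σ • y ∈ O → ∀ w ∈ O, σ • w ∈ O := by
    intro σ y hy hσy w hw
    rw [hO] at hy hσy hw ⊢
    intro x hx
    have h3 := hσy x hx
    rw [actC_apply] at h3 ⊢
    rw [hw x hx, ← hy x hx]
    rw [hy x hx] at h3 ⊢
    exact h3
  have h2' : ∀ y₁ ∈ O, ∀ y₂ ∈ O, ∀ z₁ ∈ O, ∀ z₂ ∈ O, y₁ ≠ y₂ → z₁ ≠ z₂ →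
      ∃ σ : ℂ ≃+* ℂ, σ • y₁ = z₁ ∧ σ • y₂ = z₂ := by
    intro y₁ hy₁ y₂ hy₂ z₁ hz₁ z₂ hz₂ hy hz'
    rw [hO] at hy₁ hy₂ hz₁ hz₂
    exact h2 y₁ y₂ z₁ z₂ (fun x hx => (hy₂ x hx).trans (hy₁ x hx).symm)
      (fun x hx => (hz₁ x hx).trans (hy₁ x hx).symm)
      (fun x hx => (hz₂ x hx).trans (hy₁ x hx).symm) hy hz'
  refine joint_core_two (G := ℂ ≃+* ℂ) (D := fun k => sgn (Φ k)) conj_conj conj_ne smul_conj
    (fun k φ => sgn_conj' (hΦ k) φ) n φ O hφO hOconj hsub (by rw [hcard, hOcard]) hblock h2'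
    (fun c hc => (h c).1 fun ψ => ?_) (fun c hc => (h c).2 fun χ ψ hψ => ?_) hb hrel
  · obtain ⟨g, rfl⟩ := exists_smul_eq (ℂ ≃+* ℂ) φ ψ
    rw [← hc g]
    refine Finset.sum_congr rfl fun k _ => ?_
    congr 1
    have h3 : (univ.filter fun ψ : E →+* ℂ => ∀ x ∈ F, ψ x = (g • φ) x) =
        O.image (fun y => g • y) := by
      ext ψ
      rw [mem_filter, mem_image]
      constructor
      · rintro ⟨-, h3⟩
        refine ⟨g⁻¹ • ψ, (hO _).2 fun x hx => ?_, smul_inv_smul _ _⟩
        have h4 := h3 x hx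
        have h5 : ψ = g • g⁻¹ • ψ := (smul_inv_smul _ _).symm
        rw [h5, actC_apply, actC_apply] at h4
        exact g.injective h4
      · rintro ⟨y, hy, rfl⟩
        refine ⟨mem_univ _, fun x hx => ?_⟩
        rw [actC_apply, actC_apply, (hO y).1 hy x hx]
    have h4 : ∑ ψ ∈ O.image (fun y => g • y), sgn (Φ k) ψ = ∑ y ∈ O, sgn (Φ k) (g • y) :=
      sum_image fun a _ b _ hab => smul_left_cancel _ hab
    rw [← h4, ← h3]
  · obtain ⟨g, rfl⟩ := exists_smul_eq (ℂ ≃+* ℂ) φ χ
    have h3 : g⁻¹ • ψ ∈ O := by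
      rw [hO]
      intro x hx
      have h4 := hψ x hx
      have h5 : ψ = g • g⁻¹ • ψ := (smul_inv_smul _ _).symm
      rw [h5, actC_apply, actC_apply] at h4
      exact g.injective h4
    have h4 := hc g _ h3
    rwa [smul_inv_smul] at h4

theorem over_of_joint (hΦ : ∀ k, IsCMType (Φ k)) {F : IntermediateField ℚ E}
    (hF1 : finrank F E ≠ 1) (hF : ¬ IsTotallyReal F) (h : JointlyNondegenerate Φ) :
    IndependentOver F Φ := by
  classical
  intro c
  obtain ⟨φ⟩ : Nonempty (E →+* ℂ) := inferInstance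
  constructor
  · intro hc
    have hc' : ∀ χ : E →+* ℂ, ∑ k, c k *
        ∑ ψ : E →+* ℂ with (∀ x ∈ F, ψ x = χ x), sgn (Φ k) ψ = 0 := by
      intro χ
      have h1 := hc χ
      convert h1 using 3
    have h0 := h (fun k ψ => c k * ((if ∀ x ∈ F, ψ x = φ x then 1 else 0) -
      (if ∀ x ∈ F, ψ x = ComplexEmbedding.conjugate φ x then 1 else 0))) (fun k ψ => by
      have h1 : (∀ x ∈ F, ComplexEmbedding.conjugate ψ x = φ x) ↔
          (∀ x ∈ F, ψ x = ComplexEmbedding.conjugate φ x) := by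
        refine forall₂_congr fun x _ => ?_
        rw [ComplexEmbedding.conjugate_coe_eq, ComplexEmbedding.conjugate_coe_eq]
        exact ⟨fun h => by rw [← h, Complex.conj_conj], fun h => by rw [h, Complex.conj_conj]⟩
      have h2 : (∀ x ∈ F, ComplexEmbedding.conjugate ψ x = ComplexEmbedding.conjugate φ x) ↔
          (∀ x ∈ F, ψ x = φ x) := by
        refine forall₂_congr fun x _ => ?_
        rw [ComplexEmbedding.conjugate_coe_eq, ComplexEmbedding.conjugate_coe_eq]
        exact ⟨fun h => star_injective h, fun h => by rw [h]⟩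
      simp only [h1, h2]
      ring) (fun σ => by
      have h1 : ∀ (χ : E →+* ℂ), ∑ k, ∑ ψ : E →+* ℂ,
          c k * (if ∀ x ∈ F, ψ x = χ x then (1 : ℤ) else 0) *
            sgn (Φ k) ((σ : ℂ →+* ℂ).comp ψ) = 0 := by
        intro χ
        refine Eq.trans ?_ (hc' ((σ : ℂ →+* ℂ).comp χ))
        refine Finset.sum_congr rfl fun k _ => ?_
        rw [Finset.sum_filter, Finset.mul_sum]
        refine Fintype.sum_equiv (MulAction.toPerm σ) _ _ fun ψ => ?_
        have h2 : (∀ x ∈ F, (MulAction.toPerm σ ψ : E →+* ℂ) x = ((σ : ℂ →+* ℂ).comp χ) x) ↔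
            (∀ x ∈ F, ψ x = χ x) := by
          refine forall₂_congr fun x _ => ?_
          change σ (ψ x) = σ (χ x) ↔ _
          exact σ.injective.eq_iff
        simp only [h2]
        split_ifs
        · rw [mul_one]
          rfl
        · simp
      simp only [mul_sub, sub_mul, sum_sub_distrib, h1, sub_self])
    funext k
    have h1 := congrFun (congrFun h0 k) φ
    obtain ⟨x, hx, hne⟩ := conj_ne_on hF φ
    change c k * ((if ∀ x ∈ F, φ x = φ x then (1 : ℤ) else 0) -
      (if ∀ x ∈ F, φ x = ComplexEmbedding.conjugate φ x then 1 else 0)) = 0 at h1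
    rw [if_pos fun x _ => rfl, if_neg fun h2 => hne (h2 x hx).symm] at h1
    simpa using h1
  · intro hc
    obtain ⟨φ', hφ', hne⟩ : ∃ φ' : E →+* ℂ, (∀ x ∈ F, φ' x = φ x) ∧ φ' ≠ φ := by
      by_contra hcon
      push Not at hcon
      apply hF1
      have h1 : Nat.card {ψ : E →+* ℂ // ∀ x ∈ F, ψ x = φ x} = 1 := by
        rw [Nat.card_eq_one_iff_unique]
        exact ⟨⟨fun a b => Subtype.ext ((hcon a a.2).trans (hcon b b.2).symm)⟩,
          ⟨⟨φ, fun x _ => rfl⟩⟩⟩
      rwa [card_extensions] at h1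
    let u : (E →+* ℂ) → (E →+* ℂ) → ℤ := fun χ ψ => (if ψ = χ then 1 else 0) -
      (if ψ = ComplexEmbedding.conjugate χ then 1 else 0)
    have hu : ∀ χ ψ, u χ (ComplexEmbedding.conjugate ψ) = - u χ ψ := by
      intro χ ψ
      have h2 : (ComplexEmbedding.conjugate ψ = χ) ↔ (ψ = ComplexEmbedding.conjugate χ) :=
        ⟨fun h => by rw [← h, Pool.Agent.H298.Core.conj_conj],
          fun h => by rw [h, Pool.Agent.H298.Core.conj_conj]⟩
      have h3 : (ComplexEmbedding.conjugate ψ = ComplexEmbedding.conjugate χ) ↔ (ψ = χ) :=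
        ⟨fun h => by
          rw [← Pool.Agent.H298.Core.conj_conj ψ, h, Pool.Agent.H298.Core.conj_conj],
          fun h => by rw [h]⟩
      simp only [u, h2, h3]
      ring
    have hus : ∀ (χ : E →+* ℂ) (σ : ℂ ≃+* ℂ) k, ∑ ψ : E →+* ℂ, u χ ψ *
        sgn (Φ k) ((σ : ℂ →+* ℂ).comp ψ) = 2 * sgn (Φ k) ((σ : ℂ →+* ℂ).comp χ) := by
      intro χ σ k
      have h3 : sgn (Φ k) ((σ : ℂ →+* ℂ).comp (ComplexEmbedding.conjugate χ)) =
          - sgn (Φ k) ((σ : ℂ →+* ℂ).comp χ) := by
        rw [comp_conj, sgn_conj' (hΦ k)]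
      simp only [u, sub_mul, sum_sub_distrib, ite_mul, one_mul, zero_mul,
        sum_ite_eq', mem_univ, if_true, h3]
      ring
    have h1 := h (fun k ψ => c k * (u φ' ψ - u φ ψ)) (fun k ψ => by
      rw [hu, hu]
      ring) (fun σ => by
      have h2 : ∀ k, ∑ ψ : E →+* ℂ, c k * (u φ' ψ - u φ ψ) *
          sgn (Φ k) ((σ : ℂ →+* ℂ).comp ψ) = 2 * (c k * sgn (Φ k) ((σ : ℂ →+* ℂ).comp φ')) -
            2 * (c k * sgn (Φ k) ((σ : ℂ →+* ℂ).comp φ)) := by
        intro k
        have h3 : ∀ ψ : E →+* ℂ, c k * (u φ' ψ - u φ ψ) * sgn (Φ k) ((σ : ℂ →+* ℂ).comp ψ) =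
            c k * (u φ' ψ * sgn (Φ k) ((σ : ℂ →+* ℂ).comp ψ)) -
              c k * (u φ ψ * sgn (Φ k) ((σ : ℂ →+* ℂ).comp ψ)) := fun ψ => by ring
        simp only [h3, sum_sub_distrib]
        rw [← Finset.mul_sum, ← Finset.mul_sum, hus, hus]
        ring
      simp only [h2, sum_sub_distrib]
      rw [← Finset.mul_sum, ← Finset.mul_sum, hc ((σ : ℂ →+* ℂ).comp φ)
        ((σ : ℂ →+* ℂ).comp φ') fun x hx => by
          change σ (φ' x) = σ (φ x)
          rw [hφ' x hx], sub_self])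
    funext k
    have h2 := congrFun (congrFun h1 k) φ
    have h3 : u φ φ = 1 := by
      simp only [u, if_true, if_neg (conj_ne φ).symm, sub_zero]
    have h4 : u φ' φ = 0 ∨ u φ' φ = -1 := by
      simp only [u, if_neg hne.symm, zero_sub]
      split_ifs
      · exact Or.inr rfl
      · exact Or.inl rfl
    simp only [Pi.zero_apply, h3] at h2
    rcases h4 with h4 | h4 <;> rw [h4] at h2 <;> simpa using h2

/-- The sign functions of three types. -/
theorem signs_of_card (h3 : Fintype.card κ ≤ 3)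
    (hne : ∀ k l, k ≠ l → Φ k ≠ Φ l ∧ Φ k ≠ (Φ l)ᶜ) : IndependentSigns Φ := by
  classical
  intro c hc
  have hsame : ∀ k l, k ≠ l → ∃ φ, sgn (Φ k) φ = sgn (Φ l) φ := by
    intro k l hkl
    by_contra h
    push Not at h
    apply (hne k l hkl).2
    ext φ
    have h1 := h φ
    unfold sgn at h1
    rw [Set.mem_compl_iff]
    by_cases h4 : φ ∈ Φ k <;> by_cases h5 : φ ∈ Φ l <;> simp [h4, h5] at h1 ⊢
  have hdiff : ∀ k l, k ≠ l → ∃ φ, sgn (Φ k) φ = - sgn (Φ l) φ := by
    intro k l hkl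
    by_contra h
    push Not at h
    apply (hne k l hkl).1
    ext φ
    have h1 := h φ
    unfold sgn at h1
    by_cases h4 : φ ∈ Φ k <;> by_cases h5 : φ ∈ Φ l <;> simp [h4, h5] at h1 ⊢
  obtain ⟨T, hT⟩ : ∃ T : Finset κ, T = univ.filter fun k => c k ≠ 0 := ⟨_, rfl⟩
  have hmem : ∀ k, k ∈ T ↔ c k ≠ 0 := fun k => by rw [hT]; simp
  have hsum : ∀ φ, ∑ k ∈ T, c k * sgn (Φ k) φ = 0 := by
    intro φ
    rw [← hc φ]
    refine Finset.sum_subset (Finset.subset_univ _) fun k _ hk => ?_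
    rw [hmem, not_not] at hk
    rw [hk, zero_mul]
  have hcardT : T.card ≤ 3 := (Finset.card_le_univ T).trans h3
  have hempty : T = ∅ := by
    by_contra hTne
    obtain ⟨φ₀⟩ : Nonempty (E →+* ℂ) := inferInstance
    have h1 : T.card = 1 ∨ T.card = 2 ∨ T.card = 3 := by
      have := Finset.card_pos.2 (Finset.nonempty_iff_ne_empty.2 hTne)
      omega
    rcases h1 with h1 | h1 | h1
    · obtain ⟨a, ha⟩ := Finset.card_eq_one.1 h1
      have ha0 : c a ≠ 0 := (hmem a).1 (by rw [ha]; simp)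
      have h4 := hsum φ₀
      rw [ha, Finset.sum_singleton] at h4
      rcases sgn_sq (Φ a) φ₀ with h5 | h5 <;> rw [h5] at h4 <;> omega
    · obtain ⟨a, b, hab, hT2⟩ := Finset.card_eq_two.1 h1
      have ha0 : c a ≠ 0 := (hmem a).1 (by rw [hT2]; simp)
      have hb0 : c b ≠ 0 := (hmem b).1 (by rw [hT2]; simp)
      obtain ⟨φ, hφ⟩ := hsame a b hab
      obtain ⟨ψ, hψ⟩ := hdiff a b hab
      have h4 := hsum φ
      have h5 := hsum ψ
      rw [hT2, Finset.sum_pair hab, hφ] at h4
      rw [hT2, Finset.sum_pair hab, hψ] at h5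
      rcases sgn_sq (Φ b) φ with h6 | h6 <;> rcases sgn_sq (Φ b) ψ with h7 | h7 <;>
        rw [h6] at h4 <;> rw [h7] at h5 <;> omega
    · obtain ⟨a, b, d, hab, had, hbd, hT3⟩ := Finset.card_eq_three.1 h1
      have ha0 : c a ≠ 0 := (hmem a).1 (by rw [hT3]; simp)
      have hb0 : c b ≠ 0 := (hmem b).1 (by rw [hT3]; simp)
      have hs : ∀ φ, c a * sgn (Φ a) φ + (c b * sgn (Φ b) φ + c d * sgn (Φ d) φ) = 0 := by
        intro φ
        have h4 := hsum φ
        rwa [hT3, Finset.sum_insert (by simp [hab, had]), Finset.sum_pair hbd] at h4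
      obtain ⟨φ, hφ⟩ := hsame a b hab
      obtain ⟨ψ, hψ⟩ := hdiff a b hab
      have h4 := hs φ
      have h5 := hs ψ
      rw [hφ] at h4
      rw [hψ] at h5
      have h6 : (c a + c b) ^ 2 = c d ^ 2 := by
        rcases sgn_sq (Φ b) φ with h8 | h8 <;> rcases sgn_sq (Φ d) φ with h9 | h9 <;>
          rw [h8, h9] at h4
        · have : c a + c b = - c d := by linarith
          rw [this]; ring
        · have : c a + c b = c d := by linarith
          rw [this]
        · have : c a + c b = c d := by linarith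
          rw [this]
        · have : c a + c b = - c d := by linarith
          rw [this]; ring
      have h7 : (c a - c b) ^ 2 = c d ^ 2 := by
        rcases sgn_sq (Φ b) ψ with h8 | h8 <;> rcases sgn_sq (Φ d) ψ with h9 | h9 <;>
          rw [h8, h9] at h5
        · have : c a - c b = c d := by linarith
          rw [this]
        · have : c a - c b = - c d := by linarith
          rw [this]; ring
        · have : c a - c b = - c d := by linarith
          rw [this]; ring
        · have : c a - c b = c d := by linarith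
          rw [this]
      have h8' : 4 * (c a * c b) = 0 := by linear_combination h6 - h7
      have h8 : c a * c b = 0 := (mul_eq_zero.1 h8').resolve_left (by norm_num)
      rcases mul_eq_zero.1 h8 with h9 | h9
      · exact ha0 h9
      · exact hb0 h9
  funext k
  by_contra h
  have h1 := (hmem k).2 h
  rw [hempty] at h1
  simp at h1

/-- **Families of CM types of fields with small cores are jointly nondegenerate.** -/
theorem joint_of_coreTypes (h : CoreTypes Φ) : JointlyNondegenerate Φ := by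
  classical
  obtain ⟨hΦ, ⟨h1, h2⟩ | ⟨F, h1, h2, h3, h4⟩ | ⟨h1, h2⟩⟩ := h
  · exact joint_of_one hΦ h1 h2
  · exact joint_of_two hΦ h1 h2 h3 h4
  · intro b hb hrel
    funext k
    refine noRelations_of_coreType (h2 k) (b k) (hb k) fun σ => ?_
    have h3 := hrel σ
    rw [Fintype.sum_subsingleton _ k] at h3
    simpa using h3

end

theorem coreTypeCriteria_hold : CoreTypeCriteria :=
  ⟨fun E _ _ _ => ⟨fun Φ c hΦ hc => degenerate_iff_core hΦ hc, fun Φ hΦ =>
    ⟨degenerate_iff_few hΦ, degenerate_iff_six hΦ, degenerate_iff_triply hΦ⟩, fun κ _ Φ hΦ =>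
    ⟨fun h => ⟨signs_of_joint hΦ, joint_of_one hΦ h⟩,
      fun F h1 h2 h3 h4 => ⟨over_of_joint hΦ h2 h3, joint_of_two hΦ h1 h3 h4⟩,
      fun h hne => signs_of_card h hne⟩⟩, coreFacts_hold,
    fun I K _ _ _ h => pairwiseIndep_of_separates h⟩

/-- Families of types of independent fields. -/
theorem nondeg_types {ι : Type} [Fintype ι] {E : ι → Type} [∀ i, Field (E i)]
    [∀ i, NumberField (E i)] [∀ i, IsCMField (E i)] (hind : PairwiseIndep E)
    {κ : ι → Type} [∀ i, Fintype (κ i)] {Φ : ∀ i, κ i → Set (E i →+* ℂ)}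
    (hΦ : ∀ i k, IsCMType (Φ i k)) (h : ∀ i, JointlyNondegenerate (Φ i)) {L : Type*} [Field L]
    [NumberField L] [IsGalois ℚ L] (j : L →+* ℂ)
    (hj : ∀ i, ∀ ψ : E i →+* ℂ, ∃ φ : E i →+* L, j.comp φ = ψ) :
    Nondeg (E := fun x : Σ i, κ i => E x.1) (fun x => Φ x.1 x.2) j := by
  classical
  intro c hc hrel
  have h1 : ∀ i (g : L ≃ₐ[ℚ] L), ∑ z : Σ _ : κ i, (E i →+* L), c ⟨i, z.1⟩ z.2 *
      (if j.comp (g • z.2) ∈ Φ i z.1 then (1 : ℤ) else -1) = 0 := by
    intro i g
    refine indep (G := L ≃ₐ[ℚ] L) (fun i => Σ _ : κ i, (E i →+* L))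
      (fun i => invS (κ i) cbar)
      (fun i z => if j.comp z.2 ∈ Φ i z.1 then (1 : ℤ) else -1)
      (fun i z => sign_cbar (hΦ i z.1) j z.2)
      (fun g i z => rfl) ?_ (fun i z => c ⟨i, z.1⟩ z.2) (fun g => ?_) i g
    · rintro i i' hii ⟨k, φ⟩ ⟨l, ψ⟩
      obtain ⟨σ, hσ1, hσ2⟩ := hind i i' hii (j.comp φ) (j.comp ψ)
      obtain ⟨g, hg⟩ := exists_gal j σ
      have h2 : g • φ = φ := by
        ext x
        apply j.injective
        rw [emb_smul_apply, ← hg]
        exact hσ1 x
      have h3 : g • ψ = cbar ψ := by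
        ext x
        apply j.injective
        rw [emb_smul_apply, ← hg]
        have h1 := RingHom.congr_fun (comp_cbar j ψ) x
        rw [ComplexEmbedding.conjugate_coe_eq] at h1
        exact (hσ2 x).trans h1.symm
      refine ⟨g, ?_, ?_⟩
      · rw [Sigma.smul_mk, h2]
      · rw [Sigma.smul_mk, h3]
        rfl
    · rw [← hrel g, ← Finset.univ_sigma_univ, Finset.sum_sigma]
      refine Finset.sum_congr rfl fun i _ => ?_
      rw [← Finset.univ_sigma_univ, Finset.sum_sigma]
      rfl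
  rintro ⟨i, k⟩ φ
  have hb : Function.Bijective (fun φ : E i →+* L => j.comp φ) := by
    constructor
    · intro φ φ' h
      ext x
      exact j.injective (RingHom.congr_fun h x)
    · exact hj i
  let e : (E i →+* L) ≃ (E i →+* ℂ) := Equiv.ofBijective _ hb
  have h2 := h i (fun k ψ => c ⟨i, k⟩ (e.symm ψ)) (fun k ψ => by
    obtain ⟨φ, rfl⟩ := e.surjective ψ
    have h2 : ComplexEmbedding.conjugate (e φ) = e (cbar φ) := (comp_cbar j φ).symm
    rw [h2, Equiv.symm_apply_apply, Equiv.symm_apply_apply]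
    exact hc ⟨i, k⟩ φ) (fun σ => by
    obtain ⟨g, hg⟩ := exists_gal j σ
    rw [← h1 i g, ← Finset.univ_sigma_univ, Finset.sum_sigma]
    refine Finset.sum_congr rfl fun k _ => (Fintype.sum_equiv e _ _ fun x => ?_).symm
    simp only
    rw [Equiv.symm_apply_apply, sgn]
    have h2 : (σ : ℂ →+* ℂ).comp (e x) = j.comp (g • x) := by
      ext y
      exact hg (x y)
    rw [h2])
  have h3 := congrFun (congrFun h2 k) (e φ)
  simpa using h3

/-- Hodge classes on the products with the abelian varieties of jointly nondegenerate types. -/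
theorem hodgeTimes_types {ι : Type} [Fintype ι] {E : ι → Type} [∀ i, Field (E i)]
    [∀ i, NumberField (E i)] [∀ i, IsCMField (E i)] (hind : PairwiseIndep E)
    {κ : ι → Type} [∀ i, Fintype (κ i)] {Φ : ∀ i, κ i → Set (E i →+* ℂ)}
    (h : ∀ i, CoreTypes (Φ i)) :
    Pool.Agent.Y1.HZ.HodgeTimes (E := fun x : Σ i, κ i => E x.1) (fun x => Φ x.1 x.2) := by
  obtain ⟨L, _, _, j, hj⟩ := exists_galois E
  intro J _ t v V hun F hF
  exact Pool.Agent.Y1.HZ.mem_cross (E := fun x : Σ i, κ i => E x.1)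
    (Φ := fun x => Φ x.1 x.2) (fun x => (h x.1).1 x.2) t j V (fun x => hj x.1)
    (nondeg_types hind (fun i k => (h i).1 k) (fun i => joint_of_coreTypes (h i)) j hj) hun F hF

end Pool.Agent.H298.Core
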