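import Mathlib
import Pool.Agent.H298.Core.DoubleTypeDefs
import Pool.Agent.H298.Core.DoubleField
import Pool.Agent.H298.Core.MultiTypes

/-!
# CM types of fields whose maximal real subfield has a doubly transitive Galois group: proofs
-/

set_option autoImplicit false
set_option linter.unusedSectionVars false

namespace Pool.Agent.H298.Core

open NumberField Module Pool.Agent.H204R3.CM Pool.Agent.H977R3.CM Pool.Agent.TH170.CM
  Pool.Agent.Y156.P

variable {E : Type} [Field E] [NumberField E] [IsCMField E] {Φ : Set (E →+* ℂ)}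

theorem coreType_of_doubly (hΦ : IsCMType Φ) (h : TwiceTransitive (maximalRealSubfield E))
    (hg : ¬ TwoGraphDegree (finrank ℚ E / 2)) (h1 : ¬ Induced (sgn Φ))
    (h2 : ¬ Balanced (finrank ℚ E / 2) (sgn Φ)) : CoreType Φ := by
  refine ⟨hΦ, ?_⟩
  rcases doubly_field h hg with h3 | ⟨F, h3, h4, h5⟩
  · exact Or.inr (Or.inl h3)
  · refine Or.inr (Or.inr (Or.inl ⟨h1, Or.inr ⟨finrank F E, Or.inl ⟨hasCore_top h3.symm,
      Or.inr ⟨F, rfl, h4, h5⟩⟩, Or.inr (Or.inr ?_)⟩⟩))
    have h7 : finrank ℚ E / 2 = finrank F E := by omega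
    rw [← h7]
    exact h2

/-- **Fields whose maximal real subfield has a doubly transitive Galois group.** -/
theorem degenerate_iff_doubly (hΦ : IsCMType Φ) (h : TwiceTransitive (maximalRealSubfield E))
    (hg : ¬ TwoGraphDegree (finrank ℚ E / 2)) :
    Degenerate Φ ↔ Induced (sgn Φ) ∨ Balanced (finrank ℚ E / 2) (sgn Φ) := by
  refine ⟨fun h1 => ?_, fun h1 => degenerate_of (h1.imp_right fun h2 => ⟨_, h2⟩)⟩
  by_contra h2
  rw [not_or] at h2
  exact not_degenerate_core (coreType_of_doubly hΦ h hg h2.1 h2.2) h1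

theorem doublyTypeCriteria_hold : DoublyTypeCriteria :=
  ⟨fun _ h => not_twoGraphDegree h, fun _ _ _ _ h hg => ⟨doubly_field h hg, fun _ hΦ =>
    ⟨degenerate_iff_doubly hΦ h hg, fun h1 h2 => coreType_of_doubly hΦ h hg h1 h2⟩⟩⟩

theorem allTypeCriteria_hold : AllTypeCriteria := ⟨coreTypeCriteria_hold, doublyTypeCriteria_hold⟩

end Pool.Agent.H298.Core
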