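import Mathlib
import Pool.Agent.H298.Core.Double

/-!
# Criteria for Weil numbers of core type, in short
-/

set_option autoImplicit false

namespace Pool.Agent.H298.Core.Fib

open NumberField Module Pool.Agent.H298.Core

theorem short_criteria (K : Type) [Field K] [NumberField K] [IsCMField K] :
    (LargeClosure K 4 → FewDivisors K) ∧
    ∀ (p : ℕ) [Fact p.Prime] (a : ℕ), 0 < a → ∀ π : K, Pool.Agent.Y156.P.IsSimpleWeil p a π →
      FieldCriteria p a π ∧
      (TwiceTransitive (maximalRealSubfield K) →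
        Odd (finrank ℚ K / 2) ∨ (finrank ℚ K / 2 - 1).Prime →
        (∀ F : IntermediateField ℚ K, 2 * finrank F K = finrank ℚ K → ¬ IsTotallyReal F →
          ¬ SupersingularNorm p a π F) → IsCoreWeil p a π) :=
  ⟨(coreFacts_hold K).2.2.2.2.2.1, fun p _ a ha π hπ =>
    ⟨(allCriteria_hold.1.2.1 K p a ha π hπ).2, fun hT hg hF =>
      (allCriteria_hold.2.2 K hT (allCriteria_hold.2.1 _ hg)).2 p a π hπ hF⟩⟩

theorem short_criteria' (K : Type) [Field K] [NumberField K] [IsCMField K] (p : ℕ) [Fact p.Prime]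
    (a : ℕ) (ha : 0 < a) (π : K) (hπ : Pool.Agent.Y156.P.IsSimpleWeil p a π) :
    (LargeClosure K 3 → IsCoreWeil p a π) ∧
    (LargeClosure K 4 → Pool.Agent.Y156.P.OddSlopes p a π → IsCoreWeil p a π) ∧
    (TwiceTransitive (maximalRealSubfield K) ∧
      (Odd (finrank ℚ K / 2) ∨ (finrank ℚ K / 2 - 1).Prime) ∨
      6 ≤ finrank ℚ K ∧ TriplyTransitive (maximalRealSubfield K) →
      (∀ F : IntermediateField ℚ K, 2 * finrank F K = finrank ℚ K → ¬ IsTotallyReal F →
        ¬ SupersingularNorm p a π F) → IsCoreWeil p a π) := by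
  obtain ⟨h1, h2⟩ := short_criteria K
  obtain ⟨⟨h3, h4, h5⟩, h6⟩ := h2 p a ha π hπ
  refine ⟨h3, fun h => h4 (h1 h), fun h hF => ?_⟩
  rcases h with ⟨h, h'⟩ | ⟨h, h'⟩
  · exact h6 h h' hF
  · exact h5 h h' hF

end Pool.Agent.H298.Core.Fib
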