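import Mathlib
import Pool.Agent.H298.Core.WeilRel
import Pool.Graph.R_pool_sql_team_seeded_2aa45f1a.Q64.L.Pairs
import Pool.Graph.R_pool_sql_team_seeded_2aa45f1a.Q64.L.Defs
import Pool.Graph.R_seed8.Y1.CT.Field

/-!
# Numbers unrelated to CM fields with small cores are good
-/

set_option autoImplicit false

namespace Pool.Agent.H298.Core

open NumberField Polynomial Pool.Agent.H977R3.CM Pool.Agent.Y1.CT Pool.Agent.Q64.L

variable {p : ℕ} [hp : Fact p.Prime] {a : ℕ} {I : Type} [Fintype I] {K : I → Type}
  [∀ i, Field (K i)] [∀ i, NumberField (K i)] [∀ i, IsCMField (K i)]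

/-- The polynomials whose roots are unrelated to the fields `K i` are good for the abelian varieties
whose Weil numbers lie in independent fields with small cores. -/
theorem good_core (ha : 0 < a) (hind : PairwiseIndep K) {π : ∀ i, K i}
    (hπ : ∀ i, IsCoreWeil p a (π i)) {f : I → ℤ[X]} (hf : ∀ i, IsPolyOf (π i) (f i)) :
    Good (UnrelatedRoots K) (p ^ a) f where
  monic := fun i => (hf i).1
  one := fun ρ hρ => by
    rw [map_sub, aeval_X, map_one, sub_eq_zero] at hρ
    rw [hρ]
    exact unrelated_one K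
  coeff := fun χ h h1 => by
    refine (h 0 ?_).1 rfl
    rw [aeval_def, eval₂_at_zero, h1, map_zero]
  pair := fun L _ _ s hs χ hχ hrank ρ hρ =>
    Y1.CT.exactPair_field f (fun i => (hf i).1) (p ^ a) s χ hχ
      (fun ρ hρ => (noRel_unrelated ha hind hπ hf).pair s hs ρ (hrank ρ hρ)) ρ hρ

end Pool.Agent.H298.Core
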