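import Mathlib
import Pool.Graph.R_pool_sql_team_seeded_2aa45f1a.Q64.P.Defs
import Pool.Graph.R_pool_sql_team_seeded_f72693b1.W543.MO.Defs

/-!
# The category of Chow motives of a class of varieties dominated by products
-/

set_option autoImplicit false

namespace Pool.Agent.H298.Core

open CategoryTheory Polynomial Pool.Agent.H914 Pool.Agent.H914.VarClass
  Pool.Agent.H914.VarClass.Obj Pool.Agent.W492.BB Pool.Agent.W484.CK Pool.Agent.Y1.CT
  Pool.Agent.Y122.NCP Pool.Agent.Q64.P Pool.Agent.Q64.CT
open Pool.Agent.W543.MO (PreservesOne CHMot IsSemisimpleCat)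

/-- The situation of the theorem: each variety `X` of the class `𝒱` (over the field with `q ^ s`
elements) is dominated by a product `A × Z` where `A` is an abelian variety, isogenous to a product
of powers of abelian varieties coming from the field with `q` elements with characteristic
polynomials `f i`, and where `Z` belongs to the set `𝒵` of varieties, closed under products; the eigenvalues of the Frobenius
endomorphism of `Z` on the cohomology are roots of a polynomial with the property `P`. That `X` is
dominated by `A × Z` means that there are a morphism `g` from `A × Z` to `X` and a class `w` on `A × Z`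
such that `g_* w` is the fundamental class of `X`. The theorem of Kimura: if rational and homological
equivalence coincide on the varieties in `𝒵`, their motives are finite-dimensional; so the motives of
the varieties `A × Z`, and of those dominated by these, are finite-dimensional, and homologically
trivial self-correspondences of degree zero are nilpotent. -/
structure IsDominatedClass {k : Type} [Field k] {𝒱 : VarClass k} {C : TheoryData.{0, 0, 0} 𝒱 ℚ}
    {F : Type} [Field F] [CharZero F] (H : WeilTheoryData.{0, 0, 0} C F) (P : ℚ[X] → Prop)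
    (q s : ℕ) {I : Type} (f : I → ℤ[X]) (𝒵 : 𝒱.Obj → Prop) : Prop where
  standard : IsStandard H
  pos : 0 < s
  prod_mem : ∀ Z Z', 𝒵 Z → 𝒵 Z' → 𝒵 (Z.prod Z')
  kimura : (∀ Z, 𝒵 Z → RatEqHom H Z) → ∀ X : 𝒱.Obj, Nilpotence H X
  dominated : ∀ X : 𝒱.Obj, ∃ (A Z : 𝒱.Obj) (πA : A ⟶ A) (πZ : Z ⟶ Z), 𝒵 Z ∧
    IsAbelian H πA q s f ∧ EigenvaluesIn H P πZ ∧ IsFrobenius C (prodMap πA πZ) (q ^ s) ∧
      ∃ (g : A.prod Z ⟶ X) (w : C.A (A.prod Z)), C.down g w = 1

/-- `MotivesReduce P q f`: in the situation `IsDominatedClass` (for the Chow groups `C` with rational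
coefficients of the class `𝒱` of varieties over a field `k`, finite in the intended use, every Weil
cohomology theory `H` with coefficients in an algebraically closed field `F` of characteristic zero)
the category of Chow motives of the class `𝒱` is abelian and semisimple if and only if rational and
numerical equivalence coincide on the varieties in `𝒵`. -/
def MotivesReduce (P : ℚ[X] → Prop) (q : ℕ) {I : Type} (f : I → ℤ[X]) : Prop :=
  ∀ (k : Type) [Field k] (𝒱 : VarClass k) (C : TheoryData.{0, 0, 0} 𝒱 ℚ) [IsChow C]
    [PreservesOne C] (F : Type) [Field F] [IsAlgClosed F] [CharZero F]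
    (H : WeilTheoryData.{0, 0, 0} C F) [IsWeil H] (s : ℕ) (𝒵 : 𝒱.Obj → Prop),
    IsDominatedClass H P q s f 𝒵 →
      (IsSemisimpleCat (CHMot C) ↔ ∀ Z, 𝒵 Z → RatEqNum H Z)

end Pool.Agent.H298.Core
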