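import Mathlib
import Pool.Agent.H298.Core.MotCatDefs
import Pool.Agent.H298.Core.GoodRel
import Pool.Graph.R_pool_sql_team_seeded_2aa45f1a.Q64.N.Main
import Pool.Graph.R_pool_sql_team_seeded_f72693b1.W543.MO.Main

/-!
# The category of Chow motives of a class of varieties dominated by products
-/

set_option autoImplicit false

namespace Pool.Agent.H298.Core

open Polynomial Pool.Agent.H914 Pool.Agent.W492.BB Pool.Agent.Q64.P Pool.Agent.Q64.CT
  Pool.Agent.Q64.L
open Pool.Agent.W484.CK (RatEqNum RatEqHom)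
open Pool.Agent.W543.MO (PreservesOne CHMot IsSemisimpleCat isSemisimpleCat_iff)

theorem motivesReduce {P : ℚ[X] → Prop} {q : ℕ} (hq : 1 < q) {I : Type} {f : I → ℤ[X]}
    (hG : Good P q f) : MotivesReduce P q f := by
  intro k _ 𝒱 C hC hone F _ _ _ H hH s 𝒵 hsit
  refine (isSemisimpleCat_iff (C := C) (H := H) hsit.standard).trans
    ⟨fun hX Z _ => hX Z, fun hZ X => ?_⟩
  have hhom : ∀ Z, 𝒵 Z → RatEqHom H Z := by
    intro Z hZZ c x hx hcl
    refine hZ Z hZZ c x hx fun j w _ _ => ?_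
    have h1 : H.cl (C.mul x w) = H.cl x * H.cl w := map_mul H.cl x w
    show H.tr Z (H.cl (C.mul x w)) = 0
    rw [h1, hcl, zero_mul, map_zero]
  obtain ⟨A, Z, πA, πZ, hZZ, hA, hZ', hF, hdom⟩ := hsit.dominated X
  have h2 := Pool.Agent.Q64.N.ratNumReduces' hq hG k 𝒱 C F H s A Z πA πZ
    ⟨hsit.standard, hsit.pos, hA, hZ', hsit.kimura hhom _⟩ hF
  exact Pool.Agent.W589.MO.t_DESC k 𝒱 C F H X (A.prod Z) hdom
    fun c => (h2.2 c).1.2 fun i _ _ => hZ Z hZZ (c - i)

end Pool.Agent.H298.Core
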