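import Mathlib
import Pool.Agent.H298.Core.WeilDefs
import Pool.Graph.R_pool_sql_team_seeded_2aa45f1a.Q306.TP.Forces
import Pool.Graph.R_pool_sql_team_seeded_2aa45f1a.Q70.MM.MotDefs
import Pool.Graph.R_pool_sql_team_seeded_b0a926ef.R696.MS.Over
import Pool.Graph.R_seed8.TH170.FT.MTDefs
import Pool.Graph.R_seed8.TH170.FT.TateDefs

/-!
# Sums of arbitrary motives with abelian varieties which have one good Frobenius element: definitions
-/

set_option autoImplicit false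

namespace Pool.Agent.H298.Core

open NumberField Module Pool.Agent.TH170 Pool.Agent.H204R3.GP Pool.Agent.Q70.MM
open Pool.Agent.Y1.CT (UnrelatedTo)
open Pool.Agent.Q306.TP (IsProductOfUnrelated)
open Pool.Agent.R696.MS (Belongs TateOver)

/-- The Mumford-Tate conjecture for all abelian varieties `A` over finitely generated subfields of the
complex numbers with a Frobenius element whose characteristic polynomial is the product of the
minimal polynomials of the `π i`, for all prime numbers `ℓ`: all Tate classes in the tensor powers of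
`H^1(A)` are linear combinations of products of Hodge classes of degree two. -/
def MTAbelian (p : ℕ) [Fact p.Prime] (a : ℕ) {I : Type} [Fintype I] (K : I → Type)
    [∀ i, Field (K i)] [∀ i, NumberField (K i)] [∀ i, IsCMField (K i)] (π : ∀ i, K i) : Prop :=
  ∀ (ℓ : ℕ) [Fact ℓ.Prime] (W T V Γ : Type) [AddCommGroup W] [Module ℚ W] [AddCommGroup T]
    [Module ℂ T] [AddCommGroup V] [Module ℚ_[ℓ] V] [FiniteDimensional ℚ_[ℓ] V] [Group Γ]
    (per : W →+ T) (ω₀ : W →ₗ[ℚ] W →ₗ[ℚ] ℚ) (comp : W →+ V) (ρ : Representation ℚ_[ℓ] Γ V)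
    (χ : Γ →* ℚ_[ℓ]) (ω : V →ₗ[ℚ_[ℓ]] V →ₗ[ℚ_[ℓ]] ℚ_[ℓ]),
    FT.IsRealization per ω₀ comp ρ χ ω → FT.HasFrobenius ρ χ p a π →
      MumfordTateStrong per comp ρ χ

/-- For all these abelian varieties `A` and all motives `N` for which the Frobenius element `γ` is
killed, on the `ℓ`-adic realization, by a rational polynomial `f` all of whose complex roots are
products of numbers unrelated to all the fields `K i`: the Mumford-Tate conjecture holds for the sum
`H_1(A) ⊕ N` if and only if it holds for `N`. -/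
def MTSum (p : ℕ) [Fact p.Prime] (a : ℕ) {I : Type} [Fintype I] (K : I → Type)
    [∀ i, Field (K i)] [∀ i, NumberField (K i)] [∀ i, IsCMField (K i)] (π : ∀ i, K i) : Prop :=
  ∀ (ℓ : ℕ) [Fact ℓ.Prime] (W T V Γ WN R M : Type) [AddCommGroup W] [Module ℚ W]
    [AddCommGroup T] [Module ℂ T] [AddCommGroup V] [Module ℚ_[ℓ] V] [FiniteDimensional ℚ_[ℓ] V]
    [Group Γ] [AddCommGroup WN] [Module ℚ WN] [AddCommGroup R] [Module ℝ R] [AddCommGroup M]
    [Module ℚ_[ℓ] M] [FiniteDimensional ℚ_[ℓ] M] (per : W →+ T) (ω₀ : W →ₗ[ℚ] W →ₗ[ℚ] ℚ)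
    (comp : W →+ V) (ρ : Representation ℚ_[ℓ] Γ V) (χ : Γ →* ℚ_[ℓ])
    (ω : V →ₗ[ℚ_[ℓ]] V →ₗ[ℚ_[ℓ]] ℚ_[ℓ]) (perN : WN →+ R) (h : ℂ → R →ₗ[ℝ] R) (compN : WN →+ M)
    (τ : Representation ℚ_[ℓ] Γ M) (γ : Γ) (f : Polynomial ℚ),
    FT.IsRealization per ω₀ comp ρ χ ω → χ γ = (p : ℚ_[ℓ]) ^ a →
    (ρ γ).charpoly = ∏ i, (minpoly ℚ (π i)).map (algebraMap ℚ ℚ_[ℓ]) → f ≠ 0 →
    Polynomial.aeval (τ γ) (f.map (algebraMap ℚ ℚ_[ℓ])) = 0 →
    (∀ α : ℂ, Polynomial.aeval α f = 0 → IsProductOfUnrelated K α) →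
      (MumfordTateFor (per.prodMap perN) (sumHodge h) (comp.prodMap compN) (sumRep ρ τ) χ ↔
        MumfordTateFor perN h compN τ χ)

/-- For all these abelian varieties `A` and all abelian varieties `B` such that the Frobenius element
`γ` is killed, on the Tate module `VB` of `B`, by a rational polynomial `f` all of whose complex roots
are products of numbers unrelated to all the fields `K i`: the Mumford-Tate conjecture holds for
`A × B` if and only if it holds for `B`. -/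
def MTProduct (p : ℕ) [Fact p.Prime] (a : ℕ) {I : Type} [Fintype I] (K : I → Type)
    [∀ i, Field (K i)] [∀ i, NumberField (K i)] [∀ i, IsCMField (K i)] (π : ∀ i, K i) : Prop :=
  ∀ (ℓ : ℕ) [Fact ℓ.Prime] (W T V Γ WB TB VB : Type) [AddCommGroup W] [Module ℚ W]
    [AddCommGroup T] [Module ℂ T] [AddCommGroup V] [Module ℚ_[ℓ] V] [FiniteDimensional ℚ_[ℓ] V]
    [Group Γ] [AddCommGroup WB] [Module ℚ WB] [AddCommGroup TB] [Module ℂ TB] [AddCommGroup VB]
    [Module ℚ_[ℓ] VB] [FiniteDimensional ℚ_[ℓ] VB] (per : W →+ T) (ω₀ : W →ₗ[ℚ] W →ₗ[ℚ] ℚ)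
    (comp : W →+ V) (ρ : Representation ℚ_[ℓ] Γ V) (χ : Γ →* ℚ_[ℓ])
    (ω : V →ₗ[ℚ_[ℓ]] V →ₗ[ℚ_[ℓ]] ℚ_[ℓ]) (perB : WB →+ TB) (compB : WB →+ VB)
    (τ : Representation ℚ_[ℓ] Γ VB) (γ : Γ) (f : Polynomial ℚ),
    FT.IsRealization per ω₀ comp ρ χ ω → χ γ = (p : ℚ_[ℓ]) ^ a →
    (ρ γ).charpoly = ∏ i, (minpoly ℚ (π i)).map (algebraMap ℚ ℚ_[ℓ]) → f ≠ 0 →
    Polynomial.aeval (τ γ) (f.map (algebraMap ℚ ℚ_[ℓ])) = 0 →
    (∀ α : ℂ, Polynomial.aeval α f = 0 → IsProductOfUnrelated K α) →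
      (MumfordTateFor (per.prodMap perB) (mulBy (T := T × TB)) (comp.prodMap compB)
        (sumRep ρ τ) χ ↔ MumfordTateFor perB (mulBy (T := TB)) compB τ χ)

/-- Let `H` be the group of the `ℚ_ℓ`-points of the motivic Galois group of `h ^ 1(A) ⊕ N`, with its
actions `R` and `T` on the `ℓ`-adic realizations and the character `ν` on the Tate motive, `H₀` its
identity component, `i : Γ → H` the homomorphism from the Galois group. `ω` is the Weil pairing; the
Tate classes of degree two of `A` are fixed by `H₀`, since they are classes of divisors (Faltings). The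
Frobenius element `γ` is as above. -/
structure IsMotivicSum (p : ℕ) [Fact p.Prime] (a : ℕ) {I : Type} [Fintype I] (K : I → Type)
    [∀ i, Field (K i)] [∀ i, NumberField (K i)] [∀ i, IsCMField (K i)] (π : ∀ i, K i)
    {ℓ : ℕ} [Fact ℓ.Prime] {V W Γ H : Type} [AddCommGroup V] [Module ℚ_[ℓ] V]
    [FiniteDimensional ℚ_[ℓ] V] [AddCommGroup W] [Module ℚ_[ℓ] W] [FiniteDimensional ℚ_[ℓ] W]
    [Group Γ] [Group H] (i : Γ →* H) (H₀ : Subgroup H) (R : Representation ℚ_[ℓ] H V)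
    (T : Representation ℚ_[ℓ] H W) (ν : H →* ℚ_[ℓ])
    (ω : V →ₗ[ℚ_[ℓ]] V →ₗ[ℚ_[ℓ]] ℚ_[ℓ]) (γ : Γ) (f : Polynomial ℚ) : Prop where
  tateModule : FT.IsTateModule (R.comp i) (ν.comp i) ω
  degreeTwo : ∀ B : V →ₗ[ℚ_[ℓ]] V →ₗ[ℚ_[ℓ]] ℚ_[ℓ], IsTate2 (R.comp i) (ν.comp i) B →
    ∀ h ∈ H₀, ∀ u v, B (R h u) (R h v) = ν h * B u v
  character : ν (i γ) = (p : ℚ_[ℓ]) ^ a
  charpoly : (R (i γ)).charpoly = ∏ i, (minpoly ℚ (π i)).map (algebraMap ℚ ℚ_[ℓ])
  ne_zero : f ≠ 0
  kills : Polynomial.aeval (T (i γ)) (f.map (algebraMap ℚ ℚ_[ℓ])) = 0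
  roots : ∀ α : ℂ, Polynomial.aeval α f = 0 → IsProductOfUnrelated K α

section

variable {k V Γ H : Type} [Field k] [AddCommGroup V] [Module k V] [Group Γ] [Group H]

/-- The tensors on which `Γ` acts by the `j`-th power of the character are exactly those on which `H`
acts by its `j`-th power, for all `j`. -/
def TateFull (i : Γ →* H) (R : Representation k H V) (ν : H →* k) : Prop :=
  ∀ (s : ℕ) (j : ℤ) (φ : MultilinearMap k (fun _ : Fin s => V) k),
    (∀ (g : Γ) (v : Fin s → V), φ (fun l => R (i g) (v l)) = ν (i g) ^ j * φ v) ↔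
    ∀ (h : H) (v : Fin s → V), φ (fun l => R h (v l)) = ν h ^ j * φ v

/-- The tensors on which `Δ` acts by powers of the character are fixed by the elements of the motivic
Galois group over the fixed field of `Δ` at which the character is trivial. -/
def SatoTateOver (i : Γ →* H) (H₀ : Subgroup H) (R : Representation k H V) (ν : H →* k)
    (Δ : Subgroup Γ) : Prop :=
  ∀ (s : ℕ) (j : ℤ) (φ : MultilinearMap k (fun _ : Fin s => V) k),
    (∀ g ∈ Δ, ∀ v : Fin s → V, φ (fun l => R (i g) (v l)) = ν (i g) ^ j * φ v) →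
    ∀ h : H, Belongs i H₀ Δ h → ν h = 1 → ∀ v : Fin s → V, φ (fun l => R h (v l)) = φ v

/-- The tensors on which a subgroup of finite index acts by a power of the character are fixed by the
elements of the identity component at which the character is trivial. -/
def SatoTateConnected (i : Γ →* H) (H₀ : Subgroup H) (R : Representation k H V) (ν : H →* k) :
    Prop :=
  ∀ (s : ℕ) (j : ℤ) (φ : MultilinearMap k (fun _ : Fin s => V) k),
    (∃ Δ : Subgroup Γ, Δ.FiniteIndex ∧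
      ∀ g ∈ Δ, ∀ v : Fin s → V, φ (fun l => R (i g) (v l)) = ν (i g) ^ j * φ v) →
    ∀ h ∈ H₀, ν h = 1 → ∀ v : Fin s → V, φ (fun l => R h (v l)) = φ v

end

/-- The motivic Tate conjecture over all finite extensions holds for `h ^ 1(A)`, and it holds for
`h ^ 1(A) ⊕ N` if and only if it holds for `N`; if it holds for `N` and the Galois group maps onto the
components of the motivic Galois group, then it holds for the full groups over the ground field. -/
def TateSum (p : ℕ) [Fact p.Prime] (a : ℕ) {I : Type} [Fintype I] (K : I → Type)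
    [∀ i, Field (K i)] [∀ i, NumberField (K i)] [∀ i, IsCMField (K i)] (π : ∀ i, K i) : Prop :=
  ∀ (ℓ : ℕ) [Fact ℓ.Prime] (V W Γ H : Type) [AddCommGroup V] [Module ℚ_[ℓ] V]
    [FiniteDimensional ℚ_[ℓ] V] [AddCommGroup W] [Module ℚ_[ℓ] W] [FiniteDimensional ℚ_[ℓ] W]
    [Group Γ] [Group H] (i : Γ →* H) (H₀ : Subgroup H) (R : Representation ℚ_[ℓ] H V)
    (T : Representation ℚ_[ℓ] H W) (ν : H →* ℚ_[ℓ])
    (ω : V →ₗ[ℚ_[ℓ]] V →ₗ[ℚ_[ℓ]] ℚ_[ℓ]) (γ : Γ) (f : Polynomial ℚ),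
    IsMotivicSum p a K π i H₀ R T ν ω γ f →
      (∀ Δ : Subgroup Γ, Δ.FiniteIndex → TateOver i H₀ R ν Δ) ∧
      ((∀ Δ : Subgroup Γ, Δ.FiniteIndex → TateOver i H₀ (R.prod T) ν Δ) ↔
        ∀ Δ : Subgroup Γ, Δ.FiniteIndex → TateOver i H₀ T ν Δ) ∧
      ((∀ h : H, ∃ g : Γ, (i g)⁻¹ * h ∈ H₀) → TateFull i R ν ∧
        ((∀ Δ : Subgroup Γ, Δ.FiniteIndex → TateOver i H₀ T ν Δ) → TateFull i (R.prod T) ν))

/-- The motivic Sato-Tate conjecture holds for `h ^ 1(A)` over all finite extensions; for the kernels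
in the identity components it holds for `h ^ 1(A) ⊕ N` if and only if it holds for `N`; and if the
motivic Tate conjecture holds for `N` over all finite extensions then the motivic Sato-Tate
conjecture holds for `h ^ 1(A) ⊕ N` over all finite extensions. -/
def SatoTateSum (p : ℕ) [Fact p.Prime] (a : ℕ) {I : Type} [Fintype I] (K : I → Type)
    [∀ i, Field (K i)] [∀ i, NumberField (K i)] [∀ i, IsCMField (K i)] (π : ∀ i, K i) : Prop :=
  ∀ (ℓ : ℕ) [Fact ℓ.Prime] (V W Γ H : Type) [AddCommGroup V] [Module ℚ_[ℓ] V]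
    [FiniteDimensional ℚ_[ℓ] V] [AddCommGroup W] [Module ℚ_[ℓ] W] [FiniteDimensional ℚ_[ℓ] W]
    [Group Γ] [Group H] (i : Γ →* H) (H₀ : Subgroup H) (R : Representation ℚ_[ℓ] H V)
    (T : Representation ℚ_[ℓ] H W) (ν : H →* ℚ_[ℓ])
    (ω : V →ₗ[ℚ_[ℓ]] V →ₗ[ℚ_[ℓ]] ℚ_[ℓ]) (γ : Γ) (f : Polynomial ℚ),
    IsMotivicSum p a K π i H₀ R T ν ω γ f →
      (∀ Δ : Subgroup Γ, Δ.FiniteIndex → SatoTateOver i H₀ R ν Δ) ∧
      (SatoTateConnected i H₀ (R.prod T) ν ↔ SatoTateConnected i H₀ T ν) ∧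
      ((∀ Δ : Subgroup Γ, Δ.FiniteIndex → TateOver i H₀ T ν Δ) →
        ∀ Δ : Subgroup Γ, Δ.FiniteIndex → SatoTateOver i H₀ (R.prod T) ν Δ)

/-- Numbers with a rational power are unrelated to all fields; and if all fields `K i` are separated
from the number field `F` by prime numbers, then all nonzero elements of `F` are unrelated to the
`K i`. -/
def UnrelatedCriteria : Prop :=
  (∀ (K : Type) [Field K] [NumberField K] [IsCMField K] (y : ℂ) (N : ℕ) (r : ℚ), 0 < N →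
    y ^ N = (r : ℂ) → UnrelatedTo K y) ∧
  ∀ (I : Type) (K : I → Type) [∀ i, Field (K i)] [∀ i, NumberField (K i)] [∀ i, IsCMField (K i)]
    (F : Type) [Field F] [NumberField F], (∀ i, ∃ q : ℕ, Separates q (K i) F) →
      ∀ (χ : F →+* ℂ) (x : F), x ≠ 0 → IsAlgebraic ℚ (χ x) ∧ ∀ i, UnrelatedTo (K i) (χ x)

end Pool.Agent.H298.Core
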