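import Mathlib
import Pool.Agent.H298.Core.WeilRel
import Pool.Graph.R_pool_sql_team_seeded_2aa45f1a.Q70.MM.MotSum
import Pool.Graph.R_pool_sql_team_seeded_b0a926ef.R696.MS.Over

/-!
# Direct sums of arbitrary motives with abelian varieties which have a Frobenius element without
# relations: the groups which fix the Tate tensors
-/

set_option autoImplicit false
set_option linter.unusedSectionVars false

namespace Pool.Agent.H298.Core

open NumberField Module TensorProduct IntermediateField
open Pool.Agent.H204R3.CM Pool.Agent.H204R3.SP Pool.Agent.H204R3.GP Pool.Agent.Y137.MV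
  Pool.Agent.TH170 Pool.Agent.Q306.TP Pool.Agent.Y1.CT Pool.Agent.Q70.MM
open Pool.Agent.R930 (FixesTateTensors)

noncomputable section

section split

variable {p : ℕ} [Fact p.Prime] {a : ℕ} {ι : Type} [Fintype ι] {F : ι → Type}
  [∀ i, Field (F i)] [∀ i, NumberField (F i)] [∀ i, IsCMField (F i)] {π : ∀ i, F i}
  (hgen : ∀ i, ℚ⟮π i⟯ = ⊤)
  (hw : ∀ i, π i * IsCMField.complexConj (F i) (π i) = (p : F i) ^ a)
  (hang : MaximalAngleRank (p ^ a) π)
  {k : Type} [Field k] [CharZero k] {V : Type} [AddCommGroup V] [Module k V]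
  [FiniteDimensional k V] {M : Type} [AddCommGroup M] [Module k M] [FiniteDimensional k M]
  {Γ : Type} [Group Γ] (ρ : Representation k Γ V) (τ : Representation k Γ M) (χ : Γ →* k)
  (ω : V →ₗ[k] V →ₗ[k] k) (halt : ∀ v, ω v v = 0) (hnd : ∀ u, (∀ v, ω v u = 0) → u = 0)
  (hωρ : ∀ s u v, ω (ρ s u) (ρ s v) = χ s * ω u v)
  (hss : ∀ Δ : Subgroup Γ, Δ.FiniteIndex → SemiUnder (ρ '' (Δ : Set Γ)))
  (γ : Γ) (hχ : χ γ = (p : k) ^ a)
  (hγ : (ρ γ).charpoly = ∏ i, (minpoly ℚ (π i)).map (algebraMap ℚ k))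
  {f : Polynomial ℚ} (hf0 : f ≠ 0)
  (hfγ : Polynomial.aeval (τ γ) (f.map (algebraMap ℚ k)) = 0)
  (hf : ∀ α : ℂ, Polynomial.aeval α f = 0 → IsProductOfUnrelated F α)
  {G : Type} [Group G] (R : Representation k G V) (T : Representation k G M) (ν : G →* k)
  (hdeg : ∀ B : V →ₗ[k] V →ₗ[k] k, IsTate2 ρ χ B →
      ∀ h u v, B (R h u) (R h v) = ν h * B u v)
  (hZ : FixesTateTensors τ χ T ν)

include hgen hw hang halt hnd hωρ hss hχ hγ hf0 hfγ hf hdeg hZ in
/-- The mixed Tate classes are fixed. -/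
theorem mixed_fix (c : ℤ) {j l : ℕ}
    (Φ : MultilinearMap k (fun _ : Fin j => V) (MultilinearMap k (fun _ : Fin l => M) k))
    (hΦ : IsTateMixed ρ τ χ c Φ) (h : G) (v : Fin j → V) (x : Fin l → M) :
    Φ (fun i => R h (v i)) (fun i => T h (x i)) = ν h ^ c * Φ v x := by
  classical
  have hχ0 : ∀ s, χ s ≠ 0 := by
    intro s h0
    have h1 : χ s * χ s⁻¹ = 1 := by rw [← map_mul, mul_inv_cancel, map_one]
    rw [h0, zero_mul] at h1
    exact zero_ne_one h1
  have hν0 : ν h ≠ 0 := by
    intro h0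
    have h1 : ν h * ν h⁻¹ = 1 := by rw [← map_mul, mul_inv_cancel, map_one]
    rw [h0, zero_mul] at h1
    exact zero_ne_one h1
  -- the polynomial
  obtain ⟨P, hP0, hP, hroot⟩ := formRep_killed τ χ γ hf0 hfγ hχ c l
  have hPr : ∀ α : ℂ, Polynomial.aeval α P = 0 → IsProductOfUnrelated F α := by
    intro z hz
    obtain ⟨α, hα, rfl⟩ := hroot z hz
    refine isProduct_mul (isProduct_rat _) (isProduct_prod fun i => ?_)
    have h1 := isProduct_inv (hf _ (hα i).2)
    rwa [inv_inv] at h1
  obtain ⟨hs1, hs2⟩ := eqv_split hgen hw hang ρ (formRep τ χ c l) χ ω halt hnd hωρ hss γ hχ hγ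
    hP0 hP hPr
  have hEqv : ∀ {κ : Type} (Φ : MultilinearMap k (fun _ : κ => V)
      (MultilinearMap k (fun _ : Fin l => M) k)), IsTateMixed ρ τ χ c Φ →
      IsEqv ρ (formRep τ χ c l) Φ := by
    rintro κ Φ ⟨Δ, hΔ, hΦ⟩
    refine ⟨Δ, hΔ, fun s hs v => MultilinearMap.ext fun x => ?_⟩
    have h1 := hΦ s hs v (fun i => τ s⁻¹ (x i))
    have h2 : ∀ y : M, τ s (τ s⁻¹ y) = y := by
      intro y
      change (τ s * τ s⁻¹) y = y
      rw [← map_mul, mul_inv_cancel, map_one]
      rfl
    simp only [h2] at h1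
    rw [formRep_apply]
    exact h1
  rcases Nat.even_or_odd' j with ⟨m, rfl | rfl⟩
  · let e : Fin m × Fin 2 ≃ Fin (2 * m) := finProdFinEquiv.trans (finCongr (mul_comm m 2))
    have h1 := hs1 m (Φ.domDomCongr e.symm) (hEqv _ (by
      obtain ⟨Δ, hΔ, hΦ⟩ := hΦ
      exact ⟨Δ, hΔ, fun s hs v x => hΦ s hs (fun i => v (e.symm i)) x⟩))
    have h2 : ∀ F' ∈ Submodule.span k
        {g : MultilinearMap k (fun _ : Fin m × Fin 2 => V) (MultilinearMap k (fun _ : Fin l => M) k) |
          ∃ h ∈ PT ρ χ m, ∃ w : MultilinearMap k (fun _ : Fin l => M) k,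
          (∃ Δ : Subgroup Γ, Δ.FiniteIndex ∧ ∀ s ∈ Δ, formRep τ χ c l s w = χ s ^ m • w) ∧
          g = h.smulRight w},
        ∀ (u : Fin m × Fin 2 → V) (x : Fin l → M),
          F' (fun i => R h (u i)) (fun i => T h (x i)) = ν h ^ c * F' u x := by
      intro F' hF'
      induction hF' using Submodule.span_induction with
      | mem F' hF' =>
        obtain ⟨h', ⟨σ, B, hB, rfl⟩, w, ⟨Δ, hΔ, hw⟩, rfl⟩ := hF'
        intro u x
        have hw1 : ∀ s ∈ Δ, ∀ x : Fin l → M, w (fun i => τ s (x i)) = χ s ^ (c - m) * w x := by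
          intro s hs x
          have h5 := congrArg (fun g : MultilinearMap k (fun _ : Fin l => M) k =>
            g (fun i => τ s (x i))) (hw s hs)
          have h6 : ∀ y : M, τ s⁻¹ (τ s y) = y := by
            intro y
            change (τ s⁻¹ * τ s) y = y
            rw [← map_mul, inv_mul_cancel, map_one]
            rfl
          simp only [formRep_apply, h6] at h5
          change (χ s) ^ c * w x = χ s ^ m * w (fun i => τ s (x i)) at h5
          rw [zpow_sub₀ (hχ0 s), zpow_natCast, div_mul_eq_mul_div, h5,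
            mul_div_cancel_left₀ _ (pow_ne_zero m (hχ0 s))]
        have hw2 := hZ l (c - m) w ⟨Δ, hΔ, hw1⟩ h x
        change mmG σ B (fun i => R h (u i)) * w (fun i => T h (x i)) =
          ν h ^ c * (mmG σ B u * w x)
        rw [hw2, mmG_apply, mmG_apply]
        have h5 : ∏ s, B s (R h (u (σ (s, 0)))) (R h (u (σ (s, 1)))) =
            ν h ^ m * ∏ s, B s (u (σ (s, 0))) (u (σ (s, 1))) := by
          rw [Finset.prod_congr rfl fun s _ => hdeg (B s) (hB s) h _ _, Finset.prod_mul_distrib,
            Finset.prod_const, Finset.card_univ, Fintype.card_fin]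
        rw [h5]
        have h7 : ν h ^ c = ν h ^ m * ν h ^ (c - m) := by
          rw [zpow_sub₀ hν0, zpow_natCast, mul_div_cancel₀ _ (pow_ne_zero _ hν0)]
        rw [h7]
        ring
      | zero =>
        intro u x
        change (0 : k) = _ * (0 : k)
        rw [mul_zero]
      | add F1 F2 _ _ h1 h2 =>
        intro u x
        have e1 := h1 u x
        have e2 := h2 u x
        change F1 _ _ + F2 _ _ = _ * (F1 _ _ + F2 _ _)
        rw [e1, e2]
        ring
      | smul r F1 _ h1 =>
        intro u x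
        have e1 := h1 u x
        change r * F1 _ _ = _ * (r * F1 _ _)
        rw [e1]
        ring
    have h3 := h2 _ h1 (fun i => v (e i)) x
    change Φ (fun i => R h (v (e (e.symm i)))) (fun i => T h (x i)) =
      ν h ^ c * Φ (fun i => v (e (e.symm i))) x at h3
    simp only [Equiv.apply_symm_apply] at h3
    exact h3
  · rw [hs2 m Φ (hEqv Φ hΦ)]
    change (0 : k) = _ * (0 : k)
    rw [mul_zero]

include hgen hw hang halt hnd hωρ hss hχ hγ hf0 hfγ hf hdeg in
/-- **The groups which fix the Tate tensors of a direct sum.** -/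
theorem fixes_sum : FixesTateTensors (ρ.prod τ) χ (R.prod T) ν ↔ FixesTateTensors τ χ T ν := by
  classical
  constructor
  · intro H s j ψ hψ h w
    obtain ⟨Δ, hΔ, hψ⟩ := hψ
    have h1 := H s j (ψ.compLinearMap fun _ => LinearMap.snd k V M)
      ⟨Δ, hΔ, fun g hg v => hψ g hg fun i => (v i).2⟩ h fun i => (0, w i)
    exact h1
  · intro hZ b c φ hφ h v
    obtain ⟨Δ, hΔ, hφ⟩ := hφ
    have hsum : ∀ (G : Finset (Fin b) → MultilinearMap k (fun _ : Fin b => V × M) k)
        (w : Fin b → V × M), (∑ s, G s) w = ∑ s, G s w := by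
      intro G w
      exact map_sum ({ toFun := fun F => F w
                       map_zero' := rfl
                       map_add' := fun _ _ => rfl } :
        (MultilinearMap k (fun _ : Fin b => V × M) k) →+ k) G Finset.univ
    rw [sum_mixed k φ, hsum, hsum, Finset.mul_sum]
    refine Finset.sum_congr rfl fun s _ => ?_
    rw [back_apply, back_apply]
    exact mixed_fix hgen hw hang ρ τ χ ω halt hnd hωρ hss γ hχ hγ hf0 hfγ hf R T ν hdeg hZ c
      (mixed k (s := s) rfl rfl φ) ⟨Δ, hΔ, fun g hg v x => by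
        rw [mixed_apply, mixed_apply, ← hφ g hg]
        congr 1
        funext i
        rcases (finSumEquivOfFinset (s := s) rfl rfl).symm i with y | y
        · change (ρ g (v y), (0 : M)) = (ρ g (v y), τ g 0)
          rw [map_zero]
        · change ((0 : V), τ g (x y)) = (ρ g 0, τ g (x y))
          rw [map_zero]⟩ h _ _

end split

end

end Pool.Agent.H298.Core
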