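import Mathlib
import Pool.Agent.H298.Core.MotDefs
import Pool.Agent.H298.Core.MotFix
import Pool.Graph.R_pool_sql_team_seeded_2aa45f1a.Q306.TP.AngleFam
import Pool.Graph.R_seed8.TH170.FT.MT

/-!
# Sums of arbitrary motives with abelian varieties which have one good Frobenius element
-/

set_option autoImplicit false
set_option linter.unusedSectionVars false

namespace Pool.Agent.H298.Core

open NumberField Module TensorProduct IntermediateField
open Pool.Agent.H204R3.CM Pool.Agent.H204R3.SP Pool.Agent.H204R3.GP Pool.Agent.Y137.MV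
  Pool.Agent.TH170 Pool.Agent.Q306.TP Pool.Agent.Y1.CT Pool.Agent.Q70.MM Pool.Agent.H977R3.CM
open Pool.Agent.R930 (FixesTateTensors)
open Pool.Agent.R696.MS (Belongs TateOver tateOver_iff)

noncomputable section

variable {p : ℕ} [Fact p.Prime] {a : ℕ} {I : Type} [Fintype I] {K : I → Type}
  [∀ i, Field (K i)] [∀ i, NumberField (K i)] [∀ i, IsCMField (K i)] {π : ∀ i, K i}

theorem mtSum (hgen : ∀ i, ℚ⟮π i⟯ = ⊤)
    (hw : ∀ i, π i * IsCMField.complexConj (K i) (π i) = (p : K i) ^ a)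
    (hang : MaximalAngleRank (p ^ a) π) : MTSum p a K π := by
  intro ℓ _ W T V Γ WN R M _ _ _ _ _ _ _ _ _ _ _ _ _ _ _
      per ω₀ comp ρ χ ω perN h compN τ γ f hR hχ hγ hf0 hfγ hf
  exact mumfordTate_sum hgen hw hang hR γ hχ hγ hf0 hfγ hf

section

variable {k V Γ H : Type} [Field k] [AddCommGroup V] [Module k V] [Group Γ] [Group H]

theorem connected_iff (i : Γ →* H) (H₀ : Subgroup H) (R : Representation k H V) (ν : H →* k) :
    SatoTateConnected i H₀ R ν ↔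
      FixesTateTensors (R.comp i) (ν.comp i) (R.comp (H₀ ⊓ ν.ker).subtype) 1 := by
  constructor
  · rintro h s j φ ⟨Δ, hΔ, hφ⟩ x v
    have h1 := h s j φ ⟨Δ, hΔ, hφ⟩ x.1 x.2.1 x.2.2 v
    rw [MonoidHom.one_apply, one_zpow, one_mul]
    exact h1
  · rintro h s j φ ⟨Δ, hΔ, hφ⟩ x hx hx1 v
    have h1 := h s j φ ⟨Δ, hΔ, hφ⟩ ⟨x, hx, hx1⟩ v
    rw [MonoidHom.one_apply, one_zpow, one_mul] at h1
    exact h1

theorem tateFull_of {i : Γ →* H} {H₀ : Subgroup H} {R : Representation k H V} {ν : H →* k}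
    (hπ : ∀ h : H, ∃ g : Γ, (i g)⁻¹ * h ∈ H₀)
    (h : ∀ Δ : Subgroup Γ, Δ.FiniteIndex → TateOver i H₀ R ν Δ) : TateFull i R ν := by
  intro s j φ
  refine ⟨fun hφ x v => ?_, fun h g v => h (i g) v⟩
  obtain ⟨g, hg⟩ := hπ x
  exact h ⊤ inferInstance s j φ (fun g _ v => hφ g v) x ⟨g, Subgroup.mem_top g, hg⟩ v

theorem satoTateOver_of {i : Γ →* H} {H₀ : Subgroup H} {R : Representation k H V} {ν : H →* k}
    {Δ : Subgroup Γ} (h : TateOver i H₀ R ν Δ) : SatoTateOver i H₀ R ν Δ := by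
  intro s j φ hφ x hx hν v
  have h1 := h s j φ hφ x hx v
  rwa [hν, one_zpow, one_mul] at h1

end

section

variable {ℓ : ℕ} [Fact ℓ.Prime] {V W Γ H : Type} [AddCommGroup V] [Module ℚ_[ℓ] V]
    [FiniteDimensional ℚ_[ℓ] V] [AddCommGroup W] [Module ℚ_[ℓ] W] [FiniteDimensional ℚ_[ℓ] W]
    [Group Γ] [Group H] {i : Γ →* H} {H₀ : Subgroup H} {R : Representation ℚ_[ℓ] H V}
    {T : Representation ℚ_[ℓ] H W} {ν : H →* ℚ_[ℓ]}
    {ω : V →ₗ[ℚ_[ℓ]] V →ₗ[ℚ_[ℓ]] ℚ_[ℓ]} {γ : Γ} {f : Polynomial ℚ}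

theorem IsMotivicSum.fixes (h : IsMotivicSum p a K π i H₀ R T ν ω γ f) (hgen : ∀ i, ℚ⟮π i⟯ = ⊤)
    (hw : ∀ i, π i * IsCMField.complexConj (K i) (π i) = (p : K i) ^ a)
    (hang : MaximalAngleRank (p ^ a) π) {G : Type} [Group G] (S : Representation ℚ_[ℓ] G V)
    (U : Representation ℚ_[ℓ] G W) (μ : G →* ℚ_[ℓ])
    (hdeg : ∀ B : V →ₗ[ℚ_[ℓ]] V →ₗ[ℚ_[ℓ]] ℚ_[ℓ], IsTate2 (R.comp i) (ν.comp i) B →
      ∀ h u v, B (S h u) (S h v) = μ h * B u v) :
    FixesTateTensors ((R.prod T).comp i) (ν.comp i) (S.prod U) μ ↔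
      FixesTateTensors (T.comp i) (ν.comp i) U μ := by
  have hss' : ∀ Δ : Subgroup Γ, Δ.FiniteIndex → SemiUnder ((R.comp i) '' (Δ : Set Γ)) := by
    intro Δ hΔ U hU
    obtain ⟨U', h1, h2⟩ := h.tateModule.semisimple Δ hΔ U
      (fun s hs u hu => hU _ ⟨s, hs, rfl⟩ u hu)
    refine ⟨U', ?_, h2⟩
    rintro _ ⟨s, hs, rfl⟩ u hu
    exact h1 s hs u hu
  exact fixes_sum hgen hw hang (R.comp i) (T.comp i) (ν.comp i) ω h.tateModule.alternating
    h.tateModule.nondegenerate h.tateModule.equivariant hss' γ h.character h.charpoly h.ne_zero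
    h.kills h.roots S U μ hdeg

/-- The abelian variety alone. -/
theorem IsMotivicSum.fixes_self (ha : 0 < a) (h : IsMotivicSum p a K π i H₀ R T ν ω γ f)
    (hgen : ∀ i, ℚ⟮π i⟯ = ⊤)
    (hw : ∀ i, π i * IsCMField.complexConj (K i) (π i) = (p : K i) ^ a)
    (hang : MaximalAngleRank (p ^ a) π) {G : Type} [Group G] (S : Representation ℚ_[ℓ] G V)
    (μ : G →* ℚ_[ℓ])
    (hdeg : ∀ B : V →ₗ[ℚ_[ℓ]] V →ₗ[ℚ_[ℓ]] ℚ_[ℓ], IsTate2 (R.comp i) (ν.comp i) B →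
      ∀ h u v, B (S h u) (S h v) = μ h * B u v) :
    FixesTateTensors (R.comp i) (ν.comp i) S μ := by
  have h' : IsMotivicSum p a K π i H₀ R (1 : Representation ℚ_[ℓ] H PUnit) ν ω γ 1 :=
    ⟨h.tateModule, h.degreeTwo, h.character, h.charpoly, one_ne_zero, by
      refine LinearMap.ext fun x => Subsingleton.elim _ _, fun α hα => by
      rw [map_one] at hα
      exact absurd hα one_ne_zero⟩
  have h1 := (h'.fixes hgen hw hang S (1 : Representation ℚ_[ℓ] G PUnit) μ hdeg).2 (by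
    intro s j φ hφ x v
    have hv : ∀ w w' : Fin s → PUnit, w = w' := fun w w' => Subsingleton.elim _ _
    rw [hv (fun i => (1 : Representation ℚ_[ℓ] G PUnit) x (v i)) v]
    obtain ⟨Δ, hΔ, hφ⟩ := hφ
    by_cases h0 : φ v = 0
    · rw [h0, mul_zero]
    have h2 : ∀ g ∈ Δ, (ν (i g)) ^ j = 1 := by
      intro g hg
      have h3 := hφ g hg v
      rw [hv (fun l => ((1 : Representation ℚ_[ℓ] H PUnit).comp i) g (v l)) v] at h3
      change φ v = (ν (i g)) ^ j * φ v at h3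
      exact mul_right_cancel₀ h0 (by rw [← h3, one_mul])
    obtain ⟨n, hn, hn'⟩ : ∃ n : ℕ, 0 < n ∧ γ ^ n ∈ Δ := by
      obtain ⟨n, hn, -, hn'⟩ := Subgroup.exists_pow_mem_of_index_ne_zero hΔ.index_ne_zero γ
      exact ⟨n, hn, hn'⟩
    have h4 := h2 _ hn'
    rw [map_pow, map_pow, h.character] at h4
    have hp : (1 : ℝ) < p := by exact_mod_cast (Fact.out : p.Prime).one_lt
    have hj : j = 0 := by
      by_contra hj
      have h5 : (((p : ℚ) ^ a) ^ n) ^ j = 1 := by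
        have h6 : ((((((p : ℚ) ^ a) ^ n) ^ j : ℚ)) : ℚ_[ℓ]) = ((1 : ℚ) : ℚ_[ℓ]) := by
          push_cast
          exact h4
        exact_mod_cast h6
      have h7 : (1 : ℚ) < ((p : ℚ) ^ a) ^ n := by
        have hp' : (1 : ℚ) < p := by exact_mod_cast (Fact.out : p.Prime).one_lt
        exact one_lt_pow₀ (one_lt_pow₀ hp' ha.ne') hn.ne'
      rcases (zpow_eq_one_iff_of_ne_zero₀ hj).1 h5 with h8 | h8
      · exact absurd h8 h7.ne'
      · exact absurd h8.1 (by linarith)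
    rw [hj, zpow_zero, one_mul])
  intro s j φ hφ x v
  obtain ⟨Δ, hΔ, hφ⟩ := hφ
  have h2 := h1 s j (φ.compLinearMap fun _ => LinearMap.fst ℚ_[ℓ] V PUnit)
    ⟨Δ, hΔ, fun g hg w => hφ g hg fun l => (w l).1⟩ x fun l => (v l, PUnit.unit)
  exact h2

end

theorem tateSum (ha : 0 < a) (hgen : ∀ i, ℚ⟮π i⟯ = ⊤)
    (hw : ∀ i, π i * IsCMField.complexConj (K i) (π i) = (p : K i) ^ a)
    (hang : MaximalAngleRank (p ^ a) π) : TateSum p a K π := by
  intro ℓ _ V W Γ H _ _ _ _ _ _ _ _ i H₀ R T ν ω γ f h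
  have h1 : ∀ Δ : Subgroup Γ, Δ.FiniteIndex → TateOver i H₀ R ν Δ := by
    rw [tateOver_iff]
    exact h.fixes_self ha hgen hw hang _ _ fun B hB h' u v => h.degreeTwo B hB h'.1 h'.2 u v
  have h2 : (∀ Δ : Subgroup Γ, Δ.FiniteIndex → TateOver i H₀ (R.prod T) ν Δ) ↔
      ∀ Δ : Subgroup Γ, Δ.FiniteIndex → TateOver i H₀ T ν Δ := by
    rw [tateOver_iff, tateOver_iff]
    exact h.fixes hgen hw hang (R.comp H₀.subtype) (T.comp H₀.subtype) (ν.comp H₀.subtype)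
      fun B hB h' u v => h.degreeTwo B hB h'.1 h'.2 u v
  exact ⟨h1, h2, fun hπ => ⟨tateFull_of hπ h1, fun hT => tateFull_of hπ (h2.2 hT)⟩⟩

theorem satoTateSum (ha : 0 < a) (hgen : ∀ i, ℚ⟮π i⟯ = ⊤)
    (hw : ∀ i, π i * IsCMField.complexConj (K i) (π i) = (p : K i) ^ a)
    (hang : MaximalAngleRank (p ^ a) π) : SatoTateSum p a K π := by
  intro ℓ _ V W Γ H _ _ _ _ _ _ _ _ i H₀ R T ν ω γ f h
  obtain ⟨h1, h2, -⟩ := tateSum ha hgen hw hang ℓ V W Γ H i H₀ R T ν ω γ f h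
  refine ⟨fun Δ hΔ => satoTateOver_of (h1 Δ hΔ), ?_, fun hT Δ hΔ =>
    satoTateOver_of (h2.2 hT Δ hΔ)⟩
  rw [connected_iff, connected_iff]
  refine h.fixes hgen hw hang (R.comp (H₀ ⊓ ν.ker).subtype) (T.comp (H₀ ⊓ ν.ker).subtype) 1
    fun B hB h' u v => ?_
  have h3 := h.degreeTwo B hB h'.1 h'.2.1 u v
  have h4 : ν h'.1 = 1 := h'.2.2
  rw [h4] at h3
  exact h3

theorem unrelatedCriteria_hold : UnrelatedCriteria := by
  refine ⟨fun K _ _ _ y N r hN h => unrelated_of_root hN h, fun I K _ _ _ F _ _ h χ x hx => ?_⟩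
  have h1 := unrelated_of_independent (independent_of_separates h χ hx)
  refine ⟨?_, h1.2⟩
  have h2 := Algebra.IsAlgebraic.isAlgebraic (R := ℚ) x
  exact h2.algHom (RingHom.equivRatAlgHom F ℂ χ)

end

section core

variable {p : ℕ} [hp : Fact p.Prime] {a : ℕ} {I : Type} [Fintype I] {K : I → Type}
  [∀ i, Field (K i)] [∀ i, NumberField (K i)] [∀ i, IsCMField (K i)]

theorem mtAbelian_core (ha : 0 < a) (hind : PairwiseIndep K) {π : ∀ i, K i}
    (hπ : ∀ i, IsCoreWeil p a (π i)) : MTAbelian p a K π := by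
  intro ℓ _ W T V Γ _ _ _ _ _ _ _ _ per ω₀ comp ρ χ ω hR hF
  obtain ⟨ν, M, Φ, hM, hΦ, hnd, hT⟩ := exists_types ha hπ
  exact FT.mumfordTate_of_types hind hM hΦ hnd ha
    ⟨fun i => (hT i).gen, fun i => (hT i).weil, fun i => (hT i).slopes⟩ hR hF

theorem mtSum_core (ha : 0 < a) (hind : PairwiseIndep K) {π : ∀ i, K i}
    (hπ : ∀ i, IsCoreWeil p a (π i)) : MTSum p a K π :=
  mtSum (fun i => Pool.Agent.Y156.P.gen_one (hπ i).simple) (fun i => (hπ i).simple.weil)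
    (angle_core ha hind hπ)

theorem mtProduct_core (ha : 0 < a) (hind : PairwiseIndep K) {π : ∀ i, K i}
    (hπ : ∀ i, IsCoreWeil p a (π i)) : MTProduct p a K π := by
  intro ℓ _ W T V Γ WB TB VB _ _ _ _ _ _ _ _ _ _ _ _ _ _ _ per ω₀ comp ρ χ ω perB compB τ γ f
    hR hχ hγ hf0 hfγ hf
  exact mtSum_core ha hind hπ ℓ W T V Γ WB TB VB per ω₀ comp ρ χ ω perB
    (mulBy (T := TB)) compB τ γ f hR hχ hγ hf0 hfγ hf

theorem tateSum_core (ha : 0 < a) (hind : PairwiseIndep K) {π : ∀ i, K i}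
    (hπ : ∀ i, IsCoreWeil p a (π i)) : TateSum p a K π :=
  tateSum ha (fun i => Pool.Agent.Y156.P.gen_one (hπ i).simple) (fun i => (hπ i).simple.weil)
    (angle_core ha hind hπ)

theorem satoTateSum_core (ha : 0 < a) (hind : PairwiseIndep K) {π : ∀ i, K i}
    (hπ : ∀ i, IsCoreWeil p a (π i)) : SatoTateSum p a K π :=
  satoTateSum ha (fun i => Pool.Agent.Y156.P.gen_one (hπ i).simple)
    (fun i => (hπ i).simple.weil) (angle_core ha hind hπ)

end core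

end Pool.Agent.H298.Core
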