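import Mathlib
import Pool.Agent.H298.Core.MultiTypes
import Pool.Graph.R_pool_sql_team_seeded_2aa45f1a.Q265.AH.Sys

/-!
# Absolute Hodge classes on products with abelian varieties of CM type
-/

set_option autoImplicit false

namespace Pool.Agent.H298.Core

open NumberField Pool.Agent.H204R3.CM Pool.Agent.H977R3.CM Pool.Agent.TH131.GHC
  Pool.Agent.Y1.HZ Pool.Agent.Q265.AH

/-- Let `A` be a product of copies of the abelian varieties of CM type `(E i, Φ i)` and `Y` a variety
unrelated to the fields `E i`. All Hodge classes on `A × Y` are sums of products `f ⊗ x`, where `f`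
is a combination of products of divisor classes on `A` and `x` is a Hodge class on `Y`
(`HodgeTimes`); and all Hodge classes on `A × Y` are absolute Hodge classes if and only if all Hodge
classes on `Y` are (`AbsoluteIff`, for every notion of absolute Hodge classes with the properties in
`AbsoluteClasses`). -/
def HodgeAndAbsoluteTimes {ι : Type} {E : ι → Type} [∀ i, Field (E i)] [∀ i, NumberField (E i)]
    (Φ : ∀ i, Set (E i →+* ℂ)) : Prop :=
  HodgeTimes Φ ∧ ∀ (J : Type) [Fintype J] (t : J → ι) (v : ℕ) (V : Coh v),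
    (∀ i, UnrelatedHodge V (E i)) → AbsoluteIff (per Φ t) V

variable {ι : Type} [Fintype ι] {E : ι → Type} [∀ i, Field (E i)] [∀ i, NumberField (E i)]
  [∀ i, IsCMField (E i)] {κ : ι → Type} [∀ i, Fintype (κ i)] {Φ : ∀ i, κ i → Set (E i →+* ℂ)}

theorem hodgeAndAbsoluteTimes_types (hind : PairwiseIndep E) (h : ∀ i, CoreTypes (Φ i)) :
    HodgeAndAbsoluteTimes (E := fun x : Σ i, κ i => E x.1) (fun x => Φ x.1 x.2) :=
  ⟨hodgeTimes_types hind h, fun J _ t v V hV =>
    absoluteIff fun F hF => hodgeTimes_types hind h J t v V hV F hF⟩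

end Pool.Agent.H298.Core
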