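import Mathlib
import Pool.Agent.H298.Core.MultiTypes
import Pool.Graph.R_pool_sql_team_seeded_2aa45f1a.Q64.HC.Thms
import Pool.Graph.R_pool_sql_team_seeded_2aa45f1a.Q64.HC.NV

/-!
# Families of CM types of fields with small cores: products with categories and with families
-/

set_option autoImplicit false

namespace Pool.Agent.H298.Core

open NumberField Pool.Agent.H204R3.CM Pool.Agent.H977R3.CM Pool.Agent.Q64.HC

variable {ι : Type} [Fintype ι] {E : ι → Type} [∀ i, Field (E i)] [∀ i, NumberField (E i)]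
  [∀ i, IsCMField (E i)] {κ : ι → Type} [∀ i, Fintype (κ i)] {Φ : ∀ i, κ i → Set (E i →+* ℂ)}

theorem noncommutativeTimes_types (hind : PairwiseIndep E) (h : ∀ i, CoreTypes (Φ i)) :
    NoncommutativeTimes (E := fun x : Σ i, κ i => E x.1) (fun x => Φ x.1 x.2) := by
  intro J _ t v V hun
  have h1 := hodgeTimes_types hind h J t v V hun
  refine ⟨h1, fun O => ⟨times_iff h1 O, fun hO P F hP hF => ?_⟩⟩
  exact ⟨F, (times_iff h1 O).2 hO F hF, hP⟩

theorem variationalTimes_types (hind : PairwiseIndep E) (h : ∀ i, CoreTypes (Φ i)) :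
    VariationalTimes (E := fun x : Σ i, κ i => E x.1) (fun x => Φ x.1 x.2) := by
  obtain ⟨L, _, _, j, hj⟩ := exists_galois E
  intro J _ t v B _ Y hun
  exact products_and_iff (E := fun x : Σ i, κ i => E x.1) (Φ := fun x => Φ x.1 x.2)
    (fun x => (h x.1).1 x.2) j (fun x => hj x.1)
    (nondeg_types hind (fun i k => (h i).1 k) (fun i => joint_of_coreTypes (h i)) j hj) hun

theorem ncVariational_types (hind : PairwiseIndep E) (h : ∀ i, CoreTypes (Φ i)) :
    NCVariationalForTypes (E := fun x : Σ i, κ i => E x.1) (fun x => Φ x.1 x.2) := by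
  intro J _ t v B _ C hun
  obtain ⟨h1, h2⟩ := variationalTimes_types hind h J t v B C hun
  exact ⟨h1, ncVariationalReduces fun S => (h2 S).1⟩

end Pool.Agent.H298.Core
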