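import Mathlib
import Pool.Agent.H298.Core.WeilRel

/-!
# The absolute values of the roots
-/

set_option autoImplicit false

namespace Pool.Agent.H298.Core

open NumberField Polynomial Pool.Agent.Y1.CT

variable {p : ℕ} [hp : Fact p.Prime] {a : ℕ} {I : Type} {K : I → Type}
  [∀ i, Field (K i)] [∀ i, NumberField (K i)] [∀ i, IsCMField (K i)]

/-- The roots of the polynomials belonging to Weil numbers have the absolute value `√q`. -/
theorem norm_roots {π : ∀ i, K i} (hπ : ∀ i, IsCoreWeil p a (π i)) {f : I → ℤ[X]}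
    (hf : ∀ i, IsPolyOf (π i) (f i)) (i : I) (z : ℂ) (hz : aeval z (f i) = 0) :
    ‖z‖ ^ 2 = ((p ^ a : ℕ) : ℝ) := by
  obtain ⟨φ, rfl⟩ := (hf i).2 z hz
  have h4 := congrArg φ (hπ i).simple.weil
  rw [map_mul, IsCMField.complexEmbedding_complexConj, map_pow, map_natCast] at h4
  have h5 := congrArg norm h4
  rw [norm_mul, norm_pow, Complex.norm_natCast, RCLike.norm_conj] at h5
  rw [sq, h5]
  push_cast
  rfl

end Pool.Agent.H298.Core
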