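import Mathlib
import Pool.Agent.H298.Core.Block

/-!
# The structure of the relations in fields with primitive cores
-/

set_option autoImplicit false
set_option linter.unusedSectionVars false
set_option linter.unusedVariables false

namespace Pool.Agent.H298.Core

open NumberField Module MulAction Finset Pool.Agent.H204R3.CM Pool.Agent.H977R3.CM
  Pool.Agent.TH170.CM

section abstract

variable {G : Type*} [Group G] {Y : Type*} [MulAction G Y] {inv : Y → Y} [Fintype Y]
  {D : Y → ℤ}

section localize

variable (hinv : ∀ y, inv (inv y) = y) (hne : ∀ y, inv y ≠ y)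
  (hG : ∀ (g : G) (y : Y), g • inv y = inv (g • y))
include hinv hne hG

/-- One step of the localization; the values are only multiplied by powers of two, or by zero. -/
theorem localize_step_mul {n : ℕ} {x : Y} {c : Y → ℤ} (hc : c ∈ Rel G inv D (core G inv n x))
    (hx : c x ≠ 0) : ∃ c' ∈ Rel G inv D (core G inv (n + 1) x), c' x ≠ 0 ∧
      ∃ m : ℕ, ∀ y, c' y = 2 ^ m * c y ∨ c' y = 0 := by
  classical
  have key : ∀ (k : ℕ) (c : Y → ℤ), c ∈ Rel G inv D (core G inv n x) → c x ≠ 0 →
      (univ.filter (fun y => c y ≠ 0)).card ≤ k →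
      ∃ c' ∈ Rel G inv D (core G inv (n + 1) x), c' x ≠ 0 ∧
        ∃ m : ℕ, ∀ y, c' y = 2 ^ m * c y ∨ c' y = 0 := by
    intro k
    induction k with
    | zero =>
      intro c hc hx hk
      have h1 : univ.filter (fun y => c y ≠ 0) = ∅ := Finset.card_eq_zero.1 (Nat.le_zero.1 hk)
      have h2 : x ∈ univ.filter (fun y => c y ≠ 0) := by simp [hx]
      rw [h1] at h2
      simp at h2
    | succ k ih =>
      intro c hc hx hk
      by_cases hsupp : ∀ y, y ∉ core G inv (n + 1) x → c y = 0
      · exact ⟨c, ⟨hc.1, hc.2.1, hsupp⟩, hx, 0, fun y => Or.inl (by rw [pow_zero, one_mul])⟩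
      · push Not at hsupp
        obtain ⟨z, hz, hcz⟩ := hsupp
        have hzn : z ∈ core G inv n x := by
          by_contra h
          exact hcz (hc.2.2 z h)
        rw [mem_core_succ] at hz
        push Not at hz
        obtain ⟨g, hg, hgz⟩ := hz hzn
        -- values of `c` at `g • y`
        have hval : ∀ y ∈ core G inv n x, (g • y = y ∧ c (g • y) = c y) ∨
            (g • y = inv y ∧ c (g • y) = - c y) := by
          intro y hy
          rcases hg y hy with h | h
          · exact Or.inl ⟨h, by rw [h]⟩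
          · exact Or.inr ⟨h, by rw [h, hc.1]⟩
        have hpres : ∀ y, y ∉ core G inv n x → g • y ∉ core G inv n x := by
          intro y hy hgy
          have hgx : g • x ∈ core G inv n x := by
            rcases hg x (self_mem n x) with h | h
            · rw [h]
              exact self_mem n x
            · rw [h]
              exact inv_mem hinv hG (self_mem n x)
          exact hy ((smul_mem_core hinv hG (self_mem n x) hgx y).1 hgy)
        have hcg : (fun y => c (g • y)) ∈ Rel G inv D (core G inv n x) :=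
          comp_mem hG hc g hpres
        have hpm : ∀ y, c (g • y) = c y ∨ c (g • y) = - c y := by
          intro y
          by_cases hyn : y ∈ core G inv n x
          · rcases hval y hyn with ⟨-, h⟩ | ⟨-, h⟩
            · exact Or.inl h
            · exact Or.inr h
          · left
            rw [hc.2.2 _ hyn, hc.2.2 _ (hpres y hyn)]
        -- choose the sign
        obtain ⟨c', hc', hx', hz', hzero⟩ : ∃ c' ∈ Rel G inv D (core G inv n x), c' x ≠ 0 ∧
            c' z = 0 ∧ ∀ y, c' y = 2 * c y ∨ c' y = 0 := by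
          rcases hgz with ⟨h1, h2⟩ | ⟨h1, h2⟩
          · refine ⟨c + fun y => c (g • y), AddSubgroup.add_mem _ hc hcg, ?_, ?_, ?_⟩
            · simp only [Pi.add_apply, h1]
              intro h
              apply hx
              linarith
            · rcases hval z hzn with ⟨h3, -⟩ | ⟨-, h3⟩
              · exact absurd h3 h2
              · simp only [Pi.add_apply, h3]
                ring
            · intro y
              simp only [Pi.add_apply]
              rcases hpm y with h | h
              · left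
                rw [h]
                ring
              · right
                rw [h]
                ring
          · refine ⟨c - fun y => c (g • y), AddSubgroup.sub_mem _ hc hcg, ?_, ?_, ?_⟩
            · rcases hval x (self_mem n x) with ⟨h3, -⟩ | ⟨-, h3⟩
              · exact absurd h3 h1
              · simp only [Pi.sub_apply, h3]
                intro h
                apply hx
                linarith
            · simp only [Pi.sub_apply, h2, sub_self]
            · intro y
              simp only [Pi.sub_apply]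
              rcases hpm y with h | h
              · right
                rw [h]
                ring
              · left
                rw [h]
                ring
        have hlt : (univ.filter (fun y => c' y ≠ 0)) ⊂ univ.filter (fun y => c y ≠ 0) := by
          rw [Finset.ssubset_iff_of_subset]
          · exact ⟨z, by simp [hcz], by simp [hz']⟩
          · intro y
            simp only [mem_filter, mem_univ, true_and]
            intro h1 h2
            rcases hzero y with h3 | h3
            · apply h1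
              rw [h3, h2, mul_zero]
            · exact h1 h3
        have hlt' := Finset.card_lt_card hlt
        obtain ⟨c'', h1, h2, m, h3⟩ := ih c' hc' hx' (by omega)
        refine ⟨c'', h1, h2, m + 1, fun y => ?_⟩
        rcases h3 y with h4 | h4
        · rcases hzero y with h5 | h5
          · left
            rw [h4, h5, pow_succ, mul_assoc]
          · right
            rw [h4, h5, mul_zero]
        · exact Or.inr h4
  exact key _ c hc hx le_rfl

/-- The localization of relations at the cores, with values. -/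
theorem localize_mul (n : ℕ) {x : Y} {c : Y → ℤ} (hc : c ∈ Rel G inv D Set.univ)
    (hx : c x ≠ 0) : ∃ c' ∈ Rel G inv D (core G inv n x), c' x ≠ 0 ∧
      ∃ m : ℕ, ∀ y, c' y = 2 ^ m * c y ∨ c' y = 0 := by
  induction n with
  | zero => exact ⟨c, hc, hx, 0, fun y => Or.inl (by rw [pow_zero, one_mul])⟩
  | succ n ih =>
    obtain ⟨c', hc', hx', m, hm⟩ := ih
    obtain ⟨c'', h1, h2, k, hk⟩ := localize_step_mul hinv hne hG hc' hx'
    refine ⟨c'', h1, h2, k + m, fun y => ?_⟩
    rcases hk y with h3 | h3
    · rcases hm y with h4 | h4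
      · left
        rw [h3, h4, pow_add, mul_assoc]
      · right
        rw [h3, h4, mul_zero]
    · exact Or.inr h3

/-- If the relations in the core of `x` are constant on `O`, then all relations are constant on the
translates of `O`. -/
theorem const_of_core {n : ℕ} {x : Y} {O : Finset Y} (hsub : ∀ y ∈ O, y ∈ core G inv n x)
    (hconst : ∀ c ∈ Rel G inv D (core G inv n x), ∀ y ∈ O, c y = c x) {c : Y → ℤ}
    (hc : c ∈ Rel G inv D Set.univ) (g : G) {y : Y} (hy : y ∈ O) : c (g • y) = c (g • x) := by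
  have hcg : (fun y => c (g • y)) ∈ Rel G inv D Set.univ :=
    comp_mem hG hc g fun y hy => absurd trivial hy
  have h2 : ∀ m : ℕ, (2 : ℤ) ^ m ≠ 0 := fun m => pow_ne_zero m two_ne_zero
  by_cases hx : c (g • x) = 0
  · rw [hx]
    by_contra hne0
    obtain ⟨c', h1, h3, m, h4⟩ := localize_mul hinv hne hG n hcg hne0
    rw [eq_of_mem (hsub y hy)] at h1
    have h5 := hconst c' h1 y hy
    rcases h4 x with h6 | h6
    · rw [h6] at h5
      apply h3
      rw [h5]
      change 2 ^ m * c (g • x) = 0
      rw [hx, mul_zero]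
    · exact h3 (h5.trans h6)
  · obtain ⟨c', h1, h3, m, h4⟩ := localize_mul hinv hne hG n hcg hx
    have h5 := hconst c' h1 y hy
    rcases h4 x with h6 | h6
    · rcases h4 y with h7 | h7
      · rw [h6, h7] at h5
        exact mul_left_cancel₀ (h2 m) h5
      · exact absurd (h5.symm.trans h7) h3
    · exact absurd h6 h3

end localize

/-- **Cores of `2 p` elements**, `p` an odd prime number: all relations in the core are constant on
one half of it. -/
theorem prime_core_odd_struct [IsPretransitive G Y] (hinv : ∀ y, inv (inv y) = y)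
    (hne : ∀ y, inv y ≠ y) (hG : ∀ (g : G) (y : Y), g • inv y = inv (g • y))
    (hD : ∀ y, D (inv y) = -D y) (p n : ℕ) [Fact p.Prime] (hp2 : p ≠ 2) (x : Y)
    (hcard : (core G inv n x).ncard = 2 * p) {c : Y → ℤ} (hc : c ∈ Rel G inv D Set.univ)
    (hc0 : c ≠ 0) :
    (∃ y₁ y₂, y₁ ≠ y₂ ∧ ∀ g : G, D (g • y₁) = D (g • y₂)) ∨
    ∃ O : Finset Y, x ∈ O ∧ O.card = p ∧ (∀ y ∈ O, inv y ∉ O) ∧
      (∀ (g : G), ∀ y ∈ O, g • y ∈ O → ∀ z ∈ O, g • z ∈ O) ∧
      (∀ g : G, ∑ y ∈ O, D (g • y) = 0) ∧ (∀ y ∈ O, y ∈ core G inv n x) ∧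
      ∀ c ∈ Rel G inv D (core G inv n x), ∀ y ∈ O, c y = c x := by
  classical
  have hp : p.Prime := Fact.out
  have _ : NeZero p := ⟨hp.ne_zero⟩
  set H := coreStab hinv hG n x with hH
  have hmemH : ∀ g, g ∈ H ↔ g • x ∈ core G inv n x := fun g => Iff.rfl
  have hHB : ∀ h ∈ H, ∀ y, h • y ∈ core G inv n x ↔ y ∈ core G inv n x := fun h hh y =>
    smul_mem_core hinv hG (self_mem n x) hh y
  obtain ⟨S⟩ := (inferInstance : Nonempty (Sylow p (bar H Y)))
  have hSlift : ∀ s : S, ∃ h ∈ H, ∀ y : Y, s • y = h • y := fun s => bar_smul H (s : bar H Y)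
  have horbH : orbit (bar H Y) x = core G inv n x := by
    ext y
    rw [mem_orbit_bar]
    constructor
    · rintro ⟨h, hh, rfl⟩
      exact hh
    · intro hy
      obtain ⟨g, rfl⟩ := exists_smul_eq G x y
      exact ⟨g, hy, rfl⟩
  have hcardS : Nat.card (orbit S x) = p := by
    have h1 : p ^ 1 ∣ Nat.card (orbit S x) := by
      apply sylow_orbit_dvd p S x 1
      rw [horbH, Nat.card_coe_set_eq, hcard, pow_one]
      exact Dvd.intro_left 2 rfl
    obtain ⟨m, hm⟩ := S.isPGroup'.card_orbit x
    have hsub : orbit S x ⊆ core G inv n x := by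
      rw [← horbH]
      rintro _ ⟨s, rfl⟩
      exact ⟨s, rfl⟩
    have h2 : Nat.card (orbit S x) ≤ 2 * p := by
      rw [← hcard, Nat.card_coe_set_eq]
      exact Set.ncard_le_ncard hsub (Set.toFinite _)
    rw [hm] at h1 h2 ⊢
    have h3 : 1 ≤ m := by
      by_contra h
      have : m = 0 := by omega
      rw [this, pow_zero, pow_one] at h1
      exact hp.one_lt.ne' (Nat.dvd_one.1 h1)
    have h4 : m < 2 := by
      by_contra h
      have h5 : p ^ 2 ≤ p ^ m := Nat.pow_le_pow_right hp.pos (by omega)
      have h6 : 3 ≤ p := by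
        have := hp.two_le
        omega
      nlinarith
    have : m = 1 := by omega
    rw [this, pow_one]
  obtain ⟨s, f, hf, hfinj, hfrange⟩ := exists_cycle S.isPGroup' x hcardS
  let O : Finset Y := univ.image f
  have hOmem : ∀ y, y ∈ O ↔ y ∈ orbit S x := by
    intro y
    rw [← hfrange]
    simp [O]
  have hOcard : O.card = p := by
    rw [Finset.card_image_of_injective _ hfinj, Finset.card_univ, ZMod.card]
  have hOinv : ∀ y ∈ O, inv y ∉ O := by
    intro y hy
    rw [hOmem] at hy ⊢
    exact orbit_half hinv hne hG p hp2 H S x hy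
  have hOsub : ∀ y ∈ O, y ∈ core G inv n x := by
    intro y hy
    rw [hOmem] at hy
    rw [← horbH]
    obtain ⟨s, rfl⟩ := hy
    exact ⟨s, rfl⟩
  have hcover := half_cover hinv hG O hOsub hOinv (by rw [hcard, hOcard])
  have hxO : x ∈ O := (hOmem x).2 (mem_orbit_self x)
  -- relations in the core are relations of the sums over `O`
  have hrelO : ∀ c ∈ Rel G inv D (core G inv n x), ∀ g : G, ∑ y ∈ O, c y * D (g • y) = 0 := by
    intro c hc g
    have h1 := hc.2.1 g
    rw [sum_eq_two_mul hinv O hOinv hcover (fun y => c y * D (g • y)) (fun y => by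
      rw [hc.1, hG, hD]
      ring) (fun y hy => by rw [hc.2.2 y hy, zero_mul])] at h1
    exact (mul_eq_zero.1 h1).resolve_left two_ne_zero
  have hpow : ∀ (k : ℕ) (i : ZMod p), s ^ k • f i = f (i + k) := by
    intro k
    induction k with
    | zero =>
      intro i
      rw [pow_zero, one_smul, Nat.cast_zero, add_zero]
    | succ k ih =>
      intro i
      rw [pow_succ', mul_smul, ih, hf]
      congr 1
      push_cast
      ring
  have hcorr : ∀ c ∈ Rel G inv D (core G inv n x), ∀ (g : G) (i : ZMod p),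
      ∑ j, c (f j) * D (g • f (j + i)) = 0 := by
    intro c hc g i
    obtain ⟨h, hh, hs⟩ := hSlift (s ^ i.val)
    have h1 := hrelO c hc (g * h)
    rw [Finset.sum_image (fun a _ b _ hab => hfinj hab)] at h1
    rw [← h1]
    refine Finset.sum_congr rfl fun j _ => ?_
    rw [mul_smul, ← hs, hpow, ZMod.natCast_zmod_val]
  obtain ⟨c₁, hc₁, hc₁x⟩ := exists_rel_core hinv hne hG n x hc hc0
  by_cases hall : ∀ c ∈ Rel G inv D (core G inv n x), ∀ i j, c (f i) = c (f j)
  · right
    have hconst : ∀ c ∈ Rel G inv D (core G inv n x), ∀ y ∈ O, c y = c x := by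
      intro c hc y hy
      obtain ⟨i, -, rfl⟩ := Finset.mem_image.1 hy
      obtain ⟨j, -, hj⟩ := Finset.mem_image.1 hxO
      rw [← hj]
      exact hall c hc i j
    refine ⟨O, hxO, hOcard, hOinv, ?_, ?_, hOsub, hconst⟩
    · intro g y hy hgy z hz
      have hgH : ∀ w, g • w ∈ core G inv n x ↔ w ∈ core G inv n x := fun w =>
        smul_mem_core hinv hG (hOsub y hy) (hOsub _ hgy) w
      have h1 : (fun y => c₁ (g • y)) ∈ Rel G inv D (core G inv n x) :=
        comp_mem hG hc₁ g fun y hy => by rwa [hgH]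
      have h2 : c₁ (g • z) = c₁ (g • y) :=
        (hconst _ h1 z hz).trans (hconst _ h1 y hy).symm
      rw [hconst c₁ hc₁ _ hgy] at h2
      rcases (hcover (g • z)).1 ((hgH z).2 (hOsub z hz)) with h3 | h3
      · exact h3
      · exfalso
        have h4 := hconst c₁ hc₁ _ h3
        rw [hc₁.1, h2] at h4
        apply hc₁x
        linarith
    · intro g
      have h1 := hrelO c₁ hc₁ g
      have h2 : ∑ y ∈ O, c₁ y * D (g • y) = c₁ x * ∑ y ∈ O, D (g • y) := by
        rw [Finset.mul_sum]
        exact Finset.sum_congr rfl fun y hy => by rw [hconst c₁ hc₁ y hy]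
      rw [h2] at h1
      exact (mul_eq_zero.1 h1).resolve_left hc₁x
  · left
    push Not at hall
    obtain ⟨c₂, hc₂, i₀, j₀, hij⟩ := hall
    refine ⟨f 0, f 1, fun h => ?_, fun g => ?_⟩
    · have h1 := hfinj h
      exact zero_ne_one h1
    · rcases const_of_correlation (fun j => c₂ (f j)) (fun j => D (g • f j))
        (fun i => hcorr c₂ hc₂ g i) with h1 | h1
      · exact absurd (h1 i₀ j₀) hij
      · exact h1 0 1

section two

variable [DecidableEq Y]

/-- **Relations in a core which is covered by a block with a doubly transitive stabilizer**: they are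
constant on the block. -/
theorem two_trans_core_struct [IsPretransitive G Y] (hinv : ∀ y, inv (inv y) = y)
    (hne : ∀ y, inv y ≠ y) (hG : ∀ (g : G) (y : Y), g • inv y = inv (g • y))
    (hD : ∀ y, D (inv y) = -D y) (n : ℕ) (x : Y) (O : Finset Y) (hx : x ∈ O)
    (hO : ∀ y ∈ O, inv y ∉ O) (hsub : ∀ y ∈ O, y ∈ core G inv n x)
    (hcard : (core G inv n x).ncard = 2 * O.card)
    (hblock : ∀ (g : G), ∀ y ∈ O, g • y ∈ O → ∀ z ∈ O, g • z ∈ O)
    (h2 : ∀ y₁ ∈ O, ∀ y₂ ∈ O, ∀ z₁ ∈ O, ∀ z₂ ∈ O, y₁ ≠ y₂ → z₁ ≠ z₂ →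
      ∃ g : G, g • y₁ = z₁ ∧ g • y₂ = z₂) {c : Y → ℤ} (hc : c ∈ Rel G inv D Set.univ)
    (hc0 : c ≠ 0) : (∃ y₁ y₂, y₁ ≠ y₂ ∧ ∀ g : G, D (g • y₁) = D (g • y₂)) ∨
      ((∀ g : G, ∑ y ∈ O, D (g • y) = 0) ∧
        ∀ c ∈ Rel G inv D (core G inv n x), ∀ y ∈ O, c y = c x) := by
  classical
  obtain ⟨c, hc, hcx⟩ := exists_rel_core hinv hne hG n x hc hc0
  have hcover := half_cover hinv hG O hsub hO hcard
  have hrel' : ∀ c ∈ Rel G inv D (core G inv n x), ∀ g : G, ∑ y ∈ O, c y * D (g • y) = 0 := by
    intro c hc g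
    have h1 := hc.2.1 g
    rw [sum_eq_two_mul hinv O hO hcover (fun y => c y * D (g • y)) (fun y => by
      rw [hc.1, hG, hD]
      ring) (fun y hy => by rw [hc.2.2 y hy, zero_mul])] at h1
    exact (mul_eq_zero.1 h1).resolve_left two_ne_zero
  by_cases hconst : ∀ c ∈ Rel G inv D (core G inv n x), ∀ y ∈ O, c y = c x
  · right
    refine ⟨fun g => ?_, hconst⟩
    have h1 := hrel' c hc g
    rw [Finset.sum_congr rfl (g := fun y => c x * D (g • y)) fun y hy => by
      rw [hconst c hc y hy], ← Finset.mul_sum] at h1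
    exact (mul_eq_zero.1 h1).resolve_left hcx
  left
  clear hcx hc
  push Not at hconst
  obtain ⟨c, hc, y', hy', hcy'⟩ := hconst
  have hrel := hrel' c hc
  set S : ℤ := ∑ y ∈ O, c y with hS
  have hcardpos : 0 < O.card := Finset.card_pos.2 ⟨x, hx⟩
  -- a point where the value is not the mean
  obtain ⟨z, hz, hzS⟩ : ∃ z ∈ O, (O.card : ℤ) * c z ≠ S := by
    by_contra h
    push Not at h
    apply hcy'
    have h1 := h x hx
    have h2 := h y' hy'
    have h3 : (O.card : ℤ) ≠ 0 := by exact_mod_cast hcardpos.ne'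
    exact mul_left_cancel₀ h3 (h2.trans h1.symm)
  obtain ⟨y₀, hy₀, hy₀z⟩ : ∃ y₀ ∈ O, y₀ ≠ z := by
    by_cases h : x = z
    · refine ⟨y', hy', fun h1 => hcy' ?_⟩
      rw [h1, h]
    · exact ⟨x, hx, h⟩
  let P : Finset (Equiv.Perm Y) := univ.filter fun s => ∃ g : G, (∀ y, s y = g • y) ∧ g • z = z
  have hP : ∀ s, s ∈ P ↔ ∃ g : G, (∀ y, s y = g • y) ∧ g • z = z := fun s => by simp [P]
  have h1P : (1 : Equiv.Perm Y) ∈ P := (hP 1).2 ⟨1, fun y => by simp, one_smul G z⟩
  have hPpos : (P.card : ℤ) ≠ 0 := by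
    exact_mod_cast (Finset.card_pos.2 ⟨1, h1P⟩).ne'
  let b : Y → ℤ := fun y => ∑ s ∈ P, c (s y)
  have hbrel : ∀ g : G, ∑ y ∈ O, b y * D (g • y) = 0 := by
    intro g
    simp only [b, Finset.sum_mul]
    rw [Finset.sum_comm]
    refine Finset.sum_eq_zero fun s hs => ?_
    obtain ⟨h, hh, hhz⟩ := (hP s).1 hs
    have h3 := sum_block O hblock (h := h) hz (by rwa [hhz]) fun y => c y * D ((g * h⁻¹) • y)
    rw [hrel (g * h⁻¹)] at h3
    rw [← h3]
    refine Finset.sum_congr rfl fun y _ => ?_
    rw [hh, mul_smul, inv_smul_smul]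
  have hbz : b z = P.card * c z := by
    simp only [b]
    rw [Finset.sum_congr rfl (g := fun _ => c z) fun s hs => ?_, Finset.sum_const, nsmul_eq_mul]
    obtain ⟨h, hh, hhz⟩ := (hP s).1 hs
    rw [hh, hhz]
  have hbc : ∀ y ∈ O, y ≠ z → b y = b y₀ := by
    intro y hy hyz
    obtain ⟨h, h3, h4⟩ := h2 z hz y hy z hz y₀ hy₀ hyz.symm hy₀z.symm
    have h5 : ∑ s ∈ P, c (s y₀) =
        ∑ s ∈ P, c ((s * (MulAction.toPerm h : Equiv.Perm Y)) y) := by
      refine Finset.sum_congr rfl fun s _ => ?_
      rw [Equiv.Perm.mul_apply, MulAction.toPerm_apply, h4]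
    change ∑ s ∈ P, c (s y) = ∑ s ∈ P, c (s y₀)
    rw [h5]
    symm
    refine Finset.sum_equiv (Equiv.mulRight (MulAction.toPerm h : Equiv.Perm Y)) ?_
      fun s _ => rfl
    intro s
    rw [hP, hP]
    constructor
    · rintro ⟨g, hg, hgz⟩
      refine ⟨g * h, fun w => ?_, by rw [mul_smul, h3, hgz]⟩
      change s (h • w) = _
      rw [hg, mul_smul]
    · rintro ⟨g, hg, hgz⟩
      refine ⟨g * h⁻¹, fun w => ?_, ?_⟩
      · have h6 := hg (h⁻¹ • w)
        change s (h • h⁻¹ • w) = _ at h6
        rw [smul_inv_smul] at h6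
        rw [h6, mul_smul]
      · have h6 : h⁻¹ • z = z := by rw [inv_smul_eq_iff, h3]
        rw [mul_smul, h6, hgz]
  have hbsum : ∑ y ∈ O, b y = P.card * S := by
    simp only [b]
    rw [Finset.sum_comm, Finset.sum_congr rfl (g := fun _ => S) fun s hs => ?_, Finset.sum_const,
      nsmul_eq_mul]
    obtain ⟨h, hh, hhz⟩ := (hP s).1 hs
    rw [hS, ← sum_block O hblock (h := h) hz (by rwa [hhz]) c]
    exact Finset.sum_congr rfl fun y _ => by rw [hh]
  have hsplit : ∀ f : Y → ℤ, ∑ y ∈ O, f y = f z + ∑ y ∈ O.erase z, f y := fun f =>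
    (Finset.add_sum_erase O f hz).symm
  have hbne : b z ≠ b y₀ := by
    intro h
    apply hzS
    have h3 : ∑ y ∈ O, b y = O.card * b z := by
      rw [Finset.sum_congr rfl (g := fun _ => b z) fun y hy => ?_, Finset.sum_const, nsmul_eq_mul]
      by_cases hyz : y = z
      · rw [hyz]
      · rw [hbc y hy hyz, h]
    rw [hbsum, hbz] at h3
    refine mul_left_cancel₀ hPpos ?_
    rw [h3]
    ring
  have hmain : ∀ g : G, (b z - b y₀) * D (g • z) + b y₀ * ∑ y ∈ O, D (g • y) = 0 := by
    intro g
    have h3 := hbrel g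
    rw [hsplit fun y => b y * D (g • y), Finset.sum_congr rfl (g := fun y => b y₀ * D (g • y))
      fun y hy => by rw [hbc y (Finset.mem_of_mem_erase hy) (Finset.ne_of_mem_erase hy)],
      ← Finset.mul_sum] at h3
    rw [hsplit fun y => D (g • y)]
    linear_combination h3
  obtain ⟨h, h3, -⟩ := h2 z hz y₀ hy₀ y₀ hy₀ z hz hy₀z.symm hy₀z
  refine ⟨z, y₀, hy₀z.symm, fun g => ?_⟩
  have h4 := hmain g
  have h5 := hmain (g * h)
  have h6 : ∑ y ∈ O, D ((g * h) • y) = ∑ y ∈ O, D (g • y) := by
    rw [← sum_block O hblock (h := h) hz (by rwa [h3]) fun y => D (g • y)]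
    exact Finset.sum_congr rfl fun y _ => by rw [mul_smul]
  rw [h6, mul_smul, h3] at h5
  have h7 : (b z - b y₀) * (D (g • z) - D (g • y₀)) = 0 := by linear_combination h4 - h5
  have h8 := (mul_eq_zero.1 h7).resolve_left (sub_ne_zero.2 hbne)
  linarith

end two

end abstract

end Pool.Agent.H298.Core
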