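import Mathlib
import Pool.Agent.H298.Core.Struct

/-!
# The structure of the relations in CM fields with primitive cores
-/

set_option autoImplicit false
set_option linter.unusedSectionVars false
set_option linter.unusedVariables false

namespace Pool.Agent.H298.Core

open NumberField Module MulAction Finset Pool.Agent.H204R3.CM Pool.Agent.H977R3.CM
  Pool.Agent.TH170.CM

attribute [local instance] actC

section

variable {E : Type} [Field E] [NumberField E] [IsCMField E]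

/-- The subfield which belongs to a block of embeddings. -/
theorem exists_field_of_block {x : E →+* ℂ} (O : Finset (E →+* ℂ)) (hx : x ∈ O)
    (hO : ∀ y ∈ O, ComplexEmbedding.conjugate y ∉ O)
    (hblock : ∀ (σ : ℂ ≃+* ℂ), ∀ y ∈ O, σ • y ∈ O → ∀ z ∈ O, σ • z ∈ O) :
    ∃ F : IntermediateField ℚ E, finrank F E = O.card ∧ ¬ IsTotallyReal F ∧
      ∀ (φ : E →+* ℂ) (σ : ℂ ≃+* ℂ), σ • φ ∈ O → ∀ ψ : E →+* ℂ,
        (∀ x ∈ F, ψ x = φ x) ↔ σ • ψ ∈ O := by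
  classical
  obtain ⟨K, hK⟩ := exists_subfield
    { r := fun φ ψ => ∃ σ : ℂ ≃+* ℂ, σ • φ ∈ O ∧ σ • ψ ∈ O
      iseqv := ⟨fun φ => by
        obtain ⟨σ, hσ⟩ := exists_smul_eq (ℂ ≃+* ℂ) φ x
        exact ⟨σ, by rwa [hσ], by rwa [hσ]⟩, fun ⟨σ, h1, h2⟩ => ⟨σ, h2, h1⟩, by
        rintro a b c ⟨σ, h1, h2⟩ ⟨τ, h3, h4⟩
        refine ⟨τ, ?_, h4⟩
        have h5 := hblock (τ * σ⁻¹) (σ • b) h2 (by rwa [mul_smul, inv_smul_smul]) (σ • a) h1
        rwa [mul_smul, inv_smul_smul] at h5⟩ }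
    (fun σ φ ψ ⟨τ, h1, h2⟩ => ⟨τ * σ⁻¹, by rwa [mul_smul, inv_smul_smul],
      by rwa [mul_smul, inv_smul_smul]⟩)
  have hfib : ∀ (φ : E →+* ℂ) (σ : ℂ ≃+* ℂ), σ • φ ∈ O → ∀ ψ : E →+* ℂ,
      (∀ x ∈ K, ψ x = φ x) ↔ σ • ψ ∈ O := by
    intro φ σ hσ ψ
    rw [hK]
    constructor
    · rintro ⟨τ, h1, h2⟩
      have h5 := hblock (σ * τ⁻¹) (τ • φ) h2 (by rwa [mul_smul, inv_smul_smul]) (τ • ψ) h1
      rwa [mul_smul, inv_smul_smul] at h5
    · intro h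
      exact ⟨σ, h, hσ⟩
  refine ⟨K, ?_, ?_, hfib⟩
  · rw [← card_extensions K x]
    have h1 : Nat.card {ψ : E →+* ℂ // ∀ y ∈ K, ψ y = x y} = Nat.card O := by
      refine Nat.card_congr (Equiv.subtypeEquivRight fun ψ => ?_)
      rw [hfib x 1 (by rwa [one_smul]), one_smul]
    rw [h1, Nat.card_eq_fintype_card, Fintype.card_coe]
  · intro hreal
    have h1 : (∀ y ∈ K, ComplexEmbedding.conjugate x y = x y) := by
      intro y hy
      have h2 : ComplexEmbedding.IsReal (x.comp (algebraMap K E)) :=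
        IsTotallyReal.complexEmbedding_isReal _
      exact RingHom.congr_fun h2 ⟨y, hy⟩
    rw [hfib x 1 (by rwa [one_smul]), one_smul] at h1
    exact hO x hx h1

open Classical in
/-- The conclusions for a block. -/
theorem structure_of_block {z : (E →+* ℂ) → ℤ} {x : E →+* ℂ} {n : ℕ} (O : Finset (E →+* ℂ))
    (hx : x ∈ O) (hsum : ∀ σ : ℂ ≃+* ℂ, ∑ y ∈ O, z (σ • y) = 0)
    (hsub : ∀ y ∈ O, y ∈ core (ℂ ≃+* ℂ) ComplexEmbedding.conjugate n x)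
    (hconst : ∀ c ∈ Rel (ℂ ≃+* ℂ) ComplexEmbedding.conjugate z
      (core (ℂ ≃+* ℂ) ComplexEmbedding.conjugate n x), ∀ y ∈ O, c y = c x)
    {F : IntermediateField ℚ E}
    (hfib : ∀ (φ : E →+* ℂ) (σ : ℂ ≃+* ℂ), σ • φ ∈ O → ∀ ψ : E →+* ℂ,
        (∀ x ∈ F, ψ x = φ x) ↔ σ • ψ ∈ O) :
    (∀ φ : E →+* ℂ, ∑ ψ : E →+* ℂ with (∀ x ∈ F, ψ x = φ x), z ψ = 0) ∧
    ∀ s ∈ Rel (ℂ ≃+* ℂ) ComplexEmbedding.conjugate z Set.univ, ∀ φ ψ : E →+* ℂ,
      (∀ x ∈ F, φ x = ψ x) → s φ = s ψ := by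
  refine ⟨fun φ => ?_, fun s hs φ ψ h => ?_⟩
  · obtain ⟨σ, hσ⟩ := exists_smul_eq (ℂ ≃+* ℂ) φ x
    have h1 : (univ.filter fun ψ : E →+* ℂ => ∀ x ∈ F, ψ x = φ x) =
        O.image (fun y => σ⁻¹ • y) := by
      ext ψ
      rw [mem_filter, mem_image, hfib φ σ (by rwa [hσ])]
      constructor
      · rintro ⟨-, h⟩
        exact ⟨_, h, inv_smul_smul _ _⟩
      · rintro ⟨y, hy, rfl⟩
        exact ⟨mem_univ _, by rwa [smul_inv_smul]⟩
    have h3 : ∑ ψ ∈ O.image (fun y => σ⁻¹ • y), z ψ = 0 := by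
      rw [sum_image fun a _ b _ hab => smul_left_cancel _ hab]
      exact hsum σ⁻¹
    convert h3 using 2
  · obtain ⟨σ, hσ⟩ := exists_smul_eq (ℂ ≃+* ℂ) ψ x
    have h1 : σ • φ ∈ O := (hfib ψ σ (by rwa [hσ]) φ).1 h
    have h2 := const_of_core conj_conj conj_ne smul_conj hsub hconst hs σ⁻¹ h1
    rwa [inv_smul_smul, ← hσ, inv_smul_smul] at h2

open Classical in
/-- **The structure of the relations.** If the function `z` has relations and does not take the same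
values at all conjugates of two embeddings, then it is balanced over a subfield `F`, and all relations
come from `F`. -/
theorem relations_structure {c : ℕ} (hcore : PrimitiveCore E c) {z : (E →+* ℂ) → ℤ}
    (hz : ∀ φ, z (ComplexEmbedding.conjugate φ) = -z φ)
    (hnp : ¬ ∃ y₁ y₂ : E →+* ℂ, y₁ ≠ y₂ ∧ ∀ σ : ℂ ≃+* ℂ, z (σ • y₁) = z (σ • y₂))
    {r : (E →+* ℂ) → ℤ} (hr : r ∈ Rel (ℂ ≃+* ℂ) ComplexEmbedding.conjugate z Set.univ)
    (hr0 : r ≠ 0) :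
    c ≠ 2 ∧ ∃ F : IntermediateField ℚ E, finrank F E = c ∧ ¬ IsTotallyReal F ∧
      (∀ φ : E →+* ℂ, ∑ ψ : E →+* ℂ with (∀ x ∈ F, ψ x = φ x), z ψ = 0) ∧
      ∀ s ∈ Rel (ℂ ≃+* ℂ) ComplexEmbedding.conjugate z Set.univ, ∀ φ ψ : E →+* ℂ,
        (∀ x ∈ F, φ x = ψ x) → s φ = s ψ := by
  by_cases hp : c.Prime
  · obtain ⟨n, φ, hcard⟩ := hcore.1
    rw [coreOf_eq] at hcard
    by_cases hp2 : c = 2
    · exfalso
      subst hp2
      exact hnp (zero_core_two conj_conj conj_ne smul_conj hz n φ (by rw [hcard]) hr hr0)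
    refine ⟨hp2, ?_⟩
    have _ : Fact c.Prime := ⟨hp⟩
    rcases prime_core_odd_struct conj_conj conj_ne smul_conj hz c n hp2 φ hcard hr hr0 with
      h | ⟨O, hx, hOcard, hO, hblock, hsum, hsub, hconst⟩
    · exact absurd h hnp
    · obtain ⟨F, hF, hF', hfib⟩ := exists_field_of_block O hx hO hblock
      exact ⟨F, hF.trans hOcard, hF', structure_of_block O hx hsum hsub hconst hfib⟩
  · obtain ⟨⟨n, φ, hcard⟩, h | ⟨F, rfl, hF, h2⟩⟩ := hcore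
    · exact absurd h hp
    refine ⟨fun h => hp (by rw [h]; exact Nat.prime_two), ?_⟩
    rw [coreOf_eq] at hcard
    let O : Finset (E →+* ℂ) := univ.filter fun ψ => ∀ x ∈ F, ψ x = φ x
    have hO : ∀ ψ, ψ ∈ O ↔ ∀ x ∈ F, ψ x = φ x := by
      intro ψ
      simp [O]
    have hφO : φ ∈ O := (hO φ).2 fun x _ => rfl
    have hOcard : O.card = finrank F E := by
      rw [← card_extensions F φ, ← Fintype.card_coe, ← Nat.card_eq_fintype_card]
      exact Nat.card_congr (Equiv.subtypeEquivRight hO)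
    have hOconj : ∀ y ∈ O, ComplexEmbedding.conjugate y ∉ O := by
      intro y hy hy'
      obtain ⟨x, hx, hne⟩ := conj_ne_on hF y
      exact hne (((hO _).1 hy' x hx).trans ((hO _).1 hy x hx).symm)
    have hsub : ∀ y ∈ O, y ∈ core (ℂ ≃+* ℂ) ComplexEmbedding.conjugate n φ := by
      intro y hy
      rw [← coreOf_eq]
      exact ext_mem_coreOf hF n ((hO y).1 hy)
    have hblock : ∀ (σ : ℂ ≃+* ℂ), ∀ y ∈ O, σ • y ∈ O → ∀ w ∈ O, σ • w ∈ O := by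
      intro σ y hy hσy w hw
      rw [hO] at hy hσy hw ⊢
      intro x hx
      have h3 := hσy x hx
      rw [actC_apply] at h3 ⊢
      rw [hw x hx, ← hy x hx]
      rw [hy x hx] at h3 ⊢
      exact h3
    have h2' : ∀ y₁ ∈ O, ∀ y₂ ∈ O, ∀ z₁ ∈ O, ∀ z₂ ∈ O, y₁ ≠ y₂ → z₁ ≠ z₂ →
        ∃ σ : ℂ ≃+* ℂ, σ • y₁ = z₁ ∧ σ • y₂ = z₂ := by
      intro y₁ hy₁ y₂ hy₂ z₁ hz₁ z₂ hz₂ hy hz'
      rw [hO] at hy₁ hy₂ hz₁ hz₂
      exact h2 y₁ y₂ z₁ z₂ (fun x hx => (hy₂ x hx).trans (hy₁ x hx).symm)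
        (fun x hx => (hz₁ x hx).trans (hy₁ x hx).symm)
        (fun x hx => (hz₂ x hx).trans (hy₁ x hx).symm) hy hz'
    have hfib : ∀ (ψ : E →+* ℂ) (σ : ℂ ≃+* ℂ), σ • ψ ∈ O → ∀ ψ' : E →+* ℂ,
        (∀ x ∈ F, ψ' x = ψ x) ↔ σ • ψ' ∈ O := by
      intro ψ σ hσ ψ'
      rw [hO] at hσ ⊢
      refine forall₂_congr fun x hx => ?_
      have h3 := hσ x hx
      rw [actC_apply] at h3 ⊢
      rw [← h3]
      exact σ.injective.eq_iff.symm
    rcases two_trans_core_struct conj_conj conj_ne smul_conj hz n φ O hφO hOconj hsub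
      (by rw [hcard, hOcard]) hblock h2' hr hr0 with h | ⟨hsum, hconst⟩
    · exact absurd h hnp
    · exact ⟨F, rfl, hF, structure_of_block O hφO hsum hsub hconst hfib⟩

end

end Pool.Agent.H298.Core
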