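import Mathlib
import Pool.Agent.H298.Core.WeilDefs
import Pool.Graph.R_pool_sql_team_seeded_620a6dc7.Helper33_dom.Struct

/-!
# Numbers in fields with irreducible odd part or primitive core
-/

set_option autoImplicit false

universe u

namespace Pool.Agent.H298.Core

open NumberField Module Pool.Agent.Y156.P Pool.Agent.Helper33Dom

/-- The number `π` is an algebraic integer, each power of which generates `K`. The odd part of `K` is
irreducible, or the field `K` has a primitive core. -/
def CoreType {K : Type} [Field K] [NumberField K] [IsCMField K] (π : K) : Prop :=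
  IsIntegral ℤ π ∧ (∀ s : ℕ, 0 < s → IntermediateField.adjoin ℚ {π ^ s} = ⊤) ∧
    (OddIrreducible K ∨ ∃ c : ℕ, PrimitiveCore K c)

/-- Weil numbers `π` in fields with irreducible odd part have no subfields of norm type, and in
fields with a primitive core with `c` pairs there is a subfield of norm type if and only if the norm
of `π` in some subfield of index `c`, not totally real, is supersingular. -/
def NormSubCriteria : Prop :=
  ∀ (K : Type) [Field K] [NumberField K] [IsCMField K] (p : ℕ) [Fact p.Prime] (a : ℕ), 0 < a →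
    ∀ π : K, IsSimpleWeil p a π → (OddIrreducible K → ∀ E : Subfield K, ¬ NormSub p a π E) ∧
      ∀ c : ℕ, PrimitiveCore K c → ((∃ E : Subfield K, NormSub p a π E) ↔
        ∃ F : IntermediateField ℚ K, finrank F K = c ∧ ¬ IsTotallyReal F ∧
          SupersingularNorm p a π F)

/-- The endomorphism `Φ` of `V` is diagonalisable with eigenvalues among the conjugates of the
`π i`. -/
def HasEigenvalues {I : Type} (K : I → Type) [∀ i, Field (K i)] (π : ∀ i, K i) {Ω V : Type u}
    [Field Ω] [AddCommGroup V] [Module Ω V] (Φ : V →ₗ[Ω] V) : Prop :=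
  Submodule.span Ω {v : V | ∃ i, ∃ σ : K i →+* Ω, Φ v = σ (π i) • v} = ⊤

/-- The Tate classes of degree two over the base field. -/
def degreeTwo (p a : ℕ) {Ω V : Type u} [Field Ω] [AddCommGroup V] [Module Ω V] (Φ : V →ₗ[Ω] V) :
    Set (ExteriorAlgebra Ω V) :=
  {y | y ∈ ⋀[Ω]^2 V ∧ ExteriorAlgebra.map Φ y = (p : Ω) ^ a • y}

/-- For all vector spaces with such an endomorphism: the classes of degree `2 m` which are Tate
classes over some extension are the polynomials in the Tate classes of degree two and the norm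
classes of the subfields of norm type. -/
def AllTateClasses (p : ℕ) [Fact p.Prime] (a : ℕ) {I : Type} (K : I → Type) [∀ i, Field (K i)]
    (π : ∀ i, K i) (Ω : Type u) [Field Ω] : Prop :=
  ∀ (V : Type u) [AddCommGroup V] [Module Ω V] (Φ : V →ₗ[Ω] V), HasEigenvalues K π Φ →
    ∀ (m : ℕ), ∀ x ∈ ⋀[Ω]^(2 * m) V,
      ((∃ s : ℕ, 0 < s ∧ ExteriorAlgebra.map (Φ ^ s) x = (((p : Ω) ^ a) ^ m) ^ s • x) ↔
        x ∈ Algebra.adjoin Ω (degreeTwo p a Φ ∪
          {y | ∃ i, ∃ E : Subfield (K i), NormSub p a (π i) E ∧ y ∈ normClasses Φ (π i) E}))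

/-- For all finite-dimensional vector spaces with such an endomorphism: all Tate classes over all
extensions are polynomials in the Tate classes of degree two over the base field. -/
def GeneratedInDegreeTwo (p a : ℕ) {I : Type} (K : I → Type) [∀ i, Field (K i)] (π : ∀ i, K i)
    (Ω : Type u) [Field Ω] : Prop :=
  ∀ (V : Type u) [AddCommGroup V] [Module Ω V] [FiniteDimensional Ω V] (Φ : V →ₗ[Ω] V),
    HasEigenvalues K π Φ → ∀ (m s : ℕ), 0 < s → ∀ x ∈ ⋀[Ω]^(2 * m) V,
      ExteriorAlgebra.map (Φ ^ s) x = (((p : Ω) ^ a) ^ m) ^ s • x →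
        x ∈ Algebra.adjoin Ω (degreeTwo p a Φ)

end Pool.Agent.H298.Core
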