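import Mathlib
import Pool.Agent.H298.Core.StructField
import Pool.Agent.H298.Core.Weil
import Pool.Agent.H298.Core.TameDefs
import Pool.Graph.R_pool_sql_team_seeded_620a6dc7.Helper33_dom.Main

/-!
# Weil numbers in fields with primitive cores are tame
-/

set_option autoImplicit false
set_option linter.unusedSectionVars false
set_option linter.unusedVariables false

namespace Pool.Agent.H298.Core

open NumberField Module MulAction Pool.Agent.H925R2 Pool.Agent.H485R3 Pool.Agent.H204R3.CM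
  Pool.Agent.H868R3.TwoOdd Pool.Agent.H194R3.CM Pool.Agent.H194R3.Tate Pool.Agent.Helper33Dom
  Pool.Agent.TH170

attribute [local instance] actC

section

variable {F : Type} [Field F] [NumberField F] [IsCMField F]
  {L : Type*} [Field L] [NumberField L] [IsGalois ℚ L] (p : ℕ) [Fact p.Prime]

open Classical in
/-- **Weil numbers in fields with irreducible odd part or primitive core are tame**: all relations
come from a subfield. -/
theorem tame_of_core (j : L →+* ℂ) (h : ∀ ψ : F →+* ℂ, ∃ φ : F →+* L, j.comp φ = ψ)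
    (e : L →ₐ[ℚ] PadicAlgCl p) (m : ℕ) (π : F)
    (hweil : ∀ φ : F →+* ℂ, ‖φ π‖ ^ 2 = (((p : ℚ) ^ m : ℚ) : ℝ))
    (hπ : CoreType π) : Tame p e m π := by
  obtain ⟨hint, hgen, hcore⟩ := hπ
  have hp : p.Prime := Fact.out
  have hp1 : (1 : ℝ) < p := by exact_mod_cast hp.one_lt
  have hlog : 0 < Real.log p := Real.log_pos hp1
  have hq : (0 : ℚ) < (p : ℚ) ^ m := pow_pos (by exact_mod_cast hp.pos) _
  intro c hc ⟨φ₀, hc0⟩
  have hπ0 : π ≠ 0 := weil_ne hq hweil
  choose q hq' using fun φ : F →+* L => Pool.Agent.Y156.P.exists_rat_logb (p := p)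
    (y := e (φ π)) ((_root_.map_ne_zero _).2 ((_root_.map_ne_zero _).2 hπ0))
  have hu : ∀ φ, uvec p e m π φ = Real.log p * ((2 * q φ + m : ℚ) : ℝ) := by
    intro φ
    have h1 : - Real.logb p ‖((((p : ℚ) ^ m : ℚ)) : PadicAlgCl p)‖ = m := by
      rw [Pool.Agent.H925R2.norm_pow_cast, Real.logb_inv, Real.logb_pow,
        Real.logb_self_eq_one hp1]
      ring
    unfold uvec
    rw [dev_eq_val, h1, hq' φ]
    push_cast
    ring
  have huc : ∀ φ, uvec p e m π (cbar φ) = - uvec p e m π φ := by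
    intro φ
    have h1 := dev_inv p hq.ne' (((e : L →+* PadicAlgCl p).comp φ) π)
      ((_root_.map_ne_zero _).2 (weil_ne hq hweil))
    rw [← weil_cbar hq hweil] at h1
    exact h1
  -- the bijection of the embeddings
  let J : (F →+* L) → (F →+* ℂ) := fun φ => j.comp φ
  have hJinj : Function.Injective J := fun φ ψ hφψ => RingHom.ext fun x =>
    j.injective (RingHom.congr_fun hφψ x)
  have hJsurj : Function.Surjective J := fun ψ => h ψ
  let JE : (F →+* L) ≃ (F →+* ℂ) := Equiv.ofBijective J ⟨hJinj, hJsurj⟩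
  have hJE : ∀ φ, JE φ = j.comp φ := fun φ => rfl
  have hJc : ∀ φ, JE (cbar φ) = ComplexEmbedding.conjugate (JE φ) := fun φ => comp_cbar j φ
  have hJsymmc : ∀ ψ, JE.symm (ComplexEmbedding.conjugate ψ) = cbar (JE.symm ψ) := by
    intro ψ
    apply JE.injective
    rw [Equiv.apply_symm_apply, hJc, Equiv.apply_symm_apply]
  have hact : ∀ σ : ℂ ≃+* ℂ, ∃ g : L ≃ₐ[ℚ] L, ∀ φ : F →+* L, σ • JE φ = JE (g • φ) := by
    intro σ
    obtain ⟨g, hg⟩ := Pool.Agent.H977R3.CM.exists_gal j σ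
    exact ⟨g, fun φ => RingHom.ext fun x => hg (φ x)⟩
  have hact' : ∀ g : L ≃ₐ[ℚ] L, ∃ σ : ℂ ≃+* ℂ, ∀ φ : F →+* L, σ • JE φ = JE (g • φ) := by
    intro g
    obtain ⟨σ, hσ⟩ := Pool.Agent.H977R3.CM.exists_aut j (g : L ≃+* L)
    exact ⟨σ, fun φ => RingHom.ext fun x => hσ (φ x)⟩
  -- the integral function
  obtain ⟨D, z, hD, hz⟩ := GS.exists_den (fun ψ : F →+* ℂ => 2 * q (JE.symm ψ) + m)
  have hDq : (D : ℚ) ≠ 0 := Nat.cast_ne_zero.2 hD
  have hDr : (D : ℝ) ≠ 0 := Nat.cast_ne_zero.2 hD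
  have hzu : ∀ φ, (z (JE φ) : ℝ) = D / Real.log p * uvec p e m π φ := by
    intro φ
    have h1 := congrArg (fun t : ℚ => (t : ℝ)) (hz (JE φ))
    simp only [Equiv.symm_apply_apply] at h1
    rw [hu]
    push_cast at h1 ⊢
    rw [h1]
    field_simp
  have hzc : ∀ ψ, z (ComplexEmbedding.conjugate ψ) = -z ψ := by
    intro ψ
    obtain ⟨φ, rfl⟩ := JE.surjective ψ
    have h1 : (z (ComplexEmbedding.conjugate (JE φ)) : ℝ) = ((-z (JE φ) : ℤ) : ℝ) := by
      rw [← hJc, hzu, huc, Int.cast_neg, hzu]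
      ring
    exact_mod_cast h1
  -- relations correspond to relations
  have htrans : ∀ (c' : (F →+* L) → ℤ) (σ : ℂ ≃+* ℂ) (g : L ≃ₐ[ℚ] L),
      (∀ φ : F →+* L, σ • JE φ = JE (g • φ)) →
      ((∑ ψ : F →+* ℂ, c' (JE.symm ψ) * z (σ • ψ) : ℤ) : ℝ) =
        D / Real.log p * ∑ φ : F →+* L, (c' φ : ℝ) * uvec p e m π (g • φ) := by
    intro c' σ g hg
    push_cast
    rw [Finset.mul_sum, ← Equiv.sum_comp JE]
    refine Finset.sum_congr rfl fun φ _ => ?_
    rw [Equiv.symm_apply_apply, hg, hzu]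
    ring
  have hRel : ∀ c' : (F →+* L) → ℤ, IsRel (L ≃ₐ[ℚ] L) cbar (uvec p e m π) c' →
      (fun ψ => c' (JE.symm ψ)) ∈ Rel (ℂ ≃+* ℂ) ComplexEmbedding.conjugate z Set.univ := by
    intro c' hc'
    refine ⟨fun ψ => ?_, fun σ => ?_, fun y hy => absurd (Set.mem_univ y) hy⟩
    · change c' (JE.symm (ComplexEmbedding.conjugate ψ)) = -c' (JE.symm ψ)
      rw [hJsymmc, hc'.1]
    · obtain ⟨g, hg⟩ := hact σ
      have h1 := htrans c' σ g hg
      rw [hc'.2 g, mul_zero] at h1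
      exact_mod_cast h1
  have hr := hRel c hc
  have hr0 : (fun ψ => c (JE.symm ψ)) ≠ 0 := by
    intro h0
    apply hc0
    have h1 := congrFun h0 (JE φ₀)
    simpa using h1
  have hnp : ¬ ∃ y₁ y₂ : F →+* ℂ, y₁ ≠ y₂ ∧ ∀ σ : ℂ ≃+* ℂ, z (σ • y₁) = z (σ • y₂) := by
    rintro ⟨y₁, y₂, hne, hall⟩
    obtain ⟨φ₁, rfl⟩ := JE.surjective y₁
    obtain ⟨φ₂, rfl⟩ := JE.surjective y₂
    obtain ⟨g, hg⟩ := exists_slope_ne_slope p m π hint hgen hweil e φ₁ φ₂
      (fun h' => hne (by rw [h']))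
    apply hg
    obtain ⟨σ, hσ⟩ := hact' g
    have h1 := congrArg (fun t : ℤ => (t : ℝ)) (hall σ)
    simp only [hσ, hzu] at h1
    have h2 : (D : ℝ) / Real.log p ≠ 0 := div_ne_zero hDr hlog.ne'
    exact mul_left_cancel₀ h2 h1
  -- the subfield
  obtain ⟨F₀, hF₀, hbal, hconst⟩ : ∃ F₀ : IntermediateField ℚ F, ¬ IsTotallyReal F₀ ∧
      (∀ φ : F →+* ℂ, ∑ ψ : F →+* ℂ with (∀ x ∈ F₀, ψ x = φ x), z ψ = 0) ∧
      ∀ s ∈ Rel (ℂ ≃+* ℂ) ComplexEmbedding.conjugate z Set.univ, ∀ φ ψ : F →+* ℂ,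
        (∀ x ∈ F₀, φ x = ψ x) → s φ = s ψ := by
    rcases hcore with hirr | ⟨c', hcore⟩
    · exfalso
      have h1 := irreducible_zero hzc hirr hr hr0
      exact hnp ⟨JE φ₀, ComplexEmbedding.conjugate (JE φ₀), (Core.conj_ne _).symm,
        fun σ => by rw [h1, h1]⟩
    · obtain ⟨-, F₀, -, h1, h2, h3⟩ := relations_structure hcore hzc hnp hr hr0
      exact ⟨F₀, h1, h2, h3⟩
  -- agreement on the subfield
  have hagr : ∀ φ ψ : F →+* L, (∀ x ∈ F₀, (JE φ) x = (JE ψ) x) ↔ ∀ x ∈ F₀, φ x = ψ x := by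
    intro φ ψ
    refine forall₂_congr fun x _ => ?_
    exact j.injective.eq_iff
  let t : (F →+* L) → (F →+* L) → ℤ := fun x₁ x =>
    (if ∀ a ∈ F₀, x a = x₁ a then 1 else 0) - (if ∀ a ∈ F₀, cbar x a = x₁ a then 1 else 0)
  have hsumL : ∀ (g : L ≃ₐ[ℚ] L) (x₁ : F →+* L),
      ∑ x : F →+* L with (∀ a ∈ F₀, x a = x₁ a), uvec p e m π (g • x) = 0 := by
    intro g x₁
    have h1 := hbal (JE (g • x₁))
    have h2 : ∑ x : F →+* L with (∀ a ∈ F₀, x a = x₁ a), z (JE (g • x)) = 0 := by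
      rw [← h1]
      refine Finset.sum_bij (fun x _ => JE (g • x)) ?_ ?_ ?_ ?_
      · intro x hx
        rw [Finset.mem_filter] at hx ⊢
        refine ⟨Finset.mem_univ _, ?_⟩
        rw [hagr]
        intro a ha
        exact congrArg g (hx.2 a ha)
      · intro x _ y _ hxy
        exact smul_left_cancel g (JE.injective hxy)
      · intro ψ hψ
        rw [Finset.mem_filter] at hψ
        obtain ⟨y, rfl⟩ := JE.surjective ψ
        refine ⟨g⁻¹ • y, ?_, by rw [smul_inv_smul]⟩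
        rw [Finset.mem_filter]
        refine ⟨Finset.mem_univ _, fun a ha => ?_⟩
        have h3 := (hagr _ _).1 hψ.2 a ha
        change g⁻¹ (y a) = x₁ a
        rw [h3]
        change (g⁻¹ * g) (x₁ a) = x₁ a
        rw [inv_mul_cancel, AlgEquiv.one_apply]
      · intro x _
        rfl
    have h3 := congrArg (fun t : ℤ => (t : ℝ)) h2
    push_cast at h3
    simp only [hzu] at h3
    rw [← Finset.mul_sum] at h3
    exact (mul_eq_zero.1 h3).resolve_left (div_ne_zero hDr hlog.ne')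
  have hcc : ∀ (x x₁ : F →+* L), (∀ a ∈ F₀, cbar x a = x₁ a) ↔ ∀ a ∈ F₀, x a = cbar x₁ a := by
    intro x x₁
    rw [← hagr, ← hagr, hJc, hJc]
    refine forall₂_congr fun a _ => ?_
    rw [ComplexEmbedding.conjugate_coe_eq, ComplexEmbedding.conjugate_coe_eq]
    constructor
    · intro h'
      rw [← h', Complex.conj_conj]
    · intro h'
      rw [h', Complex.conj_conj]
  have htrel : ∀ x₁, IsRel (L ≃ₐ[ℚ] L) cbar (uvec p e m π) (t x₁) := by
    intro x₁
    refine ⟨fun x => ?_, fun g => ?_⟩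
    · simp only [t, cbar_cbar]
      ring
    · have h1 : ∀ x, ((t x₁ x : ℤ) : ℝ) * uvec p e m π (g • x) =
          (if ∀ a ∈ F₀, x a = x₁ a then uvec p e m π (g • x) else 0) -
            (if ∀ a ∈ F₀, x a = cbar x₁ a then uvec p e m π (g • x) else 0) := by
        intro x
        simp only [t, hcc]
        split_ifs <;> simp
      rw [Finset.sum_congr rfl fun x _ => h1 x, Finset.sum_sub_distrib, ← Finset.sum_filter,
        ← Finset.sum_filter, hsumL, hsumL, sub_zero]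
  have hnotc : ∀ x₁ : F →+* L, ¬ ∀ a ∈ F₀, cbar x₁ a = x₁ a := by
    intro x₁ h'
    obtain ⟨a, ha, hne⟩ := conj_ne_on hF₀ (JE x₁)
    apply hne
    rw [← hJc]
    exact (hagr _ _).2 h' a ha
  have hEqv : ∀ x x₁ : F →+* L,
      Eqv (L ≃ₐ[ℚ] L) cbar (uvec p e m π) x x₁ ↔ ∀ a ∈ F₀, x a = x₁ a := by
    intro x x₁
    constructor
    · intro hx
      have h1 : t x₁ x = t x₁ x₁ := hx _ (htrel x₁)
      have h2 : t x₁ x₁ = 1 := by
        change (if ∀ a ∈ F₀, x₁ a = x₁ a then (1 : ℤ) else 0) -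
          (if ∀ a ∈ F₀, cbar x₁ a = x₁ a then (1 : ℤ) else 0) = 1
        rw [if_neg (hnotc x₁), if_pos (fun _ _ => rfl), sub_zero]
      rw [h2] at h1
      by_contra hno
      have h3 : t x₁ x ≤ 0 := by
        change (if ∀ a ∈ F₀, x a = x₁ a then (1 : ℤ) else 0) -
          (if ∀ a ∈ F₀, cbar x a = x₁ a then (1 : ℤ) else 0) ≤ 0
        rw [if_neg hno]
        split_ifs <;> omega
      omega
    · intro hx c' hc'
      have h1 := hconst _ (hRel c' hc') (JE x) (JE x₁) ((hagr _ _).2 hx)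
      simpa using h1
  have hcls : ∀ x₁ : F →+* L, IsRel (L ≃ₐ[ℚ] L) cbar (uvec p e m π)
      (fun x => (if Eqv (L ≃ₐ[ℚ] L) cbar (uvec p e m π) x x₁ then 1 else 0) -
        (if Eqv (L ≃ₐ[ℚ] L) cbar (uvec p e m π) (cbar x) x₁ then 1 else 0)) := by
    intro x₁
    have h1 := htrel x₁
    simp only [hEqv]
    exact h1
  refine ⟨?_, hcls⟩
  -- two embeddings with the same restriction
  have hex : ∃ x y : F →+* L, y ≠ x ∧ ∀ a ∈ F₀, y a = x a := by
    by_contra hno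
    push Not at hno
    refine hnp ⟨JE φ₀, ComplexEmbedding.conjugate (JE φ₀), (Core.conj_ne _).symm, fun σ => ?_⟩
    have hz0 : ∀ ψ, z ψ = 0 := by
      intro ψ
      have h1 := hbal ψ
      have h2 : (Finset.univ.filter fun ψ' : F →+* ℂ => ∀ x ∈ F₀, ψ' x = ψ x) = {ψ} := by
        ext ψ'
        rw [Finset.mem_filter, Finset.mem_singleton]
        constructor
        · rintro ⟨-, h3⟩
          by_contra hne
          obtain ⟨φ', rfl⟩ := JE.surjective ψ'
          obtain ⟨φ, rfl⟩ := JE.surjective ψ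
          obtain ⟨a, ha, h4⟩ := hno φ φ' fun h' => hne (by rw [h'])
          exact h4 ((hagr _ _).1 h3 a ha)
        · rintro rfl
          exact ⟨Finset.mem_univ _, fun _ _ => rfl⟩
      rw [h2, Finset.sum_singleton] at h1
      exact h1
    rw [hz0, hz0]
  obtain ⟨x, y, hxy, hyx⟩ := hex
  exact normSub_of_classes p j h e m π hweil c hc φ₀ hc0 hcls x y hxy ((hEqv y x).2 hyx)

end

end Pool.Agent.H298.Core
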