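import Mathlib
import Pool.Agent.H298.Core.Tame
import Pool.Graph.R_pool_sql_team_seeded_620a6dc7.Helper33_dom.Criterion

/-!
# All Tate classes for Weil numbers in fields with primitive cores

The proof of `mem_of_tate_core` is the one of the library (`Helper33Dom.mem_of_tate`), with the new case
of the fields with irreducible odd part or primitive core.
-/

set_option autoImplicit false
set_option linter.unusedSectionVars false
set_option linter.unusedVariables false

universe u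

namespace Pool.Agent.H298.Core

open NumberField Module Pool.Agent.H925R2 Pool.Agent.H485R3 Pool.Agent.H204R3.CM
  Pool.Agent.H868R3.TwoOdd Pool.Agent.H194R3.CM Pool.Agent.H194R3.Tate Pool.Agent.Helper33Dom

variable {I : Type*} (p : ℕ) [Fact p.Prime] {K : I → Type} [∀ i, Field (K i)]
  [∀ i, NumberField (K i)] [∀ i, IsCMField (K i)]
  {Ω : Type*} [Field Ω] [IsAlgClosed Ω] [CharZero Ω]
  {V : Type*} [AddCommGroup V] [Module Ω V]

/-- **All Tate classes**: the Tate classes over all extensions are the elements of even degree of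
the algebra generated by the Tate classes of degree two and the norm classes. -/
theorem mem_of_tate_core [Finite I] (a : ℕ) (π : ∀ i, K i)
    (hweil : ∀ i, ∀ φ : K i →+* ℂ, ‖φ (π i)‖ ^ 2 = (((p : ℚ) ^ a : ℚ) : ℝ))
    (hπ : ∀ i, CoreType (π i) ∨ DominantSlopes p a (π i) ∨ PairTransitiveType (π i) ∨
      FlipType p a (π i))
    (hcross : ∀ i j, i ≠ j → ∀ (φ : K i →+* ℂ) (ψ : K j →+* ℂ), CrossFlipped φ ψ)
    (Φ : V →ₗ[Ω] V)
    (hΦ : Submodule.span Ω {v : V | ∃ i, ∃ σ : K i →+* Ω, Φ v = σ (π i) • v} = ⊤)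
    (m s : ℕ) (hs : 0 < s) (x : ExteriorAlgebra Ω V) (hx : x ∈ ⋀[Ω]^(2 * m) V)
    (hFx : ExteriorAlgebra.map (Φ ^ s) x = (((p : Ω) ^ a) ^ m) ^ s • x) :
    x ∈ Algebra.adjoin Ω
      ({y : ExteriorAlgebra Ω V | y ∈ ⋀[Ω]^2 V ∧ ExteriorAlgebra.map Φ y = (p : Ω) ^ a • y} ∪
        {y | ∃ i, ∃ E : Subfield (K i), NormSub p a (π i) E ∧ y ∈ normClasses Φ (π i) E}) := by
  classical
  cases nonempty_fintype I
  have hp : p.Prime := Fact.out
  have hq : (0 : ℚ) < (p : ℚ) ^ a := pow_pos (by exact_mod_cast hp.pos) _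
  obtain ⟨L, hL1, hL2, j, h⟩ := exists_galois K
  let e : L →ₐ[ℚ] PadicAlgCl p := IsAlgClosed.lift
  let jΩ : L →ₐ[ℚ] Ω := IsAlgClosed.lift
  let G := L ≃ₐ[ℚ] L
  let X := Σ i, (K i →+* L)
  have hπ' : ∀ i, Tame p e a (π i) := by
    intro i
    rcases hπ i with hco | hd | hpt | hfl
    · exact tame_of_core p j (h i) e a (π i) (hweil i) hco
    · exact tame_of_dominant p j (h i) e a (π i) (hweil i) hd
    · exact tame_of_pair p j (h i) e a (π i) (hweil i) hpt
    · intro c hc ⟨φ, hφ⟩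
      exact absurd (norel_of_mixed (I := Unit) p (K := fun _ => K i) (fun _ => a) (fun _ => π i)
        (fun _ => hweil i) (fun _ => Or.inr hfl) (fun a b hab => absurd (Subsingleton.elim a b) hab)
        L inferInstance inferInstance j (fun _ => h i) e (fun x => c x.2)
        (fun x => hc.1 x.2) (fun g => by
          rw [Fintype.sum_sigma, Fintype.sum_unique]
          exact hc.2 g) ⟨(), φ⟩) hφ
  let μ : X → Ω := fun x => jΩ (x.2 (π x.1))
  have hspan : Submodule.span Ω {v : V | ∃ x, Φ v = μ x • v} = ⊤ := by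
    rw [← hΦ]
    congr 1
    ext v
    constructor
    · rintro ⟨⟨i, φ⟩, hv⟩
      exact ⟨i, (jΩ : L →+* Ω).comp φ, hv⟩
    · rintro ⟨i, σ, hv⟩
      obtain ⟨φ, rfl⟩ := exists_lift j (h i) jΩ σ
      exact ⟨⟨i, φ⟩, hv⟩
  refine mem_of_labels Φ μ hspan (2 * m) s ((((p : Ω) ^ a) ^ m) ^ s) _ ?_ x hx hFx
  intro v y hv hprod
  refine lprod_mem (fun w z => Φ w = μ z • w) (Blocks p e a π) (Good p e a π)
    (good_step p e a π hπ') _ ?_ (2 * m) (List.ofFn fun k => (v k, y k)) (by simp) ?_ ?_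
  · -- the blocks
    intro T hT hTb
    rcases hTb with ⟨z, hz⟩ | ⟨i, x₁, hNS, hnd, hmem⟩
    · obtain ⟨e1, T1, rfl⟩ : ∃ e1 T1, T = e1 :: T1 := by
        cases T with
        | nil => simp at hz
        | cons e1 T1 => exact ⟨e1, T1, rfl⟩
      obtain ⟨e2, T2, rfl⟩ : ∃ e2 T2, T1 = e2 :: T2 := by
        cases T1 with
        | nil => simp at hz
        | cons e2 T2 => exact ⟨e2, T2, rfl⟩
      simp only [List.map_cons, List.cons.injEq, List.map_eq_nil_iff] at hz
      obtain ⟨h1, h2, rfl⟩ := hz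
      apply Algebra.subset_adjoin
      left
      have h3 : lprod (Ω := Ω) [e1, e2] = ExteriorAlgebra.ι Ω e1.1 * ExteriorAlgebra.ι Ω e2.1 := by
        simp [lprod]
      rw [h3]
      have h4 := hT e1 (by simp)
      have h5 := hT e2 (by simp)
      rw [h1] at h4
      rw [h2] at h5
      refine iota_mul_mem_deg2 Φ _ (μ z) (μ (inj z)) e1.1 e2.1 h4 h5 ?_
      obtain ⟨i, φ⟩ := z
      change jΩ (φ (π i)) * jΩ (cbar φ (π i)) = _
      rw [weil_cbar hq (hweil i), ← map_mul jΩ (φ (π i)),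
        mul_div_cancel₀ _ ((map_ne_zero _).2 (weil_ne hq (hweil i))), map_ratCast]
      push_cast
      rfl
    · apply Algebra.subset_adjoin
      right
      refine ⟨i, fixedSub (uvec p e a (π i)), hNS, ?_⟩
      have hlab : ∀ k : Fin T.length, ∃ φ : K i →+* L, (T.get k).2 = ⟨i, φ⟩ ∧
          Eqv (L ≃ₐ[ℚ] L) cbar (uvec p e a (π i)) φ x₁ := by
        intro k
        exact (hmem _).1 (List.mem_map.2 ⟨T.get k, List.get_mem T k, rfl⟩)
      choose φ hφ1 hφ2 using hlab
      have hgetinj : Function.Injective fun k : Fin T.length => (T.get k).2 := by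
        intro k l hkl
        have h1 : (T.map Prod.snd).Nodup := hnd
        rw [List.nodup_iff_injective_get] at h1
        have h2 : (⟨k.1, by rw [List.length_map]; exact k.2⟩ : Fin (T.map Prod.snd).length) =
            ⟨l.1, by rw [List.length_map]; exact l.2⟩ := by
          apply h1
          simpa using hkl
        have h3 := congrArg Fin.val h2
        exact Fin.ext h3
      refine ⟨(jΩ : L →+* Ω).comp x₁, T.length, fun k => (jΩ : L →+* Ω).comp (φ k),
        fun k => (T.get k).1, ?_, ?_, ?_, ?_⟩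
      · intro k l hkl
        apply hgetinj
        change (T.get k).2 = (T.get l).2
        rw [hφ1 k, hφ1 l]
        congr 1
        exact RingHom.ext fun b => (jΩ : L →+* Ω).injective (RingHom.congr_fun hkl b)
      · intro τ
        constructor
        · rintro ⟨k, rfl⟩ b hb
          change jΩ (φ k b) = jΩ (x₁ b)
          rw [(agree_iff _ x₁ (φ k)).2 (hφ2 k) b hb]
        · intro hτ
          obtain ⟨ψ, rfl⟩ := exists_lift j (h i) jΩ τ
          have h1 : Eqv (L ≃ₐ[ℚ] L) cbar (uvec p e a (π i)) ψ x₁ := by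
            rw [← agree_iff]
            intro b hb
            exact (jΩ : L →+* Ω).injective (hτ b hb)
          have h2 := (hmem ⟨i, ψ⟩).2 ⟨ψ, rfl, h1⟩
          obtain ⟨f, hf, hf2⟩ := List.mem_map.1 h2
          obtain ⟨k, rfl⟩ := List.mem_iff_get.1 hf
          refine ⟨k, ?_⟩
          have h3 := hφ1 k
          rw [hf2] at h3
          have h4 : ψ = φ k := eq_of_heq (Sigma.mk.inj_iff.1 h3).2
          rw [h4]
      · intro k
        have h1 := hT (T.get k) (List.get_mem T k)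
        rw [hφ1 k] at h1
        exact h1
      · rw [ExteriorAlgebra.ιMulti_apply, lprod]
        congr 1
        have h1 : List.ofFn T.get = T := List.ofFn_get T
        conv_lhs => rw [← h1, List.map_ofFn]
        rfl
  · intro f hf
    rw [List.mem_ofFn] at hf
    obtain ⟨k, rfl⟩ := hf
    exact hv k
  · -- the multiplicities are good
    have hmap : (List.ofFn fun k => (v k, y k)).map Prod.snd = List.ofFn y := by
      rw [List.map_ofFn]
      rfl
    have hrel : (∏ k, (y k).2 (π (y k).1)) ^ (2 * s) = ((((p : ℚ) ^ a : ℚ) : L) ^ (2 * m)) ^ s := by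
      apply (jΩ : L →+* Ω).injective
      change jΩ _ = jΩ _
      rw [map_pow, map_prod, map_pow, map_pow, map_ratCast]
      have h1 : ∏ k, jΩ ((y k).2 (π (y k).1)) = ∏ k, μ (y k) := rfl
      rw [h1, mul_comm 2 s, pow_mul, hprod, Rat.cast_pow, Rat.cast_natCast, ← pow_mul, ← pow_mul,
        ← pow_mul, ← pow_mul, ← pow_mul]
      congr 1
      ring
    have hsum := rel_of_prod p ((p : ℚ) ^ a) hq π hweil e y s hs hrel
    let c : X → ℤ := fun z => ((List.ofFn y).count z : ℤ) - ((List.ofFn y).count (inj z) : ℤ)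
    have hG : ∀ (g : G) (x : X), g • inj x = inj (g • x) := by
      rintro g ⟨b, φ⟩
      rfl
    obtain ⟨hblock, -⟩ := core_block_real (X := X) (G := G) inj hG (fun x => x.1)
      (slope p (fun _ => (p : ℚ) ^ a) π e)
      (slope_inj p (fun _ => hq) hweil e)
      (fun x y hxy => by
        have hfl : Flipped (⟨x.1, j.comp x.2⟩ : Σ i, (K i →+* ℂ)) ⟨y.1, j.comp y.2⟩ := by
          obtain ⟨τ, ⟨h1, h2⟩ | ⟨h1, h2⟩⟩ := hcross x.1 y.1 (fun h' => hxy h'.symm) (j.comp x.2)
            (j.comp y.2)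
          · exact ⟨τ, Or.inl ⟨congrArg (Sigma.mk x.1) h1, congrArg (Sigma.mk y.1) h2⟩⟩
          · exact ⟨τ, Or.inr (Or.inl ⟨congrArg (Sigma.mk x.1) h1, congrArg (Sigma.mk y.1) h2⟩)⟩
        obtain ⟨g, hg | hg | hg⟩ := flip_transfer j x y hfl
        · exact ⟨g, Or.inl hg⟩
        · exact ⟨g, Or.inr hg⟩
        · exfalso
          apply hxy
          exact (congrArg Sigma.fst hg.1).symm) c (fun g => by
        refine Eq.trans (Finset.sum_congr rfl fun z _ => ?_) (hsum g)
        simp only [c])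
    intro i
    rw [hmap]
    refine ⟨fun φ => ?_, fun g => ?_⟩
    · simp only [cbar_cbar]
      ring
    · rw [← hblock i g, Finset.sum_filter, Fintype.sum_sigma, Finset.sum_eq_single i]
      · refine Finset.sum_congr rfl fun φ _ => ?_
        rw [if_pos rfl]
        rfl
      · intro b _ hb
        refine Finset.sum_eq_zero fun φ _ => ?_
        rw [if_neg hb]
      · intro h'
        exact absurd (Finset.mem_univ _) h'

/-- **The complete description of the Tate classes.** -/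
theorem tate_iff [Finite I] (a : ℕ) (π : ∀ i, K i) (hint : ∀ i, IsIntegral ℤ (π i))
    (hweil : ∀ i, ∀ φ : K i →+* ℂ, ‖φ (π i)‖ ^ 2 = (p : ℝ) ^ a)
    (hπ : ∀ i, CoreType (π i) ∨ DominantSlopes p a (π i) ∨ PairTransitiveType (π i) ∨
      FlipType p a (π i))
    (hcross : ∀ i j, i ≠ j → ∀ (φ : K i →+* ℂ) (ψ : K j →+* ℂ), CrossFlipped φ ψ)
    (Φ : V →ₗ[Ω] V)
    (hΦ : Submodule.span Ω {v : V | ∃ i, ∃ σ : K i →+* Ω, Φ v = σ (π i) • v} = ⊤)
    (m : ℕ) (x : ExteriorAlgebra Ω V) (hx : x ∈ ⋀[Ω]^(2 * m) V) :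
    (∃ s : ℕ, 0 < s ∧ ExteriorAlgebra.map (Φ ^ s) x = (((p : Ω) ^ a) ^ m) ^ s • x) ↔
      x ∈ Algebra.adjoin Ω
        ({y : ExteriorAlgebra Ω V | y ∈ ⋀[Ω]^2 V ∧ ExteriorAlgebra.map Φ y = (p : Ω) ^ a • y} ∪
          {y | ∃ i, ∃ E : Subfield (K i), NormSub p a (π i) E ∧ y ∈ normClasses Φ (π i) E}) := by
  have hweil' : ∀ i, ∀ φ : K i →+* ℂ, ‖φ (π i)‖ ^ 2 = (((p : ℚ) ^ a : ℚ) : ℝ) := by
    intro i φ
    rw [hweil i φ]
    push_cast
    rfl
  constructor
  · rintro ⟨s, hs, h⟩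
    exact mem_of_tate_core p a π hweil' hπ hcross Φ hΦ m s hs x hx h
  · exact tate_of_mem p a π hint hweil' Φ m x hx

/-- **When are all Tate classes generated by those of degree two?** -/
theorem criterion_core (a : ℕ) {I : Type} [Finite I] {K : I → Type}
    [∀ i, Field (K i)] [∀ i, NumberField (K i)] [∀ i, IsCMField (K i)]
    (π : ∀ i, K i) (hint : ∀ i, IsIntegral ℤ (π i))
    (hgen : ∀ i, IntermediateField.adjoin ℚ {π i} = ⊤)
    (hweil : ∀ i, ∀ φ : K i →+* ℂ, ‖φ (π i)‖ ^ 2 = (p : ℝ) ^ a)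
    (hπ : ∀ i, CoreType (π i) ∨ DominantSlopes p a (π i) ∨ PairTransitiveType (π i) ∨
      FlipType p a (π i))
    (hcross : ∀ i j, i ≠ j → ∀ (φ : K i →+* ℂ) (ψ : K j →+* ℂ), CrossFlipped φ ψ)
    (Ω : Type u) [Field Ω] [IsAlgClosed Ω] [CharZero Ω] :
    (∀ (V : Type u) [AddCommGroup V] [Module Ω V] [FiniteDimensional Ω V] (Φ : V →ₗ[Ω] V),
      Submodule.span Ω {v : V | ∃ i, ∃ σ : K i →+* Ω, Φ v = σ (π i) • v} = ⊤ →
      ∀ (m s : ℕ), 0 < s → ∀ x ∈ ⋀[Ω]^(2 * m) V,
        ExteriorAlgebra.map (Φ ^ s) x = (((p : Ω) ^ a) ^ m) ^ s • x →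
        x ∈ Algebra.adjoin Ω {y : ExteriorAlgebra Ω V |
          y ∈ ⋀[Ω]^2 V ∧ ExteriorAlgebra.map Φ y = (p : Ω) ^ a • y}) ↔
      ∀ i, ∀ E : Subfield (K i), ¬ NormSub p a (π i) E := by
  have hweil' : ∀ i, ∀ φ : K i →+* ℂ, ‖φ (π i)‖ ^ 2 = (((p : ℚ) ^ a : ℚ) : ℝ) := by
    intro i φ
    rw [hweil i φ]
    push_cast
    rfl
  constructor
  · intro hgenerated i E hE
    obtain ⟨d, Φ, hΦ, m, s, hs, x, hx, hFx, hnot⟩ := exists_exotic p a (π i) (hint i) (hgen i)
      (hweil' i) ⟨E, hE⟩ Ω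
    apply hnot
    refine hgenerated (Fin d → Ω) Φ ?_ m s hs x hx hFx
    rw [eq_top_iff, ← hΦ]
    apply Submodule.span_mono
    rintro v ⟨σ, hv⟩
    exact ⟨i, σ, hv⟩
  · intro hno V _ _ _ Φ hΦ m s hs x hx hFx
    have h1 := mem_of_tate_core p a π hweil' hπ hcross Φ hΦ m s hs x hx hFx
    refine Algebra.adjoin_mono ?_ h1
    rintro y (hy | ⟨i, E, hE, -⟩)
    · exact hy
    · exact absurd hE (hno i E)

end Pool.Agent.H298.Core
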