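import Mathlib
import Pool.Agent.H298.Core.TateAll
import Pool.Agent.H298.Core.WeilRel

/-!
# The subfields of norm type of fields with primitive cores
-/

set_option autoImplicit false
set_option linter.unusedSectionVars false
set_option linter.unusedVariables false

namespace Pool.Agent.H298.Core

open NumberField Module Pool.Agent.H204R3.CM Pool.Agent.TH170 Pool.Agent.Y156.P
  Pool.Agent.Helper33Dom

variable {K : Type} [Field K] [NumberField K] {p : ℕ} [hp : Fact p.Prime] {a : ℕ} {π : K}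

/-- The sums of the normalised valuations vanish if and only if the norm is supersingular. -/
theorem sum_zero_iff (hπ0 : π ≠ 0) (F : IntermediateField ℚ K) :
    (∀ τ₁ : K →+* PadicAlgCl p, ∑ᶠ τ ∈ {τ : K →+* PadicAlgCl p | ∀ x ∈ F.toSubfield, τ x = τ₁ x},
      (2 * (- Real.logb p ‖τ π‖) - a) = 0) ↔ SupersingularNorm p a π F := by
  classical
  obtain ⟨ν⟩ := exists_iso p
  rw [supersingular_iff ν F]
  have hp1 : (1 : ℝ) < p := by exact_mod_cast hp.out.one_lt
  have hp0 : (0 : ℝ) < p := by linarith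
  have hpn : ‖(p : PadicAlgCl p)‖ = (p : ℝ)⁻¹ := by
    rw [← GS.norm_symm_p (ν := ν), map_natCast]
  let T : (K →+* ℂ) → (K →+* PadicAlgCl p) := fun ψ =>
    ((ν.symm : ℂ ≃+* PadicAlgCl p) : ℂ →+* PadicAlgCl p).comp ψ
  have hTinj : Function.Injective T := fun ψ ψ' h => RingHom.ext fun x =>
    ν.symm.injective (RingHom.congr_fun h x)
  have hTsurj : Function.Surjective T := fun τ => ⟨((ν : PadicAlgCl p ≃+* ℂ) :
    PadicAlgCl p →+* ℂ).comp τ, RingHom.ext fun x => ν.symm_apply_apply (τ x)⟩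
  have key : ∀ φ : K →+* ℂ,
      ∑ᶠ τ ∈ {τ : K →+* PadicAlgCl p | ∀ x ∈ F.toSubfield, τ x = T φ x},
        (2 * (- Real.logb p ‖τ π‖) - a) =
      ∑ ψ : K →+* ℂ with (∀ x ∈ F, ψ x = φ x), (2 * (- Real.logb p ‖T ψ π‖) - a) := by
    intro φ
    have himg : {τ : K →+* PadicAlgCl p | ∀ x ∈ F.toSubfield, τ x = T φ x} =
        T '' ((Finset.univ.filter fun ψ : K →+* ℂ => ∀ x ∈ F, ψ x = φ x : Finset (K →+* ℂ)) :
          Set (K →+* ℂ)) := by
      ext τ
      constructor
      · intro h1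
        obtain ⟨ψ, rfl⟩ := hTsurj τ
        refine ⟨ψ, ?_, rfl⟩
        rw [Finset.mem_coe, Finset.mem_filter]
        exact ⟨Finset.mem_univ _, fun x hx => ν.symm.injective (h1 x hx)⟩
      · rintro ⟨ψ, h1, rfl⟩ x hx
        rw [Finset.mem_coe, Finset.mem_filter] at h1
        exact congrArg ν.symm (h1.2 x hx)
    rw [himg, finsum_mem_image hTinj.injOn, finsum_mem_coe_finset]
  have hcard : ∀ φ : K →+* ℂ, (Finset.univ.filter fun ψ : K →+* ℂ => ∀ x ∈ F, ψ x = φ x).card =
      finrank F K := by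
    intro φ
    rw [← card_extensions F φ, ← Fintype.card_coe, ← Nat.card_eq_fintype_card]
    exact Nat.card_congr (Equiv.subtypeEquivRight fun ψ => by simp)
  have hpos : ∀ ψ : K →+* ℂ, 0 < ‖ν.symm (ψ π)‖ ^ 2 := fun ψ => by
    have := norm_pos_iff.2 ((_root_.map_ne_zero ν.symm).2 ((_root_.map_ne_zero ψ).2 hπ0))
    positivity
  have main : ∀ φ : K →+* ℂ,
      (∑ ψ : K →+* ℂ with (∀ x ∈ F, ψ x = φ x), (2 * (- Real.logb p ‖T ψ π‖) - a) = 0 ↔
        ∏ ψ : K →+* ℂ with (∀ x ∈ F, ψ x = φ x), ‖ν.symm (ψ π)‖ ^ 2 =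
          ‖(p : PadicAlgCl p) ^ a‖ ^ finrank F K) := by
    intro φ
    have h1 : Real.logb p (∏ ψ : K →+* ℂ with (∀ x ∈ F, ψ x = φ x), ‖ν.symm (ψ π)‖ ^ 2) =
        ∑ ψ : K →+* ℂ with (∀ x ∈ F, ψ x = φ x), 2 * Real.logb p ‖T ψ π‖ := by
      rw [Real.logb_prod _ _ fun ψ _ => (hpos ψ).ne']
      refine Finset.sum_congr rfl fun ψ _ => ?_
      rw [Real.logb_pow]
      rfl
    have h2 : Real.logb p (‖(p : PadicAlgCl p) ^ a‖ ^ finrank F K) = -(finrank F K * a) := by
      rw [norm_pow, hpn, Real.logb_pow, Real.logb_pow, Real.logb_inv,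
        Real.logb_self_eq_one hp1]
      ring
    have h3 : ∑ ψ : K →+* ℂ with (∀ x ∈ F, ψ x = φ x), (2 * (- Real.logb p ‖T ψ π‖) - a) =
        - Real.logb p (∏ ψ : K →+* ℂ with (∀ x ∈ F, ψ x = φ x), ‖ν.symm (ψ π)‖ ^ 2) +
          Real.logb p (‖(p : PadicAlgCl p) ^ a‖ ^ finrank F K) := by
      rw [h1, h2, Finset.sum_sub_distrib, Finset.sum_const, hcard, nsmul_eq_mul,
        ← Finset.sum_neg_distrib]
      rw [sub_eq_add_neg]
      congr 1
      refine Finset.sum_congr rfl fun ψ _ => ?_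
      ring
    rw [h3]
    constructor
    · intro h
      refine Real.logb_injOn_pos hp1 (Finset.prod_pos fun ψ _ => hpos ψ)
        (show (0 : ℝ) < ‖(p : PadicAlgCl p) ^ a‖ ^ finrank F K by
          rw [norm_pow, hpn]; positivity) ?_
      linarith
    · intro h
      rw [h]
      ring
  constructor
  · intro h φ
    have h1 := h (T φ)
    rw [key, main] at h1
    exact h1
  · intro h τ₁
    obtain ⟨φ, rfl⟩ := hTsurj τ₁
    rw [key, main]
    exact h φ

/-- The subfields of norm type. -/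
theorem normSub_iff [IsCMField K] (hπ0 : π ≠ 0) (F : IntermediateField ℚ K) :
    NormSub p a π F.toSubfield ↔ F ≠ ⊤ ∧ ¬ IsTotallyReal F ∧ SupersingularNorm p a π F := by
  unfold NormSub
  rw [sum_zero_iff hπ0]
  refine and_congr (not_congr ⟨fun h => ?_, fun h => ?_⟩) (and_congr_left fun _ => ⟨?_, ?_⟩)
  · apply IntermediateField.toSubfield_injective
    rw [h]
    rfl
  · rw [h]
    rfl
  · rintro ⟨x, hx, φ, hφ⟩ hreal
    apply hφ
    have h2 : ComplexEmbedding.IsReal (φ.comp (algebraMap F K)) :=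
      IsTotallyReal.complexEmbedding_isReal _
    have h3 : (starRingEnd ℂ) (φ x) = φ x := RingHom.congr_fun h2 ⟨x, hx⟩
    exact Complex.conj_eq_iff_im.1 h3
  · intro hF
    obtain ⟨φ⟩ : Nonempty (K →+* ℂ) := inferInstance
    obtain ⟨x, hx, hne⟩ := conj_ne_on hF φ
    refine ⟨x, hx, φ, fun h => hne ?_⟩
    rw [ComplexEmbedding.conjugate_coe_eq]
    exact Complex.conj_eq_iff_im.2 h

/-- Every subfield of a field of characteristic zero is an intermediate field. -/
theorem exists_intermediate (E : Subfield K) : ∃ F : IntermediateField ℚ K, F.toSubfield = E := by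
  refine ⟨{ E with
    algebraMap_mem' := fun r => ?_
    inv_mem' := fun x hx => E.inv_mem hx }, rfl⟩
  rw [eq_ratCast]
  exact SubfieldClass.ratCast_mem E r

/-- In a field with a primitive core with `c` pairs it is sufficient to consider the subfields of
index `c`. -/
theorem exists_normSub_iff [IsCMField K] (ha : 0 < a) (hπ : IsSimpleWeil p a π) {c : ℕ}
    (hc : PrimitiveCore K c) : (∃ E : Subfield K, NormSub p a π E) ↔
      ∃ F : IntermediateField ℚ K, finrank F K = c ∧ ¬ IsTotallyReal F ∧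
        SupersingularNorm p a π F := by
  have hπ0 : π ≠ 0 := by
    intro h0
    have h1 := hπ.weil
    rw [h0, zero_mul] at h1
    exact pow_ne_zero a (Nat.cast_ne_zero.2 hp.out.ne_zero) h1.symm
  constructor
  · rintro ⟨E, hE⟩
    obtain ⟨F, rfl⟩ := exists_intermediate E
    obtain ⟨-, h1, h2⟩ := (normSub_iff hπ0 F).1 hE
    by_contra hno
    push Not at hno
    exact not_supersingular_of_angle hπ (angle_core (I := Unit) (K := fun _ => K) ha
      (fun i k hik => absurd rfl hik) (π := fun _ => π) fun _ => ⟨hπ, Or.inr ⟨c, hc, hno⟩⟩) h1 h2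
  · rintro ⟨F, -, h1, h2⟩
    refine ⟨F.toSubfield, (normSub_iff hπ0 F).2 ⟨?_, h1, h2⟩⟩
    rintro rfl
    obtain ⟨m, hm, h3⟩ := (supersingular_iff_pow hπ ⊤).1 h2
    -- then a power of `π` is rational
    have h4 : finrank (⊤ : IntermediateField ℚ K) K = 1 := IntermediateField.finrank_top
    have h5 : ((Algebra.norm (⊤ : IntermediateField ℚ K) π : (⊤ : IntermediateField ℚ K)) : K) =
        π := by
      obtain ⟨y, hy⟩ : ∃ y : (⊤ : IntermediateField ℚ K), (y : K) = π := ⟨⟨π, trivial⟩, rfl⟩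
      rw [← hy]
      have h6 := Algebra.norm_algebraMap (S := K) y
      rw [h4, pow_one] at h6
      exact congrArg (fun t : (⊤ : IntermediateField ℚ K) => (t : K)) h6
    have h6 := congrArg (fun t : (⊤ : IntermediateField ℚ K) => (t : K)) h3
    simp only [IntermediateField.coe_pow] at h6
    rw [h5] at h6
    have h7 := hπ.gen (2 * m) (by omega)
    have h8 : (IntermediateField.adjoin ℚ {π ^ (2 * m)} : IntermediateField ℚ K) = ⊥ := by
      rw [IntermediateField.adjoin_simple_eq_bot_iff, h6]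
      exact pow_mem (natCast_mem (⊥ : IntermediateField ℚ K) p) _
    rw [h7] at h8
    obtain ⟨φ⟩ : Nonempty (K →+* ℂ) := inferInstance
    obtain ⟨x, hx, hne⟩ := conj_ne_on h1 φ
    rw [h8, IntermediateField.mem_bot] at hx
    obtain ⟨r, rfl⟩ := hx
    apply hne
    rw [eq_ratCast, map_ratCast, map_ratCast]

theorem normSubCriteria_hold : NormSubCriteria := by
  intro K _ _ _ p _ a ha π hπ
  refine ⟨fun hirr E hE => ?_, fun c hc => exists_normSub_iff ha hπ hc⟩
  have hπ0 : π ≠ 0 := by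
    intro h0
    have h1 := hπ.weil
    rw [h0, zero_mul] at h1
    exact pow_ne_zero a (Nat.cast_ne_zero.2 (Fact.out : p.Prime).ne_zero) h1.symm
  obtain ⟨F, rfl⟩ := exists_intermediate E
  obtain ⟨-, h1, h2⟩ := (normSub_iff hπ0 F).1 hE
  exact not_supersingular_of_angle hπ (angle_core (I := Unit) (K := fun _ => K) ha
    (fun i k hik => absurd rfl hik) (π := fun _ => π) fun _ => ⟨hπ, Or.inl hirr⟩) h1 h2

end Pool.Agent.H298.Core
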