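import Mathlib
import Pool.Agent.H298.Core.Defs
import Pool.Graph.R_pool_sql_team_seeded_1acbe0a2.Y156.P.IrrDefs

/-!
# Polynomials which define CM fields with irreducible odd part or primitive core
-/

set_option autoImplicit false

namespace Pool.Agent.H298.Core

open NumberField Module Polynomial
open scoped IntermediateField

/-- The CM field `E` has irreducible odd part; or it has a primitive core with `c` pairs of
embeddings, and `c = 2`, or `2 m < c`, or all subfields `F` with `[E : F] = c` are totally real, or
`c` is odd and `m < c` (only if `pure` holds). -/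
def CoreCondition (E : Type) [Field E] [NumberField E] (m : ℕ) (pure : Prop) : Prop :=
  Pool.Agent.Y156.P.OddIrreducible E ∨ ∃ c : ℕ, PrimitiveCore E c ∧
    (c = 2 ∨ 2 * m < c ∨ (pure ∧ Odd c ∧ m < c) ∨
      ∀ F : IntermediateField ℚ E, finrank F E = c → IsTotallyReal F)

/-- `p` is the minimal polynomial of the generator `y` of the CM field `E`, and `ȳ = - y`. -/
structure Defines (p : ℚ[X]) (E : Type) [Field E] [NumberField E] [IsCMField E] (y : E) :
    Prop where
  conj : IsCMField.complexConj E y = -y
  generates : ℚ⟮y⟯ = ⊤
  minpoly_eq : minpoly ℚ y = p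

end Pool.Agent.H298.Core
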