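import Mathlib
import Pool.Agent.H298.Core.StructField
import Pool.Agent.H298.Core.PeriodDefs
import Pool.Graph.R_seed8.TH170.GS.Rel

/-!
# Linear relations between the conjugates of elements of CM fields with irreducible odd part or
primitive core
-/

set_option autoImplicit false
set_option linter.unusedSectionVars false
set_option linter.unusedVariables false

namespace Pool.Agent.H298.Core

open NumberField Module MulAction Finset Polynomial Pool.Agent.H204R3.CM Pool.Agent.H977R3.CM
  Pool.Agent.TH170.CM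
open scoped IntermediateField

attribute [local instance] actC

section

variable {E : Type} [Field E] [NumberField E] [IsCMField E]

/-- The values of an element at the embeddings are the roots of its minimal polynomial. -/
theorem exists_embedding {y : E} {s : ℂ} (hs : aeval s (minpoly ℚ y) = 0) :
    ∃ φ : E →+* ℂ, φ y = s := by
  have hint : IsIntegral ℚ y := Algebra.IsIntegral.isIntegral y
  obtain ⟨φ, hφ⟩ := (Algebra.IsAlgebraic.range_eval_eq_rootSet_minpoly (F := ℚ) (K := E) ℂ y).ge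
    ((mem_rootSet (p := minpoly ℚ y)).2 ⟨minpoly.ne_zero hint, hs⟩)
  exact ⟨φ.toRingHom, hφ⟩

theorem embedding_ext {y : E} (hy : ℚ⟮y⟯ = ⊤) {φ ψ : E →+* ℂ} (h : φ y = ψ y) : φ = ψ := by
  have h1 : (φ.toRatAlgHom : E →ₐ[ℚ] ℂ) = ψ.toRatAlgHom := by
    refine AlgHom.ext fun x => ?_
    have hx : x ∈ (⊤ : IntermediateField ℚ E) := trivial
    rw [← hy] at hx
    induction hx using IntermediateField.adjoin_induction with
    | mem z hz =>
      rw [Set.mem_singleton_iff.1 hz]
      exact h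
    | algebraMap r => rw [AlgHom.commutes, AlgHom.commutes]
    | add a b _ _ ha hb => rw [map_add, map_add, ha, hb]
    | inv a _ ha => rw [map_inv₀, map_inv₀, ha]
    | mul a b _ _ ha hb => rw [map_mul, map_mul, ha, hb]
  ext x
  exact DFunLike.congr_fun h1 x

/-- The multiplicity of `s` minus the one of `- s`. -/
noncomputable def mult {κ : Type} [Fintype κ] (x : κ → ℂ) (s : ℂ) : ℤ :=
  open Classical in ∑ k, ((if x k = s then 1 else 0) - (if x k = -s then 1 else 0))

section

variable {y : E} (hy : IsCMField.complexConj E y = -y) (hgen : ℚ⟮y⟯ = ⊤)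

include hy in
theorem conj_apply_gen (φ : E →+* ℂ) : (ComplexEmbedding.conjugate φ) y = - φ y := by
  rw [ComplexEmbedding.conjugate_coe_eq, ← IsCMField.complexEmbedding_complexConj, hy, map_neg]

theorem root_gen (φ : E →+* ℂ) : aeval (φ y) (minpoly ℚ y) = 0 := by
  have h1 : aeval (φ.toRatAlgHom y) (minpoly ℚ y) = 0 := by
    rw [aeval_algHom_apply, minpoly.aeval, map_zero]
  exact h1

include hy in
theorem mult_conj {κ : Type} [Fintype κ] (x : κ → ℂ) (φ : E →+* ℂ) :
    mult x ((ComplexEmbedding.conjugate φ) y) = - mult x (φ y) := by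
  classical
  unfold mult
  rw [← Finset.sum_neg_distrib]
  refine Finset.sum_congr rfl fun k _ => ?_
  rw [conj_apply_gen hy, neg_neg]
  ring

include hgen in
theorem sum_indicator {s : ℂ} (hs : aeval s (minpoly ℚ y) = 0) {R : Type} [CommRing R]
    (g : ℂ → R) : open Classical in
      ∑ φ : E →+* ℂ, (if s = φ y then (1 : R) else 0) * g (φ y) = g s := by
  classical
  obtain ⟨φ₀, hφ₀⟩ := exists_embedding hs
  rw [Finset.sum_eq_single φ₀]
  · rw [if_pos hφ₀.symm, hφ₀, one_mul]
  · intro φ _ hne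
    rw [if_neg, zero_mul]
    intro h
    exact hne (embedding_ext hgen (h.symm.trans hφ₀.symm))
  · intro h
    exact absurd (Finset.mem_univ _) h

include hy in
theorem neg_root_gen {s : ℂ} (hs : aeval s (minpoly ℚ y) = 0) :
    aeval (-s) (minpoly ℚ y) = 0 := by
  obtain ⟨φ, rfl⟩ := exists_embedding hs
  rw [← conj_apply_gen hy]
  exact root_gen _

include hy hgen in
theorem sum_mult {κ : Type} [Fintype κ] (x : κ → ℂ)
    (hx : ∀ k, aeval (x k) (minpoly ℚ y) = 0) (g : ℂ → ℂ) (hg : ∀ s, g (-s) = - g s) :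
    ∑ φ : E →+* ℂ, (mult x (φ y) : ℂ) * g (φ y) = 2 * ∑ k, g (x k) := by
  classical
  unfold mult
  push_cast
  simp only [Finset.sum_mul]
  rw [Finset.sum_comm, Finset.mul_sum]
  refine Finset.sum_congr rfl fun k _ => ?_
  simp only [sub_mul, Finset.sum_sub_distrib]
  rw [sum_indicator hgen (hx k) g]
  have h1 : ∑ φ : E →+* ℂ, (if x k = -φ y then (1 : ℂ) else 0) * g (φ y) = g (-x k) := by
    rw [← sum_indicator hgen (neg_root_gen hy (hx k)) g]
    refine Finset.sum_congr rfl fun φ _ => ?_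
    congr 1
    refine if_congr ⟨fun h => by rw [h, neg_neg], fun h => by rw [← h, neg_neg]⟩ rfl rfl
  rw [h1, hg]
  ring

end

/-- One odd polynomial which separates the roots of `p` and is a relation: all odd functions are, or
the multiplicities come from a subfield. -/
theorem structure_of_separating {c : ℕ}
    (hE : Pool.Agent.Y156.P.OddIrreducible E ∨ PrimitiveCore E c) {y : E}
    (hy : IsCMField.complexConj E y = -y) (hgen : ℚ⟮y⟯ = ⊤) {κ : Type} [Fintype κ] (x : κ → ℂ)
    (hx : ∀ k, aeval (x k) (minpoly ℚ y) = 0) {f : ℚ[X]} (hf : f.comp (-X) = -f)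
    (hsep : ∀ s s' : ℂ, aeval s (minpoly ℚ y) = 0 → aeval s' (minpoly ℚ y) = 0 → s ≠ s' →
      aeval s f ≠ aeval s' f) (hsum : ∑ k, aeval (x k) f = 0) :
    (∀ φ : E →+* ℂ, mult x (φ y) = 0) ∨
    (PrimitiveCore E c ∧ c ≠ 2 ∧ ∃ F : IntermediateField ℚ E, finrank F E = c ∧
      ¬ IsTotallyReal F ∧ ∀ φ ψ : E →+* ℂ, (∀ x ∈ F, φ x = ψ x) →
        mult x (φ y) = mult x (ψ y)) := by
  classical
  have hcv := conj_apply_gen (E := E) hy
  have hfodd : ∀ s : ℂ, aeval (-s) f = - aeval s f := by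
    intro s
    have h7 := congrArg (aeval s) hf
    rw [aeval_comp, map_neg, aeval_X, map_neg] at h7
    exact h7
  -- a rational function on the embeddings with different values
  obtain ⟨lam, hlam⟩ := Module.exists_dual_forall_apply_ne_zero (K := ℚ) (M := ℂ)
    (fun u : {u : (E →+* ℂ) × (E →+* ℂ) // u.1 ≠ u.2} =>
      aeval (u.1.1 y) f - aeval (u.1.2 y) f)
    (fun u => sub_ne_zero.2 (hsep _ _ (root_gen _) (root_gen _) fun h =>
      u.2 (embedding_ext hgen h)))
  obtain ⟨D, z, hD, hz⟩ := Pool.Agent.TH170.GS.exists_den (fun φ : E →+* ℂ => lam (aeval (φ y) f))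
  have hDq : (D : ℚ) ≠ 0 := Nat.cast_ne_zero.2 hD
  have hzc : ∀ φ, z (ComplexEmbedding.conjugate φ) = -z φ := by
    intro φ
    have h1 : ((z (ComplexEmbedding.conjugate φ) : ℤ) : ℚ) = ((-z φ : ℤ) : ℚ) := by
      rw [hz, Int.cast_neg, hz, hcv, hfodd, map_neg]
      ring
    exact_mod_cast h1
  have hinj : Function.Injective z := by
    intro φ ψ h
    by_contra hne
    have h1 := hlam ⟨(φ, ψ), hne⟩
    apply h1
    have h2 : ((z φ : ℤ) : ℚ) = ((z ψ : ℤ) : ℚ) := by rw [h]
    rw [hz, hz] at h2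
    have h3 := mul_left_cancel₀ hDq h2
    simp only
    rw [map_sub, h3, sub_self]
  have hnp : ¬ ∃ y₁ y₂ : E →+* ℂ, y₁ ≠ y₂ ∧ ∀ σ : ℂ ≃+* ℂ, z (σ • y₁) = z (σ • y₂) := by
    rintro ⟨y₁, y₂, hne, h⟩
    have h1 := h 1
    rw [one_smul, one_smul] at h1
    exact hne (hinj h1)
  let n : (E →+* ℂ) → ℤ := fun φ => mult x (φ y)
  have hn : ∀ φ, n (ComplexEmbedding.conjugate φ) = - n φ := mult_conj hy x
  have hrel : ∀ σ : ℂ ≃+* ℂ, ∑ φ, n φ * z (σ • φ) = 0 := by
    intro σ
    have hσ : ∀ s : ℂ, aeval (σ s) f = σ (aeval s f) := by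
      intro s
      have h1 : aeval ((σ : ℂ →+* ℂ).toRatAlgHom s) f = (σ : ℂ →+* ℂ).toRatAlgHom (aeval s f) :=
        aeval_algHom_apply _ _ _
      exact h1
    have h1 : ∑ φ : E →+* ℂ, (n φ : ℂ) * aeval (σ (φ y)) f = 0 := by
      have h2 := sum_mult hy hgen x hx (fun s => aeval (σ s) f) (fun s => by
        rw [map_neg, hfodd])
      rw [h2]
      simp only [hσ]
      rw [← map_sum, hsum, map_zero, mul_zero]
    have h2 : ∑ φ : E →+* ℂ, (n φ : ℚ) * lam (aeval (σ (φ y)) f) = 0 := by
      have h3 := congrArg lam h1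
      rw [map_zero, map_sum] at h3
      rw [← h3]
      refine Finset.sum_congr rfl fun φ _ => ?_
      have h4 : ((n φ : ℤ) : ℂ) * aeval (σ (φ y)) f = (n φ : ℚ) • aeval (σ (φ y)) f := by
        rw [Algebra.smul_def]
        norm_num
      rw [h4, map_smul, smul_eq_mul]
    have h3 : ((∑ φ, n φ * z (σ • φ) : ℤ) : ℚ) = 0 := by
      push_cast
      calc ∑ φ : E →+* ℂ, (n φ : ℚ) * (z (σ • φ) : ℚ)
          = ∑ φ : E →+* ℂ, (D : ℚ) * ((n φ : ℚ) * lam (aeval (σ (φ y)) f)) := by
            refine Finset.sum_congr rfl fun φ _ => ?_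
            rw [hz]
            change _ * ((D : ℚ) * lam (aeval (σ (φ y)) f)) = _
            ring
        _ = 0 := by rw [← Finset.mul_sum, h2, mul_zero]
    exact_mod_cast h3
  have hr : n ∈ Rel (ℂ ≃+* ℂ) ComplexEmbedding.conjugate z Set.univ :=
    ⟨hn, hrel, fun y hy => absurd (Set.mem_univ y) hy⟩
  by_cases hn0 : n = 0
  · left
    intro φ
    exact congrFun hn0 φ
  right
  rcases hE with h | h
  · exfalso
    obtain ⟨φ⟩ : Nonempty (E →+* ℂ) := inferInstance
    have h1 := irreducible_zero hzc h hr hn0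
    exact conj_ne φ (hinj ((h1 _).trans (h1 φ).symm))
  · obtain ⟨h1, F, hF, hF', -, h2⟩ := relations_structure h hzc hnp hr hn0
    exact ⟨h, h1, F, hF, hF', h2 n hr⟩

section

variable {y : E} (hy : IsCMField.complexConj E y = -y) (hgen : ℚ⟮y⟯ = ⊤) {κ : Type} [Fintype κ]
  (x : κ → ℂ) (hx : ∀ k, aeval (x k) (minpoly ℚ y) = 0)

include hy hgen hx

/-- If all multiplicities cancel, all odd sums are zero. -/
theorem sum_eq_zero_of_mult (h : ∀ φ : E →+* ℂ, mult x (φ y) = 0) (h' : ℂ → ℂ)
    (hodd : ∀ z, h' (-z) = -h' z) : ∑ k, h' (x k) = 0 := by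
  have h1 := sum_mult hy hgen x hx h' hodd
  simp only [h, Int.cast_zero, zero_mul, Finset.sum_const_zero] at h1
  exact (mul_eq_zero.1 h1.symm).resolve_left two_ne_zero

variable {F : IntermediateField ℚ E}
  (hfac : ∀ φ ψ : E →+* ℂ, (∀ x ∈ F, φ x = ψ x) → mult x (φ y) = mult x (ψ y))

include hfac

open Classical in
/-- Odd functions whose sums over the extensions of the embeddings of `F` are zero. -/
theorem sum_eq_zero_of_trace (h' : ℂ → ℂ) (hodd : ∀ z, h' (-z) = -h' z)
    (htr : ∀ φ : E →+* ℂ, ∑ ψ : E →+* ℂ with (∀ x ∈ F, ψ x = φ x), h' (ψ y) = 0) :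
    ∑ k, h' (x k) = 0 := by
  have h1 := sum_mult hy hgen x hx h' hodd
  have hcard : ∀ φ : E →+* ℂ, ((univ.filter fun ψ : E →+* ℂ => ∀ x ∈ F, φ x = ψ x).card : ℂ) =
      finrank F E := by
    intro φ
    rw [← card_extensions F φ]
    congr 1
    rw [← Fintype.card_subtype, Nat.card_eq_fintype_card]
    exact Fintype.card_congr (Equiv.subtypeEquivRight fun ψ =>
      forall₂_congr fun x _ => eq_comm)
  have h2 : (finrank F E : ℂ) * ∑ φ : E →+* ℂ, (mult x (φ y) : ℂ) * h' (φ y) = 0 := by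
    rw [Finset.mul_sum]
    calc ∑ φ : E →+* ℂ, (finrank F E : ℂ) * ((mult x (φ y) : ℂ) * h' (φ y))
        = ∑ φ : E →+* ℂ, ∑ ψ : E →+* ℂ with (∀ x ∈ F, φ x = ψ x),
            (mult x (φ y) : ℂ) * h' (φ y) := by
          refine Finset.sum_congr rfl fun φ _ => ?_
          rw [Finset.sum_const, nsmul_eq_mul, hcard]
      _ = ∑ φ : E →+* ℂ, ∑ ψ : E →+* ℂ, if (∀ x ∈ F, φ x = ψ x) then
            (mult x (φ y) : ℂ) * h' (φ y) else 0 := by
          refine Finset.sum_congr rfl fun φ _ => ?_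
          rw [Finset.sum_filter]
      _ = ∑ ψ : E →+* ℂ, ∑ φ : E →+* ℂ, if (∀ x ∈ F, φ x = ψ x) then
            (mult x (φ y) : ℂ) * h' (φ y) else 0 := Finset.sum_comm
      _ = ∑ ψ : E →+* ℂ, (mult x (ψ y) : ℂ) *
            ∑ φ : E →+* ℂ with (∀ x ∈ F, φ x = ψ x), h' (φ y) := by
          refine Finset.sum_congr rfl fun ψ _ => ?_
          rw [Finset.mul_sum, Finset.sum_filter]
          refine Finset.sum_congr rfl fun φ _ => ?_
          split_ifs with h
          · rw [hfac φ ψ h]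
          · rfl
      _ = 0 := Finset.sum_eq_zero fun ψ _ => by rw [htr, mul_zero]
  have h3 : (finrank F E : ℂ) ≠ 0 := Nat.cast_ne_zero.2 finrank_pos.ne'
  have h4 := (mul_eq_zero.1 h2).resolve_left h3
  rw [h1] at h4
  exact (mul_eq_zero.1 h4).resolve_left two_ne_zero

/-- The number of the points is at least `[E : F]`. -/
theorem card_ge_of_mult (hF : ¬ IsTotallyReal F) {φ₀ : E →+* ℂ} (h0 : mult x (φ₀ y) ≠ 0) :
    finrank F E ≤ Fintype.card κ := by
  classical
  have h1 : ∀ ψ : {ψ : E →+* ℂ // ∀ x ∈ F, ψ x = φ₀ x}, ∃ k, x k = ψ.1 y ∨ x k = -ψ.1 y := by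
    intro ψ
    by_contra h
    push Not at h
    apply h0
    rw [← hfac ψ.1 φ₀ ψ.2]
    unfold mult
    refine Finset.sum_eq_zero fun k _ => ?_
    rw [if_neg (h k).1, if_neg (h k).2, sub_zero]
  choose k hk using h1
  have hinj : Function.Injective k := by
    intro ψ ψ' h
    have h2 := hk ψ
    have h3 := hk ψ'
    rw [← h] at h3
    have hcv := conj_apply_gen (E := E) hy
    have hne : ∀ ψ ψ' : {ψ : E →+* ℂ // ∀ x ∈ F, ψ x = φ₀ x}, ψ.1 y ≠ - ψ'.1 y := by
      intro ψ ψ' h4
      rw [← hcv] at h4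
      have h5 := embedding_ext hgen h4
      obtain ⟨x, hx, h6⟩ := conj_ne_on hF ψ'.1
      apply h6
      rw [← h5, ψ.2 x hx, ψ'.2 x hx]
    apply Subtype.ext
    rcases h2 with h2 | h2 <;> rcases h3 with h3 | h3
    · exact embedding_ext hgen (h2.symm.trans h3)
    · exact absurd (h2.symm.trans h3) (hne _ _)
    · exact absurd (h3.symm.trans h2) (hne _ _)
    · exact embedding_ext hgen (neg_injective (h2.symm.trans h3))
  have h2 := Nat.card_le_card_of_injective k hinj
  rw [card_extensions F φ₀, Nat.card_eq_fintype_card] at h2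
  exact h2

/-- The parity of the number of the points. -/
theorem card_ge_of_odd (hF : ¬ IsTotallyReal F) (hodd : Odd (finrank F E))
    (heven : Even (Fintype.card κ)) {φ₀ : E →+* ℂ} (h0 : mult x (φ₀ y) ≠ 0) :
    2 * finrank F E ≤ Fintype.card κ := by
  classical
  have hcv := conj_apply_gen (E := E) hy
  -- the numbers of the points
  let a : (E →+* ℂ) → ℤ := fun φ => ∑ k, if x k = φ y then 1 else 0
  have ha0 : ∀ φ, 0 ≤ a φ := fun φ => Finset.sum_nonneg fun k _ => by split_ifs <;> norm_num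
  have hma : ∀ φ, mult x (φ y) = a φ - a (ComplexEmbedding.conjugate φ) := by
    intro φ
    simp only [a, hcv]
    unfold mult
    rw [Finset.sum_sub_distrib]
  have hsuma : ∑ φ, a φ = Fintype.card κ := by
    simp only [a]
    rw [Finset.sum_comm]
    have h1 : ∀ k, ∑ φ : E →+* ℂ, (if x k = φ y then (1 : ℤ) else 0) = 1 := by
      intro k
      have h2 := sum_indicator hgen (hx k) (fun _ => (1 : ℤ))
      simpa using h2
    rw [Finset.sum_congr rfl fun k _ => h1 k, Finset.sum_const, Finset.card_univ, nsmul_eq_mul,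
      mul_one]
  have hsumac : ∑ φ : E →+* ℂ, a (ComplexEmbedding.conjugate φ) = Fintype.card κ := by
    rw [← hsuma]
    exact Fintype.sum_equiv (Equiv.mk ComplexEmbedding.conjugate ComplexEmbedding.conjugate
      conj_conj conj_conj) _ _ fun φ => rfl
  -- the sum of the absolute values
  set T : ℤ := ∑ φ : E →+* ℂ, |mult x (φ y)| with hT
  have hTle : T ≤ 2 * Fintype.card κ := by
    have h1 : T ≤ ∑ φ : E →+* ℂ, (a φ + a (ComplexEmbedding.conjugate φ)) := by
      refine Finset.sum_le_sum fun φ _ => ?_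
      rw [hma, abs_le]
      constructor <;> linarith [ha0 φ, ha0 (ComplexEmbedding.conjugate φ)]
    rw [Finset.sum_add_distrib, hsuma, hsumac] at h1
    linarith
  have hT4 : (4 : ℤ) ∣ T := by
    have h1 : ∑ φ : E →+* ℂ, min (a φ) (a (ComplexEmbedding.conjugate φ)) =
        (∑ φ : E →+* ℂ, min (a φ) (a (ComplexEmbedding.conjugate φ))) := rfl
    have h2 : Even (∑ φ : E →+* ℂ, min (a φ) (a (ComplexEmbedding.conjugate φ))) := by
      rw [← ZMod.intCast_eq_zero_iff_even]
      push_cast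
      refine Finset.sum_involution (fun φ _ => ComplexEmbedding.conjugate φ) ?_ ?_ ?_ ?_
      · intro φ _
        rw [conj_conj, min_comm (a (ComplexEmbedding.conjugate φ)) (a φ)]
        exact CharTwo.add_self_eq_zero _
      · intro φ _ _
        exact conj_ne φ
      · intro φ _
        exact Finset.mem_univ _
      · intro φ _
        exact conj_conj φ
    obtain ⟨m, hm⟩ := h2
    obtain ⟨l, hl⟩ := heven
    have h3 : T = 2 * (Fintype.card κ : ℤ) -
        2 * ∑ φ : E →+* ℂ, min (a φ) (a (ComplexEmbedding.conjugate φ)) := by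
      have h4 : ∀ φ : E →+* ℂ, |mult x (φ y)| = a φ + a (ComplexEmbedding.conjugate φ) -
          2 * min (a φ) (a (ComplexEmbedding.conjugate φ)) := by
        intro φ
        rw [hma]
        rcases le_total (a φ) (a (ComplexEmbedding.conjugate φ)) with h | h
        · rw [min_eq_left h, abs_of_nonpos (by linarith)]
          ring
        · rw [min_eq_right h, abs_of_nonneg (by linarith)]
          ring
      rw [hT, Finset.sum_congr rfl fun φ _ => h4 φ, Finset.sum_sub_distrib,
        Finset.sum_add_distrib, hsuma, hsumac, ← Finset.mul_sum]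
      ring
    refine ⟨l - m, ?_⟩
    rw [h3, hm, hl]
    push_cast
    ring
  -- the sum over the embeddings of `F`
  let ext : (F →+* ℂ) → (E →+* ℂ) := fun τ => ComplexEmbedding.lift E τ
  have hext : ∀ (τ : F →+* ℂ) (φ : E →+* ℂ), φ.comp (algebraMap F E) = τ ↔
      ∀ x ∈ F, φ x = ext τ x := by
    intro τ φ
    have h1 : ∀ x : F, ext τ x = τ x := fun x =>
      RingHom.congr_fun (ComplexEmbedding.lift_comp_algebraMap E τ) x
    constructor
    · intro h x hx
      have h2 := RingHom.congr_fun h ⟨x, hx⟩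
      rw [← h1 ⟨x, hx⟩] at h2
      exact h2
    · intro h
      ext x
      rw [← h1 x]
      exact h x x.2
  have hTU : T = finrank F E * ∑ τ : F →+* ℂ, |mult x (ext τ y)| := by
    rw [hT, ← Finset.sum_fiberwise_of_maps_to (s := Finset.univ) (t := Finset.univ)
      (g := fun φ : E →+* ℂ => φ.comp (algebraMap F E)) (fun _ _ => Finset.mem_univ _),
      Finset.mul_sum]
    refine Finset.sum_congr rfl fun τ _ => ?_
    rw [Finset.sum_congr rfl (g := fun _ => |mult x (ext τ y)|) fun φ hφ => ?_,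
      Finset.sum_const, nsmul_eq_mul]
    · congr 1
      rw [← card_extensions F (ext τ), Nat.card_eq_fintype_card, ← Fintype.card_coe]
      congr 1
      refine Fintype.card_congr (Equiv.subtypeEquivRight fun φ => ?_)
      rw [Finset.mem_filter, hext]
      exact ⟨fun h => h.2, fun h => ⟨Finset.mem_univ _, h⟩⟩
    · rw [Finset.mem_filter, hext] at hφ
      rw [hfac φ (ext τ) hφ.2]
  have hTpos : 0 < T := by
    have h1 : |mult x (φ₀ y)| ≤ T := Finset.single_le_sum (f := fun φ : E →+* ℂ =>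
      |mult x (φ y)|) (fun φ _ => abs_nonneg _) (Finset.mem_univ φ₀)
    exact lt_of_lt_of_le (abs_pos.2 h0) h1
  set U : ℤ := ∑ τ : F →+* ℂ, |mult x (ext τ y)| with hU
  have hc0 : 0 < (finrank F E : ℤ) := by exact_mod_cast (finrank_pos : 0 < finrank F E)
  have hU4 : (4 : ℤ) ∣ U := by
    have h1 : IsCoprime (4 : ℤ) (finrank F E : ℤ) := by
      rw [Int.isCoprime_iff_gcd_eq_one]
      have h2 : Nat.Coprime 4 (finrank F E) := by
        have h3 : Nat.Coprime (2 ^ 2) (finrank F E) :=
          Nat.Coprime.pow_left 2 ((Nat.coprime_two_left).2 hodd)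
        exact h3
      exact h2
    rw [hTU] at hT4
    exact h1.dvd_of_dvd_mul_left hT4
  have hUpos : 0 < U := by
    rw [hTU] at hTpos
    exact (mul_pos_iff_of_pos_left hc0).1 hTpos
  have hU' : 4 ≤ U := Int.le_of_dvd hUpos hU4
  have h1 : (2 : ℤ) * finrank F E ≤ Fintype.card κ := by nlinarith
  exact_mod_cast h1

end

end

section

variable {E : Type} [Field E] [NumberField E] [IsCMField E] {y : E} {p : ℚ[X]}

/-- From separating polynomials for the pairs of roots to one separating polynomial. -/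
theorem exists_separating (hp : Defines p E y) {κ : Type} [Fintype κ] (x : κ → ℂ)
    (hsep : ∀ s s' : ℂ, aeval s p = 0 → aeval s' p = 0 → s ≠ s' →
      ∃ f : ℚ[X], f.comp (-X) = -f ∧ aeval s f ≠ aeval s' f ∧ ∑ k, aeval (x k) f = 0) :
    ∃ f : ℚ[X], f.comp (-X) = -f ∧ (∀ s s' : ℂ, aeval s p = 0 → aeval s' p = 0 → s ≠ s' →
      aeval s f ≠ aeval s' f) ∧ ∑ k, aeval (x k) f = 0 := by
  classical
  obtain ⟨hy, hgen, rfl⟩ := hp
  -- the space of the odd relations
  let S : Submodule ℚ ℚ[X] :=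
    { carrier := {f | f.comp (-X) = -f ∧ ∑ k, aeval (x k) f = 0}
      zero_mem' := by
        refine ⟨by rw [zero_comp, neg_zero], by simp⟩
      add_mem' := by
        rintro a b ⟨ha1, ha2⟩ ⟨hb1, hb2⟩
        refine ⟨by rw [add_comp, ha1, hb1]; ring, ?_⟩
        simp only [map_add, Finset.sum_add_distrib, ha2, hb2, add_zero]
      smul_mem' := by
        rintro r a ⟨ha1, ha2⟩
        refine ⟨by rw [smul_comp, ha1, smul_neg], ?_⟩
        simp only [map_smul, ← Finset.smul_sum, ha2, smul_zero] }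
  have hfin : Finite {s : ℂ // aeval s (minpoly ℚ y) = 0} := by
    have h1 : (((minpoly ℚ y).rootSet ℂ) : Set ℂ).Finite := rootSet_finite _ _
    have h2 : {s : ℂ | aeval s (minpoly ℚ y) = 0} ⊆ (minpoly ℚ y).rootSet ℂ := by
      intro s hs
      exact mem_rootSet.2 ⟨minpoly.ne_zero (Algebra.IsIntegral.isIntegral y), hs⟩
    exact (h1.subset h2).to_subtype
  let P : {u : {s : ℂ // aeval s (minpoly ℚ y) = 0} × {s : ℂ // aeval s (minpoly ℚ y) = 0} //
      u.1 ≠ u.2} → Submodule ℚ S := fun u =>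
    LinearMap.ker (((aeval (R := ℚ) (u.1.1 : ℂ)).toLinearMap -
      (aeval (R := ℚ) (u.1.2 : ℂ)).toLinearMap).comp S.subtype)
  obtain ⟨⟨f, hf1, hf2⟩, hf⟩ := Submodule.exists_forall_notMem_of_forall_ne_top P fun u => by
    intro h
    obtain ⟨f, hf1, hf2, hf3⟩ := hsep u.1.1 u.1.2 u.1.1.2 u.1.2.2 fun h => u.2 (Subtype.ext h)
    have h1 : (⟨f, hf1, hf3⟩ : S) ∈ P u := by
      rw [h]
      trivial
    rw [LinearMap.mem_ker] at h1
    exact hf2 (sub_eq_zero.1 h1)
  refine ⟨f, hf1, fun s s' hs hs' hne h => ?_, hf2⟩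
  refine hf ⟨(⟨s, hs⟩, ⟨s', hs'⟩), fun h => hne (congrArg Subtype.val h)⟩ ?_
  rw [LinearMap.mem_ker]
  exact sub_eq_zero.2 h

/-- **Relations between the conjugates.** If for every two different roots of `p` there is an odd
polynomial `f` which separates them and for which the sum of the `f (x k)` is zero, then this sum is
zero for all odd functions. -/
theorem sum_eq_zero_of_core (hp : Defines p E y) {m : ℕ} {pure : Prop}
    (hE : CoreCondition E m pure) {κ : Type} [Fintype κ] (hcard : Fintype.card κ ≤ 2 * m)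
    (hpure : pure → Fintype.card κ = 2 * m)
    (x : κ → ℂ) (hx : ∀ k, aeval (x k) p = 0)
    (hsep : ∀ s s' : ℂ, aeval s p = 0 → aeval s' p = 0 → s ≠ s' →
      ∃ f : ℚ[X], f.comp (-X) = -f ∧ aeval s f ≠ aeval s' f ∧ ∑ k, aeval (x k) f = 0) (h' : ℂ → ℂ)
    (hodd : ∀ z, h' (-z) = -h' z) : ∑ k, h' (x k) = 0 := by
  classical
  obtain ⟨f, hf1, hf2, hf3⟩ := exists_separating hp x hsep
  obtain ⟨hy, hgen, rfl⟩ := hp
  refine sum_eq_zero_of_mult hy hgen x hx (fun φ => ?_) h' hodd
  rcases hE with hE | ⟨c, hE, hc⟩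
  · rcases structure_of_separating (c := 1) (Or.inl hE) hy hgen x hx hf1 hf2 hf3 with h | h
    · exact h φ
    · obtain ⟨-, -, F, hF, hF', h⟩ := h
      by_contra h0
      have h1 : F = ⊤ := by
        rw [← IntermediateField.finrank_eq_one_iff_eq_top]
        exact hF
      have h2 := card_ge_of_mult hy hgen x hx h hF' h0
      -- the odd irreducible case has no relations
      have h3 : ∀ ψ : E →+* ℂ, mult x (ψ y) = 0 := by
        rcases structure_of_separating (c := 2) (Or.inl hE) hy hgen x hx hf1 hf2 hf3 with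
          h | ⟨-, h, -⟩
        · exact h
        · exact absurd rfl h
      exact h0 (h3 φ)
  · rcases structure_of_separating (Or.inr hE) hy hgen x hx hf1 hf2 hf3 with h | h
    · exact h φ
    · obtain ⟨-, h2, F, rfl, hF', h⟩ := h
      by_contra h0
      have h3 := card_ge_of_mult hy hgen x hx h hF' h0
      rcases hc with hc | hc | ⟨hc, hc', hc''⟩ | hc
      · exact h2 hc
      · omega
      · have h4 := hpure hc
        have h5 := card_ge_of_odd hy hgen x hx h hF' hc' (by rw [h4]; exact even_two_mul m) h0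
        omega
      · exact hF' (hc F rfl)

open Classical in
/-- **All relations**, if there is a primitive core: the sums of an odd function are zero if its sums
over the extensions of the embeddings of certain subfields are zero. -/
theorem sum_eq_zero_of_core_trace (hp : Defines p E y) {c : ℕ} (hE : PrimitiveCore E c)
    {κ : Type} [Fintype κ] (x : κ → ℂ) (hx : ∀ k, aeval (x k) p = 0)
    (hsep : ∀ s s' : ℂ, aeval s p = 0 → aeval s' p = 0 → s ≠ s' →
      ∃ f : ℚ[X], f.comp (-X) = -f ∧ aeval s f ≠ aeval s' f ∧ ∑ k, aeval (x k) f = 0) (h' : ℂ → ℂ)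
    (hodd : ∀ z, h' (-z) = -h' z)
    (htr : ∀ F : IntermediateField ℚ E, finrank F E = c → ¬ IsTotallyReal F → ∀ φ : E →+* ℂ,
      ∑ ψ : E →+* ℂ with (∀ x ∈ F, ψ x = φ x), h' (ψ y) = 0) : ∑ k, h' (x k) = 0 := by
  obtain ⟨f, hf1, hf2, hf3⟩ := exists_separating hp x hsep
  obtain ⟨hy, hgen, rfl⟩ := hp
  rcases structure_of_separating (Or.inr hE) hy hgen x hx hf1 hf2 hf3 with h | h
  · exact sum_eq_zero_of_mult hy hgen x hx h h' hodd
  · obtain ⟨-, h2, F, hF, hF', h⟩ := h
    exact sum_eq_zero_of_trace hy hgen x hx h h' hodd (htr F hF hF')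

end

end Pool.Agent.H298.Core
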