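import Mathlib
import Pool.Agent.H298.Core.Period
import Pool.Graph.R_pool_sql_team_seeded_9f66d723.W5h86.CC.Mn3
import Pool.Graph.R_pool_sql_team_seeded_9f66d723.W5h86.CC.Asm

/-!
# De Rham-Betti classes on abelian varieties with complex multiplication by fields with irreducible odd
part or primitive core
-/

set_option autoImplicit false
set_option linter.unusedSectionVars false
set_option linter.unusedSimpArgs false
set_option linter.unusedVariables false

open Module Polynomial Function TensorProduct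

noncomputable section

namespace Pool.Agent.H298.Core

open Pool.Agent.Y102 Pool.Agent.W516.DR Pool.Agent.W516.KC Pool.Agent.H204R3.SP Pool.Agent.W5h86.LY
open Pool.Agent.W5h86.LX Pool.Agent.H204R3.GP Pool.Agent.W5h86.CC

variable {g : ℕ}

/-- Simple abelian varieties with complex multiplication. -/
theorem kills_simple (A : AbVar g) {P : Module.End ℚ A.H1} (hP : P ∈ A.EA) (hPs : IsSkew A.om P)
    (hEA : ∀ Q ∈ A.EA, Q ∈ Algebra.adjoin ℚ {P})
    (hsimple : ∀ Q ∈ A.EA, Q ≠ 0 → Function.Injective Q)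
    (hdeg : (minpoly ℚ P).natDegree = 2 * g) {E : Type} [Field E] [NumberField E]
    [NumberField.IsCMField E] {y : E} (hp : Defines (minpoly ℚ P) E y) {m : ℕ}
    (hC : CoreCondition E m True)
    {φ : MultilinearMap ℚ (fun _ : Fin m × Fin 2 => A.H1) ℚ}
    (hφ : IsDeRhamBettiForm QBar A.dR tau m φ) {Z : Module.End ℚ A.H1} (hZ1 : IsSkew A.om Z)
    (hZ2 : Z * P = P * Z) : Kills Z φ := by
  rcases Nat.eq_zero_or_pos g with hg0 | hg0
  · subst hg0
    intro v
    have hsub : Subsingleton A.H1 := ⟨fun a b => funext fun i => absurd i.2 (by omega)⟩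
    refine Finset.sum_eq_zero fun k _ => ?_
    rw [Subsingleton.elim (Z (v k)) 0]
    exact φ.map_update_zero v k
  have hnt : Nontrivial A.H1 := by
    have : Nonempty (Fin (2 * g)) := ⟨⟨0, by omega⟩⟩
    exact Function.nontrivial
  have hadj : ∀ Q ∈ Algebra.adjoin ℚ {P}, Q ∈ A.EA := by
    intro Q hQ
    rw [Algebra.adjoin_singleton_eq_range_aeval] at hQ
    obtain ⟨p, rfl⟩ := hQ
    exact A.aeval_mem hP p
  refine kills_rel A hP hPs hEA (fun x hx hsum h' hh => ?_)
    (hadj Z (adjoin_of_comm A hP hsimple hdeg hZ2)) hZ1 (fun X hX => A.kills_of_mem hφ hX)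
  have hcard : Fintype.card (Fin m × Fin 2) = 2 * m := by
    rw [Fintype.card_prod, Fintype.card_fin, Fintype.card_fin, mul_comm]
  refine sum_eq_zero_of_core hp hC hcard.le (fun _ => hcard) x hx
    (fun s s' hs hs' hne => ?_) h' hh
  obtain ⟨f, hf1, hf2, hf3⟩ := separate A hP hPs hEA hsimple hdeg hs hs' hne
  exact ⟨f, hf1, hf3, hsum f hf1 hf2⟩

open Classical in
/-- The sums over the extensions of the embeddings of a subfield, from the traces. -/
theorem fibre_sum_of_trace {E : Type} [Field E] [NumberField E] (F : IntermediateField ℚ E)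
    (h : E → ℂ) (s : (E →+* ℂ) → ℂ) (hs : ∀ d : F, ∑ φ : E →+* ℂ, φ d * s φ = 0)
    (φ : E →+* ℂ) : ∑ ψ : E →+* ℂ with (∀ x ∈ F, ψ x = φ x), s ψ = 0 := by
  let t : (F →+* ℂ) → ℂ := fun τ => ∑ ψ : E →+* ℂ with ψ.comp (algebraMap F E) = τ, s ψ
  have h1 : ∀ d : F, ∑ τ : F →+* ℂ, t τ * τ d = 0 := by
    intro d
    rw [← hs d, ← Finset.sum_fiberwise_of_maps_to (s := Finset.univ) (t := Finset.univ)
      (g := fun φ : E →+* ℂ => φ.comp (algebraMap F E)) (fun _ _ => Finset.mem_univ _)]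
    refine Finset.sum_congr rfl fun τ _ => ?_
    simp only [t]
    rw [Finset.sum_mul]
    refine Finset.sum_congr rfl fun ψ hψ => ?_
    have h2 : ψ d = τ d := RingHom.congr_fun (Finset.mem_filter.1 hψ).2 d
    rw [h2, mul_comm]
  have h2 : LinearIndependent ℂ (fun τ : F →+* ℂ => (τ : F → ℂ)) :=
    (linearIndependent_monoidHom F ℂ).comp (fun τ : F →+* ℂ => (τ : F →* ℂ))
      (fun τ τ' h => RingHom.ext fun x => DFunLike.congr_fun h x)
  have h3 := Fintype.linearIndependent_iff.1 h2 t (by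
    funext d
    rw [Finset.sum_apply]
    exact h1 d) (φ.comp (algebraMap F E))
  rw [← h3]
  refine Finset.sum_congr ?_ fun _ _ => rfl
  ext ψ
  simp only [Finset.mem_filter, Finset.mem_univ, true_and]
  constructor
  · intro h
    ext x
    exact h x x.2
  · intro h x hx
    exact RingHom.congr_fun h ⟨x, hx⟩

/-- **The annihilation by endomorphisms**, for simple abelian varieties with complex multiplication by
a field with a primitive core. -/
theorem kills_orthogonal (A : AbVar g) {P : Module.End ℚ A.H1} (hP : P ∈ A.EA)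
    (hPs : IsSkew A.om P) (hEA : ∀ Q ∈ A.EA, Q ∈ Algebra.adjoin ℚ {P})
    (hsimple : ∀ Q ∈ A.EA, Q ≠ 0 → Function.Injective Q)
    (hdeg : (minpoly ℚ P).natDegree = 2 * g) {E : Type} [Field E] [NumberField E]
    [NumberField.IsCMField E] {y : E} (hp : Defines (minpoly ℚ P) E y) {c : ℕ}
    (hC : PrimitiveCore E c) {Z : Module.End ℚ A.H1} (hZs : IsSkew A.om Z)
    (hZ : Z ∈ A.EA) (htr : ∀ F : IntermediateField ℚ E, finrank F E = c →
      ¬ NumberField.IsTotallyReal F → ∀ q : ℚ[X], aeval y q ∈ F →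
        LinearMap.trace ℚ A.H1 (aeval P q * Z) = 0) {m : ℕ}
    {φ : MultilinearMap ℚ (fun _ : Fin m × Fin 2 => A.H1) ℚ}
    (hφ : IsDeRhamBettiForm QBar A.dR tau m φ) : Kills Z φ := by
  classical
  rcases Nat.eq_zero_or_pos g with hg0 | hg0
  · subst hg0
    intro v
    have hsub : Subsingleton A.H1 := ⟨fun a b => funext fun i => absurd i.2 (by omega)⟩
    refine Finset.sum_eq_zero fun k _ => ?_
    rw [Subsingleton.elim (Z (v k)) 0]
    exact φ.map_update_zero v k
  have hnt : Nontrivial A.H1 := by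
    have : Nonempty (Fin (2 * g)) := ⟨⟨0, by omega⟩⟩
    exact Function.nontrivial
  have hirr : Irreducible (minpoly ℚ P) := by
    rw [← hp.minpoly_eq]
    exact minpoly.irreducible (Algebra.IsIntegral.isIntegral y)
  obtain ⟨h0, hh0, hh1⟩ := exists_odd A hPs (hEA Z hZ) hZs
  refine kills_rel1 A hP hPs hEA (f' := h0) (fun x hx hsum => ?_) hh1
    (fun X hX => A.kills_of_mem hφ hX)
  refine sum_eq_zero_of_core_trace hp hC x hx (fun s s' hs hs' hne => ?_)
    (fun z => aeval z h0) (fun z => ?_) (fun F hF hF' ψ => ?_)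
  · obtain ⟨f, hf1, hf2, hf3⟩ := separate A hP hPs hEA hsimple hdeg hs hs' hne
    exact ⟨f, hf1, hf3, hsum f hf1 hf2⟩
  · have h7 := congrArg (aeval z) hh0
    rw [aeval_comp, map_neg, aeval_X, map_neg] at h7
    exact h7
  · refine fibre_sum_of_trace F (fun _ => 0) (fun φ => aeval (φ y) h0) (fun d => ?_) ψ
    obtain ⟨q, hq⟩ : ∃ q : ℚ[X], aeval y q = (d : E) := by
      have h1 : (d : E) ∈ IntermediateField.adjoin ℚ {y} := by
        rw [hp.generates]
        trivial
      rw [← IntermediateField.mem_toSubalgebra, IntermediateField.adjoin_simple_toSubalgebra_of_isAlgebraic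
        (Algebra.IsAlgebraic.isAlgebraic y), Algebra.adjoin_singleton_eq_range_aeval] at h1
      obtain ⟨q, hq⟩ := h1
      exact ⟨q, hq⟩
    have h2 := htr F hF hF' q (by rw [hq]; exact d.2)
    rw [← hh1] at h2
    have h3 : aeval P q * aeval P h0 = aeval P (q * h0) := (map_mul (aeval P) q h0).symm
    rw [h3] at h2
    have h4 := trace_aeval P hirr (by
      rw [hdeg]
      exact (Module.finrank_fin_fun ℚ).symm) (q * h0)
    rw [h2, Rat.cast_zero] at h4
    have h5 : ∀ φ : E →+* ℂ, φ d * aeval (φ y) h0 = aeval (φ y) (q * h0) := by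
      intro φ
      rw [map_mul]
      congr 1
      have h6 : aeval (φ.toRatAlgHom y) q = φ.toRatAlgHom (aeval y q) := aeval_algHom_apply _ _ _
      rw [hq] at h6
      exact h6.symm
    rw [Finset.sum_congr rfl fun φ _ => h5 φ, h4]
    have hmin : minpoly ℚ P = minpoly ℚ y := hp.minpoly_eq.symm
    have hne : minpoly ℚ P ≠ 0 := hirr.ne_zero
    refine Finset.sum_bij (fun φ _ => φ y) (fun φ _ => ?_) (fun φ _ ψ _ h => ?_)
      (fun t ht => ?_) (fun φ _ => rfl)
    · rw [Multiset.mem_toFinset, mem_aroots]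
      refine ⟨hne, ?_⟩
      rw [hmin]
      exact root_gen φ
    · exact embedding_ext hp.generates h
    · rw [Multiset.mem_toFinset, mem_aroots, hmin] at ht
      obtain ⟨φ, hφ⟩ := exists_embedding ht.2
      exact ⟨φ, Finset.mem_univ _, hφ⟩

/-- Subfields of CM fields are stable under the complex conjugation. -/
theorem conj_mem_subfield {E : Type} [Field E] [NumberField E] [NumberField.IsCMField E]
    (F : IntermediateField ℚ E) {x : E} (hx : x ∈ F) :
    NumberField.IsCMField.complexConj E x ∈ F := by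
  classical
  set x' := NumberField.IsCMField.complexConj E x with hx'
  let K : IntermediateField ℚ E := F ⊔ IntermediateField.adjoin ℚ {x'}
  have hFK : F ≤ K := le_sup_left
  obtain ⟨φ⟩ : Nonempty (E →+* ℂ) := inferInstance
  have hag : ∀ ψ : E →+* ℂ, (∀ z ∈ F, ψ z = φ z) → ∀ z ∈ K, ψ z = φ z := by
    intro ψ h
    have h1 : K ≤ (AlgHom.equalizer (ψ.toRatAlgHom) (φ.toRatAlgHom)).toIntermediateField
        (fun z hz => by
          change ψ z⁻¹ = φ z⁻¹
          have h2 : ψ z = φ z := hz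
          rw [map_inv₀, map_inv₀, h2]) := by
      refine sup_le (fun z hz => h z hz) ?_
      rw [IntermediateField.adjoin_simple_le_iff]
      change ψ x' = φ x'
      rw [hx', NumberField.IsCMField.complexEmbedding_complexConj,
        NumberField.IsCMField.complexEmbedding_complexConj, h x hx]
    intro z hz
    exact h1 hz
  have h1 : Nat.card {ψ : E →+* ℂ // ∀ y ∈ F, ψ y = φ y} =
      Nat.card {ψ : E →+* ℂ // ∀ y ∈ K, ψ y = φ y} :=
    Nat.card_congr (Equiv.subtypeEquivRight fun ψ =>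
      ⟨fun h => hag ψ h, fun h z hz => h z (hFK hz)⟩)
  rw [card_extensions, card_extensions] at h1
  have h2 : F = K := IntermediateField.eq_of_le_of_finrank_eq' hFK h1
  have h3 : x' ∈ K := (le_sup_right : IntermediateField.adjoin ℚ {x'} ≤ K)
    (IntermediateField.mem_adjoin_simple_self ℚ x')
  rwa [← h2] at h3

theorem Defines.ne_zero {p : ℚ[X]} {E : Type} [Field E] [NumberField E]
    [NumberField.IsCMField E] {y : E} (h : Defines p E y) {z : ℂ}
    (hz : aeval z p = 0) : z ≠ 0 := by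
  obtain ⟨hy, hgen, rfl⟩ := h
  obtain ⟨φ, rfl⟩ := exists_embedding hz
  intro h0
  have h1 : (NumberField.ComplexEmbedding.conjugate φ) y = φ y := by
    rw [NumberField.ComplexEmbedding.conjugate_coe_eq, h0, map_zero]
  exact Pool.Agent.H298.Core.conj_ne φ (embedding_ext hgen h1)

/-- **De Rham-Betti classes are Hodge classes**, if the tangent space is balanced over all subfields
`F` with `[E : F] = c` which are not totally real. -/
theorem hodge_of_balanced (A : AbVar g) {P : Module.End ℚ A.H1} (hP : P ∈ A.EA)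
    (hPs : IsSkew A.om P) (hEA : ∀ Q ∈ A.EA, Q ∈ Algebra.adjoin ℚ {P})
    (hsimple : ∀ Q ∈ A.EA, Q ≠ 0 → Function.Injective Q)
    (hdeg : (minpoly ℚ P).natDegree = 2 * g) {E : Type} [Field E] [NumberField E]
    [NumberField.IsCMField E] {y : E} (hp : Defines (minpoly ℚ P) E y) {c : ℕ}
    (hC : PrimitiveCore E c) (hweil : ∀ F : IntermediateField ℚ E, finrank F E = c →
      ¬ NumberField.IsTotallyReal F → ∀ q : ℚ[X], aeval y q ∈ F → q.comp (-X) = -q →
        ∀ M : (Fin g → ℂ) →ₗ[ℂ] (Fin g → ℂ), (∀ w, M (A.per w) = A.per (aeval P q w)) →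
          LinearMap.trace ℂ (Fin g → ℂ) M = 0) {m : ℕ}
    {φ : MultilinearMap ℚ (fun _ : Fin m × Fin 2 => A.H1) ℚ}
    (hφ : IsDeRhamBettiForm QBar A.dR tau m φ) :
    IsHodgeTensor (A.per : A.H1 →+ (Fin g → ℂ)) φ := by
  classical
  refine hodge_of_JJ A φ fun f => ?_
  rcases Nat.eq_zero_or_pos g with hg0 | hg0
  · subst hg0
    intro v
    have hsub : Subsingleton A.H1 := ⟨fun a b => funext fun i => absurd i.2 (by omega)⟩
    refine Finset.sum_eq_zero fun k _ => ?_
    rw [Subsingleton.elim ((A.cmpE f AbVar.JJ) (v k)) 0]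
    exact φ.map_update_zero v k
  have hnt : Nontrivial A.H1 := by
    have : Nonempty (Fin (2 * g)) := ⟨⟨0, by omega⟩⟩
    exact Function.nontrivial
  have hirr : Irreducible (minpoly ℚ P) := by
    rw [← hp.minpoly_eq]
    exact minpoly.irreducible (Algebra.IsIntegral.isIntegral y)
  have hneg : ∀ z : ℂ, aeval z (minpoly ℚ P) = 0 → aeval (-z) (minpoly ℚ P) = 0 :=
    fun z hz => AbVar.neg_root A hPs hz
  have hadj : ∀ Q ∈ Algebra.adjoin ℚ {P}, Q ∈ A.EA := by
    intro Q hQ
    rw [Algebra.adjoin_singleton_eq_range_aeval] at hQ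
    obtain ⟨p, rfl⟩ := hQ
    exact A.aeval_mem hP p
  set Z : Module.End ℚ A.H1 := A.cmpE f AbVar.JJ with hZdef
  have hZJ := A.J_mem f
  have hZs : IsSkew A.om Z := A.MA_skew hZJ
  have hZ : Z ∈ A.EA := hadj Z (adjoin_of_comm A hP hsimple hdeg
    (A.MA_comm hZJ (A.hodge_end (A.mem_EA.1 hP))))
  refine kills_orthogonal A hP hPs hEA hsimple hdeg hp hC hZs hZ (fun F hF hF' q hq => ?_) hφ
  obtain ⟨h0, hh0, hh1⟩ := exists_odd A hPs (hEA Z hZ) hZs
  -- the even and the odd part of `q`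
  let q₁ : ℚ[X] := C (1 / 2) * (q + q.comp (-X))
  let q₂ : ℚ[X] := C (1 / 2) * (q - q.comp (-X))
  have hcc : (q.comp (-X)).comp (-X) = q := by
    rw [Polynomial.comp_assoc, neg_comp, X_comp, neg_neg, comp_X]
  have hq12 : q = q₁ + q₂ := by
    have h1 : (C (1 / 2) : ℚ[X]) * 2 = 1 := by
      rw [show (2 : ℚ[X]) = C 2 from rfl, ← C_mul]
      norm_num
    simp only [q₁, q₂]
    linear_combination (-q) * h1
  have hq1 : q₁.comp (-X) = q₁ := by
    simp only [q₁]
    rw [mul_comp, add_comp, C_comp, hcc]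
    ring
  have hq2 : q₂.comp (-X) = -q₂ := by
    simp only [q₂]
    rw [mul_comp, sub_comp, C_comp, hcc]
    ring
  have hmem : aeval y q₂ ∈ F := by
    have h1 : aeval y (q.comp (-X)) = NumberField.IsCMField.complexConj E (aeval y q) := by
      rw [aeval_comp, map_neg, aeval_X, ← hp.conj]
      have h2 := aeval_algHom_apply
        ((NumberField.IsCMField.complexConj E : E →+* E).toRatAlgHom) y q
      exact h2
    have h2 : aeval y q₂ = algebraMap ℚ E (1 / 2) * (aeval y q - aeval y (q.comp (-X))) := by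
      simp only [q₂]
      rw [map_mul, map_sub, aeval_C]
    rw [h2, h1]
    exact F.mul_mem (F.algebraMap_mem _) (F.sub_mem hq (conj_mem_subfield F hq))
  have h1 : LinearMap.trace ℚ A.H1 (aeval P q₂ * Z) = 0 := by
    have hD : aeval P q₂ ∈ A.EA := A.aeval_mem hP q₂
    obtain ⟨M, hM⟩ := A.hodge_end (A.mem_EA.1 hD)
    exact trace_JJ A (D := aeval P q₂) hM (hweil F hF hF' q₂ hmem hq2 M hM) f
  have h2 : LinearMap.trace ℚ A.H1 (aeval P q₁ * Z) = 0 := by
    rw [← hh1]
    have h3 : aeval P q₁ * aeval P h0 = aeval P (q₁ * h0) := (map_mul (aeval P) q₁ h0).symm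
    rw [h3]
    have h4 := trace_aeval P hirr (by
      rw [hdeg]
      exact (Module.finrank_fin_fun ℚ).symm) (q₁ * h0)
    have hodd : (q₁ * h0).comp (-X) = -(q₁ * h0) := by
      rw [mul_comp, hq1, hh0, mul_neg]
    have h5 : ∑ t ∈ ((minpoly ℚ P).aroots ℂ).toFinset, aeval t (q₁ * h0) =
        - ∑ t ∈ ((minpoly ℚ P).aroots ℂ).toFinset, aeval t (q₁ * h0) := by
      rw [← Finset.sum_neg_distrib]
      refine Finset.sum_bij (fun t _ => -t) (fun t ht => ?_) (fun a _ b _ h => neg_injective h)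
        (fun t ht => ⟨-t, ?_, neg_neg t⟩) fun t _ => ?_
      · rw [Multiset.mem_toFinset, mem_aroots] at ht ⊢
        exact ⟨ht.1, hneg _ ht.2⟩
      · rw [Multiset.mem_toFinset, mem_aroots] at ht ⊢
        exact ⟨ht.1, hneg _ ht.2⟩
      · rw [odd_eval hodd, neg_neg]
    rw [self_eq_neg.1 h5] at h4
    exact_mod_cast h4
  rw [hq12, map_add, add_mul, map_add, h1, h2, add_zero]

/-- **Several factors.** The relations are trivial. -/
theorem rel_factors_core {μ : ℚ[X]} {r : ℕ} (p : Fin r → ℚ[X]) (E : Fin r → Type)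
    [∀ i, Field (E i)] [∀ i, NumberField (E i)] [∀ i, NumberField.IsCMField (E i)]
    (y : ∀ i, E i) (hp : ∀ i, Defines (p i) (E i) (y i)) {m : ℕ} {full : Prop}
    (hC : ∀ i, CoreCondition (E i) m (full ∧ r = 1)) (hfac : ∀ i, p i ∣ μ)
    (hdiv : μ ∣ X * ∏ i, p i)
    (hind : ∀ i, ∃ σ : ℂ ≃+* ℂ, (∀ z, aeval z (p i) = 0 → σ z = -z) ∧
      ∀ j, j ≠ i → ∀ z, aeval z (p j) = 0 → σ z = z)
    {κ : Type} [Fintype κ] (x : κ → ℂ) (hcard : Fintype.card κ ≤ 2 * m)
    (hfull : full → Fintype.card κ = 2 * m) (hx0 : ∀ k, x k ≠ 0)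
    (hx : ∀ k, aeval (x k) μ = 0)
    (hf : ∀ s s' : ℂ, aeval s μ = 0 → aeval s' μ = 0 → s ≠ 0 → s' ≠ 0 → s ≠ s' →
      ∃ f : ℚ[X], f.comp (-X) = -f ∧ aeval s f ≠ aeval s' f ∧ ∑ k, aeval (x k) f = 0)
    (h' : ℂ → ℂ) (hh : ∀ z, h' (-z) = -h' z) : ∑ k, h' (x k) = 0 := by
  classical
  have hidx : ∀ k, ∃ i, aeval (x k) (p i) = 0 := by
    intro k
    obtain ⟨q, hq⟩ := hdiv
    have h1 : aeval (x k) (X * ∏ i, p i) = 0 := by rw [hq, map_mul, hx, zero_mul]
    rw [map_mul, aeval_X, map_prod] at h1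
    have h2 := (mul_eq_zero.1 h1).resolve_left (hx0 k)
    obtain ⟨i, -, hi⟩ := Finset.prod_eq_zero_iff.1 h2
    exact ⟨i, hi⟩
  choose idx hidx using hidx
  have hrootμ : ∀ i, ∀ z : ℂ, aeval z (p i) = 0 → aeval z μ = 0 := by
    intro i z hz
    obtain ⟨q, hq⟩ := hfac i
    rw [hq, map_mul, hz, zero_mul]
  -- the restriction to a factor
  have hres : ∀ i, ∀ f : ℚ[X], f.comp (-X) = -f → ∑ k, aeval (x k) f = 0 →
      ∑ k : {k // idx k = i}, aeval (x k) f = 0 := by
    intro i f hfo hsum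
    obtain ⟨σ, hσ1, hσ2⟩ := hind i
    have h1 : ∑ k, aeval (σ (x k)) f = 0 := by
      rw [Finset.sum_congr rfl fun k _ => aeval_ringEquiv σ f (x k), ← map_sum, hsum, map_zero]
    have h2 : ∑ k, (aeval (x k) f - aeval (σ (x k)) f) = 0 := by
      rw [Finset.sum_sub_distrib, hsum, h1, sub_zero]
    have h3 : ∀ k, aeval (x k) f - aeval (σ (x k)) f =
        if idx k = i then 2 * aeval (x k) f else 0 := by
      intro k
      split_ifs with hk
      · rw [hσ1 _ (hk ▸ hidx k), odd_eval hfo]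
        ring
      · rw [hσ2 _ hk _ (hidx k), sub_self]
    rw [Finset.sum_congr rfl fun k _ => h3 k, ← Finset.sum_filter, ← Finset.mul_sum] at h2
    have h4 := (mul_eq_zero.1 h2).resolve_left two_ne_zero
    rw [← h4]
    exact (Finset.sum_subtype (Finset.univ.filter fun k => idx k = i)
      (p := fun k => idx k = i) (fun k => by simp) (fun k => aeval (x k) f)).symm
  -- every factor
  have hone : ∀ i, ∑ k : {k // idx k = i}, h' (x k) = 0 := by
    intro i
    have hroot : ∀ k : {k // idx k = i}, aeval (x k) (p i) = 0 := fun k => by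
      have h1 := hidx k
      rw [k.2] at h1
      exact h1
    refine sum_eq_zero_of_core (hp i) (hC i) ((Fintype.card_subtype_le _).trans hcard)
      (fun h => ?_) (fun k : {k // idx k = i} => x k) hroot (fun s s' hs hs' hne => ?_) h' hh
    · obtain ⟨h1, rfl⟩ := h
      rw [← hfull h1]
      exact Fintype.card_of_subtype Finset.univ
        (fun k => ⟨fun _ => Subsingleton.elim _ _, fun _ => Finset.mem_univ _⟩)
    obtain ⟨f, hf1, hf2, hf3⟩ := hf s s' (hrootμ i _ hs) (hrootμ i _ hs')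
      ((hp i).ne_zero hs) ((hp i).ne_zero hs') hne
    exact ⟨f, hf1, hf2, hres i f hf1 hf3⟩
  have h1 : ∑ k, h' (x k) = ∑ i, ∑ k : {k // idx k = i}, h' (x k) := by
    rw [← Finset.sum_fiberwise_of_maps_to (s := Finset.univ) (t := Finset.univ) (g := idx)
      (fun _ _ => Finset.mem_univ _)]
    refine Finset.sum_congr rfl fun i _ => ?_
    exact Finset.sum_subtype (Finset.univ.filter fun k => idx k = i)
      (p := fun k => idx k = i) (fun k => by simp) (fun k => h' (x k))
  rw [h1]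
  exact Finset.sum_eq_zero fun i _ => hone i

/-- **Abelian varieties with maximal real multiplication.** -/
theorem drb_core (A : AbVar g) (P : Fin g → Module.End ℚ A.H1)
    (hP : ∀ i, IsDeRhamBettiEnd QBar A.dR (P i))
    (hcomm : ∀ i j, P i * P j = P j * P i) (hsym : ∀ i u v, A.om (P i u) v = A.om u (P i v))
    (hli : LinearIndependent ℚ P) {Y : Module.End ℚ A.H1} (hY : Y ∈ A.ZA)
    (hgen : ∀ R ∈ A.ZA, R ∈ Algebra.adjoin ℚ {Y}) {r : ℕ} (p : Fin r → ℚ[X]) (E : Fin r → Type)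
    [∀ i, Field (E i)] [∀ i, NumberField (E i)] [∀ i, NumberField.IsCMField (E i)]
    (y : ∀ i, E i) (hp : ∀ i, Defines (p i) (E i) (y i)) {m : ℕ}
    (hC : ∀ i, CoreCondition (E i) m (Function.Injective Y ∧ r = 1))
    (hfac : ∀ i, p i ∣ minpoly ℚ Y) (hdiv : minpoly ℚ Y ∣ X * ∏ i, p i)
    (hind : ∀ i, ∃ σ : ℂ ≃+* ℂ, (∀ z, aeval z (p i) = 0 → σ z = -z) ∧
      ∀ j, j ≠ i → ∀ z, aeval z (p j) = 0 → σ z = z)
    (φ : MultilinearMap ℚ (fun _ : Fin m × Fin 2 => A.H1) ℚ)
    (hφ : IsDeRhamBettiForm QBar A.dR tau m φ) :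
    φ ∈ Submodule.span ℚ (AbVar.LefProd A A.EA m) ∧
      IsHodgeTensor (A.per : A.H1 →+ (Fin g → ℂ)) φ := by
  obtain ⟨e, he, -⟩ := AbVar.exists_adapted A.endAlg P (fun i => A.mem_EA.2 (hP i)) hcomm hsym hli
  obtain ⟨e', he', -, hn⟩ := AbVar.exists_normalized A.endAlg he
  suffices key : ∀ Z : Module.End ℚ A.H1, IsSkew A.om Z → (∀ Q ∈ A.EA, Z * Q = Q * Z) →
      Kills Z φ from
    ⟨AbVar.lefschetz A.endAlg he' hn φ key, hodge_of_kills _ A.isRationalStructure _ fun Z hZ =>
      key Z (A.MA_skew hZ) fun Q hQ => A.MA_comm hZ (A.hodge_end (A.mem_EA.1 hQ))⟩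
  intro Z hZ hZc
  obtain ⟨ε, hε, h0⟩ := A.exists_idem he
  have h1 := A.idem_mem he hε h0 hZ hZc
  have h2 := hε.comp Z hZ hZc
  have h3 : ε * Z + (1 - ε) * Z = Z := by rw [sub_mul, one_mul]; abel
  rw [← h3]
  refine kills_add9 (A.kills_of_mem hφ h1)
    (kills_mix A he hY hgen hφ (fun κ _ x hc hfull hx0 hx hf h' hh => ?_) h2)
  exact rel_factors_core p E y hp hC hfac hdiv hind x hc hfull hx0 hx hf h' hh

end Pool.Agent.H298.Core
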