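import Mathlib
import Pool.Agent.H298.Core.WeilDefs
import Pool.Graph.R_seed8.TH170.GS.TBDefs

/-!
# Schemes over finite fields generated by abelian varieties with separated factors: definitions
-/

set_option autoImplicit false

namespace Pool.Agent.H298.Core.Fib

open NumberField Module Pool.Agent.TH170 Pool.Agent.W495.TA Pool.Agent.W495.FM
  Pool.Agent.H298.Core

open Classical in
/-- The fields `K i`, `i ∈ s`, have degree at most six, or the sum of their degrees is at most ten and
they are not an imaginary quadratic field and a field of degree eight; and two of them which have the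
same Galois closure are Galois over `ℚ`. -/
def IsSmallSet {I : Type} [Fintype I] (K : I → Type) [∀ i, Field (K i)] [∀ i, NumberField (K i)]
    (s : Set I) : Prop :=
  ((∀ i ∈ s, finrank ℚ (K i) ≤ 6) ∨ (∑ i with i ∈ s, finrank ℚ (K i) ≤ 10 ∧
    ∀ i ∈ s, ∀ j ∈ s, finrank ℚ (K i) = 2 → finrank ℚ (K j) ≠ 8)) ∧
  ∀ i ∈ s, ∀ j ∈ s, i ≠ j →
    IntermediateField.normalClosure ℚ (K i) ℂ = IntermediateField.normalClosure ℚ (K j) ℂ →
      IsGalois ℚ (K i)

/-- A power of `y` is the image of a power of `x` under a homomorphism of the fields, which is an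
isomorphism if `P` holds. -/
def IsPowerOf {E E' : Type} [Field E] [Field E'] (P : Prop) (x : E) (y : E') : Prop :=
  ∃ (θ : E →+* E') (s t : ℕ), (P → Function.Surjective θ) ∧ 0 < s ∧ 0 < t ∧ θ (x ^ t) = y ^ s

/-- The abelian variety `Y` over a finite field has separated factors: over an algebraic closure it is
isogenous to a product of a supersingular abelian variety and of powers of abelian varieties which
belong to Weil numbers `π i`, all powers of which generate CM fields `K i`. The number `π i` is of core
type (`IsCoreWeil`, `β i = none`), or it belongs to the block `b` (`β i = some b`). Two fields which do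
not belong to one block are unlinked: some automorphism of `ℂ` is the identity on `φ (K i)` and the
complex conjugation on `ψ (K j)`, for all embeddings `φ`, `ψ`. The blocks are small, and the
endomorphism algebras of the factors in the blocks are commutative. -/
def IsSeparatedAV {p : ℕ} [Fact p.Prime] {ν : PadicAlgCl p ≃+* ℂ} (Y : RedAV p ν) : Prop :=
  ∃ (a : ℕ) (I B : Type) (_ : Fintype I) (_ : Fintype B) (β : I → Option B) (K : I → Type)
    (_ : ∀ i, Field (K i)) (_ : ∀ i, NumberField (K i)) (_ : ∀ i, IsCMField (K i)) (π : ∀ i, K i),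
    0 < a ∧ (∀ i, Pool.Agent.Y156.P.IsSimpleWeil p a (π i)) ∧
    (∀ i j, i ≠ j → (β i = none ∨ β i ≠ β j) → ∀ (φ : K i →+* ℂ) (ψ : K j →+* ℂ),
      ∃ σ : ℂ ≃+* ℂ, (σ : ℂ →+* ℂ).comp φ = φ ∧
        (σ : ℂ →+* ℂ).comp ψ = ComplexEmbedding.conjugate ψ) ∧
    (∀ i, β i = none → IsCoreWeil p a (π i)) ∧ (∀ b, IsSmallSet K {i | β i = some b}) ∧
    ∀ k : Y.X.I, GS.IsSupersingular p Y.a (Y.π k) ∨ ∃ i, IsPowerOf (β i ≠ none) (π i) (Y.π k)

/-- The groups of motivic and of `ℓ`-adic homology of `X` are those of an abelian variety `Y` with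
separated factors. -/
def IsAbelianSep {Ω V : Type} [Field Ω] [CharZero Ω] (T : Homology Ω V) (X : V) : Prop :=
  ∃ (p : ℕ) (_ : Fact p.Prime) (ν : PadicAlgCl p ≃+* ℂ) (Y : RedAV p ν) (C : Cycles Ω Y)
    (D : Motivic C) (g : ℕ), IsSeparatedAV Y ∧ IsChow C ∧ IsMotivic D ∧ IsAbelian T X D g

end Pool.Agent.H298.Core.Fib
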