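import Mathlib
import Pool.Agent.H298.Core.SepDefs
import Pool.Agent.H298.Exo.Cor
import Pool.Graph.R_seed8.TH170.GS.TB

/-!
# Schemes over finite fields generated by abelian varieties with separated factors
-/

set_option autoImplicit false
set_option linter.unusedSectionVars false
set_option linter.unusedVariables false

namespace Pool.Agent.H298.Core.Fib

open NumberField Module Pool.Agent.TH170 Pool.Agent.W495.TA Pool.Agent.W495.FM
  Pool.Agent.TH117 Pool.Agent.TH117.GN Pool.Agent.H298.Core Pool.Agent.H298.Exo
  Pool.Agent.H395.Cyc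

variable {p : ℕ} [hp : Fact p.Prime] {ν : PadicAlgCl p ≃+* ℂ}

/-- All relations between the Frobenius eigenvalues of an abelian variety with separated factors are
elementary. -/
theorem elementary_sep {Y : RedAV p ν} (hY : IsSeparatedAV Y) : BL.HasElementaryRelations Y := by
  obtain ⟨a, I, B, _, _, β, K, _, _, _, π, ha, hw, hun, hcore, hsm, hof⟩ := hY
  obtain ⟨Q⟩ := exists_imagQuad p
  let W : I → WeilNum p a := fun i => ⟨K i, π i, (hw i).integral, (hw i).weil⟩
  let θ : Embedded Q ∅ W := fun i hi => absurd hi (Set.notMem_empty i)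
  have hS : Separated Q ∅ β W θ := ⟨fun i j hij _ hβ => hun i j hij hβ,
    fun i j hi => absurd hi (Set.notMem_empty i)⟩
  have hsplit : RelationsSplit Q ∅ β W θ :=
    (split_iff (fun i hi => absurd hi (Set.notMem_empty i)) hS).2
      ⟨fun i _ hβ => (singleCriteria ha (W i) (hcore i hβ).simple.gen).1 (hcore i hβ),
        fun i hi => absurd hi (Set.notMem_empty i)⟩
  refine elementary_of_parts (K := fun i => (W i).E) (π := fun i => (W i).num) ha Q.deg
    (fun i => (W i).weil) (fun i hi => absurd hi (Set.notMem_empty i)) (parts_iff.1 hsplit)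
    (fun b => hsm b) (fun k => ?_) rfl
  rcases hof k with h | ⟨i, E, s, t, h1, hs, ht, h⟩
  · exact Or.inl h
  · exact Or.inr ⟨i, E, t, s, fun hi => h1 (hi.resolve_left (Set.notMem_empty i)), ht, hs, h⟩

/-- The conjecture of Tate and Beilinson for the schemes generated by abelian varieties with separated
factors. -/
theorem tb_sep {Ω V : Type} [Field Ω] [IsAlgClosed Ω] [CharZero Ω] {T : Homology Ω V}
    (hT : IsHomology T) {X : V} (hX : Generated T (IsAbelianSep T) X) : TB T X := by
  refine tb_generated hT (fun X hX => ?_) hX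
  obtain ⟨p, _, ν, Y, C, D, g, h1, hC, hD, hX⟩ := hX
  exact tb_abelian hT hC (tateHolds_elem (elementary_sep h1) (fun k => Or.inr
    ⟨k, RingHom.id _, 1, 1, one_pos, one_pos, rfl, rfl⟩) hC) hD hX

end Pool.Agent.H298.Core.Fib
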