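import Mathlib
import Pool.Agent.H298.Core.Period
import Pool.Agent.H298.Core.PeriodMain
import Pool.Graph.R_pool_sql_team_seeded_63374d34.N208.CT.Main

/-!
# The centre of the Lie algebra of algebraic groups which contain the periods
-/

set_option autoImplicit false
set_option linter.unusedSectionVars false
set_option linter.unusedSimpArgs false
set_option linter.unusedVariables false

open Module Polynomial Function TensorProduct

noncomputable section

namespace Pool.Agent.H298.Core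

open Pool.Agent.Y102 Pool.Agent.W516.DR Pool.Agent.W516.KC Pool.Agent.H204R3.SP Pool.Agent.W5h86.LY
open Pool.Agent.W5h86.LX Pool.Agent.H204R3.GP Pool.Agent.W5h86.CC

variable {g : ℕ} {A : AbVar g}

/-- The type IV part of the abelian variety has complex multiplication: `Y` generates the algebra of
the central endomorphisms on the type IV part, and the endomorphisms of the rational homology which
commute with all endomorphisms of `A` commute with each other there. -/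
structure CMCentre (A : AbVar g) (Y : Module.End ℚ A.H1) : Prop where
  mem : Y ∈ A.ZA
  gen : ∀ R ∈ A.ZA, R ∈ Algebra.adjoin ℚ {Y}
  comm : ∀ X X' : Module.End ℚ A.H1, (∀ Q ∈ A.EA, X * Q = Q * X) → (∀ Q ∈ A.EA, X' * Q = Q * X') →
    (X * X' - X' * X) * Y = 0

section

variable {n : ℕ} {b : Basis (Fin n) ℂ (ℂ ⊗[ℚ] A.H1)} {χ : Fin n → (A.ZA →ₗ[ℚ] ℂ)}
  (hb : ∀ k (R : A.ZA), (R : Module.End ℚ A.H1).baseChange ℂ (b k) = χ k R • b k)

include hb

theorem repr_eigen (R : A.ZA) (v : ℂ ⊗[ℚ] A.H1) (i : Fin n) :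
    b.repr ((R : Module.End ℚ A.H1).baseChange ℂ v) i = χ i R * b.repr v i := by
  have h3 : (Finsupp.lapply i ∘ₗ b.repr.toLinearMap) ∘ₗ
      ((R : Module.End ℚ A.H1).baseChange ℂ) =
      (χ i R) • (Finsupp.lapply i ∘ₗ b.repr.toLinearMap) := by
    refine b.ext fun l => ?_
    rw [LinearMap.comp_apply, hb, map_smul, LinearMap.smul_apply, LinearMap.comp_apply,
      LinearEquiv.coe_coe, Basis.repr_self, Finsupp.lapply_apply, Finsupp.single_apply,
      smul_eq_mul, smul_eq_mul]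
    by_cases hl : l = i
    · rw [if_pos hl, hl]
    · rw [if_neg hl, mul_zero, mul_zero]
  exact congrArg (fun F : ℂ ⊗[ℚ] A.H1 →ₗ[ℂ] ℂ => F v) h3

/-- The characters of a common eigenvector. -/
theorem exists_char {X Z : A.ZA} {v : ℂ ⊗[ℚ] A.H1} (hv : v ≠ 0) {x z : ℂ}
    (hX : (X : Module.End ℚ A.H1).baseChange ℂ v = x • v)
    (hZ : (Z : Module.End ℚ A.H1).baseChange ℂ v = z • v) : ∃ i, χ i X = x ∧ χ i Z = z := by
  obtain ⟨i, hi⟩ : ∃ i, b.repr v i ≠ 0 := by
    by_contra h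
    push Not at h
    apply hv
    have h1 : b.repr v = 0 := Finsupp.ext h
    exact (LinearEquiv.map_eq_zero_iff b.repr).1 h1
  refine ⟨i, ?_, ?_⟩
  · have h1 := repr_eigen hb X v i
    rw [hX, map_smul, Finsupp.smul_apply, smul_eq_mul] at h1
    exact (mul_right_cancel₀ hi h1).symm
  · have h1 := repr_eigen hb Z v i
    rw [hZ, map_smul, Finsupp.smul_apply, smul_eq_mul] at h1
    exact (mul_right_cancel₀ hi h1).symm

/-- The roots of the minimal polynomial are values of characters. -/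
theorem exists_root (Y : A.ZA) {s : ℂ} (hs : aeval s (minpoly ℚ (Y : Module.End ℚ A.H1)) = 0) :
    ∃ i, χ i Y = s := by
  have h1 : (((Y : Module.End ℚ A.H1).baseChange ℂ).charpoly).IsRoot s := by
    rw [LinearMap.charpoly_baseChange, IsRoot, eval_map_algebraMap]
    obtain ⟨q, hq⟩ := LinearMap.minpoly_dvd_charpoly (Y : Module.End ℚ A.H1)
    rw [hq, map_mul, hs, zero_mul]
  have h2 : Module.End.HasEigenvalue ((Y : Module.End ℚ A.H1).baseChange ℂ) s :=
    (Module.End.hasEigenvalue_iff_isRoot_charpoly _ _).2 h1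
  obtain ⟨v, hv⟩ := h2.exists_hasEigenvector
  obtain ⟨i, hi, -⟩ := exists_char hb (X := Y) (Z := Y) hv.2 hv.apply_eq_smul hv.apply_eq_smul
  exact ⟨i, hi⟩

theorem char_aeval {Y R : A.ZA} {f : ℚ[X]} (hf : aeval (Y : Module.End ℚ A.H1) f = R) (i : Fin n) :
    χ i R = aeval (χ i Y) f := by
  have h1 : (aeval (Y : Module.End ℚ A.H1) f).baseChange ℂ (b i) = aeval (χ i Y) f • b i := by
    rw [← aeval_baseChange]
    exact AbVar.aeval_eigen (hb i Y) f
  rw [hf, hb] at h1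
  have h2 : (χ i R - aeval (χ i Y) f) • b i = 0 := by rw [sub_smul, h1, sub_self]
  exact sub_eq_zero.1 ((smul_eq_zero.1 h2).resolve_right (b.ne_zero i))

/-- **A generic element of the centre separates the embeddings.** -/
theorem CMCentre.separates {Y : Module.End ℚ A.H1} (h : CMCentre A Y)
    {𝔮 : Submodule ℚ (Module.End ℚ A.H1)} (hf : A.Full 𝔮) {X : A.ZA}
    (hX : ∀ i j, χ i X = χ j X → ∀ R : A.ZA, (R : Module.End ℚ A.H1) ∈ 𝔮 ⊓ A.CN → χ i R = χ j R)
    {i j : Fin n} (hij : χ i X = χ j X) : χ i ⟨Y, h.mem⟩ = χ j ⟨Y, h.mem⟩ := by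
  have hodd : ∀ R : A.ZA, ∃ f : ℚ[X], f.comp (-Polynomial.X) = -f ∧ aeval Y f = R := by
    intro R
    exact exists_odd A h.mem.2.1 (h.gen _ R.2) R.2.2.1
  have hder : ∀ d ∈ der 𝔮, d * Y = 0 := by
    intro d hd
    unfold der at hd
    induction hd using Submodule.span_induction with
    | mem z hz =>
      obtain ⟨x, hx, y, hy, rfl⟩ := hz
      exact h.comm x y (fun Q hQ => A.NA_comm (hf.le hx) hQ)
        fun Q hQ => A.NA_comm (hf.le hy) hQ
    | zero => rw [zero_mul]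
    | add a b _ _ ha hb => rw [add_mul, ha, hb, add_zero]
    | smul c a _ ha => rw [smul_mul_assoc, ha, smul_zero]
  have key : ∀ {i j : Fin n}, χ i ⟨Y, h.mem⟩ ≠ 0 → χ j ⟨Y, h.mem⟩ ≠ 0 → χ i X = χ j X →
      χ i ⟨Y, h.mem⟩ = χ j ⟨Y, h.mem⟩ := by
    intro i j hi hj hij
    have hYa : Y ∈ Algebra.adjoin ℚ (𝔮 : Set (Module.End ℚ A.H1)) := by
      refine mem_adjoin_of_comm2 hf.semi fun Q hQ => ?_
      exact h.mem.2.2 Q fun X hX => hf.comm Q hQ X (A.LA_le_NA hX)
    have h2 : ∀ Z ∈ Algebra.adjoin ℚ (𝔮 : Set (Module.End ℚ A.H1)),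
        ∃ q : ℚ[X], Z * Y = aeval Y q * Y ∧
          aeval (χ i ⟨Y, h.mem⟩) q = aeval (χ j ⟨Y, h.mem⟩) q := by
      intro Z hZ
      refine Algebra.adjoin_induction (p := fun Z _ => ∃ q : ℚ[X], Z * Y = aeval Y q * Y ∧
        aeval (χ i ⟨Y, h.mem⟩) q = aeval (χ j ⟨Y, h.mem⟩) q) ?_ ?_ ?_ ?_ hZ
      · intro Q hQ
        obtain ⟨Z', hZ', d, hd, hQe, hc'⟩ := hf.dec hQ
        have hZC : Z' ∈ A.CN :=
          ⟨hf.le hZ', fun Y hY => hf.comm Z' (fun X hX => (hc' X hX).symm) Y hY⟩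
        obtain ⟨f, hf1, hf2⟩ := hodd ⟨Z', A.CN_le_ZA hZC⟩
        have hdY : d * Y = 0 := hder d hd
        refine ⟨f, ?_, ?_⟩
        · rw [hQe, add_mul, hdY, add_zero, hf2]
        · rw [← char_aeval hb (Y := ⟨Y, h.mem⟩) hf2, ← char_aeval hb (Y := ⟨Y, h.mem⟩) hf2]
          exact hX i j hij ⟨Z', A.CN_le_ZA hZC⟩ ⟨hZ', hZC⟩
      · intro c
        exact ⟨C c, by rw [aeval_C], by rw [aeval_C, aeval_C]⟩
      · rintro a b _ _ ⟨q, hq, hq'⟩ ⟨r, hr, hr'⟩
        exact ⟨q + r, by rw [map_add, add_mul, add_mul, hq, hr], by rw [map_add, map_add, hq', hr']⟩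
      · rintro a b _ _ ⟨q, hq, hq'⟩ ⟨r, hr, hr'⟩
        refine ⟨q * r, ?_, by rw [map_mul, map_mul, hq', hr']⟩
        have h5 : Y * aeval Y r = aeval Y r * Y := by
          have h6 := A.aeval_comm (R := Y) (Q := Y) rfl r
          exact h6.symm
        rw [mul_assoc, hr, ← h5, ← mul_assoc, hq, mul_assoc, h5, ← mul_assoc]
        congr 1
        exact (map_mul (aeval Y) q r).symm
    obtain ⟨q, hq, hq'⟩ := h2 Y hYa
    have h3 : aeval Y (q * Polynomial.X - Polynomial.X * Polynomial.X) = (0 : A.ZA) := by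
      rw [map_sub, map_mul, map_mul, aeval_X, ← hq, sub_self]
      rfl
    have h4 : ∀ i : Fin n, χ i ⟨Y, h.mem⟩ ≠ 0 → aeval (χ i ⟨Y, h.mem⟩) q = χ i ⟨Y, h.mem⟩ := by
      intro i hi
      have h5 := char_aeval hb (Y := ⟨Y, h.mem⟩) h3 i
      rw [map_zero, map_sub, map_mul, map_mul, aeval_X] at h5
      exact (mul_right_cancel₀ hi (sub_eq_zero.1 h5.symm))
    rw [← h4 i hi, ← h4 j hj, hq']
  obtain ⟨f, hf1, hf2⟩ := hodd X
  have hneg : ∀ i : Fin n, χ i X = 0 → χ i ⟨Y, h.mem⟩ = 0 := by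
    intro i hi
    by_contra hne
    obtain ⟨j, hj⟩ := A.exists_neg hb i
    have h1 : χ i X = χ j X := by rw [hj, LinearMap.neg_apply, hi, neg_zero]
    have h2 := key hne (by
      rw [hj, LinearMap.neg_apply]
      exact neg_ne_zero.2 hne) h1
    rw [hj, LinearMap.neg_apply] at h2
    exact hne (self_eq_neg.1 h2)
  have hzero : ∀ i : Fin n, χ i ⟨Y, h.mem⟩ = 0 → χ i X = 0 := by
    intro i hi
    rw [char_aeval hb (Y := ⟨Y, h.mem⟩) hf2 i, hi]
    have h7 := congrArg (aeval (0 : ℂ)) hf1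
    rw [aeval_comp, map_neg, aeval_X, map_neg, neg_zero] at h7
    exact self_eq_neg.1 h7
  by_cases hi : χ i ⟨Y, h.mem⟩ = 0
  · rw [hi]
    have h1 := hzero i hi
    rw [hij] at h1
    exact (hneg j h1).symm
  · by_cases hj : χ j ⟨Y, h.mem⟩ = 0
    · have h1 := hzero j hj
      rw [← hij] at h1
      exact absurd (hneg i h1) hi
    · exact key hi hj hij

end

end Pool.Agent.H298.Core
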