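import Mathlib
import Pool.Agent.H298.Core.Defs
import Pool.Graph.R_pool_sql_team_seeded_1acbe0a2.Y156.P.IrrDefs

/-!
# The condition on an element of the centre
-/

set_option autoImplicit false

namespace Pool.Agent.H298.Core

open NumberField Module

/-- The CM field `E` has irreducible odd part; or it has a primitive core with `c` pairs of
embeddings, and `c = 2`, or the traces of `z : E` to all subfields `F` with `[E : F] = c` which are
not totally real are zero. -/
def TraceCondition (E : Type) [Field E] [NumberField E] (z : E) : Prop :=
  Pool.Agent.Y156.P.OddIrreducible E ∨ ∃ c : ℕ, PrimitiveCore E c ∧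
    (c = 2 ∨ ∀ F : IntermediateField ℚ E, finrank F E = c → ¬ IsTotallyReal F →
      Algebra.trace F E z = 0)

/-- The CM field `E` has irreducible odd part; or it has a primitive core with `c` pairs of
embeddings, and `c = 2`, or all subfields `F` with `[E : F] = c` are totally real. -/
def RealCore (E : Type) [Field E] [NumberField E] : Prop :=
  Pool.Agent.Y156.P.OddIrreducible E ∨ ∃ c : ℕ, PrimitiveCore E c ∧
    (c = 2 ∨ ∀ F : IntermediateField ℚ E, finrank F E = c → IsTotallyReal F)

end Pool.Agent.H298.Core
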