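import Mathlib
import Pool.Agent.H298.Core.Torsor
import Pool.Agent.H298.Core.TorsorDefs

/-!
# Relations between the eigenvalues of central elements
-/

set_option autoImplicit false
set_option linter.unusedSectionVars false
set_option linter.unusedSimpArgs false
set_option linter.unusedVariables false

open Module Polynomial Function TensorProduct

noncomputable section

namespace Pool.Agent.H298.Core

open Pool.Agent.Y102 Pool.Agent.W516.DR Pool.Agent.W516.KC Pool.Agent.H204R3.SP Pool.Agent.W5h86.LY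
open Pool.Agent.W5h86.LX Pool.Agent.H204R3.GP Pool.Agent.W5h86.CC

theorem RealCore.trace {E : Type} [Field E] [NumberField E] (h : RealCore E) (z : E) :
    TraceCondition E z := by
  rcases h with h | ⟨c, h1, h2 | h2⟩
  · exact Or.inl h
  · exact Or.inr ⟨c, h1, Or.inl h2⟩
  · exact Or.inr ⟨c, h1, Or.inr fun F hF hF' => absurd (h2 F hF) hF'⟩

open Classical in
/-- The sums over the extensions of the embeddings of a subfield, from the trace. -/
theorem fibre_sum_of_algTrace {E : Type} [Field E] [NumberField E] (F : IntermediateField ℚ E)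
    {z : E} (h : Algebra.trace F E z = 0) (φ : E →+* ℂ) :
    ∑ ψ : E →+* ℂ with (∀ x ∈ F, ψ x = φ x), ψ z = 0 := by
  refine fibre_sum_of_trace F (fun _ => 0) (fun φ => φ z) (fun d => ?_) φ
  have h1 : Algebra.trace ℚ E ((d : E) * z) = 0 := by
    rw [← Algebra.trace_trace (S := F)]
    have h2 : Algebra.trace F E ((d : E) * z) = 0 := by
      have h3 : (d : E) * z = d • z := rfl
      rw [h3, map_smul, h, smul_zero]
    rw [h2, map_zero]
  have h2 := trace_eq_sum_embeddings ℂ (K := ℚ) (L := E) (x := (d : E) * z)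
  rw [h1, map_zero] at h2
  rw [h2]
  refine Fintype.sum_equiv (RingHom.equivRatAlgHom E ℂ) _ _ fun φ => ?_
  change φ d * φ z = φ ((d : E) * z)
  rw [map_mul]

/-- **The relations between the values of an odd polynomial which separates the roots** hold for other
odd polynomials. -/
theorem rel_core_one {μ : ℚ[X]} {r : ℕ} (p : Fin r → ℚ[X]) (E : Fin r → Type)
    [∀ i, Field (E i)] [∀ i, NumberField (E i)] [∀ i, NumberField.IsCMField (E i)]
    (y : ∀ i, E i) (hp : ∀ i, Defines (p i) (E i) (y i)) {f h' : ℚ[X]}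
    (hf : f.comp (-X) = -f) (hh : h'.comp (-X) = -h')
    (hC : ∀ i, TraceCondition (E i) (aeval (y i) h')) (hfac : ∀ i, p i ∣ μ)
    (hdiv : μ ∣ X * ∏ i, p i)
    (hind : ∀ i, ∃ σ : ℂ ≃+* ℂ, (∀ z, aeval z (p i) = 0 → σ z = -z) ∧
      ∀ j, j ≠ i → ∀ z, aeval z (p j) = 0 → σ z = z)
    (hsep : ∀ s s' : ℂ, aeval s μ = 0 → aeval s' μ = 0 → aeval s f = aeval s' f → s = s')
    {κ : Type} [Fintype κ] (x : κ → ℂ) (hx : ∀ k, aeval (x k) μ = 0)
    (hsum : ∑ k, aeval (x k) f = 0) : ∑ k, aeval (x k) h' = 0 := by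
  classical
  have hroot0 : ∀ k : {k // x k ≠ 0}, ∃ i, aeval (x k) (p i) = 0 := by
    rintro ⟨k, hk⟩
    obtain ⟨q, hq⟩ := hdiv
    have h1 : aeval (x k) (X * ∏ i, p i) = 0 := by rw [hq, map_mul, hx, zero_mul]
    rw [map_mul, aeval_X, map_prod] at h1
    have h2 := (mul_eq_zero.1 h1).resolve_left hk
    obtain ⟨i, -, hi⟩ := Finset.prod_eq_zero_iff.1 h2
    exact ⟨i, hi⟩
  choose idx hidx using hroot0
  have hzero : ∀ (q : ℚ[X]), q.comp (-X) = -q → ∀ k, x k = 0 → aeval (x k) q = 0 := by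
    intro q hq k hk
    have h7 := congrArg (aeval (0 : ℂ)) hq
    rw [aeval_comp, map_neg, aeval_X, map_neg, neg_zero] at h7
    rw [hk]
    exact self_eq_neg.1 h7
  have hsplit : ∀ (q : ℚ[X]), q.comp (-X) = -q → ∑ k, aeval (x k) q =
      ∑ k : {k // x k ≠ 0}, aeval (x k) q := by
    intro q hq
    rw [← Finset.sum_filter_add_sum_filter_not Finset.univ (fun k => x k ≠ 0)]
    have h1 : ∑ k with ¬ x k ≠ 0, aeval (x k) q = 0 := by
      refine Finset.sum_eq_zero fun k hk => hzero q hq k ?_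
      have h2 := (Finset.mem_filter.1 hk).2
      push Not at h2
      exact h2
    rw [h1, add_zero]
    exact (Finset.sum_subtype (Finset.univ.filter fun k => x k ≠ 0)
      (p := fun k => x k ≠ 0) (fun k => by simp) (fun k => aeval (x k) q))
  rw [hsplit f hf] at hsum
  rw [hsplit h' hh]
  have hrootμ : ∀ i, ∀ z : ℂ, aeval z (p i) = 0 → aeval z μ = 0 := by
    intro i z hz
    obtain ⟨q, hq⟩ := hfac i
    rw [hq, map_mul, hz, zero_mul]
  -- the restriction to a factor
  have hres : ∀ i, ∑ k : {k // idx k = i}, aeval (x k) f = 0 := by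
    intro i
    obtain ⟨σ, hσ1, hσ2⟩ := hind i
    have h1 : ∑ k : {k // x k ≠ 0}, aeval (σ (x k)) f = 0 := by
      rw [Finset.sum_congr rfl fun (k : {k // x k ≠ 0}) _ => aeval_ringEquiv σ f (x k), ← map_sum,
        hsum, map_zero]
    have h2 : ∑ k : {k // x k ≠ 0}, (aeval (x k) f - aeval (σ (x k)) f) = 0 := by
      rw [Finset.sum_sub_distrib, hsum, h1, sub_zero]
    have h3 : ∀ k : {k // x k ≠ 0}, aeval (x k) f - aeval (σ (x k)) f =
        if idx k = i then 2 * aeval (x k) f else 0 := by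
      intro k
      split_ifs with hk
      · rw [hσ1 _ (hk ▸ hidx k), odd_eval hf]
        ring
      · rw [hσ2 _ hk _ (hidx k), sub_self]
    rw [Finset.sum_congr rfl fun k _ => h3 k, ← Finset.sum_filter, ← Finset.mul_sum] at h2
    have h4 := (mul_eq_zero.1 h2).resolve_left two_ne_zero
    refine Eq.trans ?_ h4
    exact (Finset.sum_subtype (Finset.univ.filter fun k => idx k = i)
      (p := fun k => idx k = i) (fun k => by simp) (fun k => aeval (x k) f)).symm
  -- every factor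
  have hone : ∀ i, ∑ k : {k // idx k = i}, aeval (x k) h' = 0 := by
    intro i
    obtain ⟨hy, hgen, hmin⟩ := hp i
    have hroot : ∀ k : {k // idx k = i}, aeval (x k) (minpoly ℚ (y i)) = 0 := fun k => by
      have h1 := hidx k.1
      rw [k.2] at h1
      rw [hmin]
      exact h1
    have hodd : ∀ z : ℂ, aeval (-z) h' = - aeval z h' := odd_eval hh
    rcases hC i with h | ⟨c, hc, h⟩
    · rcases structure_of_separating (c := 0) (Or.inl h) hy hgen
        (fun k : {k // idx k = i} => x k) hroot hf (fun s s' hs hs' hne he => hne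
          (hsep s s' (hrootμ i s (hmin ▸ hs)) (hrootμ i s' (hmin ▸ hs')) he)) (hres i) with h1 | h1
      · exact sum_eq_zero_of_mult hy hgen _ hroot h1 (fun z => aeval z h') hodd
      · obtain ⟨h1, h2, F, hF, -⟩ := h1
        exact absurd hF finrank_pos.ne'
    · rcases structure_of_separating (c := c) (Or.inr hc) hy hgen
        (fun k : {k // idx k = i} => x k) hroot hf (fun s s' hs hs' hne he => hne
          (hsep s s' (hrootμ i s (hmin ▸ hs)) (hrootμ i s' (hmin ▸ hs')) he)) (hres i) with h1 | h1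
      · exact sum_eq_zero_of_mult hy hgen _ hroot h1 (fun z => aeval z h') hodd
      · obtain ⟨-, h2, F, hF, hF', hfac'⟩ := h1
        have h3 := h.resolve_left h2 F hF hF'
        refine sum_eq_zero_of_trace hy hgen _ hroot hfac' (fun z => aeval z h') hodd fun φ => ?_
        rw [← fibre_sum_of_algTrace F h3 φ]
        refine Finset.sum_congr rfl fun ψ _ => ?_
        have h6 : aeval (ψ.toRatAlgHom (y i)) h' = ψ.toRatAlgHom (aeval (y i) h') :=
          aeval_algHom_apply _ _ _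
        exact h6
  have h1 : ∑ k : {k // x k ≠ 0}, aeval (x k) h' =
      ∑ i, ∑ k : {k // idx k = i}, aeval (x k) h' := by
    rw [← Finset.sum_fiberwise_of_maps_to (s := Finset.univ) (t := Finset.univ) (g := idx)
      (fun _ _ => Finset.mem_univ _)]
    refine Finset.sum_congr rfl fun i _ => ?_
    exact Finset.sum_subtype (Finset.univ.filter fun k => idx k = i)
      (p := fun k => idx k = i) (fun k => by simp) (fun k => aeval (x k) h')
  rw [h1]
  exact Finset.sum_eq_zero fun i _ => hone i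

variable {g : ℕ} {A : AbVar g}

/-- The fields of the type IV part. -/
structure Fields {r : ℕ} (μ : ℚ[X]) (p : Fin r → ℚ[X]) (E : Fin r → Type)
    [∀ i, Field (E i)] [∀ i, NumberField (E i)] [∀ i, NumberField.IsCMField (E i)]
    (y : ∀ i, E i) : Prop where
  defines : ∀ i, Defines (p i) (E i) (y i)
  factor : ∀ i, p i ∣ μ
  dvd : μ ∣ X * ∏ i, p i
  ind : ∀ i, ∃ σ : ℂ ≃+* ℂ, (∀ z, aeval z (p i) = 0 → σ z = -z) ∧
    ∀ j, j ≠ i → ∀ z, aeval z (p j) = 0 → σ z = z

/-- **The relations between the eigenvalues.** -/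
theorem dom_core {Y : Module.End ℚ A.H1} (h : CMCentre A Y) {r : ℕ} {p : Fin r → ℚ[X]}
    {E : Fin r → Type} [∀ i, Field (E i)] [∀ i, NumberField (E i)]
    [∀ i, NumberField.IsCMField (E i)] {y : ∀ i, E i} (hE : Fields (minpoly ℚ Y) p E y)
    {n : ℕ} {b : Basis (Fin n) ℂ (ℂ ⊗[ℚ] A.H1)} {χ : Fin n → (A.ZA →ₗ[ℚ] ℂ)}
    (hb : ∀ k (R : A.ZA), (R : Module.End ℚ A.H1).baseChange ℂ (b k) = χ k R • b k)
    {X Z : A.ZA} (hX : ∀ i j, χ i X = χ j X → χ i ⟨Y, h.mem⟩ = χ j ⟨Y, h.mem⟩) {h' : ℚ[X]}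
    (hh : h'.comp (-Polynomial.X) = -h') (hZ : aeval Y h' = Z)
    (hC : ∀ i, TraceCondition (E i) (aeval (y i) h')) :
    Dom (X : Module.End ℚ A.H1) (Z : Module.End ℚ A.H1) := by
  obtain ⟨f, hf1, hf2⟩ : ∃ f : ℚ[X], f.comp (-Polynomial.X) = -f ∧ aeval Y f = X :=
    exists_odd A h.mem.2.1 (h.gen _ X.2) X.2.2.1
  intro r' v x z hv hx hz hsum
  choose i hi using fun k => exists_char hb (hv k) (hx k) (hz k)
  have h1 : ∀ k, x k = aeval (χ (i k) ⟨Y, h.mem⟩) f := fun k => by
    rw [← (hi k).1, char_aeval hb (Y := ⟨Y, h.mem⟩) hf2]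
  have h2 : ∀ k, z k = aeval (χ (i k) ⟨Y, h.mem⟩) h' := fun k => by
    rw [← (hi k).2, char_aeval hb (Y := ⟨Y, h.mem⟩) hZ]
  have hrt : ∀ i, aeval (χ i ⟨Y, h.mem⟩) (minpoly ℚ Y) = 0 := by
    intro i
    have h3 := char_aeval hb (Y := ⟨Y, h.mem⟩) (R := 0) (f := minpoly ℚ Y) (minpoly.aeval _ _) i
    rw [map_zero] at h3
    exact h3.symm
  rw [Finset.sum_congr rfl fun k _ => h1 k] at hsum
  rw [Finset.sum_congr rfl fun k _ => h2 k]
  refine rel_core_one p E y hE.defines hf1 hh hC hE.factor hE.dvd hE.ind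
    (fun s s' hs hs' he => ?_) _ (fun k => hrt _) hsum
  obtain ⟨i, rfl⟩ := exists_root hb ⟨Y, h.mem⟩ hs
  obtain ⟨j, rfl⟩ := exists_root hb ⟨Y, h.mem⟩ hs'
  refine hX i j ?_
  rw [char_aeval hb (Y := ⟨Y, h.mem⟩) hf2, char_aeval hb (Y := ⟨Y, h.mem⟩) hf2, he]

end Pool.Agent.H298.Core
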