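import Mathlib
import Pool.Agent.H298.Core.TorsorRel

/-!
# The centre of the period torsors, for fields with irreducible odd part or primitive core
-/

set_option autoImplicit false
set_option linter.unusedSectionVars false
set_option linter.unusedSimpArgs false
set_option linter.unusedVariables false

open Module Polynomial Function TensorProduct

noncomputable section

namespace Pool.Agent.H298.Core

open Pool.Agent.Y102 Pool.Agent.W516.DR Pool.Agent.W516.KC Pool.Agent.H204R3.SP Pool.Agent.W5h86.LY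
open Pool.Agent.W5h86.LX Pool.Agent.H204R3.GP Pool.Agent.W5h86.CC
open Pool.Agent.TH119.MX Pool.Agent.R917

variable {g : ℕ} {A : AbVar g}

section

variable {Y : Module.End ℚ A.H1} (hY : CMCentre A Y) {r : ℕ} {p : Fin r → ℚ[X]}
    {E : Fin r → Type} [∀ i, Field (E i)] [∀ i, NumberField (E i)]
    [∀ i, NumberField.IsCMField (E i)] {y : ∀ i, E i} (hE : Fields (minpoly ℚ Y) p E y)

include hY hE

/-- Elements which satisfy the trace conditions annihilate the de Rham-Betti classes. -/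
theorem kills_core {Z : Module.End ℚ A.H1} (hZA : Z ∈ A.ZA) {h' : ℚ[X]}
    (hh : h'.comp (-Polynomial.X) = -h') (hZ : aeval Y h' = Z)
    (hC : ∀ i, TraceCondition (E i) (aeval (y i) h')) {m : ℕ}
    {φ : MultilinearMap ℚ (fun _ : Fin m × Fin 2 => A.H1) ℚ}
    (hφ : IsDeRhamBettiForm QBar A.dR tau m φ) : Kills Z φ := by
  obtain ⟨n, b, χ, hb⟩ := A.exists_basis
  obtain ⟨X, hX1, hX⟩ := Pool.Agent.R918.exists_generic (𝔠 := A.LA ⊓ A.CN)
    (inf_le_right.trans A.CN_le_ZA) χ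
  have h1 : Dom (X : Module.End ℚ A.H1) Z :=
    dom_core hY hE hb (Z := ⟨Z, hZA⟩) (fun i j hij => hY.separates hb A.full_LA hX hij) hh hZ hC
  exact A.kills_of_dom X.2 hZA h1 (A.kills_of_mem hφ hX1.1)

theorem mem_CN_core {Z : Module.End ℚ A.H1} (hZA : Z ∈ A.ZA) {h' : ℚ[X]}
    (hh : h'.comp (-Polynomial.X) = -h') (hZ : aeval Y h' = Z)
    (hC : ∀ i, TraceCondition (E i) (aeval (y i) h')) : Z ∈ A.CN := by
  refine ⟨fun m φ _ hφ => kills_core hY hE hZA hh hZ hC hφ, fun X hX => ?_⟩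
  exact A.NA_comm hX hZA.1

/-- **The elements which satisfy the trace conditions are in the Lie algebra of the group.** -/
theorem mem_core {s n : ℕ} {r' : Fin s → ℕ} {B : Fin n → N208.AM.Ten A r'} {w : Fin s → ℤ}
    {P : Matrix (Fin n) (Fin n) ℂ} {H : Set (Matrix (Fin n) (Fin n) ℂ)}
    {Wt : Matrix (Fin n) (Fin n) ℚ} (h : N208.AM.Mot w B P) (hW : N208.AM.WRel w B Wt) (hH : N208.AM.PtM P H)
    {Z : Module.End ℚ A.H1} (hZA : Z ∈ A.ZA) {h' : ℚ[X]}
    (hh : h'.comp (-Polynomial.X) = -h') (hZ : aeval Y h' = Z)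
    (hC : ∀ i, TraceCondition (E i) (aeval (y i) h')) {M : Matrix (Fin n) (Fin n) ℚ}
    (hM : N208.AM.Rel B Z M) : M ∈ N208.AM.LQ H := by
  have hf := N208.AM.qM_full h hW hH
  obtain ⟨m, b, χ, hb⟩ := A.exists_basis
  obtain ⟨X, ⟨⟨_, MX, hMX, c, hc⟩, hX2⟩, hX⟩ := Pool.Agent.R918.exists_generic
    (𝔠 := N208.AM.qM B Wt H ⊓ A.CN) (inf_le_right.trans A.CN_le_ZA) χ
  have h1 : Dom (X : Module.End ℚ A.H1) Z :=
    dom_core hY hE hb (Z := ⟨Z, hZA⟩) (fun i j hij => hY.separates hb hf hX hij) hh hZ hC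
  exact (Pool.Agent.N208.CT.replica_M h hW hH hX2 (mem_CN_core hY hE hZA hh hZ hC) hMX hM hc h1).1

end

/-- **A generating element separates the embeddings.** -/
theorem CMCentre.generates_separates {Y : Module.End ℚ A.H1} (h : CMCentre A Y) {n : ℕ}
    {b : Basis (Fin n) ℂ (ℂ ⊗[ℚ] A.H1)} {χ : Fin n → (A.ZA →ₗ[ℚ] ℂ)}
    (hb : ∀ k (R : A.ZA), (R : Module.End ℚ A.H1).baseChange ℂ (b k) = χ k R • b k)
    {X : A.ZA} (hX : (X : Module.End ℚ A.H1) ∈ A.CN) (hgen : ∀ T : Module.End ℚ A.H1,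
      (∀ Y ∈ A.NA, ∀ Z ∈ A.NA, T * (Y * Z - Z * Y) = (Y * Z - Z * Y) * T) →
      T * (X : Module.End ℚ A.H1) = X * T → ∀ Z ∈ A.CN, T * Z = Z * T) {i j : Fin n}
    (hij : χ i X = χ j X) : χ i ⟨Y, h.mem⟩ = χ j ⟨Y, h.mem⟩ := by
  classical
  have hodd : ∀ R : A.ZA, ∃ f : ℚ[X], f.comp (-Polynomial.X) = -f ∧ aeval Y f = R := by
    intro R
    exact exists_odd A h.mem.2.1 (h.gen _ R.2) R.2.2.1
  have key : ∀ {i j : Fin n}, χ i ⟨Y, h.mem⟩ ≠ 0 → χ j ⟨Y, h.mem⟩ ≠ 0 → χ i X = χ j X →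
      χ i ⟨Y, h.mem⟩ = χ j ⟨Y, h.mem⟩ := by
    intro i j hi hj hij
    -- the derived algebra is zero on the eigenvectors
    have hd1 : ∀ d : Module.End ℚ A.H1, d * Y = 0 → ∀ l, χ l ⟨Y, h.mem⟩ ≠ 0 →
        d.baseChange ℂ (b l) = 0 := by
      intro d hd l hl
      have h1 : d.baseChange ℂ (Y.baseChange ℂ (b l)) = 0 := by
        rw [← LinearMap.comp_apply, ← LinearMap.baseChange_comp]
        have h2 : d ∘ₗ Y = 0 := hd
        rw [h2, LinearMap.baseChange_zero, LinearMap.zero_apply]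
      rw [hb l ⟨Y, h.mem⟩, map_smul] at h1
      exact (smul_eq_zero.1 h1).resolve_left hl
    have hd2 : ∀ d : Module.End ℚ A.H1, Y * d = 0 → ∀ l, χ l ⟨Y, h.mem⟩ ≠ 0 →
        ∀ v, b.repr (d.baseChange ℂ v) l = 0 := by
      intro d hd l hl v
      have h1 : Y.baseChange ℂ (d.baseChange ℂ v) = 0 := by
        rw [← LinearMap.comp_apply, ← LinearMap.baseChange_comp]
        have h2 : Y ∘ₗ d = 0 := hd
        rw [h2, LinearMap.baseChange_zero, LinearMap.zero_apply]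
      have h2 := repr_eigen hb ⟨Y, h.mem⟩ (d.baseChange ℂ v) l
      change b.repr (Y.baseChange ℂ (d.baseChange ℂ v)) l = _ at h2
      rw [h1, map_zero, Finsupp.zero_apply] at h2
      exact (mul_eq_zero.1 h2.symm).resolve_left hl
    -- the endomorphism
    let T : Module.End ℂ (ℂ ⊗[ℚ] A.H1) := (b.coord i).smulRight (b j)
    have hTa : ∀ v, T v = b.repr v i • b j := fun v => rfl
    have hTX : T * (X : Module.End ℚ A.H1).baseChange ℂ =
        (X : Module.End ℚ A.H1).baseChange ℂ * T := by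
      refine LinearMap.ext fun v => ?_
      rw [Module.End.mul_apply, Module.End.mul_apply, hTa, hTa, map_smul, hb,
        repr_eigen hb, hij, smul_smul]
      congr 1
      ring
    have hTd : ∀ Z Z' : Module.End ℚ A.H1, Z ∈ A.NA → Z' ∈ A.NA →
        T * (Z * Z' - Z' * Z).baseChange ℂ = (Z * Z' - Z' * Z).baseChange ℂ * T := by
      intro Z Z' hZ hZ'
      have e1 : (Z * Z' - Z' * Z) * Y = 0 :=
        h.comm Z Z' (fun Q hQ => A.NA_comm hZ hQ) fun Q hQ => A.NA_comm hZ' hQ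
      have e2 : Y * (Z * Z' - Z' * Z) = 0 := by
        rw [← e1]
        exact (A.NA_comm (A.NA_bracket hZ hZ') h.mem.1).symm
      refine LinearMap.ext fun v => ?_
      rw [Module.End.mul_apply, Module.End.mul_apply, hTa, hTa, map_smul, hd1 _ e1 j hj,
        smul_zero, hd2 _ e2 i hi, zero_smul]
    have hlam : ∀ lam : ℂ →ₗ[ℚ] ℚ, Pool.Agent.W516.DR.cmpE lam T * Y =
        Y * Pool.Agent.W516.DR.cmpE lam T := by
      intro lam
      have h1 := hgen (Pool.Agent.W516.DR.cmpE lam T)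
        (fun Z hZ Z' hZ' => ((comm_iff (L := ℂ) (Z * Z' - Z' * Z) T).2 (hTd Z Z' hZ hZ')) lam)
        (((comm_iff (L := ℂ) (X : Module.End ℚ A.H1) T).2 hTX) lam)
      have h2 : Pool.Agent.W516.DR.cmpE lam T ∈ A.EA := by
        intro Q hQ
        obtain ⟨Z', hZ', d, hd, hQe, hc'⟩ := N208.AM.full_NA.dec (A.LA_le_NA hQ)
        have hZC : Z' ∈ A.CN := ⟨hZ', fun Y hY => (hc' Y hY).symm⟩
        have h3 : Pool.Agent.W516.DR.cmpE lam T * d = d * Pool.Agent.W516.DR.cmpE lam T := by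
          unfold der at hd
          clear hQe
          induction hd using Submodule.span_induction with
          | mem z hz =>
            obtain ⟨x, hx, y, hy, rfl⟩ := hz
            exact ((comm_iff (L := ℂ) (x * y - y * x) T).2 (hTd x y hx hy)) lam
          | zero => rw [mul_zero, zero_mul]
          | add a b _ _ ha hb => rw [mul_add, add_mul, ha, hb]
          | smul c a _ ha => rw [mul_smul_comm, smul_mul_assoc, ha]
        rw [hQe, add_mul, mul_add, h3, h1 Z' hZC]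
      exact (h.mem.2.2 _ h2).symm
    have h3 : T * Y.baseChange ℂ = Y.baseChange ℂ * T := (comm_iff (L := ℂ) Y T).1 hlam
    have h4 := congrArg (fun F : Module.End ℂ (ℂ ⊗[ℚ] A.H1) => F (b i)) h3
    simp only [Module.End.mul_apply, hTa, map_smul] at h4
    rw [hb i ⟨Y, h.mem⟩, hb j ⟨Y, h.mem⟩, map_smul, Basis.repr_self, Finsupp.smul_apply,
      Finsupp.single_eq_same, one_smul, smul_eq_mul, mul_one] at h4
    have h5 : (χ i ⟨Y, h.mem⟩ - χ j ⟨Y, h.mem⟩) • b j = 0 := by rw [sub_smul, h4, sub_self]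
    exact sub_eq_zero.1 ((smul_eq_zero.1 h5).resolve_right (b.ne_zero j))
  obtain ⟨f, hf1, hf2⟩ := hodd X
  have hneg : ∀ i : Fin n, χ i X = 0 → χ i ⟨Y, h.mem⟩ = 0 := by
    intro i hi
    by_contra hne
    obtain ⟨j, hj⟩ := A.exists_neg hb i
    have h1 : χ i X = χ j X := by rw [hj, LinearMap.neg_apply, hi, neg_zero]
    have h2 := key hne (by
      rw [hj, LinearMap.neg_apply]
      exact neg_ne_zero.2 hne) h1
    rw [hj, LinearMap.neg_apply] at h2
    exact hne (self_eq_neg.1 h2)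
  have hzero : ∀ i : Fin n, χ i ⟨Y, h.mem⟩ = 0 → χ i X = 0 := by
    intro i hi
    rw [char_aeval hb (Y := ⟨Y, h.mem⟩) hf2 i, hi]
    have h7 := congrArg (aeval (0 : ℂ)) hf1
    rw [aeval_comp, map_neg, aeval_X, map_neg, neg_zero] at h7
    exact self_eq_neg.1 h7
  by_cases hi : χ i ⟨Y, h.mem⟩ = 0
  · rw [hi]
    have h1 := hzero i hi
    rw [hij] at h1
    exact (hneg j h1).symm
  · by_cases hj : χ j ⟨Y, h.mem⟩ = 0
    · have h1 := hzero j hj
      rw [← hij] at h1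
      exact absurd (hneg i h1) hi
    · exact key hi hj hij

/-- **The centre is rigid.** -/
theorem rigid_core {Y : Module.End ℚ A.H1} (hY : CMCentre A Y) {r : ℕ} {p : Fin r → ℚ[X]}
    {E : Fin r → Type} [∀ i, Field (E i)] [∀ i, NumberField (E i)]
    [∀ i, NumberField.IsCMField (E i)] {y : ∀ i, E i} (hE : Fields (minpoly ℚ Y) p E y)
    (hC : ∀ i, RealCore (E i)) : Pool.Agent.N208.CT.Rigid A := by
  intro X hX hgen Z hZ
  obtain ⟨m, b, χ, hb⟩ := A.exists_basis
  obtain ⟨h', hh1, hh2⟩ := exists_odd A hY.mem.2.1 (hY.gen _ (A.CN_le_ZA hZ)) (A.CN_le_ZA hZ).2.1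
  exact dom_core hY hE hb (X := ⟨X, A.CN_le_ZA hX⟩) (Z := ⟨Z, A.CN_le_ZA hZ⟩)
    (fun i j hij => hY.generates_separates hb hX hgen hij) hh1 hh2 fun i => (hC i).trace _

end Pool.Agent.H298.Core
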