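import Mathlib
import Pool.Agent.H298.Core.TorsorMain

/-!
# The Mumford-Tate group is in the group
-/

set_option autoImplicit false
set_option linter.unusedSectionVars false
set_option linter.unusedSimpArgs false
set_option linter.unusedVariables false

open Module Polynomial Function TensorProduct

noncomputable section

namespace Pool.Agent.H298.Core

open Pool.Agent.Y102 Pool.Agent.W516.DR Pool.Agent.W516.KC Pool.Agent.H204R3.SP Pool.Agent.W5h86.LY
open Pool.Agent.W5h86.LX Pool.Agent.H204R3.GP Pool.Agent.W5h86.CC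
open Pool.Agent.TH119.MX Pool.Agent.R917

variable {g : ℕ} {A : AbVar g}

section

variable {s n : ℕ} {r' : Fin s → ℕ} {B : Fin n → N208.AM.Ten A r'} {w : Fin s → ℤ}
    {P : Matrix (Fin n) (Fin n) ℂ} {H : Set (Matrix (Fin n) (Fin n) ℂ)}
    {Wt : Matrix (Fin n) (Fin n) ℚ} (h : N208.AM.Mot w B P) (hW : N208.AM.WRel w B Wt)
    (hH : N208.AM.PtM P H)

include h hW hH

/-- The Deligne torus maps to the group if the components of the complex structure are in its Lie
algebra. -/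
theorem mt_of_components (hJ : ∀ (lam : ℝ →ₗ[ℚ] ℚ) (M : Matrix (Fin n) (Fin n) ℚ),
    N208.AM.Rel B (A.cmpE lam AbVar.JJ) M → M ∈ N208.AM.LQ H) {N : Matrix (Fin n) (Fin n) ℝ}
    (hN : N208.AM.RelR B AbVar.JJ N) {z : ℂ} (hz : z ≠ 0) :
    NormedSpace.exp (N208.AM.KK Wt N z) ∈ H ∧
      N208.AM.HRel w B z (NormedSpace.exp (N208.AM.KK Wt N z)) := by
  obtain ⟨t, ht⟩ := N208.AM.JJ_eq (A := A)
  have h1 : ∀ k, A.cmpE ((Basis.ofVectorSpace ℚ ℝ).coord k) AbVar.JJ ∈ A.NA := fun k =>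
    A.MA_le_NA (A.J_mem _)
  choose M hM using fun k => h.st _ (h1 k)
  have h2 : N208.AM.RelR B AbVar.JJ
      (∑ k ∈ t, (Basis.ofVectorSpace ℚ ℝ k) • (M k).map fun q => (q : ℝ)) := by
    rw [ht]
    exact N208.AM.RelR.sum t fun k _ => (hM k).real.smul _
  have h3 := hN.uniq h.li h2
  subst h3
  refine ⟨exp_mem hH.grp fun d => ?_, N208.AM.hrel_exp hW hN hz⟩
  have h4 : ∀ u : Finset (Basis.ofVectorSpaceIndex ℚ ℝ), Stab H d (N208.AM.cxm
      (∑ k ∈ u, (Basis.ofVectorSpace ℚ ℝ k) • (M k).map fun q => (q : ℝ))) := by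
    classical
    intro u
    induction u using Finset.induction_on with
    | empty =>
      have h5 : N208.AM.cxm (0 : Matrix (Fin n) (Fin n) ℝ) = 0 := by
        ext i j
        simp [N208.AM.cxm]
      rw [Finset.sum_empty, h5]
      exact Stab.zero
    | insert a u ha ih =>
      rw [Finset.sum_insert ha]
      have h5 : ∀ X Y : Matrix (Fin n) (Fin n) ℝ,
          N208.AM.cxm (X + Y) = N208.AM.cxm X + N208.AM.cxm Y := by
        intro X Y
        ext i j
        simp [N208.AM.cxm]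
      rw [h5]
      refine Stab.add ?_ ih
      have h6 : N208.AM.cxm ((Basis.ofVectorSpace ℚ ℝ a) • (M a).map fun q => (q : ℝ)) =
          ((Basis.ofVectorSpace ℚ ℝ a : ℝ) : ℂ) • (M a).map fun q => (q : ℂ) := by
        ext i j
        simp [N208.AM.cxm]
      rw [h6]
      exact ((hJ _ _ (hM a)) d).smul _
  unfold N208.AM.KK
  exact ((N208.CT.Wt_mem' h hW hH d).smul _).add ((h4 t).smul _)

end

/-- If all simple factors have complex multiplication, the Lie algebra is commutative. -/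
theorem CMCentre.NA_le {Y : Module.End ℚ A.H1} (h : CMCentre A Y) (hinj : Function.Injective Y)
    {X : Module.End ℚ A.H1} (hX : X ∈ A.NA) : X ∈ A.CN := by
  refine ⟨hX, fun Z hZ => ?_⟩
  have h1 := h.comm Z X (fun Q hQ => A.NA_comm hZ hQ) fun Q hQ => A.NA_comm hX hQ
  have hs : Function.Surjective Y := LinearMap.injective_iff_surjective.1 hinj
  refine LinearMap.ext fun v => ?_
  obtain ⟨u, rfl⟩ := hs v
  have h2 := LinearMap.congr_fun h1 u
  rw [Module.End.mul_apply, LinearMap.zero_apply, LinearMap.sub_apply] at h2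
  exact sub_eq_zero.1 h2

section

variable {s n : ℕ} {r' : Fin s → ℕ} {B : Fin n → N208.AM.Ten A r'} {w : Fin s → ℤ}
    {P : Matrix (Fin n) (Fin n) ℂ} {H : Set (Matrix (Fin n) (Fin n) ℂ)}
    {Wt : Matrix (Fin n) (Fin n) ℚ}

/-- **Complex multiplication.** -/
theorem mt_cm {Y : Module.End ℚ A.H1} (hY : CMCentre A Y) (hinj : Function.Injective Y) {r : ℕ}
    {p : Fin r → ℚ[X]} {E : Fin r → Type} [∀ i, Field (E i)] [∀ i, NumberField (E i)]
    [∀ i, NumberField.IsCMField (E i)] {y : ∀ i, E i} (hE : Fields (minpoly ℚ Y) p E y)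
    (hC : ∀ i, RealCore (E i)) (h : N208.AM.Mot w B P) (hW : N208.AM.WRel w B Wt)
    (hH : N208.AM.PtM P H) {N : Matrix (Fin n) (Fin n) ℝ}
    (hN : N208.AM.RelR B AbVar.JJ N) {z : ℂ} (hz : z ≠ 0) :
    NormedSpace.exp (N208.AM.KK Wt N z) ∈ H ∧
      N208.AM.HRel w B z (NormedSpace.exp (N208.AM.KK Wt N z)) := by
  refine mt_of_components h hW hH (fun lam M hM => ?_) hN hz
  have h1 := A.CN_le_ZA (hY.NA_le hinj (A.MA_le_NA (A.J_mem lam)))
  obtain ⟨h', hh1, hh2⟩ := exists_odd A hY.mem.2.1 (hY.gen _ h1) h1.2.1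
  exact mem_core hY hE h hW hH h1 hh1 hh2 (fun i => (hC i).trace _) hM

end

end Pool.Agent.H298.Core
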