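import Mathlib
import Pool.Agent.H298.Core.TorsorMT

/-!
# Abelian varieties whose Lie algebra has a rigid derived algebra
-/

set_option autoImplicit false
set_option linter.unusedSectionVars false
set_option linter.unusedSimpArgs false
set_option linter.unusedVariables false

open Module Polynomial Function TensorProduct

noncomputable section

namespace Pool.Agent.H298.Core

open Pool.Agent.Y102 Pool.Agent.W516.DR Pool.Agent.W516.KC Pool.Agent.H204R3.SP Pool.Agent.W5h86.LY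
open Pool.Agent.W5h86.LX Pool.Agent.H204R3.GP Pool.Agent.W5h86.CC
open Pool.Agent.TH119.MX Pool.Agent.R917

variable {g : ℕ} {A : AbVar g}

section

variable {s n : ℕ} {r' : Fin s → ℕ} {B : Fin n → N208.AM.Ten A r'} {w : Fin s → ℤ}
    {P : Matrix (Fin n) (Fin n) ℂ} {H : Set (Matrix (Fin n) (Fin n) ℂ)}
    {Wt : Matrix (Fin n) (Fin n) ℚ} (h : N208.AM.Mot w B P) (hW : N208.AM.WRel w B Wt)
    (hH : N208.AM.PtM P H)

include h hW hH

/-- The elements of `𝔮` are in the Lie algebra of the group. -/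
theorem mem_LQ_of_qM {X : Module.End ℚ A.H1} (hX : X ∈ N208.AM.qM B Wt H)
    {M : Matrix (Fin n) (Fin n) ℚ} (hM : N208.AM.Rel B X M) : M ∈ N208.AM.LQ H := by
  obtain ⟨-, M', hM', c, hc⟩ := hX
  have h1 := (N208.AM.LQ H).sub_mem hc ((N208.AM.LQ H).smul_mem c (N208.CT.Wt_mem' h hW hH))
  rw [add_sub_cancel_right] at h1
  rwa [hM.uniq h.li hM']

/-- The elements of the derived algebra. -/
theorem mem_LQ_of_der (hd : ∀ X ∈ A.NA, ∀ Z ∈ A.NA, X * Z - Z * X ∈ N208.AM.qM B Wt H)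
    {X : Module.End ℚ A.H1} (hX : X ∈ der A.NA) {M : Matrix (Fin n) (Fin n) ℚ}
    (hM : N208.AM.Rel B X M) : M ∈ N208.AM.LQ H := by
  refine mem_LQ_of_qM h hW hH ?_ hM
  unfold der at hX
  refine (Submodule.span_le (p := N208.AM.qM B Wt H)).2 ?_ hX
  rintro _ ⟨x, hx, y, hy, rfl⟩
  exact hd x hx y hy

/-- The sum of an element of the centre and one of the derived algebra. -/
theorem mem_LQ_of_dec (hd : ∀ X ∈ A.NA, ∀ Z ∈ A.NA, X * Z - Z * X ∈ N208.AM.qM B Wt H)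
    {Y : Module.End ℚ A.H1} (hY : CMCentre A Y) {r : ℕ}
    {p : Fin r → ℚ[X]} {E : Fin r → Type} [∀ i, Field (E i)] [∀ i, NumberField (E i)]
    [∀ i, NumberField.IsCMField (E i)] {y : ∀ i, E i} (hE : Fields (minpoly ℚ Y) p E y)
    (hC : ∀ i, RealCore (E i)) {X : Module.End ℚ A.H1} (hX : X ∈ A.NA)
    {M : Matrix (Fin n) (Fin n) ℚ} (hM : N208.AM.Rel B X M) : M ∈ N208.AM.LQ H := by
  obtain ⟨Z, hZ, d, hd', hXe, hc⟩ := N208.AM.full_NA.dec hX
  have hdN : d ∈ A.NA := N208.AM.full_NA.der_le hd'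
  have hZA : Z ∈ A.ZA := A.CN_le_ZA ⟨hZ, fun W hW => (hc W hW).symm⟩
  obtain ⟨MZ, hMZ⟩ := h.st Z hZ
  obtain ⟨Md, hMd⟩ := h.st d hdN
  obtain ⟨h', hh1, hh2⟩ := exists_odd A hY.mem.2.1 (hY.gen _ hZA) hZA.2.1
  have h1 := mem_core hY hE h hW hH hZA hh1 hh2 (fun i => (hC i).trace _) hMZ
  have h2 := mem_LQ_of_der h hW hH hd hd' hMd
  rw [hXe] at hM
  rw [hM.uniq h.li (hMZ.add hMd)]
  exact (N208.AM.LQ H).add_mem h1 h2

/-- **The Mumford-Tate group.** -/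
theorem mt_der (hd : ∀ X ∈ A.NA, ∀ Z ∈ A.NA, X * Z - Z * X ∈ N208.AM.qM B Wt H)
    {Y : Module.End ℚ A.H1} (hY : CMCentre A Y) {r : ℕ}
    {p : Fin r → ℚ[X]} {E : Fin r → Type} [∀ i, Field (E i)] [∀ i, NumberField (E i)]
    [∀ i, NumberField.IsCMField (E i)] {y : ∀ i, E i} (hE : Fields (minpoly ℚ Y) p E y)
    (hC : ∀ i, RealCore (E i)) {N : Matrix (Fin n) (Fin n) ℝ}
    (hN : N208.AM.RelR B AbVar.JJ N) {z : ℂ} (hz : z ≠ 0) :
    NormedSpace.exp (N208.AM.KK Wt N z) ∈ H ∧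
      N208.AM.HRel w B z (NormedSpace.exp (N208.AM.KK Wt N z)) :=
  mt_of_components h hW hH (fun lam _ hM =>
    mem_LQ_of_dec h hW hH hd hY hE hC (A.MA_le_NA (A.J_mem lam)) hM) hN hz

end

/-- The relations between eigenvalues, in terms of matrices. -/
theorem dom_matrix {X Y : Module.End ℚ A.H1} (h : Dom X Y) {r : ℕ} (v : Fin r → Fin (2 * g) → ℂ)
    (x y : Fin r → ℂ) (hv : ∀ k, v k ≠ 0)
    (hx : ∀ k, Matrix.mulVec (Pool.Agent.Y102.toC X) (v k) = x k • v k)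
    (hy : ∀ k, Matrix.mulVec (Pool.Agent.Y102.toC Y) (v k) = y k • v k) (hs : ∑ k, x k = 0) :
    ∑ k, y k = 0 := by
  refine h r (fun k => R918.eqv (2 * g) (v k)) x y (fun k h0 => hv k
    ((LinearEquiv.map_eq_zero_iff _).1 h0)) (fun k => ?_) (fun k => ?_) hs
  · have h1 := R918.matE_eqv (2 * g) (toC X) (v k)
    rw [matE_toC, hx, map_smul] at h1
    exact h1
  · have h1 := R918.matE_eqv (2 * g) (toC Y) (v k)
    rw [matE_toC, hy, map_smul] at h1
    exact h1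

end Pool.Agent.H298.Core
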