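import Mathlib
import Pool.Agent.H298.Core.TorsorMT

/-!
# Simple abelian varieties with complex multiplication
-/

set_option autoImplicit false
set_option linter.unusedSectionVars false
set_option linter.unusedSimpArgs false
set_option linter.unusedVariables false

open Module Polynomial Function TensorProduct

noncomputable section

namespace Pool.Agent.H298.Core

open Pool.Agent.Y102 Pool.Agent.W516.DR Pool.Agent.W516.KC Pool.Agent.H204R3.SP Pool.Agent.W5h86.LY
open Pool.Agent.W5h86.LX Pool.Agent.H204R3.GP Pool.Agent.W5h86.CC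
open Pool.Agent.TH119.MX Pool.Agent.R917

variable {g : ℕ}

/-- Simple abelian varieties with complex multiplication by `ℚ(P)`. -/
structure SimpleCM (A : AbVar g) (P : Module.End ℚ A.H1) : Prop where
  mem : P ∈ A.EA
  skew : IsSkew A.om P
  gen : ∀ Q ∈ A.EA, Q ∈ Algebra.adjoin ℚ {P}
  simple : ∀ Q ∈ A.EA, Q ≠ 0 → Function.Injective Q
  degree : (minpoly ℚ P).natDegree = 2 * g

variable {A : AbVar g} {P : Module.End ℚ A.H1}

theorem comm_of_adjoin {X X' : Module.End ℚ A.H1} (h : X ∈ Algebra.adjoin ℚ {P})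
    (h' : X' ∈ Algebra.adjoin ℚ {P}) : X * X' = X' * X := by
  rw [Algebra.adjoin_singleton_eq_range_aeval] at h h'
  obtain ⟨p, rfl⟩ := h
  obtain ⟨p', rfl⟩ := h'
  change aeval P p * aeval P p' = aeval P p' * aeval P p
  exact ((map_mul (aeval P) p p').symm.trans (congrArg (aeval P) (mul_comm p p'))).trans
    (map_mul (aeval P) p' p)

theorem SimpleCM.self_mem : P ∈ Algebra.adjoin ℚ {P} := Algebra.self_mem_adjoin_singleton ℚ P

theorem SimpleCM.centre (h : SimpleCM A P) : CMCentre A P where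
  mem := ⟨h.mem, h.skew, fun Q hQ => comm_of_adjoin SimpleCM.self_mem (h.gen Q hQ)⟩
  gen := fun R hR => h.gen R hR.1
  comm := fun X X' hX hX' => by
    have h1 := adjoin_of_comm A h.mem h.simple h.degree (hX P h.mem)
    have h2 := adjoin_of_comm A h.mem h.simple h.degree (hX' P h.mem)
    rw [comm_of_adjoin h1 h2, sub_self, zero_mul]

theorem SimpleCM.injective (h : SimpleCM A P) : Function.Injective P := by
  rcases Nat.eq_zero_or_pos g with hg0 | hg0
  · subst hg0
    have hsub : Subsingleton A.H1 := ⟨fun a b => funext fun i => absurd i.2 (by omega)⟩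
    exact fun a b _ => Subsingleton.elim a b
  · refine h.simple P h.mem ?_
    rintro rfl
    have h1 : (minpoly ℚ (0 : Module.End ℚ A.H1)) ∣ X := by
      apply minpoly.dvd
      rw [aeval_X]
    have h2 := natDegree_le_of_dvd h1 X_ne_zero
    rw [h.degree, natDegree_X] at h2
    omega

variable {E : Type} [Field E] [NumberField E] [NumberField.IsCMField E] {y : E}

theorem fields_one (hp : Defines (minpoly ℚ P) E y) :
    Fields (minpoly ℚ P) (fun _ : Fin 1 => minpoly ℚ P) (fun _ => E) (fun _ => y) where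
  defines := fun _ => hp
  factor := fun _ => dvd_rfl
  dvd := by
    rw [Fin.prod_univ_one]
    exact Dvd.intro_left _ rfl
  ind := fun i => by
    refine ⟨starRingAut, fun z hz => ?_, fun j hj => absurd (Subsingleton.elim j i) hj⟩
    obtain ⟨hy, hgen, hm⟩ := hp
    rw [← hm] at hz
    obtain ⟨φ, rfl⟩ := exists_embedding hz
    exact conj_apply_gen hy φ

theorem SimpleCM.natDegree (h : SimpleCM A P) :
    (minpoly ℚ P).natDegree = finrank ℚ A.H1 := by
  rw [h.degree]
  exact (Module.finrank_fin_fun ℚ).symm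

/-- The traces on the homology and of the field. -/
theorem SimpleCM.trace_eq (h : SimpleCM A P) (hp : Defines (minpoly ℚ P) E y) (q : ℚ[X]) :
    Algebra.trace ℚ E (aeval y q) = LinearMap.trace ℚ A.H1 (aeval P q) := by
  classical
  have hirr : Irreducible (minpoly ℚ P) := by
    rw [← hp.minpoly_eq]
    exact minpoly.irreducible (Algebra.IsIntegral.isIntegral y)
  have h4 := trace_aeval P hirr h.natDegree q
  have h2 := trace_eq_sum_embeddings ℂ (K := ℚ) (L := E) (x := aeval y q)
  have h3 : ∑ σ : E →ₐ[ℚ] ℂ, σ (aeval y q) =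
      ∑ t ∈ ((minpoly ℚ P).aroots ℂ).toFinset, Polynomial.aeval t q := by
    have h5 : ∑ σ : E →ₐ[ℚ] ℂ, σ (aeval y q) = ∑ φ : E →+* ℂ, aeval (φ y) q := by
      refine (Fintype.sum_equiv (RingHom.equivRatAlgHom E ℂ) _ _ fun φ => ?_).symm
      exact aeval_algHom_apply (φ.toRatAlgHom) y q
    rw [h5]
    have hmin : minpoly ℚ P = minpoly ℚ y := hp.minpoly_eq.symm
    have hne : minpoly ℚ P ≠ 0 := hirr.ne_zero
    refine Finset.sum_bij (fun φ _ => φ y) (fun φ _ => ?_) (fun φ _ ψ _ h => ?_)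
      (fun t ht => ?_) (fun φ _ => rfl)
    · rw [Multiset.mem_toFinset, mem_aroots]
      refine ⟨hne, ?_⟩
      rw [hmin]
      exact root_gen φ
    · exact embedding_ext hp.generates h
    · rw [Multiset.mem_toFinset, mem_aroots, hmin] at ht
      obtain ⟨φ, hφ⟩ := exists_embedding ht.2
      exact ⟨φ, Finset.mem_univ _, hφ⟩
  have h6 : ((Algebra.trace ℚ E (aeval y q) : ℚ) : ℂ) =
      ((LinearMap.trace ℚ A.H1 (aeval P q) : ℚ) : ℂ) := by
    rw [h4, ← h3, ← h2]
    rfl
  exact_mod_cast h6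

/-- The trace to a subfield, from the traces on the homology. -/
theorem SimpleCM.algTrace (h : SimpleCM A P) (hp : Defines (minpoly ℚ P) E y)
    (F : IntermediateField ℚ E) (h0 : ℚ[X])
    (htr : ∀ q : ℚ[X], aeval y q ∈ F → LinearMap.trace ℚ A.H1 (aeval P q * aeval P h0) = 0) :
    Algebra.trace F E (aeval y h0) = 0 := by
  have h1 : ∀ d : F, Algebra.trace ℚ F (d * Algebra.trace F E (aeval y h0)) = 0 := by
    intro d
    obtain ⟨q, hq⟩ : ∃ q : ℚ[X], aeval y q = (d : E) := by
      have h1 : (d : E) ∈ IntermediateField.adjoin ℚ {y} := by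
        rw [hp.generates]
        trivial
      rw [← IntermediateField.mem_toSubalgebra, IntermediateField.adjoin_simple_toSubalgebra_of_isAlgebraic
        (Algebra.IsAlgebraic.isAlgebraic y), Algebra.adjoin_singleton_eq_range_aeval] at h1
      obtain ⟨q, hq⟩ := h1
      exact ⟨q, hq⟩
    have h2 := htr q (by rw [hq]; exact d.2)
    have h3 : aeval P q * aeval P h0 = aeval P (q * h0) := (map_mul (aeval P) q h0).symm
    rw [h3, ← h.trace_eq hp, map_mul, hq] at h2
    have h4 : (d : E) * aeval y h0 = d • aeval y h0 := rfl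
    have h5 : Algebra.trace ℚ F (Algebra.trace F E (d • aeval y h0)) =
        Algebra.trace ℚ E (d • aeval y h0) := Algebra.trace_trace _
    rw [h4, ← h5, map_smul, smul_eq_mul] at h2
    exact h2
  have h2 := traceForm_nondegenerate ℚ F
  refine h2.1 _ fun d => ?_
  rw [Algebra.traceForm_apply, mul_comm]
  exact h1 d

/-- The traces with the components of the complex structure, if the tangent space is balanced. -/
theorem SimpleCM.trace_of_weil (h : SimpleCM A P) (hp : Defines (minpoly ℚ P) E y)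
    (F : IntermediateField ℚ E) (hweil : ∀ q : ℚ[X], aeval y q ∈ F → q.comp (-X) = -q →
        ∀ M : (Fin g → ℂ) →ₗ[ℂ] (Fin g → ℂ), (∀ w, M (A.per w) = A.per (aeval P q w)) →
          LinearMap.trace ℂ (Fin g → ℂ) M = 0) (f : ℝ →ₗ[ℚ] ℚ) {h0 : ℚ[X]}
    (hh0 : h0.comp (-X) = -h0) (hh1 : aeval P h0 = A.cmpE f AbVar.JJ) :
    Algebra.trace F E (aeval y h0) = 0 := by
  classical
  have hirr : Irreducible (minpoly ℚ P) := by
    rw [← hp.minpoly_eq]
    exact minpoly.irreducible (Algebra.IsIntegral.isIntegral y)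
  refine h.algTrace hp F h0 fun q hq => ?_
  rw [hh1]
  set Z : Module.End ℚ A.H1 := A.cmpE f AbVar.JJ with hZdef
  have hP := h.mem
  have hPs := h.skew
  have hneg : ∀ z : ℂ, aeval z (minpoly ℚ P) = 0 → aeval (-z) (minpoly ℚ P) = 0 := by
    intro z hz
    obtain ⟨hy, hgen, hm⟩ := hp
    rw [← hm] at hz ⊢
    exact neg_root_gen hy hz
  -- the even and the odd part of `q`
  let q₁ : ℚ[X] := C (1 / 2) * (q + q.comp (-X))
  let q₂ : ℚ[X] := C (1 / 2) * (q - q.comp (-X))
  have hcc : (q.comp (-X)).comp (-X) = q := by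
    rw [Polynomial.comp_assoc, neg_comp, X_comp, neg_neg, comp_X]
  have hq12 : q = q₁ + q₂ := by
    have h1 : (C (1 / 2) : ℚ[X]) * 2 = 1 := by
      rw [show (2 : ℚ[X]) = C 2 from rfl, ← C_mul]
      norm_num
    simp only [q₁, q₂]
    linear_combination (-q) * h1
  have hq1 : q₁.comp (-X) = q₁ := by
    simp only [q₁]
    rw [mul_comp, add_comp, C_comp, hcc]
    ring
  have hq2 : q₂.comp (-X) = -q₂ := by
    simp only [q₂]
    rw [mul_comp, sub_comp, C_comp, hcc]
    ring
  have hmem : aeval y q₂ ∈ F := by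
    have h1 : aeval y (q.comp (-X)) = NumberField.IsCMField.complexConj E (aeval y q) := by
      rw [aeval_comp, map_neg, aeval_X, ← hp.conj]
      have h2 := aeval_algHom_apply
        ((NumberField.IsCMField.complexConj E : E →+* E).toRatAlgHom) y q
      exact h2
    have h2 : aeval y q₂ = algebraMap ℚ E (1 / 2) * (aeval y q - aeval y (q.comp (-X))) := by
      simp only [q₂]
      rw [map_mul, map_sub, aeval_C]
    rw [h2, h1]
    exact F.mul_mem (F.algebraMap_mem _) (F.sub_mem hq (conj_mem_subfield F hq))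
  have h1 : LinearMap.trace ℚ A.H1 (aeval P q₂ * Z) = 0 := by
    have hD : aeval P q₂ ∈ A.EA := A.aeval_mem hP q₂
    obtain ⟨M, hM⟩ := A.hodge_end (A.mem_EA.1 hD)
    exact trace_JJ A (D := aeval P q₂) hM (hweil q₂ hmem hq2 M hM) f
  have h2 : LinearMap.trace ℚ A.H1 (aeval P q₁ * Z) = 0 := by
    rw [← hh1]
    have h3 : aeval P q₁ * aeval P h0 = aeval P (q₁ * h0) := (map_mul (aeval P) q₁ h0).symm
    rw [h3]
    have h4 := trace_aeval P hirr h.natDegree (q₁ * h0)
    have hodd : (q₁ * h0).comp (-X) = -(q₁ * h0) := by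
      rw [mul_comp, hq1, hh0, mul_neg]
    have h5 : ∑ t ∈ ((minpoly ℚ P).aroots ℂ).toFinset, aeval t (q₁ * h0) =
        - ∑ t ∈ ((minpoly ℚ P).aroots ℂ).toFinset, aeval t (q₁ * h0) := by
      rw [← Finset.sum_neg_distrib]
      refine Finset.sum_bij (fun t _ => -t) (fun t ht => ?_) (fun a _ b _ h => neg_injective h)
        (fun t ht => ⟨-t, ?_, neg_neg t⟩) fun t _ => ?_
      · rw [Multiset.mem_toFinset, mem_aroots] at ht ⊢
        exact ⟨ht.1, hneg _ ht.2⟩
      · rw [Multiset.mem_toFinset, mem_aroots] at ht ⊢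
        exact ⟨ht.1, hneg _ ht.2⟩
      · rw [odd_eval hodd, neg_neg]
    rw [self_eq_neg.1 h5] at h4
    exact_mod_cast h4
  rw [hq12, map_add, add_mul, map_add, h1, h2, add_zero]

/-- **Abelian varieties of Weil type.** -/
theorem mt_weil (h : SimpleCM A P) (hp : Defines (minpoly ℚ P) E y) {c : ℕ}
    (hC : PrimitiveCore E c) (hweil : ∀ F : IntermediateField ℚ E, finrank F E = c →
      ¬ NumberField.IsTotallyReal F → ∀ q : ℚ[X], aeval y q ∈ F → q.comp (-X) = -q →
        ∀ M : (Fin g → ℂ) →ₗ[ℂ] (Fin g → ℂ), (∀ w, M (A.per w) = A.per (aeval P q w)) →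
          LinearMap.trace ℂ (Fin g → ℂ) M = 0)
    {s n : ℕ} {r' : Fin s → ℕ} {B : Fin n → N208.AM.Ten A r'} {w : Fin s → ℤ}
    {Pm : Matrix (Fin n) (Fin n) ℂ} {H : Set (Matrix (Fin n) (Fin n) ℂ)}
    {Wt : Matrix (Fin n) (Fin n) ℚ}
    (hM : N208.AM.Mot w B Pm) (hW : N208.AM.WRel w B Wt)
    (hH : N208.AM.PtM Pm H) {N : Matrix (Fin n) (Fin n) ℝ}
    (hN : N208.AM.RelR B AbVar.JJ N) {z : ℂ} (hz : z ≠ 0) :
    NormedSpace.exp (N208.AM.KK Wt N z) ∈ H ∧
      N208.AM.HRel w B z (NormedSpace.exp (N208.AM.KK Wt N z)) := by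
  refine mt_of_components hM hW hH (fun lam M hM' => ?_) hN hz
  have h1 := A.CN_le_ZA (h.centre.NA_le h.injective (A.MA_le_NA (A.J_mem lam)))
  obtain ⟨h', hh1, hh2⟩ := exists_odd A h.skew (h.gen _ h1.1) h1.2.1
  refine mem_core h.centre (fields_one hp) hM hW hH h1 hh1 hh2 (fun i => ?_) hM'
  exact Or.inr ⟨c, hC, Or.inr fun F hF hF' => h.trace_of_weil hp F (hweil F hF hF') lam hh1 hh2⟩

end Pool.Agent.H298.Core
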